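import Mathlib

/-!
# Almost invariant sets attached to a basis element of a free group
-/

namespace H35.Tape

open FreeGroup hiding map_mul map_one map_inv IsReduced

variable {X : Type*}

/-- The inverse letter. -/
def linv (l : X × Bool) : X × Bool := (l.1, !l.2)

@[simp] theorem linv_linv (l : X × Bool) : linv (linv l) = l := by
  simp [linv]

theorem linv_ne (l : X × Bool) : linv l ≠ l := by
  rcases l with ⟨x, b⟩
  cases b <;> simp [linv]

theorem linv_inj {a b : X × Bool} (h : linv a = linv b) : a = b := by
  rw [← linv_linv a, h, linv_linv]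

theorem red_iff (a b : X × Bool) : (a.1 = b.1 → a.2 = b.2) ↔ b ≠ linv a := by
  rcases a with ⟨x, p⟩
  rcases b with ⟨y, q⟩
  simp only [linv, ne_eq, Prod.mk.injEq, not_and]
  constructor
  · rintro h rfl
    rw [← h rfl]
    cases p <;> simp
  · rintro h rfl
    have := h rfl
    cases p <;> cases q <;> simp_all

theorem isReduced_append_singleton {L : List (X × Bool)} {l : X × Bool} :
    FreeGroup.IsReduced (L ++ [l]) ↔ FreeGroup.IsReduced L ∧ ∀ a ∈ L.getLast?, l ≠ linv a := by
  unfold FreeGroup.IsReduced
  rw [List.isChain_append]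
  simp only [List.isChain_singleton, List.head?_cons, Option.mem_def, Option.some.injEq,
    true_and, forall_eq', red_iff]

theorem isReduced_append_iff {L M : List (X × Bool)} :
    FreeGroup.IsReduced (L ++ M) ↔ FreeGroup.IsReduced L ∧ FreeGroup.IsReduced M ∧
      ∀ a ∈ L.getLast?, ∀ b ∈ M.head?, b ≠ linv a := by
  unfold FreeGroup.IsReduced
  rw [List.isChain_append]
  simp only [red_iff]

theorem isReduced_cons_iff' {l : X × Bool} {M : List (X × Bool)} :
    FreeGroup.IsReduced (l :: M) ↔ FreeGroup.IsReduced M ∧ ∀ b ∈ M.head?, b ≠ linv l := by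
  have := isReduced_append_iff (L := [l]) (M := M)
  simp only [List.singleton_append] at this
  rw [this]
  simp

section

variable [DecidableEq X]

theorem toWord_mk_of_isReduced {L : List (X × Bool)} (h : FreeGroup.IsReduced L) :
    (FreeGroup.mk L).toWord = L := by
  rw [toWord_mk, h.reduce_eq]

/-- Appending a letter does not change the head, except in two cases. -/
theorem head_mul_single (f : FreeGroup X) (l : X × Bool) (h1 : f ≠ 1)
    (h2 : f ≠ FreeGroup.mk [linv l]) :
    (f * FreeGroup.mk [l]).toWord.head? = f.toWord.head? := by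
  have hred : FreeGroup.IsReduced f.toWord := isReduced_toWord
  have hne : f.toWord ≠ [] := fun h => h1 (toWord_eq_nil_iff.1 h)
  rcases List.eq_nil_or_concat' f.toWord with h | ⟨L, a, hL⟩
  · exact absurd h hne
  · rw [hL] at hred ⊢
    have hf : f = FreeGroup.mk (L ++ [a]) := by rw [← hL, mk_toWord]
    have hred' := isReduced_append_singleton.1 hred
    by_cases ha : l = linv a
    · have hLne : L ≠ [] := by
        rintro rfl
        apply h2
        rw [hf, ha, linv_linv]
        rfl
      have : f * FreeGroup.mk [l] = FreeGroup.mk L := by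
        rw [hf, mul_mk, ha, List.append_assoc, ← mul_mk]
        have : FreeGroup.mk ([a] ++ [linv a]) = 1 := by
          rw [← mul_mk]
          have : FreeGroup.mk [linv a] = (FreeGroup.mk [a])⁻¹ := by
            rw [inv_mk]; rfl
          rw [this, mul_inv_cancel]
        rw [this, mul_one]
      rw [this, toWord_mk_of_isReduced hred'.1]
      cases L with
      | nil => exact absurd rfl hLne
      | cons x L => rfl
    · have hred2 : FreeGroup.IsReduced (L ++ [a] ++ [l]) := by
        rw [isReduced_append_singleton]
        refine ⟨hred, ?_⟩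
        intro b hb
        simp only [List.getLast?_append, List.getLast?_singleton, Option.some_or,
          Option.mem_def, Option.some.injEq] at hb
        rw [← hb]
        exact ha
      have : f * FreeGroup.mk [l] = FreeGroup.mk (L ++ [a] ++ [l]) := by
        rw [hf, mul_mk]
      rw [this, toWord_mk_of_isReduced hred2]
      cases L <;> rfl

/-- The set of elements whose reduced word starts with `h0`. -/
def headSet (h0 : X × Bool) : Set (FreeGroup X) := {f | f.toWord.head? = some h0}

theorem headSet_finite_single (h0 l : X × Bool) :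
    {f : FreeGroup X | ¬ (f ∈ headSet h0 ↔ f * FreeGroup.mk [l] ∈ headSet h0)}.Finite := by
  refine Set.Finite.subset (Set.toFinite {1, FreeGroup.mk [linv l]}) ?_
  intro f hf
  by_contra hcon
  simp only [Set.mem_insert_iff, Set.mem_singleton_iff, not_or] at hcon
  apply hf
  unfold headSet
  simp only [Set.mem_ofPred_eq]
  rw [head_mul_single f l hcon.1 hcon.2]

theorem headSet_finite (h0 : X × Bool) (g : FreeGroup X) :
    {f : FreeGroup X | ¬ (f ∈ headSet h0 ↔ f * g ∈ headSet h0)}.Finite := by
  have key : ∀ L : List (X × Bool),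
      {f : FreeGroup X | ¬ (f ∈ headSet h0 ↔ f * FreeGroup.mk L ∈ headSet h0)}.Finite := by
    intro L
    induction L with
    | nil =>
      convert Set.finite_empty
      ext f
      simp [← one_eq_mk]
    | cons l L ih =>
      have h1 := headSet_finite_single h0 l
      have h2 : {f : FreeGroup X | ¬ (f * FreeGroup.mk [l] ∈ headSet h0 ↔
          f * FreeGroup.mk [l] * FreeGroup.mk L ∈ headSet h0)}.Finite := by
        have := Set.Finite.preimage (f := fun f : FreeGroup X => f * FreeGroup.mk [l])
          (s := {f : FreeGroup X | ¬ (f ∈ headSet h0 ↔ f * FreeGroup.mk L ∈ headSet h0)})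
          (Function.Injective.injOn (mul_left_injective _)) ih
        exact this
      refine Set.Finite.subset (h1.union h2) ?_
      intro f hf
      by_contra hcon
      simp only [Set.mem_union, Set.mem_ofPred_eq, not_or, not_not] at hcon
      apply hf
      rw [hcon.1, hcon.2, mul_assoc, mul_mk]
      rfl
  have := key g.toWord
  rwa [mk_toWord] at this

theorem headSet_mul_of {h0 : X × Bool} {x : X} (hx : h0.1 ≠ x) (f : FreeGroup X) :
    f ∈ headSet h0 ↔ f * FreeGroup.of x ∈ headSet h0 := by
  have hof : FreeGroup.of x = FreeGroup.mk [(x, true)] := rfl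
  by_cases h1 : f = 1
  · subst h1
    simp only [headSet, Set.mem_ofPred_eq, toWord_one, one_mul, toWord_of, List.head?_nil,
      List.head?_cons, Option.some.injEq]
    constructor
    · intro h; exact absurd h (by simp)
    · intro h; exact absurd (by rw [← h]) hx
  · by_cases h2 : f = FreeGroup.mk [linv (x, true)]
    · subst h2
      have h3 : FreeGroup.mk [linv (x, true)] * FreeGroup.of x = 1 := by
        have : FreeGroup.mk [linv (x, true)] = (FreeGroup.of x)⁻¹ := rfl
        rw [this, inv_mul_cancel]
      rw [h3]
      simp only [headSet, Set.mem_ofPred_eq, toWord_one, List.head?_nil]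
      have h4 : (FreeGroup.mk [linv (x, true)]).toWord = [linv (x, true)] :=
        toWord_mk_of_isReduced (FreeGroup.IsReduced.singleton)
      rw [h4]
      constructor
      · intro h
        simp only [List.head?_cons, Option.some.injEq] at h
        exact absurd (by rw [← h]; rfl) hx
      · intro h; exact absurd h (by simp)
    · unfold headSet
      simp only [Set.mem_ofPred_eq]
      rw [hof, head_mul_single f _ h1 h2]

end

/-- The almost invariant set attached to a basis element `x₀`, in an arbitrary subgroup. -/
theorem exists_almost_invariant {K : Type*} [Group K] (θ : K →* FreeGroup X)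
    (hθ : Function.Injective θ) (w : K) (x0 : X) (hw : θ w = FreeGroup.of x0)
    (hk : ∃ k0 : K, k0 ∉ Subgroup.zpowers w) :
    ∃ A : Set K, (∀ k, k ∈ A ↔ k * w ∈ A) ∧ (∀ g, {k | ¬ (k ∈ A ↔ k * g ∈ A)}.Finite) ∧
      A.Infinite ∧ Aᶜ.Infinite := by
  classical
  obtain ⟨k0, hk0⟩ := hk
  -- choose a representative of minimal length in the double coset
  have hex : ∃ n : ℕ, ∃ a c : ℤ, (θ (w ^ a * k0 * w ^ c)).toWord.length = n := ⟨_, 0, 0, rfl⟩
  obtain ⟨a, c, hac⟩ := Nat.find_spec hex
  have hmin : ∀ a' c' : ℤ, Nat.find hex ≤ (θ (w ^ a' * k0 * w ^ c')).toWord.length :=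
    fun a' c' => Nat.find_min' hex ⟨a', c', rfl⟩
  set k' := w ^ a * k0 * w ^ c with hk'
  set f := θ k' with hf
  have hfne : f ≠ 1 := by
    intro h
    have h1 : k' = 1 := hθ (by rw [map_one]; exact h)
    apply hk0
    have : k0 = w ^ (-a) * w ^ (-c) := by
      have h2 : w ^ a * k0 * w ^ c = 1 := h1
      have h3 : k0 = w ^ (-a) * (w ^ a * k0 * w ^ c) * w ^ (-c) := by group
      rw [h3, h2, mul_one]
    rw [this, ← zpow_add]
    exact Subgroup.zpow_mem_zpowers _ _
  have hwn : f.toWord ≠ [] := fun h => hfne (toWord_eq_nil_iff.1 h)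
  have hredf : FreeGroup.IsReduced f.toWord := isReduced_toWord
  -- the first letter is not x0
  obtain ⟨h0, L0, hL0⟩ : ∃ h0 L0, f.toWord = h0 :: L0 := List.exists_cons_of_ne_nil hwn
  have hh0 : h0.1 ≠ x0 := by
    intro heq
    obtain ⟨s, hs⟩ : ∃ s : ℤ, FreeGroup.mk [linv h0] = FreeGroup.of x0 ^ s := by
      rcases h0 with ⟨y, b⟩
      simp only at heq
      subst heq
      cases b with
      | false => exact ⟨1, by simp [linv, FreeGroup.of]⟩
      | true => exact ⟨-1, by rw [zpow_neg_one]; rfl⟩
    have h1 : θ (w ^ (s + a) * k0 * w ^ c) = FreeGroup.mk L0 := by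
      have : w ^ (s + a) * k0 * w ^ c = w ^ s * k' := by
        rw [hk', zpow_add]; group
      rw [this, map_mul, map_zpow, hw, ← hs, ← hf]
      have : f = FreeGroup.mk (h0 :: L0) := by rw [← hL0, mk_toWord]
      rw [this, mul_mk]
      have : FreeGroup.mk ([linv h0] ++ h0 :: L0) = FreeGroup.mk [linv h0] * FreeGroup.mk [h0]
          * FreeGroup.mk L0 := by
        rw [mul_mk, mul_mk]; rfl
      rw [this]
      have : FreeGroup.mk [linv h0] = (FreeGroup.mk [h0])⁻¹ := by rw [inv_mk]; rfl
      rw [this, inv_mul_cancel, one_mul]
    have h2 := hmin (s + a) c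
    rw [h1, ← hac] at h2
    have h3 : (FreeGroup.mk L0).toWord.length ≤ L0.length := norm_mk_le
    rw [hL0] at h2
    simp only [List.length_cons] at h2
    omega
  -- the last letter is not x0
  obtain ⟨L1, z, hL1⟩ : ∃ L1 z, f.toWord = L1 ++ [z] := by
    rcases List.eq_nil_or_concat' f.toWord with h | ⟨L, a, h⟩
    · exact absurd h hwn
    · exact ⟨L, a, h⟩
  have hz : z.1 ≠ x0 := by
    intro heq
    obtain ⟨s, hs⟩ : ∃ s : ℤ, FreeGroup.mk [linv z] = FreeGroup.of x0 ^ s := by
      rcases z with ⟨y, b⟩
      simp only at heq
      subst heq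
      cases b with
      | false => exact ⟨1, by simp [linv, FreeGroup.of]⟩
      | true => exact ⟨-1, by rw [zpow_neg_one]; rfl⟩
    have h1 : θ (w ^ a * k0 * w ^ (c + s)) = FreeGroup.mk L1 := by
      have : w ^ a * k0 * w ^ (c + s) = k' * w ^ s := by
        rw [hk', zpow_add]; group
      rw [this, map_mul, map_zpow, hw, ← hs, ← hf]
      have : f = FreeGroup.mk (L1 ++ [z]) := by rw [← hL1, mk_toWord]
      rw [this, ← mul_mk, mul_assoc]
      have : FreeGroup.mk [linv z] = (FreeGroup.mk [z])⁻¹ := by rw [inv_mk]; rfl
      rw [this, mul_inv_cancel, mul_one]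
    have h2 := hmin a (c + s)
    rw [h1, ← hac] at h2
    have h3 : (FreeGroup.mk L1).toWord.length ≤ L1.length := norm_mk_le
    rw [hL1] at h2
    simp only [List.length_append, List.length_singleton] at h2
    omega
  -- the element κ = k' w
  set W := f.toWord ++ [(x0, true)] with hW
  have hWred : IsCyclicallyReduced W := by
    constructor
    · rw [hW, isReduced_append_singleton]
      refine ⟨hredf, ?_⟩
      intro b hb
      rw [hL1] at hb
      simp only [List.getLast?_append, List.getLast?_singleton, Option.some_or,
        Option.mem_def, Option.some.injEq] at hb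
      rw [← hb]
      intro h
      apply hz
      rw [show z = linv (linv z) by simp, ← h]
      rfl
    · intro u hu v hv
      rw [red_iff]
      rw [hW] at hu hv
      simp only [List.getLast?_append, List.getLast?_singleton, Option.some_or,
        Option.mem_def, Option.some.injEq] at hu
      rw [hL0] at hv
      simp only [List.cons_append, List.head?_cons, Option.mem_def, Option.some.injEq] at hv
      rw [← hu, ← hv]
      intro h
      apply hh0
      rw [h]
      rfl
  have hWne : W ≠ [] := by simp [hW]
  have hκ : θ (k' * w) = FreeGroup.mk W := by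
    rw [map_mul, hw, hW, ← mul_mk, mk_toWord]
    rfl
  have hpow : ∀ n : ℕ, (θ ((k' * w) ^ n)).toWord = (List.replicate n W).flatten := by
    intro n
    have h1 : θ ((k' * w) ^ n) = FreeGroup.mk (List.replicate n W).flatten := by
      rw [map_pow, hκ]
      induction n with
      | zero => simp [one_eq_mk]
      | succ n ih => rw [pow_succ', ih, List.replicate_succ, List.flatten_cons, mul_mk]
    rw [h1, toWord_mk_of_isReduced (hWred.flatten_replicate n).isReduced]
  have hlen : ∀ n : ℕ, (List.replicate n W).flatten.length = n * W.length := by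
    intro n
    simp
  have hinj : Function.Injective (fun n : ℕ => (k' * w) ^ (n + 1)) := by
    intro m n hmn
    have h1 := congrArg (fun k => (θ k).toWord.length) hmn
    simp only at h1
    rw [hpow, hpow, hlen, hlen] at h1
    have h2 : 0 < W.length := List.length_pos_of_ne_nil hWne
    have := Nat.eq_of_mul_eq_mul_right h2 h1
    omega
  have hinj' : Function.Injective (fun n : ℕ => ((k' * w) ^ (n + 1))⁻¹) := by
    intro m n hmn
    exact hinj (inv_injective hmn)
  refine ⟨{k | θ k ∈ headSet h0}, ?_, ?_, ?_, ?_⟩
  · intro k
    simp only [Set.mem_ofPred_eq, map_mul, hw]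
    exact headSet_mul_of hh0 _
  · intro g
    have := Set.Finite.preimage (f := θ) (hθ.injOn) (headSet_finite h0 (θ g))
    refine this.subset ?_
    intro k hk
    simp only [Set.mem_ofPred_eq, map_mul, Set.mem_preimage] at hk ⊢
    exact hk
  · refine Set.infinite_of_injective_forall_mem hinj ?_
    intro n
    simp only [Set.mem_ofPred_eq, headSet]
    rw [hpow, List.replicate_succ, List.flatten_cons, hW, hL0]
    simp
  · refine Set.infinite_of_injective_forall_mem hinj' ?_
    intro n
    simp only [Set.mem_compl_iff, Set.mem_ofPred_eq, headSet]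
    rw [map_inv, toWord_inv, hpow, List.replicate_succ', List.flatten_append, invRev_append]
    simp only [List.flatten_cons, List.flatten_nil, List.append_nil, hW, invRev_append]
    have : invRev [(x0, true)] = [(x0, false)] := rfl
    rw [this]
    simp only [List.cons_append, List.nil_append, List.head?_cons, Option.some.injEq]
    intro h
    apply hh0
    rw [← h]

end H35.Tape
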