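import Mathlib
import Pool.Agent.H35.Tape.AI

/-!
# A certificate for non-primitivity

A closed path in a finite covering graph, all of whose vertex Whitehead graphs are connected
without cut vertex, is not primitive.
-/

namespace H35.Tape

open Equiv

/-- `g` belongs to some free basis of the group `G`. -/
def IsPrim {G : Type*} [Group G] (g : G) : Prop :=
  ∃ (ι : Type) (b : FreeGroupBasis ι G) (i : ι), b i = g

variable {X V : Type*}

/-- One step along the letter `l`. -/
def step (σ : X → Perm V) (v : V) (l : X × Bool) : V := if l.2 then σ l.1 v else (σ l.1)⁻¹ v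

theorem step_linv (σ : X → Perm V) (v : V) (l : X × Bool) : step σ (step σ v l) (linv l) = v := by
  rcases l with ⟨x, b⟩
  cases b <;> simp [step, linv]

/-- Reading a word from a vertex. -/
def run (σ : X → Perm V) (v : V) (L : List (X × Bool)) : V := L.foldl (step σ) v

@[simp] theorem run_nil (σ : X → Perm V) (v : V) : run σ v [] = v := rfl

@[simp] theorem run_cons (σ : X → Perm V) (v : V) (l : X × Bool) (L : List (X × Bool)) :
    run σ v (l :: L) = run σ (step σ v l) L := rfl

theorem run_append (σ : X → Perm V) (v : V) (L M : List (X × Bool)) :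
    run σ v (L ++ M) = run σ (run σ v L) M := by
  simp [run, List.foldl_append]

/-- The associated permutation representation (with inverses, so that words act on the right). -/
noncomputable def rep (σ : X → Perm V) : FreeGroup X →* Perm V :=
  FreeGroup.lift fun x => (σ x)⁻¹

theorem run_eq (σ : X → Perm V) (v : V) (L : List (X × Bool)) :
    run σ v L = (rep σ (FreeGroup.mk L))⁻¹ v := by
  induction L generalizing v with
  | nil =>
    rw [← FreeGroup.one_eq_mk, map_one]
    simp
  | cons l L ih =>
    rw [run_cons, ih]
    have h1 : FreeGroup.mk (l :: L) = FreeGroup.mk [l] * FreeGroup.mk L := by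
      rw [FreeGroup.mul_mk]; rfl
    rw [h1, map_mul, mul_inv_rev, Perm.mul_apply]
    congr 1
    rcases l with ⟨x, b⟩
    cases b with
    | true =>
      have : FreeGroup.mk [(x, true)] = FreeGroup.of x := rfl
      rw [this, rep, FreeGroup.lift_apply_of]
      simp [step]
    | false =>
      have : FreeGroup.mk [(x, false)] = (FreeGroup.of x)⁻¹ := rfl
      rw [this, rep, map_inv, FreeGroup.lift_apply_of]
      simp [step]

theorem run_congr (σ : X → Perm V) (v : V) {L M : List (X × Bool)}
    (h : FreeGroup.mk L = FreeGroup.mk M) : run σ v L = run σ v M := by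
  rw [run_eq, run_eq, h]

/-- A word is readable if its path only uses allowed half edges. -/
def Rd (σ : X → Perm V) (E : V → X × Bool → Prop) : V → List (X × Bool) → Prop
  | _, [] => True
  | v, l :: L => E v l ∧ Rd σ E (step σ v l) L

section basics

variable {σ : X → Perm V} {E : V → X × Bool → Prop}

theorem Rd_nil (v : V) : Rd σ E v [] := trivial

theorem Rd_cons (v : V) (l : X × Bool) (L : List (X × Bool)) :
    Rd σ E v (l :: L) ↔ E v l ∧ Rd σ E (step σ v l) L := Iff.rfl

theorem Rd_append (v : V) (L M : List (X × Bool)) :
    Rd σ E v (L ++ M) ↔ Rd σ E v L ∧ Rd σ E (run σ v L) M := by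
  induction L generalizing v with
  | nil => simp [Rd_nil]
  | cons l L ih => rw [List.cons_append, Rd_cons, ih, Rd_cons, run_cons, and_assoc]

theorem Rd_invRev (hE : ∀ v l, E v l → E (step σ v l) (linv l)) {v : V} {L : List (X × Bool)}
    (h : Rd σ E v L) : Rd σ E (run σ v L) (FreeGroup.invRev L) := by
  induction L generalizing v with
  | nil => exact trivial
  | cons l L ih =>
    rw [FreeGroup.invRev_cons, Rd_append]
    rw [Rd_cons] at h
    refine ⟨ih h.2, ?_⟩
    have h1 : run σ (run σ v (l :: L)) (FreeGroup.invRev L) = step σ v l := by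
      rw [run_cons, ← run_append]
      have : FreeGroup.mk (L ++ FreeGroup.invRev L) = FreeGroup.mk [] := by
        rw [← FreeGroup.mul_mk, ← FreeGroup.inv_mk, mul_inv_cancel, FreeGroup.one_eq_mk]
      rw [run_congr σ _ this, run_nil]
    rw [h1]
    exact ⟨hE _ _ h.1, trivial⟩

theorem run_invRev (v : V) (L : List (X × Bool)) :
    run σ (run σ v L) (FreeGroup.invRev L) = v := by
  rw [← run_append]
  have : FreeGroup.mk (L ++ FreeGroup.invRev L) = FreeGroup.mk [] := by
    rw [← FreeGroup.mul_mk, ← FreeGroup.inv_mk, mul_inv_cancel, FreeGroup.one_eq_mk]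
  rw [run_congr σ _ this, run_nil]

theorem Rd_red {v : V} {L M : List (X × Bool)} (h : FreeGroup.Red L M) (hL : Rd σ E v L) :
    Rd σ E v M := by
  induction h with
  | refl => exact hL
  | tail _ hstep ih =>
    cases hstep with
    | @not L₁ L₂ x b =>
      rw [Rd_append] at ih ⊢
      refine ⟨ih.1, ?_⟩
      have h1 := ih.2
      rw [Rd_cons, Rd_cons] at h1
      have h2 := step_linv σ (run σ v L₁) (x, b)
      have h3 : linv (x, b) = (x, !b) := rfl
      rw [h3] at h2
      rw [h2] at h1
      exact h1.2.2

/-- The subgroup of classes of readable closed paths. -/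
def loopGroup [DecidableEq X] (σ : X → Perm V) (E : V → X × Bool → Prop)
    (hE : ∀ v l, E v l → E (step σ v l) (linv l)) (v0 : V) : Subgroup (FreeGroup X) where
  carrier := {g | Rd σ E v0 g.toWord ∧ run σ v0 g.toWord = v0}
  mul_mem' := by
    intro a b ha hb
    have h1 : Rd σ E v0 (a.toWord ++ b.toWord) := by
      rw [Rd_append, ha.2]
      exact ⟨ha.1, hb.1⟩
    constructor
    · rw [FreeGroup.toWord_mul]
      exact Rd_red FreeGroup.reduce.red h1
    · have h2 : FreeGroup.mk (a * b).toWord = FreeGroup.mk (a.toWord ++ b.toWord) := by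
        rw [FreeGroup.mk_toWord, ← FreeGroup.mul_mk, FreeGroup.mk_toWord, FreeGroup.mk_toWord]
      rw [run_congr σ v0 h2, run_append, ha.2, hb.2]
  one_mem' := by
    rw [Set.mem_ofPred_eq, FreeGroup.toWord_one]
    exact ⟨trivial, rfl⟩
  inv_mem' := by
    intro a ha
    rw [Set.mem_ofPred_eq, FreeGroup.toWord_inv]
    constructor
    · have := Rd_invRev hE ha.1
      rwa [ha.2] at this
    · have := run_invRev (σ := σ) v0 a.toWord
      rwa [ha.2] at this

theorem mem_loopGroup_of_word [DecidableEq X] (hE : ∀ v l, E v l → E (step σ v l) (linv l))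
    {v0 : V} {L : List (X × Bool)} (h1 : Rd σ E v0 L) (h2 : run σ v0 L = v0) :
    FreeGroup.mk L ∈ loopGroup σ E hE v0 := by
  constructor
  · rw [FreeGroup.toWord_mk]
    exact Rd_red FreeGroup.reduce.red h1
  · have h3 : FreeGroup.mk (FreeGroup.mk L).toWord = FreeGroup.mk L := FreeGroup.mk_toWord
    rw [run_congr σ v0 h3, h2]

end basics

/-- The `i`-th cyclic turn of the word `ω` is the pair a, b: b is the `i`-th letter and `a` is the
inverse of the previous letter (cyclically). -/
def IsTurn (ω : List (X × Bool)) (i : ℕ) (a b : X × Bool) : Prop :=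
  ω[i]? = some b ∧ ω[(i + ω.length - 1) % ω.length]? = some (linv a)

theorem mk_replicate_flatten (n : ℕ) (L : List (X × Bool)) :
    FreeGroup.mk (List.replicate n L).flatten = FreeGroup.mk L ^ n := by
  induction n with
  | zero => simp [FreeGroup.one_eq_mk]
  | succ n ih => rw [pow_succ', ← ih, List.replicate_succ, List.flatten_cons, FreeGroup.mul_mk]

theorem IsTurn.rotate {ω : List (X × Bool)} {i : ℕ} {a b : X × Bool} (h : IsTurn ω i a b) :
    i < ω.length ∧ ∃ M, ω.drop i ++ ω.take i = b :: M ∧ (b :: M).getLast? = some (linv a) := by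
  obtain ⟨h1, h2⟩ := h
  have hi : i < ω.length := by
    by_contra hcon
    rw [List.getElem?_eq_none (by omega)] at h1
    exact absurd h1 (by simp)
  refine ⟨hi, ?_⟩
  have hb : ω[i] = b := by
    rw [List.getElem?_eq_getElem hi] at h1
    exact Option.some.inj h1
  have hdrop : ω.drop i = b :: ω.drop (i + 1) := by
    rw [List.drop_eq_getElem_cons hi, hb]
  refine ⟨ω.drop (i + 1) ++ ω.take i, by rw [hdrop]; rfl, ?_⟩
  have h3 : b :: (ω.drop (i + 1) ++ ω.take i) = ω.drop i ++ ω.take i := by rw [hdrop]; rfl
  rw [h3, List.getLast?_append]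
  rcases Nat.eq_zero_or_pos i with h0 | hpos
  · subst h0
    simp only [List.take_zero, List.getLast?_nil, Option.none_or, List.drop_zero]
    rw [List.getLast?_eq_getElem?]
    rw [zero_add] at h2
    rwa [Nat.mod_eq_of_lt (by omega)] at h2
  · have h4 : (i + ω.length - 1) % ω.length = i - 1 := by
      rw [show i + ω.length - 1 = (i - 1) + ω.length by omega, Nat.add_mod_right,
        Nat.mod_eq_of_lt (by omega)]
    rw [h4] at h2
    have h5 : (ω.take i).getLast? = some (linv a) := by
      rw [List.getLast?_eq_getElem?, List.length_take, Nat.min_eq_left hi.le,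
        List.getElem?_take_of_lt (by omega)]
      exact h2
    rw [h5]
    rfl

theorem isCyclicallyReduced_rotate {ω : List (X × Bool)} (h : FreeGroup.IsCyclicallyReduced ω)
    (i : ℕ) : FreeGroup.IsCyclicallyReduced (ω.drop i ++ ω.take i) := by
  rcases eq_or_ne (ω.take i) [] with h1 | h1
  · have h2 : ω.drop i = ω := by
      conv_rhs => rw [← List.take_append_drop i ω, h1]
      rfl
    rw [h1, h2, List.append_nil]
    exact h
  rcases eq_or_ne (ω.drop i) [] with h2 | h2
  · have h3 : ω.take i = ω := by
      conv_rhs => rw [← List.take_append_drop i ω, h2]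
      simp
    rw [h2, h3]
    exact h
  have hdec : ω = ω.take i ++ ω.drop i := (List.take_append_drop i ω).symm
  have hred := h.1
  have hcyc := h.2
  rw [hdec] at hred
  rw [isReduced_append_iff] at hred
  constructor
  · rw [isReduced_append_iff]
    refine ⟨hred.2.1, hred.1, ?_⟩
    intro a ha b hb
    rw [← red_iff]
    refine hcyc a ?_ b ?_
    · rw [hdec, List.getLast?_append, Option.mem_def]
      rw [Option.mem_def] at ha
      rw [ha]
      rfl
    · rw [hdec, List.head?_append, Option.mem_def]
      rw [Option.mem_def] at hb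
      rw [hb]
      rfl
  · intro a ha b hb
    rw [red_iff]
    refine hred.2.2 a ?_ b ?_
    · rw [Option.mem_def, List.getLast?_append] at ha
      rw [Option.mem_def]
      rcases hx : (ω.take i).getLast? with _ | y
      · rw [List.getLast?_eq_none_iff] at hx
        exact absurd hx h1
      · rw [hx] at ha
        exact ha
    · rw [Option.mem_def, List.head?_append] at hb
      rw [Option.mem_def]
      rcases hx : (ω.drop i).head? with _ | y
      · rw [List.head?_eq_none_iff] at hx
        exact absurd hx h2
      · rw [hx] at hb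
        exact hb

theorem isCyclicallyReduced_invRev {ω : List (X × Bool)} (h : FreeGroup.IsCyclicallyReduced ω) :
    FreeGroup.IsCyclicallyReduced (FreeGroup.invRev ω) := by
  have hred : FreeGroup.IsReduced (FreeGroup.invRev ω) := by
    have := h.1
    rw [FreeGroup.isReduced_iff_not_step] at this ⊢
    intro L hL
    apply this (FreeGroup.invRev L)
    rw [← FreeGroup.invRev_invRev (L₁ := ω)]
    exact hL.invRev
  refine ⟨hred, ?_⟩
  intro a ha b hb
  rw [red_iff]
  intro hab
  have h1 : ω.head? = some (linv a) := by
    cases ω with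
    | nil => simp [FreeGroup.invRev] at ha
    | cons x ω =>
      rw [FreeGroup.invRev_cons, List.getLast?_append] at ha
      have : FreeGroup.invRev [x] = [linv x] := rfl
      rw [this] at ha
      simp only [List.getLast?_singleton, Option.some_or, Option.mem_def, Option.some.injEq] at ha
      rw [List.head?_cons, ← ha, linv_linv]
  have h2 : ω.getLast? = some (linv b) := by
    rcases List.eq_nil_or_concat' ω with h0 | ⟨L, x, h0⟩
    · subst h0; simp [FreeGroup.invRev] at hb
    · subst h0
      rw [FreeGroup.invRev_append, List.head?_append] at hb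
      have : FreeGroup.invRev [x] = [linv x] := rfl
      rw [this] at hb
      simp only [List.head?_cons, Option.some_or, Option.mem_def, Option.some.injEq] at hb
      rw [List.getLast?_append, ← hb, linv_linv]
      rfl
  have h3 := h.2 _ h2 _ h1
  rw [red_iff] at h3
  apply h3
  rw [hab, linv_linv]

end H35.Tape
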