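import Mathlib
import Pool.Agent.H35.Tape.Cert

/-!
# The non-primitivity criterion
-/

namespace H35.Tape

open Equiv

variable {X V : Type*}

theorem toWord_pow_length [DecidableEq X] {ω : List (X × Bool)}
    (h : FreeGroup.IsCyclicallyReduced ω) (n : ℕ) :
    (FreeGroup.mk ω ^ n).toWord = (List.replicate n ω).flatten := by
  rw [← mk_replicate_flatten, toWord_mk_of_isReduced (h.flatten_replicate n).isReduced]

theorem pow_injective_of_cyc [DecidableEq X] {ω : List (X × Bool)}
    (h : FreeGroup.IsCyclicallyReduced ω) (hne : ω ≠ []) :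
    Function.Injective (fun n : ℕ => FreeGroup.mk ω ^ n) := by
  intro m n hmn
  have h1 := congrArg (fun g : FreeGroup X => g.toWord.length) hmn
  simp only [toWord_pow_length h] at h1
  have h2 : ∀ k : ℕ, (List.replicate k ω).flatten.length = k * ω.length := by
    intro k; simp
  rw [h2, h2] at h1
  exact Nat.eq_of_mul_eq_mul_right (List.length_pos_of_ne_nil hne) h1

theorem isReduced_append_pow {u M : List (X × Bool)} (hu : FreeGroup.IsReduced u)
    (hM : FreeGroup.IsCyclicallyReduced M) {t : X × Bool} (ht : M.head? = some t)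
    (hj : ∀ a ∈ u.getLast?, t ≠ linv a) (n : ℕ) :
    FreeGroup.IsReduced (u ++ (List.replicate n M).flatten) := by
  rw [isReduced_append_iff]
  refine ⟨hu, (hM.flatten_replicate n).isReduced, ?_⟩
  intro a ha b hb
  cases n with
  | zero => simp at hb
  | succ n =>
    rw [List.replicate_succ, List.flatten_cons, List.head?_append, ht] at hb
    simp only [Option.some_or, Option.mem_def, Option.some.injEq] at hb
    rw [← hb]
    exact hj a ha

theorem Rd_replicate {σ : X → Perm V} {E : V → X × Bool → Prop} {v : V} {M : List (X × Bool)}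
    (h1 : Rd σ E v M) (h2 : run σ v M = v) (n : ℕ) :
    Rd σ E v (List.replicate n M).flatten ∧ run σ v (List.replicate n M).flatten = v := by
  induction n with
  | zero => exact ⟨trivial, rfl⟩
  | succ n ih =>
    rw [List.replicate_succ, List.flatten_cons, Rd_append, run_append, h2]
    exact ⟨⟨h1, ih.1⟩, ih.2⟩

/-- The half edges of a turn are allowed. -/
theorem turn_allowed {σ : X → Perm V} {E : V → X × Bool → Prop}
    (hE : ∀ v l, E v l → E (step σ v l) (linv l)) {v0 : V} {ω : List (X × Bool)} (hne : ω ≠ [])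
    (hlap : ∀ e, Rd σ E (run σ v0 (List.replicate e ω).flatten) ω)
    {N : ℕ} (hN : 0 < N) (hclosed : run σ v0 (List.replicate N ω).flatten = v0)
    {e i : ℕ} {a b : X × Bool} {v : V}
    (hrun : run σ (run σ v0 (List.replicate e ω).flatten) (ω.take i) = v)
    (hturn : IsTurn ω i a b) : E v a ∧ E v b := by
  obtain ⟨hi, M0, hM0, hlst⟩ := hturn.rotate
  have hdec : ω.take i ++ ω.drop i = ω := List.take_append_drop i ω
  have hlapRd : Rd σ E (run σ v0 (List.replicate e ω).flatten) (ω.take i ++ ω.drop i) := by
    rw [hdec]; exact hlap e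
  rw [Rd_append] at hlapRd
  constructor
  · rcases Nat.eq_zero_or_pos i with h0 | hpos
    · subst h0
      simp only [List.take_zero, List.append_nil, List.drop_zero, run_nil] at hM0 hrun
      have h5 : ω.getLast? = some (linv a) := by rw [hM0]; exact hlst
      rcases List.eq_nil_or_concat' ω with h6 | ⟨L, x, h6⟩
      · exact absurd h6 hne
      · have h7 : x = linv a := by
          rw [h6] at h5
          simpa using h5
        obtain ⟨N', hN'⟩ : ∃ N', N = N' + 1 := ⟨N - 1, by omega⟩
        have h8 := hlap (e + N')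
        have h9 : run σ v0 (List.replicate (e + N' + 1) ω).flatten =
            run σ v0 (List.replicate e ω).flatten := by
          rw [show e + N' + 1 = N + e by omega, List.replicate_add, List.flatten_append,
            run_append, hclosed]
        have h10 : run σ (run σ v0 (List.replicate (e + N') ω).flatten) ω =
            run σ v0 (List.replicate (e + N' + 1) ω).flatten := by
          rw [List.replicate_succ', List.flatten_append, run_append,
            List.flatten_singleton]
        have h8' : Rd σ E (run σ v0 (List.replicate (e + N') ω).flatten) (L ++ [x]) := by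
          rw [← h6]; exact h8
        have h10' : run σ (run σ v0 (List.replicate (e + N') ω).flatten) (L ++ [x]) = v := by
          rw [← h6, h10, h9, hrun]
        rw [Rd_append] at h8'
        rw [run_append] at h10'
        have h11 := hE _ _ h8'.2.1
        have h12 : step σ (run σ (run σ v0 (List.replicate (e + N') ω).flatten) L) x = v := h10'
        rw [h12, h7, linv_linv] at h11
        exact h11
    · have h5 : (ω.take i).getLast? = some (linv a) := by
        have h6 : (ω.drop i ++ ω.take i).getLast? = some (linv a) := by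
          rw [hM0]; exact hlst
        rw [List.getLast?_append] at h6
        rcases hx : (ω.take i).getLast? with _ | y
        · rw [List.getLast?_eq_none_iff] at hx
          have h7 := congrArg List.length hx
          rw [List.length_take] at h7
          simp only [List.length_nil] at h7
          omega
        · rw [hx] at h6
          exact h6
      rcases List.eq_nil_or_concat' (ω.take i) with h6 | ⟨L, x, h6⟩
      · rw [h6] at h5; simp at h5
      · have h7 : x = linv a := by
          rw [h6] at h5
          simpa using h5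
        have h8 := hlapRd.1
        rw [h6, Rd_append] at h8
        rw [h6, run_append] at hrun
        have h11 := hE _ _ h8.2.1
        have h12 : step σ (run σ (run σ v0 (List.replicate e ω).flatten) L) x = v := hrun
        rw [h12, h7, linv_linv] at h11
        exact h11
  · obtain ⟨M', hM'⟩ : ∃ M', ω.drop i = b :: M' := by
      cases hx : ω.drop i with
      | nil =>
        have := congrArg List.length hx
        rw [List.length_drop] at this
        simp only [List.length_nil] at this
        omega
      | cons y M' =>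
        rw [hx] at hM0
        simp only [List.cons_append, List.cons.injEq] at hM0
        exact ⟨M', by rw [hM0.1]⟩
    have h8 := hlapRd.2
    rw [hM', hrun] at h8
    exact h8.1

/-- **Non-primitivity criterion.** -/
theorem not_isPrim_of_turns [Finite X] [Finite V] [DecidableEq X] (σ : X → Perm V)
    (E : V → X × Bool → Prop) (hE : ∀ v l, E v l → E (step σ v l) (linv l)) (v0 : V)
    (ω : List (X × Bool)) (hω : FreeGroup.IsCyclicallyReduced ω) (hne : ω ≠ [])
    (hlap : ∀ e, Rd σ E (run σ v0 (List.replicate e ω).flatten) ω)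
    (N : ℕ) (hN : 0 < N) (hclosed : run σ v0 (List.replicate N ω).flatten = v0)
    (h1 : ∀ (v : V) (ε : X × Bool) (c : X × Bool → Prop),
      (∀ e i a b, run σ (run σ v0 (List.replicate e ω).flatten) (ω.take i) = v →
        IsTurn ω i a b → a ≠ ε → b ≠ ε → (c a ↔ c b)) →
      ∀ a b, E v a → E v b → a ≠ ε → b ≠ ε → (c a ↔ c b))
    (h2 : ∀ (c : X × Bool → Prop),
      (∀ e i a b, run σ (run σ v0 (List.replicate e ω).flatten) (ω.take i) = v0 →
        IsTurn ω i a b → (c a ↔ c b)) →
      ∀ a b, E v0 a → E v0 b → (c a ↔ c b))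
    (H : Subgroup (FreeGroup X)) (hKH : loopGroup σ E hE v0 ≤ H)
    (hcyc : ∃ g ∈ loopGroup σ E hE v0, g ∉ Subgroup.zpowers (FreeGroup.mk ω ^ N))
    (hmem : FreeGroup.mk ω ^ N ∈ H) : ¬ IsPrim (⟨FreeGroup.mk ω ^ N, hmem⟩ : H) := by
  classical
  rintro ⟨ι, b, i0, hb⟩
  set K := loopGroup σ E hE v0 with hK
  -- laps
  have hRdlap : ∀ e m, Rd σ E (run σ v0 (List.replicate e ω).flatten)
      (List.replicate m ω).flatten ∧
      run σ (run σ v0 (List.replicate e ω).flatten) (List.replicate m ω).flatten =
        run σ v0 (List.replicate (e + m) ω).flatten := by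
    intro e m
    have hrun : run σ (run σ v0 (List.replicate e ω).flatten) (List.replicate m ω).flatten =
        run σ v0 (List.replicate (e + m) ω).flatten := by
      rw [← run_append, ← List.flatten_append, ← List.replicate_add]
    refine ⟨?_, hrun⟩
    clear hrun
    induction m generalizing e with
    | zero => exact trivial
    | succ m ih =>
      rw [List.replicate_succ, List.flatten_cons, Rd_append]
      refine ⟨hlap e, ?_⟩
      have := ih (e + 1)
      rwa [List.replicate_succ', List.flatten_append, run_append, List.flatten_singleton] at this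
  set w : FreeGroup X := FreeGroup.mk ω ^ N with hw
  have hwK : w ∈ K := by
    rw [hw, ← mk_replicate_flatten]
    refine mem_loopGroup_of_word hE ?_ hclosed
    have := (hRdlap 0 N).1
    simpa using this
  -- the almost invariant set
  obtain ⟨A, hA1, hA2, hA3, hA4⟩ := exists_almost_invariant
    (K := K) (b.repr.toMonoidHom.comp (Subgroup.inclusion hKH))
    (b.repr.injective.comp (Subgroup.inclusion_injective hKH)) ⟨w, hwK⟩ i0
    (by
      have : Subgroup.inclusion hKH ⟨w, hwK⟩ = ⟨w, hmem⟩ := rfl
      rw [MonoidHom.comp_apply, this, ← hb]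
      exact b.repr_apply_coe i0)
    (by
      obtain ⟨g, hg, hg'⟩ := hcyc
      refine ⟨⟨g, hg⟩, ?_⟩
      rintro ⟨n, hn⟩
      exact hg' ⟨n, congrArg Subtype.val hn⟩)
  -- powers of w are distinct
  have hwinj : Function.Injective (fun n : ℕ => w ^ n) := by
    intro m n hmn
    simp only [hw, ← pow_mul] at hmn
    have := pow_injective_of_cyc hω hne hmn
    exact Nat.eq_of_mul_eq_mul_left hN this
  -- representatives
  let reach : V → Prop := fun v => ∃ L : List (X × Bool), Rd σ E v0 L ∧ run σ v0 L = v
  let rv : V → List (X × Bool) := fun v =>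
    if v = v0 then [] else if h : reach v then Classical.choose h else []
  have hrv0 : rv v0 = [] := by simp [rv]
  have hrv : ∀ v, reach v → Rd σ E v0 (rv v) ∧ run σ v0 (rv v) = v := by
    intro v hv
    by_cases hv0 : v = v0
    · subst hv0
      rw [hrv0]
      exact ⟨trivial, rfl⟩
    · simp only [rv, hv0, if_false, hv, dif_pos]
      exact Classical.choose_spec hv
  -- membership of the correction
  have hcorr : ∀ (L : List (X × Bool)), Rd σ E v0 L →
      FreeGroup.mk L * (FreeGroup.mk (rv (run σ v0 L)))⁻¹ ∈ K := by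
    intro L hL
    have h := hrv (run σ v0 L) ⟨L, hL, rfl⟩
    rw [FreeGroup.inv_mk, FreeGroup.mul_mk]
    refine mem_loopGroup_of_word hE ?_ ?_
    · rw [Rd_append]
      refine ⟨hL, ?_⟩
      have := Rd_invRev hE h.1
      rwa [h.2] at this
    · rw [run_append]
      have := run_invRev (σ := σ) v0 (rv (run σ v0 L))
      rwa [h.2] at this
  -- the colour
  let C : List (X × Bool) → Prop := fun L =>
    ∃ h : FreeGroup.mk L * (FreeGroup.mk (rv (run σ v0 L)))⁻¹ ∈ K, (⟨_, h⟩ : K) ∈ A
  let T : Set (List (X × Bool)) := {L | FreeGroup.IsReduced L ∧ Rd σ E v0 L}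
  have hC : ∀ L (hL : Rd σ E v0 L), C L ↔ (⟨_, hcorr L hL⟩ : K) ∈ A := by
    intro L hL
    exact ⟨fun ⟨_, h⟩ => h, fun h => ⟨hcorr L hL, h⟩⟩
  -- finite coboundary
  let Bad : Set (List (X × Bool)) :=
    {L | L ∈ T ∧ ∃ l, L ++ [l] ∈ T ∧ ¬ (C L ↔ C (L ++ [l]))}
  have hBad : Bad.Finite := by
    -- for a vertex v and a letter l
    have hfin : ∀ p : V × (X × Bool), {L | L ∈ T ∧ run σ v0 L = p.1 ∧ L ++ [p.2] ∈ T ∧
        ¬ (C L ↔ C (L ++ [p.2]))}.Finite := by
      rintro ⟨v, l⟩
      by_cases hg : FreeGroup.mk (rv v) * FreeGroup.mk [l] *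
          (FreeGroup.mk (rv (step σ v l)))⁻¹ ∈ K
      · have h3 := (hA2 ⟨_, hg⟩).image
          (fun k : K => ((k : FreeGroup X) * FreeGroup.mk (rv v)).toWord)
        refine h3.subset ?_
        rintro L ⟨hLT, hLv, hLl, hne'⟩
        simp only at hLv
        refine ⟨⟨_, hcorr L hLT.2⟩, ?_, ?_⟩
        · simp only [Set.mem_ofPred_eq]
          rw [← hC L hLT.2]
          intro hiff
          apply hne'
          rw [hiff, hC (L ++ [l]) hLl.2]
          have : (⟨_, hcorr L hLT.2⟩ : K) * ⟨_, hg⟩ = ⟨_, hcorr (L ++ [l]) hLl.2⟩ := by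
            apply Subtype.ext
            simp only [Subgroup.coe_mul]
            have e1 : run σ v0 (L ++ [l]) = step σ v l := by
              rw [run_append, hLv]; rfl
            rw [e1, hLv, ← FreeGroup.mul_mk]
            group
          rw [this]
        · simp only
          rw [hLv, inv_mul_cancel_right, toWord_mk_of_isReduced hLT.1]
      · refine Set.Finite.subset Set.finite_empty ?_
        rintro L ⟨hLT, hLv, hLl, -⟩
        exfalso
        apply hg
        simp only at hLv hLl
        have e1 := hcorr L hLT.2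
        have e2 := hcorr (L ++ [l]) hLl.2
        have e3 : run σ v0 (L ++ [l]) = step σ v l := by
          rw [run_append, hLv]; rfl
        rw [e3] at e2
        rw [hLv] at e1
        have e4 : FreeGroup.mk (rv v) * FreeGroup.mk [l] * (FreeGroup.mk (rv (step σ v l)))⁻¹ =
            (FreeGroup.mk L * (FreeGroup.mk (rv v))⁻¹)⁻¹ *
              (FreeGroup.mk (L ++ [l]) * (FreeGroup.mk (rv (step σ v l)))⁻¹) := by
          rw [← FreeGroup.mul_mk]; group
        rw [e4]
        exact K.mul_mem (K.inv_mem e1) e2
    have h4 := Set.finite_iUnion hfin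
    refine h4.subset ?_
    rintro L ⟨hLT, l, hLl, hne'⟩
    rw [Set.mem_iUnion]
    exact ⟨(run σ v0 L, l), hLT, rfl, hLl, hne'⟩
  obtain ⟨R, hR⟩ : ∃ R : ℕ, ∀ L ∈ Bad, L.length < R := by
    obtain ⟨R, hR⟩ := (hBad.image List.length).bddAbove
    exact ⟨R + 1, fun L hL => Nat.lt_succ_of_le (hR ⟨L, hL, rfl⟩)⟩
  -- prefixes stay in T
  have hTpre : ∀ L M, L ++ M ∈ T → L ∈ T := by
    rintro L M ⟨h3, h4⟩
    rw [Rd_append] at h4
    rw [isReduced_append_iff] at h3
    exact ⟨h3.1, h4.1⟩
  have hfar : ∀ u, R ≤ u.length → ∀ M, u ++ M ∈ T → (C (u ++ M) ↔ C u) := by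
    intro u hu M
    induction M using List.reverseRecOn with
    | nil => intro _; rw [List.append_nil]
    | append_singleton M l ih =>
      intro hM
      rw [← List.append_assoc] at hM
      have h3 := hTpre _ _ hM
      rw [← ih h3]
      by_contra hcon
      have : u ++ M ∈ Bad := ⟨h3, l, hM, fun h => hcon (by rw [← List.append_assoc]; exact h.symm)⟩
      have := hR _ this
      rw [List.length_append] at this
      omega
  -- rays
  have hray : ∀ (u M : List (X × Bool)) (t : X × Bool) (h' κ g : K),
      u ∈ T → FreeGroup.IsCyclicallyReduced M → M.head? = some t →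
      (∀ a ∈ u.getLast?, t ≠ linv a) → Rd σ E (run σ v0 u) M →
      run σ (run σ v0 u) M = run σ v0 u →
      (∀ k, k ∈ A ↔ k * κ ∈ A) → Function.Injective (fun n : ℕ => κ ^ n) →
      (∀ n : ℕ, FreeGroup.mk u * FreeGroup.mk M ^ n * (FreeGroup.mk (rv (run σ v0 u)))⁻¹ =
        h' * κ ^ n * g) →
      ∀ c : Prop, {L | L ∈ T ∧ (u ++ [t]) <+: L ∧ ¬ (C L ↔ c)}.Finite → (c ↔ h' ∈ A) := by
    intro u M t h' κ g huT hM ht hj hRdM hrunM hκA hκinj heq c hfin
    have hRdn := Rd_replicate hRdM hrunM
    have hLT : ∀ n : ℕ, u ++ (List.replicate n M).flatten ∈ T := by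
      intro n
      refine ⟨isReduced_append_pow huT.1 hM ht hj n, ?_⟩
      rw [Rd_append]
      exact ⟨huT.2, (hRdn n).1⟩
    have hMne : M ≠ [] := by rintro rfl; simp at ht
    have hCn : ∀ n : ℕ, C (u ++ (List.replicate n M).flatten) ↔ h' * κ ^ n * g ∈ A := by
      intro n
      rw [hC _ (hLT n).2]
      have : (⟨_, hcorr _ (hLT n).2⟩ : K) = h' * κ ^ n * g := by
        apply Subtype.ext
        simp only [Subgroup.coe_mul, Subgroup.coe_pow]
        have e1 : run σ v0 (u ++ (List.replicate n M).flatten) = run σ v0 u := by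
          rw [run_append, (hRdn n).2]
        rw [e1, ← FreeGroup.mul_mk, mk_replicate_flatten]
        have := heq n
        simpa using this
      rw [this]
    have hκAn : ∀ n : ℕ, h' * κ ^ n ∈ A ↔ h' ∈ A := by
      intro n
      induction n with
      | zero => simp
      | succ n ih => rw [pow_succ, ← mul_assoc, ← hκA, ih]
    -- the exceptional n
    have hinj1 : Function.Injective (fun n : ℕ => h' * κ ^ n) := by
      intro m n hmn
      exact hκinj (mul_left_cancel hmn)
    have hfin1 : {n : ℕ | ¬ (h' * κ ^ n ∈ A ↔ h' * κ ^ n * g ∈ A)}.Finite :=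
      (hA2 g).preimage hinj1.injOn
    have hinj2 : Function.Injective
        (fun n : ℕ => u ++ (List.replicate (n + 1) M).flatten) := by
      intro m n hmn
      have h3 := congrArg List.length hmn
      simp only [List.length_append, List.length_flatten, List.map_replicate,
        List.sum_replicate, smul_eq_mul] at h3
      have h4 : (m + 1) * M.length = (n + 1) * M.length := by omega
      have := Nat.eq_of_mul_eq_mul_right (List.length_pos_of_ne_nil hMne) h4
      omega
    have hfin2 := hfin.preimage (hinj2.injOn (s := Set.univ) |>.mono (Set.subset_univ _))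
    have hfin3 : {n : ℕ | ¬ (h' * κ ^ (n + 1) ∈ A ↔ h' * κ ^ (n + 1) * g ∈ A)}.Finite :=
      hfin1.preimage (fun a _ b _ hab => by omega)
    obtain ⟨n, hn⟩ := (hfin2.union hfin3).infinite_compl.nonempty
    rw [Set.mem_compl_iff, Set.mem_union, not_or] at hn
    obtain ⟨hn1, hn2⟩ := hn
    simp only [Set.mem_preimage, Set.mem_ofPred_eq, not_and, not_not] at hn1 hn2
    have h3 := hn1 (hLT (n + 1)) ?_
    · rw [← h3, hCn, ← hn2, hκAn]
    · obtain ⟨M', hM'⟩ : ∃ M', M = t :: M' := by
        cases M with
        | nil => simp at ht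
        | cons x M' =>
          simp only [List.head?_cons, Option.some.injEq] at ht
          exact ⟨M', by rw [ht]⟩
      refine ⟨M' ++ (List.replicate n M).flatten, ?_⟩
      rw [List.replicate_succ, List.flatten_cons]
      have h6 : M ++ (List.replicate n M).flatten = t :: (M' ++ (List.replicate n M).flatten) := by
        conv_lhs => enter [1]; rw [hM']
        rfl
      rw [h6, List.append_assoc]
      rfl
  -- both rays of a turn
  have hw_mul : ∀ k : K, k ∈ A ↔ k * ⟨w, hwK⟩ ∈ A := hA1
  have hw_mul' : ∀ k : K, k ∈ A ↔ k * (⟨w, hwK⟩ : K)⁻¹ ∈ A := by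
    intro k
    have := hA1 (k * (⟨w, hwK⟩ : K)⁻¹)
    rw [inv_mul_cancel_right] at this
    exact this.symm
  have hinjw : Function.Injective (fun n : ℕ => (⟨w, hwK⟩ : K) ^ n) := by
    intro m n hmn
    apply hwinj
    have := congrArg Subtype.val hmn
    simpa using this
  have hinjw' : Function.Injective (fun n : ℕ => ((⟨w, hwK⟩ : K)⁻¹) ^ n) := by
    intro m n hmn
    apply hinjw
    simp only [inv_pow, inv_inj] at hmn
    exact hmn
  have hline : ∀ (u : List (X × Bool)) (e i : ℕ) (a b : X × Bool), u ∈ T →
      run σ (run σ v0 (List.replicate e ω).flatten) (ω.take i) = run σ v0 u →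
      IsTurn ω i a b → ∃ d : Prop,
        ((∀ z ∈ u.getLast?, b ≠ linv z) → ∀ c : Prop,
          {L | L ∈ T ∧ (u ++ [b]) <+: L ∧ ¬ (C L ↔ c)}.Finite → (c ↔ d)) ∧
        ((∀ z ∈ u.getLast?, a ≠ linv z) → ∀ c : Prop,
          {L | L ∈ T ∧ (u ++ [a]) <+: L ∧ ¬ (C L ↔ c)}.Finite → (c ↔ d)) := by
    intro u e i a b huT hrun hturn
    obtain ⟨hi, M0, hM0, hlast⟩ := hturn.rotate
    set s := run σ v0 (List.replicate e ω).flatten with hs
    set p := ω.take i with hp
    have hdec : p ++ ω.drop i = ω := List.take_append_drop i ω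
    -- reading the rotated word
    set ωi := ω.drop i ++ p with hωi
    have hωi_mk : FreeGroup.mk ωi = (FreeGroup.mk p)⁻¹ * FreeGroup.mk ω * FreeGroup.mk p := by
      conv_rhs => rw [← hdec]
      rw [hωi, ← FreeGroup.mul_mk, ← FreeGroup.mul_mk]
      group
    have hωi_cyc : FreeGroup.IsCyclicallyReduced ωi := isCyclicallyReduced_rotate hω i
    have hRdω : ∀ m, Rd σ E (run σ s p) (List.replicate m ωi).flatten ∧
        run σ (run σ s p) (List.replicate m ωi).flatten =
          run σ (run σ v0 (List.replicate (e + m) ω).flatten) p := by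
      have hshift : ∀ m, p ++ (List.replicate m ωi).flatten = (List.replicate m ω).flatten ++ p := by
        intro m
        induction m with
        | zero => simp
        | succ m ih =>
          rw [List.replicate_succ', List.flatten_append, ← List.append_assoc, ih,
            List.replicate_succ', List.flatten_append, List.flatten_singleton,
            List.flatten_singleton]
          rw [List.append_assoc, List.append_assoc]
          congr 1
          rw [hωi, ← List.append_assoc, hdec]
      intro m
      constructor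
      · have h3 : Rd σ E s (p ++ (List.replicate m ωi).flatten) := by
          rw [hshift, Rd_append]
          refine ⟨(hRdlap e m).1, ?_⟩
          rw [(hRdlap e m).2]
          have h4 : Rd σ E (run σ v0 (List.replicate (e + m) ω).flatten) (p ++ ω.drop i) := by
            rw [hdec]; exact hlap (e + m)
          rw [Rd_append] at h4
          exact h4.1
        rw [Rd_append] at h3
        exact h3.2
      · rw [← run_append, hshift, run_append, (hRdlap e m).2]
    set M := (List.replicate N ωi).flatten with hM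
    have hM_cyc : FreeGroup.IsCyclicallyReduced M := hωi_cyc.flatten_replicate N
    have hM_mk : FreeGroup.mk M = (FreeGroup.mk p)⁻¹ * w * FreeGroup.mk p := by
      rw [hM, mk_replicate_flatten, hωi_mk, hw]
      have : (FreeGroup.mk p)⁻¹ * FreeGroup.mk ω * FreeGroup.mk p =
        (FreeGroup.mk p)⁻¹ * FreeGroup.mk ω * ((FreeGroup.mk p)⁻¹)⁻¹ := by rw [inv_inv]
      rw [this, conj_pow, inv_inv]
    have hMRd : Rd σ E (run σ s p) M := (hRdω N).1
    have hMrun : run σ (run σ s p) M = run σ s p := by
      rw [(hRdω N).2]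
      congr 1
      rw [Nat.add_comm, List.replicate_add, List.flatten_append, run_append, hclosed]
    obtain ⟨N', hN'⟩ : ∃ N', N = N' + 1 := ⟨N - 1, by omega⟩
    have hMhead : M.head? = some b := by
      rw [hM, hN', List.replicate_succ, List.flatten_cons, hM0]
      rfl
    have hMlast : M.getLast? = some (linv a) := by
      rw [hM, hN', List.replicate_succ', List.flatten_append, List.flatten_singleton,
        List.getLast?_append, hM0, hlast]
      rfl
    have hMinv_head : (FreeGroup.invRev M).head? = some a := by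
      rcases List.eq_nil_or_concat' M with h0 | ⟨L, x, h0⟩
      · rw [h0] at hMlast; simp at hMlast
      · rw [h0] at hMlast ⊢
        rw [List.getLast?_append] at hMlast
        simp only [List.getLast?_singleton, Option.some_or, Option.some.injEq] at hMlast
        rw [FreeGroup.invRev_append]
        have : FreeGroup.invRev [x] = [linv x] := rfl
        rw [this, hMlast, linv_linv]
        rfl
    -- the elements h' and g
    have hsRd : Rd σ E v0 (List.replicate e ω).flatten := by
      have := (hRdlap 0 e).1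
      simpa using this
    have hpRd : Rd σ E s p := by
      have h4 : Rd σ E s (p ++ ω.drop i) := by
        rw [hdec]; exact hlap e
      rw [Rd_append] at h4
      exact h4.1
    have hh' : FreeGroup.mk u * (FreeGroup.mk p)⁻¹ * (FreeGroup.mk ω ^ e)⁻¹ ∈ K := by
      rw [← mk_replicate_flatten, FreeGroup.inv_mk, FreeGroup.inv_mk, FreeGroup.mul_mk,
        FreeGroup.mul_mk]
      refine mem_loopGroup_of_word hE ?_ ?_
      · rw [Rd_append, Rd_append, run_append, ← hrun]
        refine ⟨⟨huT.2, Rd_invRev hE hpRd⟩, ?_⟩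
        rw [run_invRev]
        exact Rd_invRev hE hsRd
      · rw [run_append, run_append, ← hrun, run_invRev, hs, run_invRev]
    have hg : FreeGroup.mk ω ^ e * FreeGroup.mk p * (FreeGroup.mk (rv (run σ v0 u)))⁻¹ ∈ K := by
      have h3 : Rd σ E v0 ((List.replicate e ω).flatten ++ p) := by
        rw [Rd_append]
        exact ⟨hsRd, hpRd⟩
      have h4 := hcorr _ h3
      rw [run_append, ← hs, hrun, ← FreeGroup.mul_mk, mk_replicate_flatten] at h4
      exact h4
    refine ⟨(⟨_, hh'⟩ : K) ∈ A, ?_, ?_⟩
    · intro hj c hfin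
      refine hray u M b ⟨_, hh'⟩ ⟨w, hwK⟩ ⟨_, hg⟩ huT hM_cyc hMhead hj (by rw [← hrun]; exact hMRd)
        (by rw [← hrun]; exact hMrun) hw_mul hinjw ?_ c hfin
      intro n
      simp only
      have : FreeGroup.mk M ^ n = (FreeGroup.mk p)⁻¹ * w ^ n * FreeGroup.mk p := by
        rw [hM_mk]
        have : (FreeGroup.mk p)⁻¹ * w * FreeGroup.mk p =
          (FreeGroup.mk p)⁻¹ * w * ((FreeGroup.mk p)⁻¹)⁻¹ := by rw [inv_inv]
        rw [this, conj_pow, inv_inv]
      rw [this]
      have hcomm : (FreeGroup.mk ω ^ e)⁻¹ * w ^ n * FreeGroup.mk ω ^ e = w ^ n := by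
        rw [hw, ← pow_mul]
        have : Commute (FreeGroup.mk ω ^ (N * n)) (FreeGroup.mk ω ^ e) :=
          (Commute.refl _).pow_pow _ _
        rw [mul_assoc, this.eq, inv_mul_cancel_left]
      calc FreeGroup.mk u * ((FreeGroup.mk p)⁻¹ * w ^ n * FreeGroup.mk p) *
            (FreeGroup.mk (rv (run σ v0 u)))⁻¹
          = FreeGroup.mk u * ((FreeGroup.mk p)⁻¹ * ((FreeGroup.mk ω ^ e)⁻¹ * w ^ n *
            FreeGroup.mk ω ^ e) * FreeGroup.mk p) * (FreeGroup.mk (rv (run σ v0 u)))⁻¹ := by
              rw [hcomm]
        _ = _ := by group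
    · intro hj c hfin
      refine hray u (FreeGroup.invRev M) a ⟨_, hh'⟩ (⟨w, hwK⟩ : K)⁻¹ ⟨_, hg⟩ huT
        (isCyclicallyReduced_invRev hM_cyc) hMinv_head hj ?_ ?_ hw_mul' hinjw' ?_ c hfin
      · rw [← hrun]
        have := Rd_invRev hE hMRd
        rwa [hMrun] at this
      · rw [← hrun]
        have := run_invRev (σ := σ) (run σ s p) M
        rwa [hMrun] at this
      · intro n
        simp only
        have : FreeGroup.mk (FreeGroup.invRev M) ^ n =
            (FreeGroup.mk p)⁻¹ * (w ^ n)⁻¹ * FreeGroup.mk p := by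
          rw [← FreeGroup.inv_mk, hM_mk]
          have : ((FreeGroup.mk p)⁻¹ * w * FreeGroup.mk p)⁻¹ =
            (FreeGroup.mk p)⁻¹ * w⁻¹ * ((FreeGroup.mk p)⁻¹)⁻¹ := by group
          rw [this, conj_pow, inv_inv, inv_pow]
        rw [this]
        have hcomm : (FreeGroup.mk ω ^ e)⁻¹ * (w ^ n)⁻¹ * FreeGroup.mk ω ^ e = (w ^ n)⁻¹ := by
          rw [hw, ← pow_mul]
          have : Commute (FreeGroup.mk ω ^ (N * n))⁻¹ (FreeGroup.mk ω ^ e) :=
            ((Commute.refl _).pow_pow _ _).inv_left
          rw [mul_assoc, this.eq, inv_mul_cancel_left]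
        simp only [inv_pow, Subgroup.coe_inv]
        calc FreeGroup.mk u * ((FreeGroup.mk p)⁻¹ * (w ^ n)⁻¹ * FreeGroup.mk p) *
              (FreeGroup.mk (rv (run σ v0 u)))⁻¹
            = FreeGroup.mk u * ((FreeGroup.mk p)⁻¹ * ((FreeGroup.mk ω ^ e)⁻¹ * (w ^ n)⁻¹ *
              FreeGroup.mk ω ^ e) * FreeGroup.mk p) * (FreeGroup.mk (rv (run σ v0 u)))⁻¹ := by
                rw [hcomm]
          _ = _ := by group
  -- almost monochromatic branches
  have hcombine : ∀ (u : List (X × Bool)) (P : X × Bool → Prop) (c0 : Prop)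
      (c : X × Bool → Prop), u ∈ T →
      (∀ l, u ++ [l] ∈ T → P l) →
      (∀ l, P l → (c l ↔ c0)) →
      (∀ l, u ++ [l] ∈ T → {L | L ∈ T ∧ (u ++ [l]) <+: L ∧ ¬ (C L ↔ c l)}.Finite) →
      {L | L ∈ T ∧ u <+: L ∧ ¬ (C L ↔ c0)}.Finite := by
    intro u P c0 c huT hP hc hfin
    have hfin' : ∀ l : X × Bool,
        {L | u ++ [l] ∈ T ∧ L ∈ T ∧ (u ++ [l]) <+: L ∧ ¬ (C L ↔ c l)}.Finite := by
      intro l
      by_cases hl : u ++ [l] ∈ T
      · exact (hfin l hl).subset (fun L hL => hL.2)
      · exact Set.Finite.subset Set.finite_empty (fun L hL => hl hL.1)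
    refine ((Set.finite_iUnion hfin').union (Set.finite_singleton u)).subset ?_
    rintro L ⟨hLT, ⟨M, hM⟩, hne'⟩
    cases M with
    | nil =>
      right
      rw [← hM, List.append_nil]
      rfl
    | cons l M =>
      left
      have h3 : u ++ [l] ++ M = L := by rw [← hM]; simp
      have h4 : u ++ [l] ∈ T := hTpre _ M (by rw [h3]; exact hLT)
      rw [Set.mem_iUnion]
      refine ⟨l, h4, hLT, ⟨M, h3⟩, ?_⟩
      rw [hc l (hP l h4)]
      exact hne'
  have hAM : ∀ n : ℕ, ∀ u ∈ T, u ≠ [] → R ≤ u.length + n →
      ∃ c : Prop, {L | L ∈ T ∧ u <+: L ∧ ¬ (C L ↔ c)}.Finite := by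
    intro n
    induction n with
    | zero =>
      intro u huT _ hu
      refine ⟨C u, Set.Finite.subset Set.finite_empty ?_⟩
      rintro L ⟨hLT, ⟨M, hM⟩, hne'⟩
      apply hne'
      rw [← hM] at hLT ⊢
      exact hfar u hu M hLT
    | succ n ih =>
      intro u huT hune hu
      have hchild : ∀ l : X × Bool, ∃ c : Prop, u ++ [l] ∈ T →
          {L | L ∈ T ∧ (u ++ [l]) <+: L ∧ ¬ (C L ↔ c)}.Finite := by
        intro l
        by_cases hl : u ++ [l] ∈ T
        · obtain ⟨c, hc⟩ := ih (u ++ [l]) hl (by simp) (by rw [List.length_append]; simp; omega)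
          exact ⟨c, fun _ => hc⟩
        · exact ⟨True, fun h => absurd h hl⟩
      choose c hc using hchild
      obtain ⟨u', z, huz⟩ : ∃ u' z, u = u' ++ [z] := by
        rcases List.eq_nil_or_concat' u with h0 | ⟨L, x, h0⟩
        · exact absurd h0 hune
        · exact ⟨L, x, h0⟩
      have hlast : u.getLast? = some z := by rw [huz]; simp
      have hTl : ∀ l, E (run σ v0 u) l → l ≠ linv z → u ++ [l] ∈ T := by
        intro l hl hlz
        constructor
        · rw [isReduced_append_singleton]
          refine ⟨huT.1, ?_⟩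
          intro a ha
          rw [hlast, Option.mem_def, Option.some.injEq] at ha
          rw [← ha]
          exact hlz
        · rw [Rd_append]
          exact ⟨huT.2, hl, trivial⟩
      have hTl' : ∀ l, u ++ [l] ∈ T → E (run σ v0 u) l ∧ l ≠ linv z := by
        intro l hl
        constructor
        · have := hl.2
          rw [Rd_append] at this
          exact this.2.1
        · have := hl.1
          rw [isReduced_append_singleton] at this
          exact this.2 z hlast
      have hconst := h1 (run σ v0 u) (linv z) c (by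
        intro e i a b hrun hturn ha hb
        obtain ⟨d, hd1, hd2⟩ := hline u e i a b huT hrun hturn
        have hz : ∀ l, l ≠ linv z → ∀ z' ∈ u.getLast?, l ≠ linv z' := by
          intro l hl z' hz'
          rw [hlast, Option.mem_def, Option.some.injEq] at hz'
          rw [← hz']
          exact hl
        have hEab := turn_allowed hE hne hlap hN hclosed hrun hturn
        have e1 := hd1 (hz b hb) (c b) (hc b (hTl b hEab.2 hb))
        have e2 := hd2 (hz a ha) (c a) (hc a (hTl a hEab.1 ha))
        rw [e1, e2])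
      by_cases hex : ∃ l, u ++ [l] ∈ T
      · obtain ⟨l0, hl0⟩ := hex
        refine ⟨c l0, hcombine u (fun l => E (run σ v0 u) l ∧ l ≠ linv z) (c l0) c huT hTl' ?_ hc⟩
        intro l hl
        exact hconst l l0 hl.1 (hTl' l0 hl0).1 hl.2 (hTl' l0 hl0).2
      · refine ⟨True, hcombine u (fun _ => False) True c huT (fun l hl => hex ⟨l, hl⟩)
          (fun _ h => h.elim) hc⟩
  -- the root
  have hnilT : ([] : List (X × Bool)) ∈ T := ⟨FreeGroup.IsReduced.nil, trivial⟩
  have hroot : ∃ c0 : Prop, {L | L ∈ T ∧ ([] : List (X × Bool)) <+: L ∧ ¬ (C L ↔ c0)}.Finite := by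
    have hchild : ∀ l : X × Bool, ∃ c : Prop, ([] : List (X × Bool)) ++ [l] ∈ T →
        {L | L ∈ T ∧ ([] ++ [l]) <+: L ∧ ¬ (C L ↔ c)}.Finite := by
      intro l
      by_cases hl : ([] : List (X × Bool)) ++ [l] ∈ T
      · obtain ⟨c, hc⟩ := hAM R ([] ++ [l]) hl (by simp) (by omega)
        exact ⟨c, fun _ => hc⟩
      · exact ⟨True, fun h => absurd h hl⟩
    choose c hc using hchild
    have hTl : ∀ l, E v0 l → ([] : List (X × Bool)) ++ [l] ∈ T := by
      intro l hl
      exact ⟨FreeGroup.IsReduced.singleton, hl, trivial⟩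
    have hTl' : ∀ l, ([] : List (X × Bool)) ++ [l] ∈ T → E v0 l := by
      intro l hl
      exact hl.2.1
    have hconst := h2 c (by
      intro e i a b hrun hturn
      obtain ⟨d, hd1, hd2⟩ := hline [] e i a b hnilT (by rw [hrun]; rfl) hturn
      have hz : ∀ l : X × Bool, ∀ z' ∈ ([] : List (X × Bool)).getLast?, l ≠ linv z' := by
        intro l z' hz'
        simp at hz'
      have hEab := turn_allowed hE hne hlap hN hclosed hrun hturn
      have e1 := hd1 (hz b) (c b) (hc b (hTl b hEab.2))
      have e2 := hd2 (hz a) (c a) (hc a (hTl a hEab.1))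
      rw [e1, e2])
    by_cases hex : ∃ l, ([] : List (X × Bool)) ++ [l] ∈ T
    · obtain ⟨l0, hl0⟩ := hex
      refine ⟨c l0, hcombine [] (fun l => E v0 l) (c l0) c hnilT hTl' ?_ hc⟩
      intro l hl
      exact hconst l l0 hl (hTl' l0 hl0)
    · exact ⟨True, hcombine [] (fun _ => False) True c hnilT (fun l hl => hex ⟨l, hl⟩)
        (fun _ h => h.elim) hc⟩
  obtain ⟨c0, hc0⟩ := hroot
  -- transfer to K
  have hKfin : {k : K | ¬ (k ∈ A ↔ c0)}.Finite := by
    have hinj : Function.Injective (fun k : K => (k : FreeGroup X).toWord) :=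
      fun a b hab => Subtype.ext (FreeGroup.toWord_injective hab)
    refine (hc0.preimage hinj.injOn).subset ?_
    intro k hk
    have hkT : (k : FreeGroup X).toWord ∈ T := ⟨FreeGroup.isReduced_toWord, k.2.1⟩
    refine ⟨hkT, List.nil_prefix, ?_⟩
    intro hiff
    apply hk
    rw [← hiff, hC _ hkT.2]
    have : (⟨_, hcorr _ hkT.2⟩ : K) = k := by
      apply Subtype.ext
      simp only
      have e1 : run σ v0 (k : FreeGroup X).toWord = v0 := k.2.2
      rw [e1, hrv0, ← FreeGroup.one_eq_mk, inv_one, mul_one, FreeGroup.mk_toWord]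
    rw [this]
  by_cases hc : c0
  · apply hA4
    refine hKfin.subset ?_
    intro k hk
    simp only [Set.mem_ofPred_eq, hc, iff_true]
    exact hk
  · apply hA3
    refine hKfin.subset ?_
    intro k hk
    simp only [Set.mem_ofPred_eq, hc, iff_false, not_not]
    exact hk

end H35.Tape
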