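import Mathlib
import Pool.Agent.H35.Tape.NonPrim

/-!
# The tameness property and certificates against it
-/

namespace H35.Tape

open Equiv

/-- Second clause of the definition of tame almost primitive elements. -/
def TProp {G : Type*} [Group G] (ω : G) : Prop :=
  ∀ (H : Subgroup G) (α : ℕ), 0 < α → ∀ hα : ω ^ α ∈ H,
    (∀ β, 0 < β → β < α → ω ^ β ∉ H) → IsPrim (⟨ω ^ α, hα⟩ : H) ∨ H.index = α

theorem IsPrim.map {G G' : Type*} [Group G] [Group G'] (e : G ≃* G') {g : G} (h : IsPrim g) :
    IsPrim (e g) := by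
  obtain ⟨ι, b, i, rfl⟩ := h
  exact ⟨ι, b.map e, i, by rw [FreeGroupBasis.map_apply]⟩

theorem isPrim_map_iff {G G' : Type*} [Group G] [Group G'] (e : G ≃* G') {g : G} :
    IsPrim (e g) ↔ IsPrim g := by
  constructor
  · intro h
    have := h.map e.symm
    rwa [e.symm_apply_apply] at this
  · exact fun h => h.map e

theorem TProp.map {G G' : Type*} [Group G] [Group G'] (e : G ≃* G') {ω : G} (h : TProp ω) :
    TProp (e ω) := by
  intro H α hα0 hα hmin
  let H' : Subgroup G := H.comap e.toMonoidHom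
  have hmem : ∀ g : G, g ∈ H' ↔ e g ∈ H := fun g => Iff.rfl
  have h1 : ω ^ α ∈ H' := by rw [hmem, map_pow]; exact hα
  have h2 : ∀ β, 0 < β → β < α → ω ^ β ∉ H' := by
    intro β hβ hβα hβH
    apply hmin β hβ hβα
    rw [hmem, map_pow] at hβH
    exact hβH
  rcases h H' α hα0 h1 h2 with h3 | h3
  · left
    let e' : H' ≃* H :=
      { toFun := fun x => ⟨e x, x.2⟩
        invFun := fun y => ⟨e.symm y, by
          rw [hmem, e.apply_symm_apply]; exact y.2⟩
        left_inv := fun x => by simp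
        right_inv := fun y => by simp
        map_mul' := fun x y => Subtype.ext (map_mul e (x : G) (y : G)) }
    have h4 := h3.map e'
    have h5 : e' ⟨ω ^ α, h1⟩ = ⟨e ω ^ α, hα⟩ := by
      apply Subtype.ext
      change e (ω ^ α) = e ω ^ α
      rw [map_pow]
    rwa [h5] at h4
  · right
    rw [← h3]
    exact (Subgroup.index_comap_of_surjective H e.surjective).symm

theorem TProp.conj {G : Type*} [Group G] {ω ω' : G} (h : TProp ω) (hc : IsConj ω ω') :
    TProp ω' := by
  obtain ⟨g, hg⟩ := isConj_iff.1 hc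
  have := h.map (MulAut.conj g)
  rwa [MulAut.conj_apply, hg] at this

theorem IsPrim.conj {G : Type*} [Group G] {ω ω' : G} (h : IsPrim ω) (hc : IsConj ω ω') :
    IsPrim ω' := by
  obtain ⟨g, hg⟩ := isConj_iff.1 hc
  have := h.map (MulAut.conj g)
  rwa [MulAut.conj_apply, hg] at this

variable {X V : Type*}

/-- A certificate against the tameness property. -/
theorem not_TProp_of_cert [Finite X] [Finite V] [DecidableEq X] (σ : X → Perm V)
    (E : V → X × Bool → Prop) (hE : ∀ v l, E v l → E (step σ v l) (linv l)) (v0 : V)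
    (ω : List (X × Bool)) (hω : FreeGroup.IsCyclicallyReduced ω) (hne : ω ≠ [])
    (hlap : ∀ e, Rd σ E (run σ v0 (List.replicate e ω).flatten) ω)
    (h1 : ∀ (v : V) (ε : X × Bool) (c : X × Bool → Prop),
      (∀ e i a b, run σ (run σ v0 (List.replicate e ω).flatten) (ω.take i) = v →
        IsTurn ω i a b → a ≠ ε → b ≠ ε → (c a ↔ c b)) →
      ∀ a b, E v a → E v b → a ≠ ε → b ≠ ε → (c a ↔ c b))
    (h2 : ∀ (c : X × Bool → Prop),
      (∀ e i a b, run σ (run σ v0 (List.replicate e ω).flatten) (ω.take i) = v0 →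
        IsTurn ω i a b → (c a ↔ c b)) →
      ∀ a b, E v0 a → E v0 b → (c a ↔ c b))
    (hcyc : ∃ g ∈ loopGroup σ E hE v0, g ∉ Subgroup.zpowers (FreeGroup.mk ω))
    (hidx : ∃ L, ∀ e, run σ v0 (List.replicate e ω).flatten ≠ run σ v0 L) :
    ¬ TProp (FreeGroup.mk ω) := by
  classical
  intro hT
  have hrunpow : ∀ e, run σ v0 (List.replicate e ω).flatten =
      ((rep σ (FreeGroup.mk ω))⁻¹ ^ e) v0 := by
    intro e
    rw [run_eq, mk_replicate_flatten, map_pow, inv_pow]
  set π := (rep σ (FreeGroup.mk ω))⁻¹ with hπ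
  -- minimal period
  have hex : ∃ n, 0 < n ∧ (π ^ n) v0 = v0 :=
    ⟨orderOf π, orderOf_pos π, by rw [pow_orderOf_eq_one]; rfl⟩
  obtain ⟨hN0, hN⟩ := Nat.find_spec hex
  have hmin : ∀ k, k < Nat.find hex → ¬ (0 < k ∧ (π ^ k) v0 = v0) := fun k hk => Nat.find_min hex hk
  set N := Nat.find hex with hNdef
  let _ : MulAction (FreeGroup X) V := MulAction.compHom V (rep σ)
  have hsmul : ∀ (g : FreeGroup X) (v : V), g • v = rep σ g v := fun g v => rfl
  set H : Subgroup (FreeGroup X) := MulAction.stabilizer (FreeGroup X) v0 with hH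
  have hHmem : ∀ g, g ∈ H ↔ (rep σ g)⁻¹ v0 = v0 := by
    intro g
    rw [hH, MulAction.mem_stabilizer_iff, hsmul]
    constructor
    · intro h
      conv_lhs => rw [← h]
      simp
    · intro h
      conv_lhs => rw [← h]
      simp
  have hpowmem : ∀ e : ℕ, FreeGroup.mk ω ^ e ∈ H ↔ (π ^ e) v0 = v0 := by
    intro e
    rw [hHmem, map_pow, ← inv_pow]
  have hmem : FreeGroup.mk ω ^ N ∈ H := (hpowmem N).2 hN
  have hKH : loopGroup σ E hE v0 ≤ H := by
    intro g hg
    have h3 := hg.2
    rw [run_eq, FreeGroup.mk_toWord] at h3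
    exact (hHmem g).2 h3
  have hclosed : run σ v0 (List.replicate N ω).flatten = v0 := by rw [hrunpow, hN]
  have hnp := not_isPrim_of_turns σ E hE v0 ω hω hne hlap N hN0 hclosed h1 h2 H hKH
    (by
      obtain ⟨g, hg, hg'⟩ := hcyc
      refine ⟨g, hg, fun h => hg' ?_⟩
      exact (Subgroup.zpowers_le.2 (Subgroup.pow_mem _ (Subgroup.mem_zpowers _) N)) h)
    hmem
  rcases hT H N hN0 hmem (fun β hβ hβN hβH => hmin β hβN ⟨hβ, (hpowmem β).1 hβH⟩) with h3 | h3
  · exact hnp h3
  · -- index
    obtain ⟨L, hL⟩ := hidx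
    have h4 : H.index = (MulAction.orbit (FreeGroup X) v0).ncard := by
      rw [hH, MulAction.index_stabilizer]
    have hinj : Set.InjOn (fun e : ℕ => (π ^ e) v0) (Set.Iio N) := by
      intro a ha b hb hab
      simp only [Set.mem_Iio] at ha hb
      have key : ∀ a b : ℕ, a ≤ b → b < N → (π ^ a) v0 = (π ^ b) v0 → a = b := by
        intro a b hab' hb' heq
        by_contra hne'
        have h5 : (π ^ (b - a)) v0 = v0 := by
          have h6 : (π ^ a) ((π ^ (b - a)) v0) = (π ^ a) v0 := by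
            rw [← Perm.mul_apply, ← pow_add, Nat.add_sub_cancel' hab', ← heq]
          exact (π ^ a).injective h6
        exact hmin (b - a) (by omega) ⟨by omega, h5⟩
      rcases le_total a b with h | h
      · exact key a b h hb hab
      · exact (key b a h ha hab.symm).symm
    have hsub : insert (run σ v0 L) ((fun e : ℕ => (π ^ e) v0) '' Set.Iio N) ⊆
        MulAction.orbit (FreeGroup X) v0 := by
      intro v hv
      rcases hv with hv | ⟨e, -, rfl⟩
      · refine ⟨(FreeGroup.mk L)⁻¹, ?_⟩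
        simp only [hsmul, map_inv]
        rw [hv, run_eq]
      · refine ⟨(FreeGroup.mk ω ^ e)⁻¹, ?_⟩
        simp only [hsmul, map_inv, map_pow, hπ, inv_pow]
    have h5 := Set.ncard_le_ncard hsub (Set.toFinite _)
    have hnotin : run σ v0 L ∉ ((fun e : ℕ => (π ^ e) v0) '' Set.Iio N) := by
      rintro ⟨e, -, he⟩
      exact hL e (by rw [hrunpow]; exact he)
    rw [Set.ncard_insert_of_notMem hnotin (Set.toFinite _), hinj.ncard_image] at h5
    have h6 : (Set.Iio N).ncard = N := by
      rw [Set.ncard_eq_toFinset_card']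
      simp
    omega

end H35.Tape
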