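import Mathlib
import Pool.Agent.H35.Tape.TProp

/-!
# Free bases given by families and by lists
-/

namespace H35.Tape

variable {F : Type*} [Group F]

/-- The family `b` is a free basis of `F`. -/
def IsB {ι : Type*} (b : ι → F) : Prop := Function.Bijective (FreeGroup.lift b)

/-- The list `L` is a free basis of `F`. -/
def IsBasis (L : List F) : Prop := IsB (fun i : Fin L.length => L.get i)

theorem IsB.comp_equiv {ι κ : Type*} {b : ι → F} (h : IsB b) (e : κ ≃ ι) : IsB (b ∘ e) := by
  have h1 : FreeGroup.lift (b ∘ e) = (FreeGroup.lift b).comp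
      (FreeGroup.freeGroupCongr e).toMonoidHom := by
    ext i; simp
  unfold IsB
  rw [h1]
  exact h.comp (FreeGroup.freeGroupCongr e).bijective

theorem isB_comp_equiv_iff {ι κ : Type*} {b : ι → F} (e : κ ≃ ι) : IsB (b ∘ e) ↔ IsB b := by
  constructor
  · intro h
    have := h.comp_equiv e.symm
    rwa [Function.comp_assoc, Equiv.self_comp_symm, Function.comp_id] at this
  · exact fun h => h.comp_equiv e

/-- Changing a free basis by an automorphism of the free group. -/
theorem IsB.comp_aut {ι : Type*} {b b' : ι → F} (h : IsB b) (θ θ' : FreeGroup ι →* FreeGroup ι)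
    (h1 : ∀ i, FreeGroup.lift b (θ (FreeGroup.of i)) = b' i)
    (h2 : ∀ i, θ (θ' (FreeGroup.of i)) = FreeGroup.of i)
    (h3 : ∀ i, θ' (θ (FreeGroup.of i)) = FreeGroup.of i) : IsB b' := by
  have e1 : FreeGroup.lift b' = (FreeGroup.lift b).comp θ := by
    ext i; simp [h1]
  have e2 : θ.comp θ' = MonoidHom.id _ := by ext i; simp [h2]
  have e3 : θ'.comp θ = MonoidHom.id _ := by ext i; simp [h3]
  have hθ : Function.Bijective θ := by
    refine Function.bijective_iff_has_inverse.2 ⟨θ', fun x => ?_, fun x => ?_⟩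
    · exact DFunLike.congr_fun e3 x
    · exact DFunLike.congr_fun e2 x
  unfold IsB
  rw [e1]
  exact h.comp hθ

theorem IsB.option_mul {ι : Type*} {b : Option ι → F} (h : IsB b) {g k : F}
    (hg : g ∈ (FreeGroup.lift (fun i => b (some i))).range)
    (hk : k ∈ (FreeGroup.lift (fun i => b (some i))).range) :
    IsB (fun o : Option ι => o.elim (g * b none * k) (fun i => b (some i))) := by
  obtain ⟨G, hG⟩ := hg
  obtain ⟨K, hK⟩ := hk
  let m : FreeGroup ι →* FreeGroup (Option ι) := FreeGroup.map some
  have hm : ∀ x, FreeGroup.lift b (m x) = FreeGroup.lift (fun i => b (some i)) x := by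
    intro x
    have : (FreeGroup.lift b).comp m = FreeGroup.lift (fun i => b (some i)) := by
      ext i; simp [m]
    exact DFunLike.congr_fun this x
  let θ : FreeGroup (Option ι) →* FreeGroup (Option ι) :=
    FreeGroup.lift (fun o => o.elim (m G * FreeGroup.of none * m K) (fun i => FreeGroup.of (some i)))
  let θ' : FreeGroup (Option ι) →* FreeGroup (Option ι) :=
    FreeGroup.lift (fun o => o.elim ((m G)⁻¹ * FreeGroup.of none * (m K)⁻¹)
      (fun i => FreeGroup.of (some i)))
  have hθm : ∀ x, θ (m x) = m x := by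
    intro x
    have : θ.comp m = m := by ext i; simp [m, θ]
    exact DFunLike.congr_fun this x
  have hθ'm : ∀ x, θ' (m x) = m x := by
    intro x
    have : θ'.comp m = m := by ext i; simp [m, θ']
    exact DFunLike.congr_fun this x
  refine h.comp_aut θ θ' ?_ ?_ ?_
  · rintro (_ | i)
    · simp only [θ, FreeGroup.lift_apply_of, Option.elim_none, map_mul, hm, hG, hK]
    · simp [θ]
  · rintro (_ | i)
    · have : θ' (FreeGroup.of none) = (m G)⁻¹ * FreeGroup.of none * (m K)⁻¹ := by simp [θ']
      rw [this, map_mul, map_mul, map_inv, map_inv, hθm, hθm]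
      have : θ (FreeGroup.of none) = m G * FreeGroup.of none * m K := by simp [θ]
      rw [this]
      group
    · simp [θ, θ']
  · rintro (_ | i)
    · have : θ (FreeGroup.of none) = m G * FreeGroup.of none * m K := by simp [θ]
      rw [this, map_mul, map_mul, hθ'm, hθ'm]
      have : θ' (FreeGroup.of none) = (m G)⁻¹ * FreeGroup.of none * (m K)⁻¹ := by simp [θ']
      rw [this]
      group
    · simp [θ, θ']

theorem IsB.option_inv {ι : Type*} {b : Option ι → F} (h : IsB b) :
    IsB (fun o : Option ι => o.elim (b none)⁻¹ (fun i => b (some i))) := by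
  let θ : FreeGroup (Option ι) →* FreeGroup (Option ι) :=
    FreeGroup.lift (fun o => o.elim (FreeGroup.of none)⁻¹ (fun i => FreeGroup.of (some i)))
  refine h.comp_aut θ θ ?_ ?_ ?_
  · rintro (_ | i) <;> simp [θ]
  · rintro (_ | i) <;> simp [θ]
  · rintro (_ | i) <;> simp [θ]

/-- Changing the basis of the first free factor. -/
theorem IsB.sum_equiv {X X' Y : Type*} {b : X → F} {c : Y → F} (h : IsB (Sum.elim b c))
    (φ : FreeGroup X' ≃* FreeGroup X) :
    IsB (Sum.elim (fun x => FreeGroup.lift b (φ (FreeGroup.of x))) c) := by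
  let m : FreeGroup X →* FreeGroup (X ⊕ Y) := FreeGroup.map Sum.inl
  let m' : FreeGroup X' →* FreeGroup (X' ⊕ Y) := FreeGroup.map Sum.inl
  have hm : ∀ x, FreeGroup.lift (Sum.elim b c) (m x) = FreeGroup.lift b x := by
    intro x
    have : (FreeGroup.lift (Sum.elim b c)).comp m = FreeGroup.lift b := by
      ext i; simp [m]
    exact DFunLike.congr_fun this x
  let θ : FreeGroup (X' ⊕ Y) →* FreeGroup (X ⊕ Y) :=
    FreeGroup.lift (Sum.elim (fun x => m (φ (FreeGroup.of x))) (fun y => FreeGroup.of (Sum.inr y)))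
  let θ' : FreeGroup (X ⊕ Y) →* FreeGroup (X' ⊕ Y) :=
    FreeGroup.lift (Sum.elim (fun x => m' (φ.symm (FreeGroup.of x)))
      (fun y => FreeGroup.of (Sum.inr y)))
  have hθm : ∀ x, θ (m' x) = m (φ x) := by
    intro x
    have : θ.comp m' = m.comp φ.toMonoidHom := by ext i; simp [m', θ]
    exact DFunLike.congr_fun this x
  have hθ'm : ∀ x, θ' (m x) = m' (φ.symm x) := by
    intro x
    have : θ'.comp m = m'.comp φ.symm.toMonoidHom := by ext i; simp [m, θ']
    exact DFunLike.congr_fun this x
  have e1 : FreeGroup.lift (Sum.elim (fun x => FreeGroup.lift b (φ (FreeGroup.of x))) c) =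
      (FreeGroup.lift (Sum.elim b c)).comp θ := by
    ext i
    rcases i with x | y
    · simp [θ, hm]
    · simp [θ]
  have e2 : θ.comp θ' = MonoidHom.id _ := by
    ext i
    rcases i with x | y
    · have : θ' (FreeGroup.of (Sum.inl x)) = m' (φ.symm (FreeGroup.of x)) := by simp [θ']
      rw [MonoidHom.comp_apply, this, hθm]
      simp [m]
    · simp [θ, θ']
  have e3 : θ'.comp θ = MonoidHom.id _ := by
    ext i
    rcases i with x | y
    · have : θ (FreeGroup.of (Sum.inl x)) = m (φ (FreeGroup.of x)) := by simp [θ]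
      rw [MonoidHom.comp_apply, this, hθ'm]
      simp [m']
    · simp [θ, θ']
  have hθ : Function.Bijective θ := by
    refine Function.bijective_iff_has_inverse.2 ⟨θ', fun x => ?_, fun x => ?_⟩
    · exact DFunLike.congr_fun e3 x
    · exact DFunLike.congr_fun e2 x
  unfold IsB
  rw [e1]
  exact h.comp hθ

/-- An automorphism of the first free factor. -/
theorem IsB.sum_aut {X Y : Type*} {b : X → F} {c : Y → F} (h : IsB (Sum.elim b c))
    (φ : FreeGroup X ≃* FreeGroup X) :
    IsB (Sum.elim (fun x => FreeGroup.lift b (φ (FreeGroup.of x))) c) := h.sum_equiv φ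

theorem isBasis_cons_iff {a : F} {L : List F} :
    IsBasis (a :: L) ↔ IsB (fun o : Option (Fin L.length) => o.elim a (fun i => L.get i)) := by
  rw [← isB_comp_equiv_iff (finSuccEquiv L.length)]
  have : (fun o : Option (Fin L.length) => o.elim a (fun i => L.get i)) ∘ (finSuccEquiv L.length)
      = fun i => (a :: L).get i := by
    funext i
    refine Fin.cases ?_ ?_ i
    · rfl
    · intro i; simp
  rw [this]
  exact Iff.rfl

theorem isB_cast {n m : ℕ} (h : n = m) (b : Fin m → F) : IsB (fun i => b (Fin.cast h i)) ↔ IsB b := by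
  subst h; exact Iff.rfl

theorem isBasis_append_iff {L₁ L₂ : List F} :
    IsBasis (L₁ ++ L₂) ↔ IsB (Sum.elim (fun i => L₁.get i) (fun i => L₂.get i)) := by
  rw [← isB_comp_equiv_iff (finSumFinEquiv.symm)]
  rw [← isB_cast (List.length_append (as := L₁) (bs := L₂)) _]
  have : (fun i : Fin (L₁ ++ L₂).length => (Sum.elim (fun i => L₁.get i) (fun i => L₂.get i) ∘
      finSumFinEquiv.symm) (Fin.cast List.length_append i)) = fun i => (L₁ ++ L₂).get i := by
    funext i
    obtain ⟨j, hj⟩ := finSumFinEquiv.surjective (Fin.cast List.length_append i)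
    rw [← hj]
    simp only [Function.comp_apply, Equiv.symm_apply_apply]
    have hv := congrArg Fin.val hj
    rcases j with j | j
    · simp only [finSumFinEquiv_apply_left, Fin.val_castAdd, Fin.val_cast] at hv
      simp only [Sum.elim_inl, List.get_eq_getElem]
      rw [List.getElem_append_left (by omega)]
      congr 1
    · simp only [finSumFinEquiv_apply_right, Fin.val_natAdd, Fin.val_cast] at hv
      simp only [Sum.elim_inr, List.get_eq_getElem]
      rw [List.getElem_append_right (by omega)]
      congr 1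
      omega
  rw [this]
  exact Iff.rfl

theorem isBasis_ofFn_append_iff {r : ℕ} {b : Fin r → F} {L : List F} :
    IsBasis (List.ofFn b ++ L) ↔ IsB (Sum.elim b (fun i => L.get i)) := by
  rw [isBasis_append_iff]
  rw [← isB_comp_equiv_iff (Equiv.sumCongr (finCongr (List.length_ofFn (f := b))) (Equiv.refl _))]
  have : (Sum.elim b (fun i => L.get i)) ∘ (Equiv.sumCongr (finCongr (List.length_ofFn (f := b)))
      (Equiv.refl _)) = Sum.elim (fun i => (List.ofFn b).get i) (fun i => L.get i) := by
    funext x
    rcases x with x | x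
    · simp only [Function.comp_apply, Equiv.sumCongr_apply, Sum.map_inl, Sum.elim_inl,
        List.get_eq_getElem, List.getElem_ofFn]
      rfl
    · rfl
  rw [this]

omit [Group F] in
theorem exists_equiv_of_perm {L L' : List F} (h : L.Perm L') :
    ∃ e : Fin L.length ≃ Fin L'.length, ∀ i, L'.get (e i) = L.get i := by
  induction h with
  | nil => exact ⟨Equiv.refl _, fun i => rfl⟩
  | cons a _ ih =>
    rename_i l₁ l₂ hp
    obtain ⟨e, he⟩ := ih
    refine ⟨((finSuccEquiv _).trans (Equiv.optionCongr e)).trans (finSuccEquiv _).symm, ?_⟩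
    intro i
    refine Fin.cases ?_ ?_ i
    · simp
    · intro i
      simpa using he i
  | swap a b l =>
    refine ⟨Equiv.swap ⟨0, by simp⟩ ⟨1, by simp⟩, ?_⟩
    intro i
    refine Fin.cases ?_ (fun i => ?_) i
    · have : Equiv.swap (⟨0, by simp⟩ : Fin (a :: b :: l).length) ⟨1, by simp⟩ 0 = ⟨1, by simp⟩ :=
        Equiv.swap_apply_left _ _
      rw [this]; rfl
    · refine Fin.cases ?_ (fun i => ?_) i
      · have : Equiv.swap (⟨0, by simp⟩ : Fin (a :: b :: l).length) ⟨1, by simp⟩ (Fin.succ 0) =
            ⟨0, by simp⟩ := Equiv.swap_apply_right _ _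
        rw [this]; rfl
      · have : Equiv.swap (⟨0, by simp⟩ : Fin (a :: b :: l).length) ⟨1, by simp⟩ i.succ.succ =
            i.succ.succ := by
          apply Equiv.swap_apply_of_ne_of_ne
          · intro h; have := congrArg Fin.val h; simp at this
          · intro h; have := congrArg Fin.val h; simp at this
        rw [this]; rfl
  | trans _ _ ih₁ ih₂ =>
    obtain ⟨e₁, h₁⟩ := ih₁
    obtain ⟨e₂, h₂⟩ := ih₂
    exact ⟨e₁.trans e₂, fun i => by rw [Equiv.trans_apply, h₂, h₁]⟩

theorem IsBasis.perm {L L' : List F} (h : IsBasis L) (hp : L.Perm L') : IsBasis L' := by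
  obtain ⟨e, he⟩ := exists_equiv_of_perm hp.symm
  have : (fun i => L'.get i) = (fun i => L.get i) ∘ e := by
    funext i; exact (he i).symm
  unfold IsBasis
  rw [this]
  exact h.comp_equiv e

/-- subgroup generated by a list -/
def cl (L : List F) : Subgroup F := Subgroup.closure {x | x ∈ L}

theorem cl_eq_range (L : List F) : cl L = (FreeGroup.lift (fun i : Fin L.length => L.get i)).range := by
  rw [FreeGroup.range_lift_eq_closure, cl]
  congr 1
  ext x
  simp only [Set.mem_ofPred_eq, Set.mem_range, List.get_eq_getElem]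
  rw [List.mem_iff_getElem]
  constructor
  · rintro ⟨i, hi, h⟩; exact ⟨⟨i, hi⟩, h⟩
  · rintro ⟨⟨i, hi⟩, h⟩; exact ⟨i, hi, h⟩

theorem mem_cl_of_mem {L : List F} {x : F} (h : x ∈ L) : x ∈ cl L := Subgroup.subset_closure h

theorem cl_mono {L L' : List F} (h : ∀ x ∈ L, x ∈ L') : cl L ≤ cl L' :=
  Subgroup.closure_mono (fun x hx => h x hx)

theorem cl_le {L : List F} {K : Subgroup F} (h : ∀ x ∈ L, x ∈ K) : cl L ≤ K :=
  (Subgroup.closure_le K).2 (fun x hx => h x hx)

theorem IsBasis.cons_mul {a g k : F} {L : List F} (h : IsBasis (a :: L)) (hg : g ∈ cl L)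
    (hk : k ∈ cl L) : IsBasis (g * a * k :: L) := by
  rw [isBasis_cons_iff] at h ⊢
  rw [cl_eq_range] at hg hk
  exact h.option_mul hg hk

theorem IsBasis.cons_inv {a : F} {L : List F} (h : IsBasis (a :: L)) : IsBasis (a⁻¹ :: L) := by
  rw [isBasis_cons_iff] at h ⊢
  exact h.option_inv

theorem IsBasis.transv {K L L' : List F} (h : IsBasis (K ++ L))
    (hL : List.Forall₂ (fun a a' => ∃ g ∈ cl K, ∃ k ∈ cl K, a' = g * a * k) L L') :
    IsBasis (K ++ L') := by
  have key : ∀ (L L' : List F), List.Forall₂ (fun a a' => ∃ g ∈ cl K, ∃ k ∈ cl K,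
      a' = g * a * k) L L' → ∀ K' : List F, (∀ x ∈ K, x ∈ K') → IsBasis (K' ++ L) →
      IsBasis (K' ++ L') := by
    intro L L' hLL
    induction hLL with
    | nil => intro K' _ h; exact h
    | @cons a a' L L' h1 _ ih =>
      intro K' hK' h
      obtain ⟨g, hg, k, hk, rfl⟩ := h1
      have h2 : IsBasis (a :: (K' ++ L)) := h.perm List.perm_middle
      have h3 : IsBasis (g * a * k :: (K' ++ L)) := h2.cons_mul
        (cl_mono (fun x hx => List.mem_append_left _ (hK' x hx)) hg)
        (cl_mono (fun x hx => List.mem_append_left _ (hK' x hx)) hk)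
      have h4 : IsBasis ((K' ++ [g * a * k]) ++ L) := by
        refine h3.perm ?_
        rw [List.append_assoc]
        exact List.perm_middle.symm
      have h5 := ih (K' ++ [g * a * k]) (fun x hx => List.mem_append_left _ (hK' x hx)) h4
      rwa [List.append_assoc] at h5
  exact key L L' hL K (fun x hx => hx) h

section prim

variable {F : Type*} [Group F]

/-- The free basis of a group given by a family. -/
noncomputable def IsB.toBasis {ι : Type*} {b : ι → F} (h : IsB b) : FreeGroupBasis ι F :=
  FreeGroupBasis.ofRepr (MulEquiv.ofBijective (FreeGroup.lift b) h).symm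

theorem IsB.toBasis_apply {ι : Type*} {b : ι → F} (h : IsB b) (i : ι) : h.toBasis i = b i := by
  change (MulEquiv.ofBijective (FreeGroup.lift b) h).symm.symm (FreeGroup.of i) = b i
  rw [MulEquiv.symm_symm]
  change FreeGroup.lift b (FreeGroup.of i) = b i
  simp

theorem IsBasis.isPrim {a : F} {L : List F} (h : IsBasis (a :: L)) : IsPrim a := by
  have h' : IsB (fun i : Fin (a :: L).length => (a :: L).get i) := h
  exact ⟨_, h'.toBasis, ⟨0, by simp⟩, by rw [h'.toBasis_apply]; rfl⟩

theorem isPrim_of_once {a g k ω : F} {L : List F} (h : IsBasis (a :: L)) (hg : g ∈ cl L)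
    (hk : k ∈ cl L) (hc : IsConj ω (g * a * k)) : IsPrim ω :=
  (h.cons_mul hg hk).isPrim.conj hc.symm

theorem isPrim_of_factor {K : List F} {L : List F} (h : IsBasis (K ++ L)) {x : F} (hx : x ∈ cl K)
    (hp : IsPrim (⟨x, hx⟩ : cl K)) : IsPrim x := by
  obtain ⟨ι, b', i, hi⟩ := hp
  rw [isBasis_append_iff] at h
  have hinj : Function.Injective (FreeGroup.lift (fun i => K.get i)) := by
    have h1 : (FreeGroup.lift (Sum.elim (fun i => K.get i) (fun i => L.get i))).comp
        (FreeGroup.map Sum.inl) = FreeGroup.lift (fun i => K.get i) := by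
      ext i; simp
    rw [← h1]
    exact h.1.comp (FreeGroup.map_injective Sum.inl_injective)
  let e1 : FreeGroup (Fin K.length) ≃* (FreeGroup.lift (fun i => K.get i)).range :=
    MonoidHom.ofInjective hinj
  have hcl := cl_eq_range K
  let e2 : cl K ≃* (FreeGroup.lift (fun i => K.get i)).range := MulEquiv.subgroupCongr hcl
  let φ : FreeGroup ι ≃* FreeGroup (Fin K.length) := (b'.repr.symm.trans e2).trans e1.symm
  have h2 := h.sum_equiv φ
  have h3 : ∀ y, FreeGroup.lift (fun i => K.get i) (φ (FreeGroup.of y)) = (b' y : F) := by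
    intro y
    have h4 : e1 (φ (FreeGroup.of y)) = e2 (b'.repr.symm (FreeGroup.of y)) := by
      simp [φ]
    have h5 := congrArg Subtype.val h4
    exact h5
  refine ⟨ι ⊕ Fin L.length, h2.toBasis, Sum.inl i, ?_⟩
  rw [IsB.toBasis_apply, Sum.elim_inl, h3, hi]

theorem IsBasis.not_mem_cl {a : F} {L : List F} (h : IsBasis (a :: L)) : a ∉ cl L := by
  intro ha
  rw [cl_eq_range] at ha
  obtain ⟨x, hx⟩ := ha
  rw [isBasis_cons_iff] at h
  have h1 : (FreeGroup.lift (fun o : Option (Fin L.length) => o.elim a (fun i => L.get i))).comp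
      (FreeGroup.map some) = FreeGroup.lift (fun i => L.get i) := by
    ext i; simp
  have h2 : FreeGroup.map some x = FreeGroup.of (none : Option (Fin L.length)) := by
    apply h.1
    rw [← MonoidHom.comp_apply, h1, hx]
    simp
  -- kill the image of `some`
  have h3 := congrArg (FreeGroup.lift (fun o : Option (Fin L.length) =>
    o.elim (Multiplicative.ofAdd (1 : ℤ)) (fun _ => 1))) h2
  have h4 : (FreeGroup.lift (fun o : Option (Fin L.length) =>
      o.elim (Multiplicative.ofAdd (1 : ℤ)) (fun _ => 1))).comp (FreeGroup.map some) = 1 := by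
    ext i; simp
  rw [← MonoidHom.comp_apply, h4, MonoidHom.one_apply, FreeGroup.lift_apply_of] at h3
  have h5 := congrArg Multiplicative.toAdd h3
  change (0 : ℤ) = 1 at h5
  omega

/-- A non primitive element with the tameness property is not conjugate into a proper free
factor. -/
theorem not_mem_proper {ω : F} (hT : TProp ω) (hnp : ¬ IsPrim ω) {K L : List F}
    (h : IsBasis (K ++ L)) (hL : L ≠ []) {x : F} (hx : x ∈ cl K) (hc : IsConj ω x) : False := by
  have hTx := hT.conj hc
  have hnpx : ¬ IsPrim x := fun hp => hnp (hp.conj hc.symm)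
  have hx1 : x ^ 1 ∈ cl K := by rwa [pow_one]
  rcases hTx (cl K) 1 one_pos hx1 (fun β h1 h2 => by omega) with h1 | h1
  · apply hnpx
    refine isPrim_of_factor h hx ?_
    have h2 : (⟨x ^ 1, hx1⟩ : cl K) = ⟨x, hx⟩ := Subtype.ext (pow_one x)
    rwa [h2] at h1
  · rw [Subgroup.index_eq_one] at h1
    obtain ⟨a, L', rfl⟩ := List.exists_cons_of_ne_nil hL
    have h2 : IsBasis (a :: (K ++ L')) := h.perm List.perm_middle
    apply h2.not_mem_cl
    have h3 : a ∈ cl K := by rw [h1]; trivial
    exact cl_mono (fun x hx => List.mem_append_left _ hx) h3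

end prim

end H35.Tape
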