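import Mathlib
import Pool.Agent.H35.Tape.TProp

/-!
# Local connectivity of the Whitehead graphs at the vertices
-/

namespace H35.Tape

open Equiv

variable {H : Type*}

/-- A graph `R` on `Z` with ends `p`, `q` which is connected and such that after removing any
vertex every component meets `{p, q}`. -/
structure Conn (R : H → H → Prop) (Z : Set H) (p q : H) : Prop where
  hp : p ∈ Z
  hq : q ∈ Z
  b1 : ∀ c : H → Prop, (∀ a ∈ Z, ∀ b ∈ Z, R a b → (c a ↔ c b)) →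
    ∀ a ∈ Z, ∀ b ∈ Z, (c a ↔ c b)
  b2 : ∀ (ε : H) (c : H → Prop) (k : Prop),
    (∀ a ∈ Z, ∀ b ∈ Z, R a b → a ≠ ε → b ≠ ε → (c a ↔ c b)) →
    (p ≠ ε → (c p ↔ k)) → (q ≠ ε → (c q ↔ k)) → ∀ z ∈ Z, z ≠ ε → (c z ↔ k)

theorem Conn.single (R : H → H → Prop) (p : H) : Conn R {p} p p where
  hp := rfl
  hq := rfl
  b1 := by
    rintro c - a rfl b rfl
    exact Iff.rfl
  b2 := by
    rintro ε c k - h1 - z rfl hz
    exact h1 hz

theorem Conn.mono {R R' : H → H → Prop} {Z : Set H} {p q : H} (h : Conn R Z p q)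
    (hR : ∀ a b, R a b → R' a b) : Conn R' Z p q where
  hp := h.hp
  hq := h.hq
  b1 := fun c hc => h.b1 c (fun a ha b hb hab => hc a ha b hb (hR a b hab))
  b2 := fun ε c k hc => h.b2 ε c k (fun a ha b hb hab => hc a ha b hb (hR a b hab))

theorem Conn.append {R : H → H → Prop} {Z₁ Z₂ : Set H} {p₁ q₁ p₂ q₂ : H}
    (h₁ : Conn R Z₁ p₁ q₁) (h₂ : Conn R Z₂ p₂ q₂) (hd : Disjoint Z₁ Z₂) (hR : R q₁ p₂) :
    Conn R (Z₁ ∪ Z₂) p₁ q₂ where
  hp := Or.inl h₁.hp
  hq := Or.inr h₂.hq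
  b1 := by
    intro c hc
    have e1 := h₁.b1 c (fun a ha b hb hab => hc a (Or.inl ha) b (Or.inl hb) hab)
    have e2 := h₂.b1 c (fun a ha b hb hab => hc a (Or.inr ha) b (Or.inr hb) hab)
    have e3 : c q₁ ↔ c p₂ := hc _ (Or.inl h₁.hq) _ (Or.inr h₂.hp) hR
    have key : ∀ z ∈ Z₁ ∪ Z₂, (c z ↔ c q₁) := by
      rintro z (hz | hz)
      · exact e1 z hz _ h₁.hq
      · exact (e2 z hz _ h₂.hp).trans e3.symm
    intro a ha b hb
    exact (key a ha).trans (key b hb).symm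
  b2 := by
    intro ε c k hc hp hq
    by_cases hε : ε ∈ Z₁
    · have hε2 : ε ∉ Z₂ := fun h => (Set.disjoint_left.1 hd) hε h
      have hne : ∀ z ∈ Z₂, z ≠ ε := fun z hz h => hε2 (h ▸ hz)
      have e2 := h₂.b1 c (fun a ha b hb hab => hc a (Or.inr ha) b (Or.inr hb) hab
        (hne a ha) (hne b hb))
      have hk := hq (hne _ h₂.hq)
      have hk2 : ∀ z ∈ Z₂, (c z ↔ k) := fun z hz => (e2 z hz _ h₂.hq).trans hk
      have e1 := h₁.b2 ε c k (fun a ha b hb hab => hc a (Or.inl ha) b (Or.inl hb) hab) hp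
        (fun h => (hc _ (Or.inl h₁.hq) _ (Or.inr h₂.hp) hR h (hne _ h₂.hp)).trans
          (hk2 _ h₂.hp))
      rintro z (hz | hz) hzε
      · exact e1 z hz hzε
      · exact hk2 z hz
    · have hne : ∀ z ∈ Z₁, z ≠ ε := fun z hz h => hε (h ▸ hz)
      have e1 := h₁.b1 c (fun a ha b hb hab => hc a (Or.inl ha) b (Or.inl hb) hab
        (hne a ha) (hne b hb))
      have hk := hp (hne _ h₁.hp)
      have hk1 : ∀ z ∈ Z₁, (c z ↔ k) := fun z hz => (e1 z hz _ h₁.hp).trans hk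
      have e2 := h₂.b2 ε c k (fun a ha b hb hab => hc a (Or.inr ha) b (Or.inr hb) hab)
        (fun h => (hc _ (Or.inl h₁.hq) _ (Or.inr h₂.hp) hR (hne _ h₁.hq) h).symm.trans
          (hk1 _ h₁.hq)) hq
      rintro z (hz | hz) hzε
      · exact hk1 z hz
      · exact e2 z hz hzε

theorem Conn.image {H' : Type*} {R : H → H → Prop} {R' : H' → H' → Prop} {Z : Set H} {p q : H}
    (h : Conn R Z p q) (f : H → H') (hf : Function.Injective f)
    (hR : ∀ a b, R a b → R' (f a) (f b)) : Conn R' (f '' Z) (f p) (f q) where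
  hp := ⟨p, h.hp, rfl⟩
  hq := ⟨q, h.hq, rfl⟩
  b1 := by
    intro c hc
    have := h.b1 (fun a => c (f a)) (fun a ha b hb hab => hc _ ⟨a, ha, rfl⟩ _ ⟨b, hb, rfl⟩
      (hR a b hab))
    rintro _ ⟨a, ha, rfl⟩ _ ⟨b, hb, rfl⟩
    exact this a ha b hb
  b2 := by
    intro ε c k hc hp hq
    by_cases hε : ∃ e, f e = ε
    · obtain ⟨e, rfl⟩ := hε
      have := h.b2 e (fun a => c (f a)) k (fun a ha b hb hab ha' hb' =>
        hc _ ⟨a, ha, rfl⟩ _ ⟨b, hb, rfl⟩ (hR a b hab) (fun h => ha' (hf h)) (fun h => hb' (hf h)))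
        (fun hpe => hp (fun h => hpe (hf h))) (fun hqe => hq (fun h => hqe (hf h)))
      rintro _ ⟨z, hz, rfl⟩ hzε
      exact this z hz (fun h => hzε (by rw [h]))
    · have hne : ∀ z, f z ≠ ε := fun z h => hε ⟨z, h⟩
      have := h.b1 (fun a => c (f a)) (fun a ha b hb hab =>
        hc _ ⟨a, ha, rfl⟩ _ ⟨b, hb, rfl⟩ (hR a b hab) (hne a) (hne b))
      rintro _ ⟨z, hz, rfl⟩ -
      exact (this z hz p h.hp).trans (hp (hne p))

variable {X ι : Type*}

/-- Removing two turns leaves the Whitehead graph connected. -/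
def Rig1 (u : ι → List (X × Bool)) : Prop :=
  ∀ (t₁ t₂ : ι × ℕ) (c : X × Bool → Prop),
    (∀ j i a b, IsTurn (u j) i a b → (j, i) ≠ t₁ → (j, i) ≠ t₂ → (c a ↔ c b)) →
    ∀ a b, c a ↔ c b

/-- Removing a turn and a vertex leaves the Whitehead graph connected. -/
def Rig2 (u : ι → List (X × Bool)) : Prop :=
  ∀ (t : ι × ℕ) (ε : X × Bool) (c : X × Bool → Prop),
    (∀ j i a b, IsTurn (u j) i a b → (j, i) ≠ t → a ≠ ε → b ≠ ε → (c a ↔ c b)) →
    ∀ a b, a ≠ ε → b ≠ ε → (c a ↔ c b)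

theorem exists_turn_zero {u : List (X × Bool)} (hne : u ≠ []) :
    ∃ a b, IsTurn u 0 a b := by
  have hlen : 0 < u.length := List.length_pos_iff.2 hne
  refine ⟨linv (u[u.length - 1]), u[0], ?_, ?_⟩
  · rw [List.getElem?_eq_getElem hlen]
  · rw [zero_add, Nat.mod_eq_of_lt (by omega), linv_linv, List.getElem?_eq_getElem (by omega)]

theorem turn_ne {u : List (X × Bool)} (hcyc : FreeGroup.IsCyclicallyReduced u) {i : ℕ}
    {a b : X × Bool} (h : IsTurn u i a b) : a ≠ b := by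
  obtain ⟨-, M, h1, h2⟩ := h.rotate
  have h3 := (isCyclicallyReduced_rotate hcyc i).2
  rw [h1] at h3
  have h4 := h3 (linv a) h2 b rfl
  rw [red_iff, linv_linv] at h4
  exact fun h => h4 h.symm

theorem local_conn (u : ι → List (X × Bool)) (hcyc : ∀ j, FreeGroup.IsCyclicallyReduced (u j))
    (hne : ∀ j, u j ≠ []) (h1 : Rig1 u) (h2 : Rig2 u) (f : X × Bool → H)
    (hf : Function.Injective f) (R : H → H → Prop) (t₀ : ι × ℕ) (P : ι → Prop)
    (Z : ι → Set H) (p q : ι → H)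
    (hint : ∀ j i a b, IsTurn (u j) i a b → i ≠ 0 → (j, i) ≠ t₀ → R (f a) (f b))
    (hP : ∀ j, (j, 0) ≠ t₀ → P j)
    (hchain : ∀ j, P j → Conn R (Z j) (p j) (q j))
    (hturn : ∀ j, P j → ∀ a b, IsTurn (u j) 0 a b → R (f a) (p j) ∧ R (q j) (f b))
    (hdisj : ∀ j, ∀ z ∈ Z j, ∀ a, z ≠ f a)
    (hdisj' : ∀ j j', j ≠ j' → Disjoint (Z j) (Z j'))
    (ε : H) (c : H → Prop) (hc : ∀ a b, R a b → a ≠ ε → b ≠ ε → (c a ↔ c b)) :
    ∀ x y, (x ∈ Set.range f ∨ ∃ j, P j ∧ x ∈ Z j) → (y ∈ Set.range f ∨ ∃ j, P j ∧ y ∈ Z j) →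
      x ≠ ε → y ≠ ε → (c x ↔ c y) := by
  by_cases hε : ∃ e, f e = ε
  · obtain ⟨e, rfl⟩ := hε
    have hZne : ∀ j, ∀ z ∈ Z j, z ≠ f e := fun j z hz => hdisj j z hz e
    have hZc : ∀ j, P j → ∀ a ∈ Z j, ∀ b ∈ Z j, (c a ↔ c b) := fun j hj =>
      (hchain j hj).b1 c (fun a ha b hb hab => hc a b hab (hZne j a ha) (hZne j b hb))
    have hX := h2 t₀ e (fun a => c (f a)) (by
      intro j i a b hab hji hae hbe
      have hae' : f a ≠ f e := fun h => hae (hf h)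
      have hbe' : f b ≠ f e := fun h => hbe (hf h)
      rcases eq_or_ne i 0 with rfl | hi
      · have hj := hP j hji
        obtain ⟨r1, r2⟩ := hturn j hj a b hab
        have e1 := hc _ _ r1 hae' (hZne j _ (hchain j hj).hp)
        have e2 := hc _ _ r2 (hZne j _ (hchain j hj).hq) hbe'
        exact e1.trans ((hZc j hj _ (hchain j hj).hp _ (hchain j hj).hq).trans e2)
      · exact hc _ _ (hint j i a b hab hi hji) hae' hbe')
    -- every relevant element is linked to some letter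
    have key : ∀ x, (x ∈ Set.range f ∨ ∃ j, P j ∧ x ∈ Z j) → x ≠ f e →
        ∃ a, a ≠ e ∧ (c x ↔ c (f a)) := by
      rintro x (⟨a, rfl⟩ | ⟨j, hj, hx⟩) hxe
      · exact ⟨a, fun h => hxe (by rw [h]), Iff.rfl⟩
      · obtain ⟨a, b, hab⟩ := exists_turn_zero (hne j)
        obtain ⟨r1, r2⟩ := hturn j hj a b hab
        have hab' := turn_ne (hcyc j) hab
        by_cases hae : a = e
        · have hbe : b ≠ e := fun h => hab' (hae.trans h.symm)
          refine ⟨b, hbe, ?_⟩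
          exact (hZc j hj _ hx _ (hchain j hj).hq).trans
            (hc _ _ r2 (hZne j _ (hchain j hj).hq) (fun h => hbe (hf h)))
        · refine ⟨a, hae, ?_⟩
          exact (hZc j hj _ hx _ (hchain j hj).hp).trans
            (hc _ _ r1 (fun h => hae (hf h)) (hZne j _ (hchain j hj).hp)).symm
    intro x y hx hy hxe hye
    obtain ⟨a, hae, ha⟩ := key x hx hxe
    obtain ⟨b, hbe, hb⟩ := key y hy hye
    exact ha.trans ((hX a b hae hbe).trans hb.symm)
  · have hne' : ∀ a, f a ≠ ε := fun a h => hε ⟨a, h⟩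
    obtain ⟨t₁, ht₁⟩ : ∃ t₁ : ι × ℕ, ∀ j, P j → (j, 0) ≠ t₁ → ε ∉ Z j := by
      by_cases hZ : ∃ j, P j ∧ ε ∈ Z j
      · obtain ⟨j₁, -, hj₁⟩ := hZ
        refine ⟨(j₁, 0), fun j _ hjne hεj => ?_⟩
        have hjj : j ≠ j₁ := fun h => hjne (by rw [h])
        exact (Set.disjoint_left.1 (hdisj' j j₁ hjj)) hεj hj₁
      · exact ⟨t₀, fun j hj _ hεj => hZ ⟨j, hj, hεj⟩⟩
    have hX := h1 t₀ t₁ (fun a => c (f a)) (by
      intro j i a b hab hji hji1
      rcases eq_or_ne i 0 with rfl | hi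
      · have hj := hP j hji
        have hεj := ht₁ j hj hji1
        have hZne : ∀ z ∈ Z j, z ≠ ε := fun z hz h => hεj (h ▸ hz)
        obtain ⟨r1, r2⟩ := hturn j hj a b hab
        have e1 := hc _ _ r1 (hne' a) (hZne _ (hchain j hj).hp)
        have e2 := hc _ _ r2 (hZne _ (hchain j hj).hq) (hne' b)
        have e3 := (hchain j hj).b1 c (fun a ha b hb hab => hc a b hab (hZne a ha) (hZne b hb))
          _ (hchain j hj).hp _ (hchain j hj).hq
        exact e1.trans (e3.trans e2)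
      · exact hc _ _ (hint j i a b hab hi hji) (hne' a) (hne' b))
    have key : ∀ x, (x ∈ Set.range f ∨ ∃ j, P j ∧ x ∈ Z j) → x ≠ ε →
        ∀ a, (c x ↔ c (f a)) := by
      rintro x (⟨b, rfl⟩ | ⟨j, hj, hx⟩) hxe a
      · exact hX b a
      · obtain ⟨a', b', hab⟩ := exists_turn_zero (hne j)
        obtain ⟨r1, r2⟩ := hturn j hj a' b' hab
        refine (hchain j hj).b2 ε c (c (f a)) (fun a _ b _ hab => hc a b hab) ?_ ?_ x hx hxe
        · intro h
          exact (hc _ _ r1 (hne' a') h).symm.trans (hX a' a)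
        · intro h
          exact (hc _ _ r2 h (hne' b')).trans (hX b' a)
    intro x y hx hy hxe hye
    by_cases hXne : Nonempty (X × Bool)
    · obtain ⟨a⟩ := hXne
      exact (key x hx hxe a).trans (key y hy hye a).symm
    · exfalso
      rcases hx with ⟨a, -⟩ | ⟨j, -, -⟩
      · exact hXne ⟨a⟩
      · obtain ⟨a, -, -⟩ := exists_turn_zero (hne j)
        exact hXne ⟨a⟩

end H35.Tape
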