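import Mathlib
import Pool.Agent.H35.Tape.Local

/-!
# The certificate for a single rigid word
-/

set_option linter.unusedSectionVars false

namespace H35.Tape

open Equiv

variable {X V : Type}

theorem Rd_true (σ : X → Perm V) (v : V) (L : List (X × Bool)) :
    Rd σ (fun _ _ => True) v L := by
  induction L generalizing v with
  | nil => trivial
  | cons l L ih => exact ⟨trivial, ih _⟩

/-- exponent sum of a letter -/
noncomputable def expo [DecidableEq X] (x : X) : FreeGroup X →* Multiplicative ℤ :=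
  FreeGroup.lift fun y => if y = x then Multiplicative.ofAdd 1 else 1

theorem expo_self [DecidableEq X] (x : X) (k : ℕ) :
    Multiplicative.toAdd (expo x (FreeGroup.of x ^ k)) = k := by
  rw [map_pow, expo, FreeGroup.lift_apply_of, if_pos rfl, toAdd_pow]
  simp

theorem expo_ne [DecidableEq X] {x y : X} (h : y ≠ x) (k : ℕ) :
    Multiplicative.toAdd (expo x (FreeGroup.of y ^ k)) = 0 := by
  rw [map_pow, expo, FreeGroup.lift_apply_of, if_neg h, one_pow]
  rfl

theorem not_both_mem_zpowers {x y : X} (hxy : x ≠ y) {k l : ℕ} (hk : 0 < k) (hl : 0 < l)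
    (g : FreeGroup X) (h1 : FreeGroup.of x ^ k ∈ Subgroup.zpowers g)
    (h2 : FreeGroup.of y ^ l ∈ Subgroup.zpowers g) : False := by
  classical
  obtain ⟨a, ha⟩ := h1
  obtain ⟨b, hb⟩ := h2
  simp only at ha hb
  have e1 := congrArg (fun t => Multiplicative.toAdd (expo x t)) ha
  have e2 := congrArg (fun t => Multiplicative.toAdd (expo x t)) hb
  have e3 := congrArg (fun t => Multiplicative.toAdd (expo y t)) hb
  simp only [expo_self, expo_ne hxy.symm, map_zpow, toAdd_zpow, smul_eq_mul] at e1 e2 e3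
  have hb0 : b ≠ 0 := by
    rintro rfl
    rw [zero_mul] at e3
    omega
  have hx0 : Multiplicative.toAdd (expo x g) = 0 := by
    rcases mul_eq_zero.1 e2 with h | h
    · exact absurd h hb0
    · exact h
  rw [hx0, mul_zero] at e1
  omega

/-- Certificate for a single rigid word. -/
theorem not_TProp_of_perm [Finite X] [Finite V] (Φ : FreeGroup X →* Perm V)
    (w : List (X × Bool)) (hcyc : FreeGroup.IsCyclicallyReduced w)
    (h1 : Rig1 (fun _ : Unit => w)) (h2 : Rig2 (fun _ : Unit => w))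
    (hX : ∃ x y : X, x ≠ y) (z₁ z₂ : V) (_hz : z₁ ≠ z₂)
    (hf₁ : Φ (FreeGroup.mk w) z₁ = z₁) (hf₂ : Φ (FreeGroup.mk w) z₂ = z₂)
    (horb : ∀ v v', v ≠ z₁ → v ≠ z₂ → v' ≠ z₁ → v' ≠ z₂ →
      ∃ n : ℕ, ((Φ (FreeGroup.mk w))⁻¹ ^ n) v = v')
    (hdist : ∀ i j, i < w.length → j < w.length → i ≠ j → ∀ z z', (z = z₁ ∨ z = z₂) →
      (z' = z₁ ∨ z' = z₂) →
      (Φ (FreeGroup.mk (w.take i)))⁻¹ z ≠ (Φ (FreeGroup.mk (w.take j)))⁻¹ z') :
    ¬ TProp (FreeGroup.mk w) := by
  classical
  obtain ⟨x, y, hxy⟩ := hX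
  have hlen : 3 ≤ w.length := by
    by_contra hcon
    have := h1 ((), 0) ((), 1) (fun a => a = (x, true)) (by
      intro j i a b hab h3 h4
      exfalso
      have h5 : i < w.length := hab.rotate.1
      have h6 : i ≠ 0 := fun h => h3 (by rw [h])
      have h7 : i ≠ 1 := fun h => h4 (by rw [h])
      omega) (x, true) (y, true)
    simp only [true_iff, Prod.mk.injEq, and_true] at this
    exact hxy this.symm
  have hne : w ≠ [] := by
    rintro rfl; simp at hlen
  set σ : X → Perm V := fun x => (Φ (FreeGroup.of x))⁻¹ with hσ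
  have hrep : rep σ = Φ := by
    apply FreeGroup.ext_hom
    intro x
    rw [rep, FreeGroup.lift_apply_of, hσ]
    simp
  have hrun : ∀ v L, run σ v L = (Φ (FreeGroup.mk L))⁻¹ v := by
    intro v L
    rw [run_eq, hrep]
  have hpow : ∀ v e, run σ v (List.replicate e w).flatten = ((Φ (FreeGroup.mk w))⁻¹ ^ e) v := by
    intro v e
    rw [hrun, mk_replicate_flatten, map_pow, inv_pow]
  have hmk0 : FreeGroup.mk (w.take 0) = 1 := rfl
  set v0 : V := (Φ (FreeGroup.mk (w.take 1)))⁻¹ z₁ with hv0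
  have hv1 : v0 ≠ z₁ := by
    have := hdist 1 0 (by omega) (by omega) (by omega) z₁ z₁ (Or.inl rfl) (Or.inl rfl)
    rw [hmk0, map_one, inv_one] at this
    exact this
  have hv2 : v0 ≠ z₂ := by
    have := hdist 1 0 (by omega) (by omega) (by omega) z₁ z₂ (Or.inl rfl) (Or.inr rfl)
    rw [hmk0, map_one, inv_one] at this
    exact this
  -- the index of the missing turn
  have hmiss : ∀ v : V, ∃ i₀, ∀ i, i < w.length → i ≠ i₀ →
      ∃ e, run σ (run σ v0 (List.replicate e w).flatten) (w.take i) = v := by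
    intro v
    obtain ⟨i₀, hi₀⟩ : ∃ i₀, ∀ i, i < w.length → i ≠ i₀ →
        Φ (FreeGroup.mk (w.take i)) v ≠ z₁ ∧ Φ (FreeGroup.mk (w.take i)) v ≠ z₂ := by
      by_cases h : ∃ i₀, i₀ < w.length ∧ (Φ (FreeGroup.mk (w.take i₀)) v = z₁ ∨
          Φ (FreeGroup.mk (w.take i₀)) v = z₂)
      · obtain ⟨i₀, hi₀, hz⟩ := h
        refine ⟨i₀, fun i hi hii => ?_⟩
        have key : ¬ (Φ (FreeGroup.mk (w.take i)) v = z₁ ∨
            Φ (FreeGroup.mk (w.take i)) v = z₂) := by
          intro hz'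
          apply hdist i i₀ hi hi₀ hii _ _ hz' hz
          simp
        push Not at key
        exact key
      · push Not at h
        exact ⟨0, fun i hi _ => h i hi⟩
    refine ⟨i₀, fun i hi hii => ?_⟩
    obtain ⟨n, hn⟩ := horb v0 _ hv1 hv2 (hi₀ i hi hii).1 (hi₀ i hi hii).2
    refine ⟨n, ?_⟩
    rw [hpow, hn, hrun]
    simp
  refine not_TProp_of_cert σ (fun _ _ => True) (fun _ _ _ => trivial) v0 w hcyc hne
    (fun e => Rd_true σ _ _) ?_ ?_ ?_ ?_
  · intro v ε c hc a b _ _ ha hb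
    obtain ⟨i₀, hi₀⟩ := hmiss v
    refine h2 ((), i₀) ε c ?_ a b ha hb
    intro j i a b hab hji ha hb
    have hi : i ≠ i₀ := fun h => hji (by rw [h])
    obtain ⟨e, he⟩ := hi₀ i hab.rotate.1 hi
    exact hc e i a b he hab ha hb
  · intro c hc a b _ _
    obtain ⟨i₀, hi₀⟩ := hmiss v0
    refine h1 ((), i₀) ((), i₀) c ?_ a b
    intro j i a b hab hji _
    have hi : i ≠ i₀ := fun h => hji (by rw [h])
    obtain ⟨e, he⟩ := hi₀ i hab.rotate.1 hi
    exact hc e i a b he hab
  · by_contra hcon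
    push Not at hcon
    have key : ∀ x : X, ∃ k, 0 < k ∧ FreeGroup.of x ^ k ∈ Subgroup.zpowers (FreeGroup.mk w) := by
      intro x
      refine ⟨orderOf (Φ (FreeGroup.of x)), orderOf_pos _, hcon _ ⟨Rd_true σ _ _, ?_⟩⟩
      rw [hrun, FreeGroup.mk_toWord, map_pow, pow_orderOf_eq_one]
      simp
    obtain ⟨k, hk, hk'⟩ := key x
    obtain ⟨l, hl, hl'⟩ := key y
    exact not_both_mem_zpowers hxy hk hl _ hk' hl'
  · refine ⟨FreeGroup.invRev (w.take 1), fun e he => ?_⟩
    rw [hpow, hrun, ← FreeGroup.inv_mk, map_inv, inv_inv] at he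
    have e1 : Φ (FreeGroup.mk (w.take 1)) v0 = z₁ := by rw [hv0]; simp
    rw [e1] at he
    have e2 : ((Φ (FreeGroup.mk w))⁻¹ ^ e) z₁ = z₁ := by
      have e3 : (Φ (FreeGroup.mk w))⁻¹ z₁ = z₁ := by
        rw [Perm.inv_eq_iff_eq]; exact hf₁.symm
      induction e with
      | zero => simp
      | succ e ih =>
        clear ih
        have : ∀ n : ℕ, ((Φ (FreeGroup.mk w))⁻¹ ^ n) z₁ = z₁ := by
          intro n
          induction n with
          | zero => simp
          | succ n ih => rw [pow_succ, Perm.mul_apply, e3, ih]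
        exact this _
    exact hv1 (((Φ (FreeGroup.mk w))⁻¹ ^ e).injective (he.trans e2.symm))

end H35.Tape
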