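import Mathlib
import Pool.Agent.H35.Tape.Single

/-!
# The action on the projective line
-/

set_option linter.unusedSectionVars false

namespace H35.Tape

open Equiv Matrix
open scoped LinearAlgebra.Projectivization MatrixGroups

section lines

variable {K : Type} [Field K]

theorem smul_vec (A : SL(2, K)) (v : Fin 2 → K) : A • v = A.1 *ᵥ v := rfl

theorem exists_eigen (A : SL(2, K)) (μ : K) (htr : μ * μ - A.1.trace * μ + 1 = 0) :
    ∃ v : Fin 2 → K, v ≠ 0 ∧ A • v = μ • v := by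
  have hdet := A.2
  rw [Matrix.det_fin_two] at hdet
  rw [Matrix.trace_fin_two] at htr
  have h1 : (A.1 - μ • (1 : Matrix (Fin 2) (Fin 2) K)).det = 0 := by
    rw [Matrix.det_fin_two]
    simp only [Matrix.sub_apply, Matrix.smul_apply, Matrix.one_apply, smul_eq_mul]
    simp
    linear_combination htr + hdet
  obtain ⟨v, hv, hv'⟩ := Matrix.exists_mulVec_eq_zero_iff.2 h1
  refine ⟨v, hv, ?_⟩
  rw [Matrix.sub_mulVec, Matrix.smul_mulVec, Matrix.one_mulVec, sub_eq_zero] at hv'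
  exact hv'

theorem smul_mk_of_eigen {A : SL(2, K)} {v : Fin 2 → K} (hv : v ≠ 0) {c : K}
    (h : A • v = c • v) : A • Projectivization.mk K v hv = Projectivization.mk K v hv := by
  rw [Projectivization.smul_mk, Projectivization.mk_eq_mk_iff']
  exact ⟨c, h.symm⟩

theorem eigen_of_smul_mk {A : SL(2, K)} {v : Fin 2 → K} (hv : v ≠ 0)
    (h : A • Projectivization.mk K v hv = Projectivization.mk K v hv) :
    ∃ c : K, c ≠ 0 ∧ A • v = c • v := by
  rw [Projectivization.smul_mk, Projectivization.mk_eq_mk_iff'] at h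
  obtain ⟨c, hc⟩ := h
  refine ⟨c, ?_, hc.symm⟩
  rintro rfl
  rw [zero_smul] at hc
  exact (smul_ne_zero_iff_ne A).2 hv hc.symm

theorem inv_eigen {A : SL(2, K)} {v : Fin 2 → K} {c : K} (hc : c ≠ 0) (h : A • v = c • v) :
    A⁻¹ • v = c⁻¹ • v := by
  rw [inv_smul_eq_iff, smul_comm, h, smul_smul, inv_mul_cancel₀ hc, one_smul]

theorem trace_comm_of_common {A B : SL(2, K)} {p : ℙ K (Fin 2 → K)} (hA : A • p = p)
    (hB : B • p = p) : (A * B * A⁻¹ * B⁻¹).1.trace = 2 := by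
  induction p using Projectivization.ind with
  | h v hv =>
    obtain ⟨a, ha, ha'⟩ := eigen_of_smul_mk hv hA
    obtain ⟨b, hb, hb'⟩ := eigen_of_smul_mk hv hB
    have h1 : (A * B * A⁻¹ * B⁻¹) • v = v := by
      rw [mul_smul, mul_smul, mul_smul, inv_eigen hb hb', smul_comm A⁻¹, inv_eigen ha ha',
        smul_comm B, smul_comm B, hb', smul_comm A, smul_comm A, smul_comm A, ha']
      simp only [smul_smul]
      rw [show b⁻¹ * (a⁻¹ * (b * a)) = 1 by field_simp, one_smul]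
    set C := A * B * A⁻¹ * B⁻¹ with hC
    have h2 : (C.1 - 1).det = 0 := by
      rw [← Matrix.exists_mulVec_eq_zero_iff]
      refine ⟨v, hv, ?_⟩
      rw [Matrix.sub_mulVec, Matrix.one_mulVec, sub_eq_zero]
      exact h1
    have hdet := C.2
    rw [Matrix.det_fin_two] at hdet h2
    rw [Matrix.trace_fin_two]
    simp only [Matrix.sub_apply, Matrix.one_apply] at h2
    simp at h2
    linear_combination hdet - h2

theorem orbit_lines [Finite K] (hchar : ringChar K = 2) (A : SL(2, K)) (μ : Kˣ)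
    (hgen : ∀ x : Kˣ, x ∈ Subgroup.zpowers μ) {e₁ e₂ : Fin 2 → K} (h₁ : e₁ ≠ 0) (h₂ : e₂ ≠ 0)
    (hne : (μ : K) ≠ (μ : K)⁻¹)
    (hA₁ : A • e₁ = (μ : K) • e₁) (hA₂ : A • e₂ = ((μ : K)⁻¹) • e₂)
    (p p' : ℙ K (Fin 2 → K)) (hp₁ : p ≠ Projectivization.mk K e₁ h₁)
    (hp₂ : p ≠ Projectivization.mk K e₂ h₂) (hp'₁ : p' ≠ Projectivization.mk K e₁ h₁)
    (hp'₂ : p' ≠ Projectivization.mk K e₂ h₂) : ∃ n : ℕ, (A⁻¹ ^ n) • p = p' := by
  have hμ : (μ : K) ≠ 0 := μ.ne_zero
  have hli : LinearIndependent K ![e₁, e₂] := by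
    rw [LinearIndependent.pair_iff]
    intro s t hst
    have h3 : A • (s • e₁ + t • e₂) = 0 := by rw [hst, smul_zero]
    rw [smul_add, smul_comm A s, smul_comm A t, hA₁, hA₂] at h3
    have h4 : (s * ((μ : K) - (μ : K)⁻¹)) • e₁ = 0 := by
      have h5 : (s * ((μ : K) - (μ : K)⁻¹)) • e₁ =
          (s • (μ : K) • e₁ + t • (μ : K)⁻¹ • e₂) - (μ : K)⁻¹ • (s • e₁ + t • e₂) := by
        simp only [smul_smul, smul_add, mul_sub, sub_smul]
        rw [mul_comm (μ : K)⁻¹ s, mul_comm (μ : K)⁻¹ t]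
        abel
      rw [h5, h3, hst, smul_zero, sub_zero]
    have h5 : s = 0 := by
      rcases smul_eq_zero.1 h4 with h | h
      · rcases mul_eq_zero.1 h with h | h
        · exact h
        · exact absurd (sub_eq_zero.1 h) hne
      · exact absurd h h₁
    subst h5
    rw [zero_smul, zero_add] at hst
    exact ⟨rfl, (smul_eq_zero.1 hst).resolve_right h₂⟩
  have hspan : ∀ v : Fin 2 → K, ∃ α β : K, v = α • e₁ + β • e₂ := by
    intro v
    have h3 := hli.span_eq_top_of_card_eq_finrank (by simp)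
    have h4 : v ∈ Submodule.span K (Set.range ![e₁, e₂]) := by rw [h3]; trivial
    simp only [Matrix.range_cons, Matrix.range_empty, Set.union_empty, Set.singleton_union] at h4
    rw [Submodule.mem_span_pair] at h4
    obtain ⟨a, b, hab⟩ := h4
    exact ⟨a, b, hab.symm⟩
  have hdec : ∀ p : ℙ K (Fin 2 → K), p ≠ Projectivization.mk K e₁ h₁ →
      p ≠ Projectivization.mk K e₂ h₂ → ∃ (α β : K) (hv : α • e₁ + β • e₂ ≠ 0), α ≠ 0 ∧ β ≠ 0 ∧
        p = Projectivization.mk K (α • e₁ + β • e₂) hv := by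
    intro p
    induction p using Projectivization.ind with
    | h v hv =>
      intro h3 h4
      obtain ⟨α, β, rfl⟩ := hspan v
      refine ⟨α, β, hv, ?_, ?_, rfl⟩
      · rintro rfl
        apply h4
        rw [Projectivization.mk_eq_mk_iff']
        exact ⟨β, by rw [zero_smul, zero_add]⟩
      · rintro rfl
        apply h3
        rw [Projectivization.mk_eq_mk_iff']
        exact ⟨α, by rw [zero_smul, add_zero]⟩
  obtain ⟨α, β, hv, hα, hβ, rfl⟩ := hdec p hp₁ hp₂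
  obtain ⟨α', β', hv', hα', hβ', rfl⟩ := hdec p' hp'₁ hp'₂
  obtain ⟨ν, hν⟩ := FiniteField.isSquare_of_char_two hchar ((α * β') / (α' * β))
  have hν0 : ν ≠ 0 := by
    rintro rfl
    rw [mul_zero, div_eq_zero_iff] at hν
    rcases hν with h | h <;> simp_all
  obtain ⟨n, hn⟩ : ∃ n : ℕ, μ ^ n = Units.mk0 ν hν0 := by
    have := hgen (Units.mk0 ν hν0)
    rw [← mem_powers_iff_mem_zpowers] at this
    exact this
  have hn' : (μ : K) ^ n = ν := by
    have := congrArg (fun x : Kˣ => (x : K)) hn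
    simpa using this
  refine ⟨n, ?_⟩
  have hpow₁ : ∀ n : ℕ, (A⁻¹ ^ n) • e₁ = ((μ : K)⁻¹ ^ n) • e₁ := by
    intro n
    induction n with
    | zero => simp
    | succ n ih => rw [pow_succ', mul_smul, ih, smul_comm A⁻¹, inv_eigen hμ hA₁, smul_smul, ← pow_succ]
  have hpow₂ : ∀ n : ℕ, (A⁻¹ ^ n) • e₂ = ((μ : K) ^ n) • e₂ := by
    intro n
    induction n with
    | zero => simp
    | succ n ih =>
      rw [pow_succ', mul_smul, ih, smul_comm A⁻¹, inv_eigen (inv_ne_zero hμ) hA₂, inv_inv,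
        smul_smul, ← pow_succ]
  rw [Projectivization.smul_mk, Projectivization.mk_eq_mk_iff']
  refine ⟨α * ν⁻¹ / α', ?_⟩
  rw [smul_add, smul_add, smul_comm (A⁻¹ ^ n) α, smul_comm (A⁻¹ ^ n) β, hpow₁, hpow₂, inv_pow, hn',
    smul_smul, smul_smul, smul_smul, smul_smul]
  have e1 : α * ν⁻¹ / α' * α' = α * ν⁻¹ := by field_simp
  have e2 : α * ν⁻¹ / α' * β' = β * ν := by
    have : ν * ν * (α' * β) = α * β' := by
      rw [← hν]; field_simp
    field_simp
    linear_combination -this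
  rw [e1, e2]

end lines

/-- Certificate from a representation over a finite field of characteristic two. -/
theorem not_TProp_of_SL {X : Type} [Finite X] {K : Type} [Field K] [Finite K]
    (hchar : ringChar K = 2) (hcard : 4 ≤ Nat.card K) (Ψ : FreeGroup X →* SL(2, K))
    (w : List (X × Bool)) (hcyc : FreeGroup.IsCyclicallyReduced w)
    (h1 : Rig1 (fun _ : Unit => w)) (h2 : Rig2 (fun _ : Unit => w))
    (hX : ∃ x y : X, x ≠ y) (μ : Kˣ) (hgen : ∀ x : Kˣ, x ∈ Subgroup.zpowers μ)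
    (htr : (Ψ (FreeGroup.mk w)).1.trace = (μ : K) + (μ : K)⁻¹)
    (hcomm : ∀ i j, i < w.length → j < w.length → i ≠ j →
      (Ψ (((FreeGroup.mk (w.take i))⁻¹ * FreeGroup.mk w * FreeGroup.mk (w.take i)) *
        ((FreeGroup.mk (w.take j))⁻¹ * FreeGroup.mk w * FreeGroup.mk (w.take j)) *
        ((FreeGroup.mk (w.take i))⁻¹ * FreeGroup.mk w * FreeGroup.mk (w.take i))⁻¹ *
        ((FreeGroup.mk (w.take j))⁻¹ * FreeGroup.mk w * FreeGroup.mk (w.take j))⁻¹)).1.trace ≠ 2) :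
    ¬ TProp (FreeGroup.mk w) := by
  classical
  have hμ : (μ : K) ≠ 0 := μ.ne_zero
  have hne : (μ : K) ≠ (μ : K)⁻¹ := by
    intro h
    have h3 : μ ^ 2 = 1 := by
      apply Units.ext
      rw [Units.val_pow_eq_pow_val, Units.val_one, sq]
      nth_rewrite 2 [h]
      exact mul_inv_cancel₀ hμ
    have h4 : Nat.card Kˣ ≤ 2 := by
      rw [← orderOf_eq_card_of_forall_mem_zpowers hgen]
      exact Nat.le_of_dvd (by norm_num) (orderOf_dvd_of_pow_eq_one h3)
    rw [Nat.card_units] at h4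
    omega
  obtain ⟨e₁, he₁, hA₁⟩ := exists_eigen (Ψ (FreeGroup.mk w)) (μ : K) (by
    rw [htr]; field_simp; ring)
  obtain ⟨e₂, he₂, hA₂⟩ := exists_eigen (Ψ (FreeGroup.mk w)) ((μ : K)⁻¹) (by
    rw [htr]; field_simp; ring)
  set z₁ := Projectivization.mk K e₁ he₁ with hz₁
  set z₂ := Projectivization.mk K e₂ he₂ with hz₂
  have hf₁ := smul_mk_of_eigen he₁ hA₁
  have hf₂ := smul_mk_of_eigen he₂ hA₂
  have hz : z₁ ≠ z₂ := by
    intro h
    rw [hz₁, hz₂, Projectivization.mk_eq_mk_iff'] at h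
    obtain ⟨a, ha⟩ := h
    have h3 : Ψ (FreeGroup.mk w) • e₁ = (μ : K)⁻¹ • e₁ := by
      rw [← ha, smul_comm, hA₂, smul_comm]
    rw [hA₁, ← sub_eq_zero, ← sub_smul] at h3
    rcases smul_eq_zero.1 h3 with h4 | h4
    · exact hne (sub_eq_zero.1 h4)
    · exact he₁ h4
  let Φ : FreeGroup X →* Perm (ℙ K (Fin 2 → K)) := (MulAction.toPermHom _ _).comp Ψ
  have hΦ : ∀ g p, Φ g p = Ψ g • p := fun g p => rfl
  have hΦ' : ∀ g p, (Φ g)⁻¹ p = (Ψ g)⁻¹ • p := fun g p => rfl
  have hfin : Finite (ℙ K (Fin 2 → K)) := inferInstance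
  refine not_TProp_of_perm Φ w hcyc h1 h2 hX z₁ z₂ hz hf₁ hf₂ ?_ ?_
  · intro v v' hv₁ hv₂ hv'₁ hv'₂
    obtain ⟨n, hn⟩ := orbit_lines hchar (Ψ (FreeGroup.mk w)) μ hgen he₁ he₂ hne hA₁ hA₂ v v'
      hv₁ hv₂ hv'₁ hv'₂
    refine ⟨n, ?_⟩
    rw [← map_inv, ← map_pow, hΦ, map_pow, map_inv]
    exact hn
  · intro i j hi hj hij z z' hzz hzz' heq
    apply hcomm i j hi hj hij
    have hfz : ∀ z, (z = z₁ ∨ z = z₂) → Ψ (FreeGroup.mk w) • z = z := by
      rintro z (rfl | rfl)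
      · exact hf₁
      · exact hf₂
    have key : ∀ i z, (z = z₁ ∨ z = z₂) →
        Ψ ((FreeGroup.mk (w.take i))⁻¹ * FreeGroup.mk w * FreeGroup.mk (w.take i)) •
          ((Φ (FreeGroup.mk (w.take i)))⁻¹ z) = (Φ (FreeGroup.mk (w.take i)))⁻¹ z := by
      intro i z hz
      rw [hΦ', map_mul, map_mul, mul_smul, smul_inv_smul, mul_smul, hfz z hz, map_inv]
    have h3 := key i z hzz
    have h4 := key j z' hzz'
    rw [← heq] at h4
    have h5 := trace_comm_of_common h3 h4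
    rw [map_mul, map_mul, map_mul, map_inv, map_inv]
    exact h5

end H35.Tape
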