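import Mathlib
import Pool.Agent.H35.Tape.P1

/-!
# Rotations of a word which is not a proper power do not commute
-/

set_option linter.unusedSectionVars false

namespace H35.Tape

variable {X : Type}

theorem of_comm_imp {Y : Type*} {i j : Y}
    (h : FreeGroup.of i * FreeGroup.of j = FreeGroup.of j * FreeGroup.of i) : i = j := by
  classical
  have h1 : FreeGroup.mk [(i, true), (j, true)] = FreeGroup.mk [(j, true), (i, true)] := h
  have h2 := congrArg FreeGroup.toWord h1
  rw [toWord_mk_of_isReduced (by simp [FreeGroup.IsReduced]),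
    toWord_mk_of_isReduced (by simp [FreeGroup.IsReduced])] at h2
  simp only [List.cons.injEq, Prod.mk.injEq, and_true] at h2
  exact h2.1

theorem exists_zpowers_of_commute (a b : FreeGroup X) (h : a * b = b * a) :
    ∃ z, a ∈ Subgroup.zpowers z ∧ b ∈ Subgroup.zpowers z := by
  set H : Subgroup (FreeGroup X) := Subgroup.closure {a, b} with hH
  have hcomm : ∀ x y : H, x * y = y * x := by
    intro x y
    have hc : ∀ x ∈ ({a, b} : Set (FreeGroup X)), ∀ y ∈ ({a, b} : Set (FreeGroup X)),
        x * y = y * x := by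
      rintro x (rfl | rfl) y (rfl | rfl)
      · rfl
      · exact h
      · exact h.symm
      · rfl
    have := Subgroup.isMulCommutative_closure hc
    exact this.is_comm.comm x y
  have ha : a ∈ H := Subgroup.subset_closure (by simp)
  have hb : b ∈ H := Subgroup.subset_closure (by simp)
  let G := IsFreeGroup.Generators H
  let e : FreeGroup G ≃* H := IsFreeGroup.mulEquiv H
  have hsub : Subsingleton G := by
    refine ⟨fun i j => of_comm_imp ?_⟩
    apply e.injective
    rw [map_mul, map_mul, hcomm]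
  have key : ∃ z : FreeGroup G, ∀ x : FreeGroup G, x ∈ Subgroup.zpowers z := by
    by_cases hne : Nonempty G
    · obtain ⟨g⟩ := hne
      refine ⟨FreeGroup.of g, fun x => ?_⟩
      induction x using FreeGroup.induction_on with
      | C1 => exact Subgroup.one_mem _
      | of x => rw [Subsingleton.elim x g]; exact Subgroup.mem_zpowers _
      | inv_of x hx => exact Subgroup.inv_mem _ hx
      | mul x y hx hy => exact Subgroup.mul_mem _ hx hy
    · refine ⟨1, fun x => ?_⟩
      have hemp : IsEmpty G := not_nonempty_iff.1 hne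
      have : x = 1 := Subsingleton.elim _ _
      rw [this]
      exact Subgroup.one_mem _
  obtain ⟨z, hz⟩ := key
  refine ⟨(e z : FreeGroup X), ?_, ?_⟩
  · obtain ⟨n, hn⟩ := hz (e.symm ⟨a, ha⟩)
    refine ⟨n, ?_⟩
    have h1 := congrArg (fun t => ((e t : H) : FreeGroup X)) hn
    simpa using h1
  · obtain ⟨n, hn⟩ := hz (e.symm ⟨b, hb⟩)
    refine ⟨n, ?_⟩
    have h1 := congrArg (fun t => ((e t : H) : FreeGroup X)) hn
    simpa using h1

/-- not a proper power -/
def NoPower {G : Type*} [Group G] (ω : G) : Prop :=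
  ∀ (z : G) (n : ℤ), ω = z ^ n → n = 1 ∨ n = -1

theorem NoPower.mem_zpowers {ω g : FreeGroup X} (h : NoPower ω) (hc : ω * g = g * ω) :
    g ∈ Subgroup.zpowers ω := by
  obtain ⟨z, ⟨n, hn⟩, ⟨m, hm⟩⟩ := exists_zpowers_of_commute ω g hc
  simp only at hn hm
  rcases h z n hn.symm with rfl | rfl
  · rw [zpow_one] at hn
    rw [← hn]
    exact ⟨m, hm⟩
  · refine ⟨-m, ?_⟩
    simp only
    rw [← hn, ← hm]
    rw [← zpow_mul]
    congr 1
    ring

theorem pow_eq_one_imp {g : FreeGroup X} {n : ℕ} (hn : n ≠ 0) (h : g ^ n = 1) : g = 1 :=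
  pow_left_injective hn (by simpa using h)

theorem NoPower.ne_one {ω : FreeGroup X} (h : NoPower ω) : ω ≠ 1 := by
  rintro rfl
  rcases h 1 0 (by simp) with h | h <;> omega

theorem NoPower.conj_comm {ω g : FreeGroup X} (h : NoPower ω)
    (hc : ω * (g⁻¹ * ω * g) = (g⁻¹ * ω * g) * ω) : g ∈ Subgroup.zpowers ω := by
  obtain ⟨n, hn⟩ := h.mem_zpowers hc
  simp only at hn
  have h1 : ω = (g * ω * g⁻¹) ^ n := by
    rw [← MulAut.conj_apply, ← map_zpow, hn, MulAut.conj_apply]
    group
  rcases h _ n h1 with rfl | rfl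
  · apply h.mem_zpowers
    rw [zpow_one] at hn
    calc ω * g = g * (g⁻¹ * ω * g) := by group
      _ = g * ω := by rw [← hn]
  · exfalso
    rw [zpow_neg_one] at hn
    have h2 : ω * g ^ 2 = g ^ 2 * ω := by
      have e1 : ω * g = g * ω⁻¹ := by rw [hn]; group
      have e2 : ω⁻¹ * g = g * ω := by
        have : (ω * g)⁻¹ = (g * ω⁻¹)⁻¹ := by rw [e1]
        rw [mul_inv_rev, mul_inv_rev, inv_inv] at this
        calc ω⁻¹ * g = g * (g⁻¹ * ω⁻¹) * g := by group
          _ = g * (ω * g⁻¹) * g := by rw [this]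
          _ = g * ω := by group
      calc ω * g ^ 2 = (ω * g) * g := by rw [sq]; group
        _ = g * (ω⁻¹ * g) := by rw [e1]; group
        _ = g ^ 2 * ω := by rw [e2, sq]; group
    obtain ⟨k, hk⟩ := h.mem_zpowers h2
    simp only at hk
    have h3 : g⁻¹ * ω ^ k * g = ω ^ k := by rw [hk]; group
    have h4 : g⁻¹ * ω ^ k * g = ω ^ (-k) := by
      have : g⁻¹ * ω ^ k * g = (g⁻¹ * ω * g) ^ k := by
        have e := map_zpow (MulAut.conj g⁻¹) ω k
        rw [MulAut.conj_apply, MulAut.conj_apply, inv_inv] at e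
        exact e
      rw [this, ← hn, inv_zpow, zpow_neg]
    have h5 : ω ^ (2 * k) = 1 := by
      have e : ω ^ k = ω ^ (-k) := h3.symm.trans h4
      rw [two_mul, zpow_add]
      nth_rewrite 2 [e]
      rw [← zpow_add]; simp
    have h6 : k = 0 := by
      by_contra hk0
      have h7 : ω ^ (2 * k).natAbs = 1 := by
        rcases Int.natAbs_eq (2 * k) with h8 | h8
        · rw [h8, zpow_natCast] at h5; exact h5
        · rw [h8, zpow_neg, zpow_natCast, inv_eq_one] at h5; exact h5
      exact h.ne_one (pow_eq_one_imp (by omega) h7)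
    subst h6
    rw [zpow_zero] at hk
    have h7 : g = 1 := pow_eq_one_imp two_ne_zero hk.symm
    subst h7
    have h8 : ω ^ 2 = 1 := by
      have : ω⁻¹ = ω := by simpa using hn
      rw [sq]
      nth_rewrite 1 [← this]
      simp
    exact h.ne_one (pow_eq_one_imp two_ne_zero h8)

theorem rotations_not_comm {w : List (X × Bool)} (hcyc : FreeGroup.IsCyclicallyReduced w)
    (h : NoPower (FreeGroup.mk w)) {i j : ℕ} (hi : i < w.length) (hj : j < w.length)
    (hij : i ≠ j) :
    ((FreeGroup.mk (w.take i))⁻¹ * FreeGroup.mk w * FreeGroup.mk (w.take i)) *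
      ((FreeGroup.mk (w.take j))⁻¹ * FreeGroup.mk w * FreeGroup.mk (w.take j)) *
      ((FreeGroup.mk (w.take i))⁻¹ * FreeGroup.mk w * FreeGroup.mk (w.take i))⁻¹ *
      ((FreeGroup.mk (w.take j))⁻¹ * FreeGroup.mk w * FreeGroup.mk (w.take j))⁻¹ ≠ 1 := by
  classical
  intro heq
  set ω := FreeGroup.mk w with hω
  -- lengths
  have key : ∀ i j : ℕ, i < w.length → j < w.length → ∀ k : ℕ,
      FreeGroup.mk (w.take j) = ω ^ k * FreeGroup.mk (w.take i) → i = j := by
    intro i j hi hj k hk
    have hred : FreeGroup.IsReduced ((List.replicate k w).flatten ++ w.take i) := by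
      have h1 := (hcyc.flatten_replicate (k + 1)).isReduced
      rw [List.replicate_succ', List.flatten_append, List.flatten_singleton] at h1
      have h2 : (List.replicate k w).flatten ++ w =
          ((List.replicate k w).flatten ++ w.take i) ++ w.drop i := by
        rw [List.append_assoc, List.take_append_drop]
      rw [h2] at h1
      exact (isReduced_append_iff.1 h1).1
    have hred' : FreeGroup.IsReduced (w.take j) := by
      have h1 := hcyc.isReduced
      rw [← List.take_append_drop j w] at h1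
      exact (isReduced_append_iff.1 h1).1
    rw [hω, ← mk_replicate_flatten, FreeGroup.mul_mk] at hk
    have h2 := congrArg FreeGroup.toWord hk
    rw [toWord_mk_of_isReduced hred, toWord_mk_of_isReduced hred'] at h2
    have h3 := congrArg List.length h2
    rw [List.length_append, List.length_take, List.length_take] at h3
    have h4 : (List.replicate k w).flatten.length = k * w.length := by simp
    rw [h4] at h3
    rcases Nat.eq_zero_or_pos k with hk0 | hk0
    · subst hk0; omega
    · have : w.length ≤ k * w.length := Nat.le_mul_of_pos_left _ hk0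
      omega
  set p := FreeGroup.mk (w.take i) with hp
  set q := FreeGroup.mk (w.take j) with hq
  have h1 : ω * ((q * p⁻¹)⁻¹ * ω * (q * p⁻¹)) = ((q * p⁻¹)⁻¹ * ω * (q * p⁻¹)) * ω := by
    have h2 : (p⁻¹ * ω * p) * (q⁻¹ * ω * q) = (q⁻¹ * ω * q) * (p⁻¹ * ω * p) := by
      have := congrArg (fun t => t * (q⁻¹ * ω * q) * (p⁻¹ * ω * p)) heq
      simpa [mul_assoc] using this
    calc ω * ((q * p⁻¹)⁻¹ * ω * (q * p⁻¹)) = p * ((p⁻¹ * ω * p) * (q⁻¹ * ω * q)) * p⁻¹ := by group
      _ = p * ((q⁻¹ * ω * q) * (p⁻¹ * ω * p)) * p⁻¹ := by rw [h2]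
      _ = _ := by group
  obtain ⟨n, hn⟩ := h.conj_comm h1
  simp only at hn
  rcases Int.natAbs_eq n with h3 | h3
  · rw [h3, zpow_natCast] at hn
    exact hij (key i j hi hj n.natAbs (by rw [← hp, ← hq, hn]; group))
  · rw [h3, zpow_neg, zpow_natCast, inv_eq_iff_eq_inv] at hn
    exact hij (key j i hj hi n.natAbs (by rw [← hp, ← hq, hn]; group)).symm

theorem TProp.noPower {ω : FreeGroup X} (hT : TProp ω) (hX : ∃ x y : X, x ≠ y) :
    NoPower ω := by
  intro z n hz
  have hmem : ω ^ 1 ∈ Subgroup.zpowers z := ⟨n, by simp [hz]⟩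
  rcases hT (Subgroup.zpowers z) 1 one_pos hmem (fun β h1 h2 => by omega) with h | h
  · obtain ⟨ι, b, i, hb⟩ := h
    -- a homomorphism to `ℤ`
    let φ : Subgroup.zpowers z →* Multiplicative ℤ :=
      b.lift (fun _ => Multiplicative.ofAdd 1)
    have h1 : φ ⟨ω ^ 1, hmem⟩ = Multiplicative.ofAdd 1 := by
      rw [← hb]
      simp [φ, FreeGroupBasis.lift]
    have h2 : (⟨ω ^ 1, hmem⟩ : Subgroup.zpowers z) = ⟨z, Subgroup.mem_zpowers z⟩ ^ n := by
      apply Subtype.ext
      simp [hz]
    rw [h2, map_zpow] at h1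
    have h3 := congrArg Multiplicative.toAdd h1
    rw [toAdd_zpow, toAdd_ofAdd, smul_eq_mul] at h3
    have h4 : n ∣ 1 := ⟨_, h3.symm⟩
    exact Int.isUnit_iff.1 (isUnit_of_dvd_one h4)
  · exfalso
    rw [Subgroup.index_eq_one] at h
    obtain ⟨x, y, hxy⟩ := hX
    refine not_both_mem_zpowers hxy (k := 1) (l := 1) one_pos one_pos z ?_ ?_
    · rw [h]; trivial
    · rw [h]; trivial

end H35.Tape
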