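import Mathlib
import Pool.Agent.H35.Tape.Basis

/-!
# Forms and the moves between them
-/

namespace H35.Tape

variable {F : Type*} [Group F]

/-- A block of a surface word: a square or a commutator. -/
inductive Block (F : Type*) where
  | sq (z : F) : Block F
  | comm (x y : F) : Block F

namespace Block

/-- the letters of a block -/
def letters : Block F → List F
  | sq z => [z]
  | comm x y => [x, y]

/-- the value of a block -/
def val : Block F → F
  | sq z => z * z
  | comm x y => x * y * x⁻¹ * y⁻¹

/-- conjugate of a block -/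
def conj (g : F) : Block F → Block F
  | sq z => sq (g * z * g⁻¹)
  | comm x y => comm (g * x * g⁻¹) (g * y * g⁻¹)

theorem val_conj (g : F) (B : Block F) : (B.conj g).val = g * B.val * g⁻¹ := by
  cases B <;> simp only [conj, val] <;> group

theorem letters_conj (g : F) (B : Block F) :
    (B.conj g).letters = B.letters.map (fun a => g * a * g⁻¹) := by
  cases B <;> rfl

theorem val_mem (B : Block F) : B.val ∈ cl B.letters := by
  cases B with
  | sq z =>
    have h : z ∈ cl (Block.sq z).letters := mem_cl_of_mem (by simp [letters])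
    exact Subgroup.mul_mem _ h h
  | comm x y =>
    have hx : x ∈ cl (Block.comm x y).letters := mem_cl_of_mem (by simp [letters])
    have hy : y ∈ cl (Block.comm x y).letters := mem_cl_of_mem (by simp [letters])
    exact Subgroup.mul_mem _ (Subgroup.mul_mem _ (Subgroup.mul_mem _ hx hy)
      (Subgroup.inv_mem _ hx)) (Subgroup.inv_mem _ hy)

end Block

/-- A piece of a form. -/
inductive Piece (F : Type*) where
  | fac (c u : F) : Piece F
  | gen (L : List F) (β : F) : Piece F
  | blk (B : Block F) : Piece F

namespace Piece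

/-- the letters of a piece -/
def letters : Piece F → List F
  | fac c _ => [c]
  | gen L _ => L
  | blk B => B.letters

/-- the value of a piece -/
def val : Piece F → F
  | fac c u => c * u * c⁻¹
  | gen _ β => β
  | blk B => B.val

/-- conjugate of a piece -/
def conj (g : F) : Piece F → Piece F
  | fac c u => fac (g * c) u
  | gen L β => gen (L.map (fun a => g * a * g⁻¹)) (g * β * g⁻¹)
  | blk B => blk (B.conj g)

/-- the piece is valid over the subgroup `K` -/
def Ok (K : Subgroup F) : Piece F → Prop
  | fac _ u => u ∈ K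
  | gen L β => β ∈ cl L
  | blk _ => True

/-- number of surface letters -/
def q : Piece F → ℕ
  | fac _ _ => 0
  | gen _ _ => 0
  | blk B => B.letters.length

theorem val_conj (g : F) (P : Piece F) : (P.conj g).val = g * P.val * g⁻¹ := by
  cases P with
  | fac c u => simp only [conj, val]; group
  | gen L β => rfl
  | blk B => exact B.val_conj g

theorem q_conj (g : F) (P : Piece F) : (P.conj g).q = P.q := by
  cases P with
  | fac c u => rfl
  | gen L β => rfl
  | blk B => simp [conj, q, Block.letters_conj]

theorem length_conj (g : F) (P : Piece F) : (P.conj g).letters.length = P.letters.length := by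
  cases P with
  | fac c u => rfl
  | gen L β => simp [conj, letters]
  | blk B => simp [conj, letters, Block.letters_conj]

theorem conj_mem_cl {L : List F} {β g : F} (h : β ∈ cl L) :
    g * β * g⁻¹ ∈ cl (L.map (fun a => g * a * g⁻¹)) := by
  have h1 : cl L ≤ (cl (L.map (fun a => g * a * g⁻¹))).comap (MulAut.conj g).toMonoidHom := by
    refine cl_le ?_
    intro x hx
    change g * x * g⁻¹ ∈ cl (L.map (fun a => g * a * g⁻¹))
    exact mem_cl_of_mem (List.mem_map.2 ⟨x, hx, rfl⟩)
  exact h1 h

theorem Ok.conj {K : Subgroup F} {P : Piece F} (h : P.Ok K) (g : F) : (P.conj g).Ok K := by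
  cases P with
  | fac c u => exact h
  | gen L β => exact conj_mem_cl h
  | blk B => trivial

theorem Ok.mono {K K' : Subgroup F} {P : Piece F} (h : P.Ok K) (hK : K ≤ K') : P.Ok K' := by
  cases P with
  | fac c u => exact hK h
  | gen L β => exact h
  | blk B => trivial

theorem val_mem {K : Subgroup F} {P : Piece F} (h : P.Ok K) (M : Subgroup F) (hK : K ≤ M)
    (hL : cl P.letters ≤ M) : P.val ∈ M := by
  cases P with
  | fac c u =>
    have hc : c ∈ M := hL (mem_cl_of_mem (by simp [letters]))
    exact Subgroup.mul_mem _ (Subgroup.mul_mem _ hc (hK h)) (Subgroup.inv_mem _ hc)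
  | gen L β => exact hL h
  | blk B => exact hL B.val_mem

theorem forall₂_conj {K : Subgroup F} {g : F} (hg : g ∈ K) (P : Piece F) :
    List.Forall₂ (fun a a' : F => ∃ g ∈ K, ∃ k ∈ K, a' = g * a * k) P.letters
      (P.conj g).letters := by
  have hmap : ∀ L : List F, List.Forall₂ (fun a a' : F => ∃ g ∈ K, ∃ k ∈ K, a' = g * a * k) L
      (L.map (fun a => g * a * g⁻¹)) := by
    intro L
    induction L with
    | nil => exact List.Forall₂.nil
    | cons a L ih => exact List.Forall₂.cons ⟨g, hg, g⁻¹, Subgroup.inv_mem _ hg, rfl⟩ ih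
  cases P with
  | fac c u =>
    exact List.Forall₂.cons ⟨g, hg, 1, Subgroup.one_mem _, by rw [mul_one]⟩ List.Forall₂.nil
  | gen L β => exact hmap L
  | blk B =>
    change List.Forall₂ _ B.letters (B.conj g).letters
    rw [Block.letters_conj]
    exact hmap _

end Piece

/-- all letters of the pieces -/
def lets (ps : List (Piece F)) : List F := ps.flatMap Piece.letters

/-- the product of the values -/
def pval (ps : List (Piece F)) : F := (ps.map Piece.val).prod

/-- the number of surface letters -/
def qc (ps : List (Piece F)) : ℕ := (ps.map Piece.q).sum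

omit [Group F] in
@[simp] theorem lets_nil : lets ([] : List (Piece F)) = [] := rfl
omit [Group F] in
@[simp] theorem lets_cons (P : Piece F) (ps : List (Piece F)) :
    lets (P :: ps) = P.letters ++ lets ps := by simp [lets]
omit [Group F] in
@[simp] theorem lets_append (ps qs : List (Piece F)) : lets (ps ++ qs) = lets ps ++ lets qs := by
  simp [lets]
@[simp] theorem pval_nil : pval ([] : List (Piece F)) = 1 := rfl
@[simp] theorem pval_cons (P : Piece F) (ps : List (Piece F)) :
    pval (P :: ps) = P.val * pval ps := by simp [pval]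
@[simp] theorem pval_append (ps qs : List (Piece F)) : pval (ps ++ qs) = pval ps * pval qs := by
  simp [pval]
omit [Group F] in
@[simp] theorem qc_nil : qc ([] : List (Piece F)) = 0 := rfl
omit [Group F] in
@[simp] theorem qc_cons (P : Piece F) (ps : List (Piece F)) :
    qc (P :: ps) = P.q + qc ps := by simp [qc]
omit [Group F] in
@[simp] theorem qc_append (ps qs : List (Piece F)) : qc (ps ++ qs) = qc ps + qc qs := by
  simp [qc]

theorem pval_conj (g : F) (ps : List (Piece F)) :
    pval (ps.map (Piece.conj g)) = g * pval ps * g⁻¹ := by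
  induction ps with
  | nil => simp
  | cons P ps ih => rw [List.map_cons, pval_cons, pval_cons, ih, Piece.val_conj]; group

theorem qc_conj (g : F) (ps : List (Piece F)) : qc (ps.map (Piece.conj g)) = qc ps := by
  induction ps with
  | nil => rfl
  | cons P ps ih => rw [List.map_cons, qc_cons, qc_cons, ih, Piece.q_conj]

theorem length_lets_conj (g : F) (ps : List (Piece F)) :
    (lets (ps.map (Piece.conj g))).length = (lets ps).length := by
  induction ps with
  | nil => rfl
  | cons P ps ih => simp [ih, Piece.length_conj]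

theorem forall₂_lets_conj {K : Subgroup F} {g : F} (hg : g ∈ K) (ps : List (Piece F)) :
    List.Forall₂ (fun a a' => ∃ g ∈ K, ∃ k ∈ K, a' = g * a * k) (lets ps)
      (lets (ps.map (Piece.conj g))) := by
  induction ps with
  | nil => exact List.Forall₂.nil
  | cons P ps ih =>
    rw [List.map_cons, lets_cons, lets_cons]
    exact List.rel_append (Piece.forall₂_conj hg P) ih

theorem pval_mem {K : Subgroup F} {ps : List (Piece F)} (h : ∀ P ∈ ps, P.Ok K) (M : Subgroup F)
    (hK : K ≤ M) (hL : cl (lets ps) ≤ M) : pval ps ∈ M := by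
  induction ps with
  | nil => exact Subgroup.one_mem _
  | cons P ps ih =>
    rw [pval_cons]
    rw [lets_cons] at hL
    refine Subgroup.mul_mem _ (Piece.val_mem (h P List.mem_cons_self) M hK
      ((cl_mono fun x hx => List.mem_append_left _ hx).trans hL)) ?_
    exact ih (fun P' hP' => h P' (List.mem_cons_of_mem _ hP'))
      ((cl_mono fun x hx => List.mem_append_right _ hx).trans hL)

/-- A form of `ω`. -/
structure IsForm (ω : F) (Lx : List F) (u₀ : F) (ps : List (Piece F)) : Prop where
  basis : IsBasis (Lx ++ lets ps)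
  hu : u₀ ∈ cl Lx
  ok : ∀ P ∈ ps, P.Ok (cl Lx)
  conj : IsConj ω (u₀ * pval ps)

theorem isConj_rotate (a b : F) : IsConj (a * b) (b * a) := by
  rw [isConj_iff]
  exact ⟨b, by group⟩

theorem isConj_conj (g a : F) : IsConj a (g * a * g⁻¹) := isConj_iff.2 ⟨g, rfl⟩

/-- bring a piece to the front of a sublist -/
theorem IsForm.front {ω : F} {Lx : List F} {u₀ : F} {pre₀ pre post : List (Piece F)} {P : Piece F}
    (h : IsForm ω Lx u₀ (pre₀ ++ (pre ++ P :: post))) :
    IsForm ω Lx u₀ (pre₀ ++ (P :: (pre.map (Piece.conj (P.val)⁻¹) ++ post))) where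
  basis := by
    have h1 : IsBasis ((Lx ++ (lets pre₀ ++ (P.letters ++ lets post))) ++ lets pre) := by
      refine h.basis.perm ?_
      simp only [lets_append, lets_cons]
      classical
      rw [List.perm_iff_count]
      intro a
      simp only [List.count_append, List.count_cons, List.count_nil, List.nil_append,
        List.append_nil]
      omega
    have hP : P.val ∈ cl (Lx ++ (lets pre₀ ++ (P.letters ++ lets post))) := by
      refine Piece.val_mem (h.ok P (by simp)) _ (cl_mono fun x hx => by simp [hx])
        (cl_mono fun x hx => by simp [hx])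
    have h2 := h1.transv (forall₂_lets_conj (Subgroup.inv_mem _ hP) pre)
    refine h2.perm ?_
    simp only [lets_append, lets_cons]
    classical
    rw [List.perm_iff_count]
    intro a
    simp only [List.count_append, List.count_cons, List.count_nil, List.nil_append,
      List.append_nil]
    omega
  hu := h.hu
  ok := by
    intro Q hQ
    simp only [List.mem_append, List.mem_cons, List.mem_map] at hQ
    rcases hQ with hQ | rfl | ⟨Q', hQ', rfl⟩ | hQ
    · exact h.ok Q (by simp [hQ])
    · exact h.ok Q (by simp)
    · exact (h.ok Q' (by simp [hQ'])).conj _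
    · exact h.ok Q (by simp [hQ])
  conj := by
    have : u₀ * pval (pre₀ ++ (P :: (pre.map (Piece.conj (P.val)⁻¹) ++ post))) =
        u₀ * pval (pre₀ ++ (pre ++ P :: post)) := by
      simp only [pval_append, pval_cons, pval_conj]
      group
    rw [this]
    exact h.conj

/-- partition the pieces according to a predicate -/
theorem IsForm.partition {ω : F} {Lx : List F} {u₀ : F} (p : Piece F → Prop)
    (hp' : ∀ P g, ¬ p P → ¬ p (P.conj g))
    {ps post : List (Piece F)} (h : IsForm ω Lx u₀ (ps ++ post)) :
    ∃ ps₁ ps₂, (∀ P ∈ ps₁, p P) ∧ (∀ P ∈ ps₂, ¬ p P) ∧ IsForm ω Lx u₀ (ps₁ ++ (ps₂ ++ post)) ∧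
      qc (ps₁ ++ ps₂) = qc ps ∧ (lets (ps₁ ++ ps₂)).length = (lets ps).length ∧
      (∀ P ∈ ps₁ ++ ps₂, ∃ Q ∈ ps, ∃ g, P = Q.conj g) := by
  classical
  have hone : ∀ P : Piece F, P.conj 1 = P := by
    intro P
    cases P with
    | fac c u => simp [Piece.conj]
    | gen L β => simp [Piece.conj]
    | blk B => cases B <;> simp [Piece.conj, Block.conj]
  have hmul : ∀ (P : Piece F) (g k : F), (P.conj g).conj k = P.conj (k * g) := by
    intro P g k
    cases P with
    | fac c u => simp [Piece.conj, mul_assoc]
    | gen L β => simp [Piece.conj, mul_assoc]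
    | blk B => cases B <;> simp [Piece.conj, Block.conj, mul_assoc]
  have key : ∀ (ps ps₁ ps₂ : List (Piece F)), (∀ P ∈ ps₁, p P) → (∀ P ∈ ps₂, ¬ p P) →
      IsForm ω Lx u₀ (ps₁ ++ (ps₂ ++ (ps ++ post))) →
      ∃ ps₁' ps₂', (∀ P ∈ ps₁', p P) ∧ (∀ P ∈ ps₂', ¬ p P) ∧
      IsForm ω Lx u₀ (ps₁' ++ (ps₂' ++ post)) ∧
      qc (ps₁' ++ ps₂') = qc (ps₁ ++ (ps₂ ++ ps)) ∧
      (lets (ps₁' ++ ps₂')).length = (lets (ps₁ ++ (ps₂ ++ ps))).length ∧
      (∀ P ∈ ps₁' ++ ps₂', ∃ Q ∈ ps₁ ++ (ps₂ ++ ps), ∃ g, P = Q.conj g) := by
    intro ps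
    induction ps with
    | nil =>
      intro ps₁ ps₂ h1 h2 h
      rw [List.nil_append] at h
      refine ⟨ps₁, ps₂, h1, h2, h, by simp, by simp, ?_⟩
      intro P hP
      exact ⟨P, by simpa using hP, 1, (hone P).symm⟩
    | cons P ps ih =>
      intro ps₁ ps₂ h1 h2 h
      by_cases hP : p P
      · have h3 := h.front
        obtain ⟨ps₁', ps₂', g1, g2, g3, g4, g5, g6⟩ := ih (ps₁ ++ [P])
          (ps₂.map (Piece.conj (P.val)⁻¹))
          (by
            intro Q hQ
            rcases List.mem_append.1 hQ with hQ | hQ
            · exact h1 Q hQ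
            · rw [List.mem_singleton.1 hQ]; exact hP)
          (by
            intro Q hQ
            obtain ⟨Q', hQ', rfl⟩ := List.mem_map.1 hQ
            exact hp' Q' _ (h2 Q' hQ'))
          (by simpa using h3)
        refine ⟨ps₁', ps₂', g1, g2, g3, ?_, ?_, ?_⟩
        · rw [g4]
          simp only [qc_append, qc_cons, qc_nil, qc_conj]
          omega
        · rw [g5]
          simp only [lets_append, lets_cons, lets_nil, List.length_append, length_lets_conj,
            List.length_nil]
          omega
        · intro Q hQ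
          obtain ⟨Q', hQ', g, rfl⟩ := g6 Q hQ
          simp only [List.mem_append, List.mem_singleton, List.mem_map] at hQ'
          rcases hQ' with (hQ' | rfl) | ⟨Q'', hQ'', rfl⟩ | hQ'
          · exact ⟨Q', by simp [hQ'], g, rfl⟩
          · exact ⟨Q', by simp, g, rfl⟩
          · exact ⟨Q'', by simp [hQ''], _, hmul _ _ _⟩
          · exact ⟨Q', by simp [hQ'], g, rfl⟩
      · obtain ⟨ps₁', ps₂', g1, g2, g3, g4, g5, g6⟩ := ih ps₁ (ps₂ ++ [P]) h1
          (by
            intro Q hQ
            rcases List.mem_append.1 hQ with hQ | hQ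
            · exact h2 Q hQ
            · rw [List.mem_singleton.1 hQ]; exact hP)
          (by simpa using h)
        refine ⟨ps₁', ps₂', g1, g2, g3, ?_, ?_, ?_⟩
        · rw [g4]; simp
        · rw [g5]; simp
        · intro Q hQ
          obtain ⟨Q', hQ', g, rfl⟩ := g6 Q hQ
          exact ⟨Q', by simpa using hQ', g, rfl⟩
  have := key ps [] [] (by simp) (by simp) (by simpa using h)
  simpa using this

/-- conjugate the base by an element of `cl Lx` -/
theorem IsForm.conjBase {ω : F} {Lx : List F} {u₀ : F} {ps : List (Piece F)}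
    (h : IsForm ω Lx u₀ ps) {g : F} (hg : g ∈ cl Lx) :
    IsForm ω Lx (g * u₀ * g⁻¹) (ps.map (Piece.conj g)) where
  basis := h.basis.transv (forall₂_lets_conj hg ps)
  hu := Subgroup.mul_mem _ (Subgroup.mul_mem _ hg h.hu) (Subgroup.inv_mem _ hg)
  ok := by
    intro Q hQ
    obtain ⟨Q', hQ', rfl⟩ := List.mem_map.1 hQ
    exact (h.ok Q' hQ').conj g
  conj := by
    refine h.conj.trans ?_
    rw [pval_conj]
    have : g * u₀ * g⁻¹ * (g * pval ps * g⁻¹) = g * (u₀ * pval ps) * g⁻¹ := by group
    rw [this]
    exact isConj_conj _ _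

/-- conjugate the inner element of a factor -/
theorem IsForm.conjFac {ω : F} {Lx : List F} {u₀ c u : F} {pre post : List (Piece F)}
    (h : IsForm ω Lx u₀ (pre ++ Piece.fac c u :: post)) {g : F} (hg : g ∈ cl Lx) :
    IsForm ω Lx u₀ (pre ++ Piece.fac (c * g⁻¹) (g * u * g⁻¹) :: post) where
  basis := by
    have h1 : IsBasis ((Lx ++ (lets pre ++ lets post)) ++ [c]) := by
      refine h.basis.perm ?_
      simp only [lets_append, lets_cons, Piece.letters]
      classical
      rw [List.perm_iff_count]
      intro a
      simp only [List.count_append, List.count_cons, List.count_nil, List.nil_append,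
        List.append_nil]
      omega
    have hg' : g ∈ cl (Lx ++ (lets pre ++ lets post)) := cl_mono (fun x hx => by simp [hx]) hg
    have h2 := h1.transv (L' := [c * g⁻¹]) (List.Forall₂.cons ⟨1, Subgroup.one_mem _, g⁻¹,
      Subgroup.inv_mem _ hg', by rw [one_mul]⟩ List.Forall₂.nil)
    refine h2.perm ?_
    simp only [lets_append, lets_cons, Piece.letters]
    classical
    rw [List.perm_iff_count]
    intro a
    simp only [List.count_append, List.count_cons, List.count_nil, List.nil_append,
      List.append_nil]
    omega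
  hu := h.hu
  ok := by
    intro Q hQ
    simp only [List.mem_append, List.mem_cons] at hQ
    rcases hQ with hQ | rfl | hQ
    · exact h.ok Q (by simp [hQ])
    · have hu : u ∈ cl Lx := h.ok (Piece.fac c u) (by simp)
      exact Subgroup.mul_mem _ (Subgroup.mul_mem _ hg hu) (Subgroup.inv_mem _ hg)
    · exact h.ok Q (by simp [hQ])
  conj := by
    have : u₀ * pval (pre ++ Piece.fac (c * g⁻¹) (g * u * g⁻¹) :: post) =
        u₀ * pval (pre ++ Piece.fac c u :: post) := by
      simp only [pval_append, pval_cons, Piece.val]
      group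
    rw [this]
    exact h.conj

/-- make the first factor the base -/
theorem IsForm.rebase {ω : F} {Lx : List F} {u₀ c u : F} {R : List (Piece F)}
    (h : IsForm ω Lx u₀ (Piece.fac c u :: R)) :
    IsForm ω Lx u (R.map (Piece.conj c⁻¹) ++ [Piece.fac c⁻¹ u₀]) where
  basis := by
    have h1 : IsBasis (c :: (Lx ++ lets R)) := by
      refine h.basis.perm ?_
      simp only [lets_cons, Piece.letters]
      classical
      rw [List.perm_iff_count]
      intro a
      simp only [List.count_append, List.count_cons, List.count_nil, List.nil_append,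
        List.append_nil]
      omega
    have h2 := h1.cons_inv
    have h3 : IsBasis ((Lx ++ [c⁻¹]) ++ lets R) := h2.perm (by
        classical
        rw [List.perm_iff_count]
        intro a
        simp only [List.count_append, List.count_cons, List.count_nil, List.nil_append,
          List.append_nil]
        omega)
    have hc : c⁻¹ ∈ cl (Lx ++ [c⁻¹]) := mem_cl_of_mem (by simp)
    have h4 := h3.transv (forall₂_lets_conj hc R)
    refine h4.perm ?_
    simp only [lets_append, lets_cons, lets_nil, Piece.letters]
    classical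
    rw [List.perm_iff_count]
    intro a
    simp only [List.count_append, List.count_cons, List.count_nil, List.nil_append,
      List.append_nil]
    omega
  hu := h.ok (Piece.fac c u) (by simp)
  ok := by
    intro Q hQ
    simp only [List.mem_append, List.mem_map, List.mem_singleton] at hQ
    rcases hQ with ⟨Q', hQ', rfl⟩ | rfl
    · exact (h.ok Q' (by simp [hQ'])).conj _
    · exact h.hu
  conj := by
    refine h.conj.trans ?_
    simp only [pval_append, pval_cons, pval_nil, Piece.val, pval_conj]
    rw [isConj_iff]
    exact ⟨c⁻¹ * u₀⁻¹, by group⟩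

theorem IsForm.permX {ω : F} {Lx Lx' : List F} {u₀ : F} {ps : List (Piece F)}
    (h : IsForm ω Lx u₀ ps) (hp : Lx.Perm Lx') : IsForm ω Lx' u₀ ps where
  basis := h.basis.perm (hp.append_right _)
  hu := cl_mono (fun _ hx => hp.mem_iff.1 hx) h.hu
  ok := fun P hP => (h.ok P hP).mono (cl_mono fun _ hx => hp.mem_iff.1 hx)
  conj := h.conj

/-- change a letter of `Lx` -/
theorem IsForm.changeX {ω : F} {y g k : F} {L : List F} {u₀ : F} {ps : List (Piece F)}
    (h : IsForm ω (y :: L) u₀ ps) (hg : g ∈ cl L) (hk : k ∈ cl L) :
    IsForm ω (g * y * k :: L) u₀ ps := by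
  have hy : y ∈ cl (g * y * k :: L) := by
    have h1 : g * y * k ∈ cl (g * y * k :: L) := mem_cl_of_mem (by simp)
    have hg' : g ∈ cl (g * y * k :: L) := cl_mono (fun x hx => by simp [hx]) hg
    have hk' : k ∈ cl (g * y * k :: L) := cl_mono (fun x hx => by simp [hx]) hk
    have := Subgroup.mul_mem _ (Subgroup.mul_mem _ (Subgroup.inv_mem _ hg') h1)
      (Subgroup.inv_mem _ hk')
    have h2 : g⁻¹ * (g * y * k) * k⁻¹ = y := by group
    rwa [h2] at this
  have hle : cl (y :: L) ≤ cl (g * y * k :: L) := by
    refine cl_le ?_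
    intro x hx
    rcases List.mem_cons.1 hx with rfl | hx
    · exact hy
    · exact mem_cl_of_mem (by simp [hx])
  refine ⟨?_, hle h.hu, fun P hP => (h.ok P hP).mono hle, h.conj⟩
  exact h.basis.cons_mul (cl_mono (fun x hx => List.mem_append_left _ hx) hg)
    (cl_mono (fun x hx => List.mem_append_left _ hx) hk)

theorem IsForm.invX {ω : F} {y : F} {L : List F} {u₀ : F} {ps : List (Piece F)}
    (h : IsForm ω (y :: L) u₀ ps) : IsForm ω (y⁻¹ :: L) u₀ ps := by
  have hle : cl (y :: L) ≤ cl (y⁻¹ :: L) := by
    refine cl_le ?_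
    intro x hx
    rcases List.mem_cons.1 hx with rfl | hx
    · have : x⁻¹ ∈ cl (x⁻¹ :: L) := mem_cl_of_mem (by simp)
      simpa using Subgroup.inv_mem _ this
    · exact mem_cl_of_mem (by simp [hx])
  exact ⟨h.basis.cons_inv, hle h.hu, fun P hP => (h.ok P hP).mono hle, h.conj⟩

/-- `O3a` -/
theorem IsForm.o3a {ω y g d : F} {L : List F} {ps : List (Piece F)}
    (h : IsForm ω (y :: L) (y * g * y * d) ps) (hg : g ∈ cl L) (hd : d ∈ cl L)
    (hps : ∀ P ∈ ps, P.Ok (cl L)) :
    IsForm ω L (g⁻¹ * d) (ps ++ [Piece.blk (Block.sq (y * g))]) where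
  basis := by
    have h0 : IsBasis (y :: (L ++ lets ps)) := h.basis
    have h1 := h0.cons_mul (Subgroup.one_mem _)
      (cl_mono (fun x hx => List.mem_append_left _ hx) hg)
    rw [one_mul] at h1
    refine h1.perm ?_
    simp only [lets_append, lets_cons, lets_nil, Piece.letters, Block.letters]
    classical
    rw [List.perm_iff_count]
    intro a
    simp only [List.count_append, List.count_cons, List.count_nil, List.nil_append,
      List.append_nil]
    omega
  hu := Subgroup.mul_mem _ (Subgroup.inv_mem _ hg) hd
  ok := by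
    intro Q hQ
    simp only [List.mem_append, List.mem_singleton] at hQ
    rcases hQ with hQ | rfl
    · exact hps Q hQ
    · trivial
  conj := by
    refine h.conj.trans ?_
    simp only [pval_append, pval_cons, pval_nil, Piece.val, Block.val]
    rw [isConj_iff]
    exact ⟨(y * g * (y * g))⁻¹, by group⟩

/-- `O3b` -/
theorem IsForm.o3b {ω y g d : F} {L : List F} {ps : List (Piece F)}
    (h : IsForm ω (y :: L) (y * g * y⁻¹ * d) ps) (hg : g ∈ cl L) (hd : d ∈ cl L)
    (hps : ∀ P ∈ ps, P.Ok (cl L)) :
    IsForm ω L d (ps ++ [Piece.fac y g]) where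
  basis := by
    refine h.basis.perm ?_
    simp only [lets_append, lets_cons, lets_nil, Piece.letters]
    classical
    rw [List.perm_iff_count]
    intro a
    simp only [List.count_append, List.count_cons, List.count_nil, List.nil_append,
      List.append_nil]
    omega
  hu := hd
  ok := by
    intro Q hQ
    simp only [List.mem_append, List.mem_singleton] at hQ
    rcases hQ with hQ | rfl
    · exact hps Q hQ
    · exact hg
  conj := by
    refine h.conj.trans ?_
    simp only [pval_append, pval_cons, pval_nil, Piece.val]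
    rw [isConj_iff]
    exact ⟨(y * g * y⁻¹)⁻¹, by group⟩

/-- `O3c`, same sign -/
theorem IsForm.o3c {ω y g c : F} {L : List F} {R : List (Piece F)}
    (h : IsForm ω (y :: L) y (Piece.fac c (y * g) :: R)) (hg : g ∈ cl L)
    (hR : ∀ P ∈ R, P.Ok (cl L)) :
    IsForm ω L g⁻¹ (R ++ [Piece.blk (Block.sq (y * c)), Piece.blk (Block.sq (c⁻¹ * g))]) where
  basis := by
    -- `y, c ↦ y * c, c⁻¹ * g`
    have h1 : IsBasis (y :: (c :: (L ++ lets R))) := by
      refine h.basis.perm ?_
      simp only [lets_cons, Piece.letters]
      classical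
      rw [List.perm_iff_count]
      intro a
      simp only [List.count_append, List.count_cons, List.count_nil, List.nil_append,
        List.append_nil]
      omega
    have hc : c ∈ cl (c :: (L ++ lets R)) := mem_cl_of_mem (by simp)
    have h2 := h1.cons_mul (Subgroup.one_mem _) hc
    rw [one_mul] at h2
    have h3 : IsBasis (c :: (y * c :: (L ++ lets R))) := h2.perm (List.Perm.swap _ _ _)
    have h4 := h3.cons_inv
    have hg' : g ∈ cl (y * c :: (L ++ lets R)) := cl_mono (fun x hx => by simp [hx]) hg
    have h5 := h4.cons_mul (Subgroup.one_mem _) hg'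
    rw [one_mul] at h5
    refine h5.perm ?_
    simp only [lets_append, lets_cons, lets_nil, Piece.letters, Block.letters]
    classical
    rw [List.perm_iff_count]
    intro a
    simp only [List.count_append, List.count_cons, List.count_nil, List.nil_append,
      List.append_nil]
    omega
  hu := Subgroup.inv_mem _ hg
  ok := by
    intro Q hQ
    simp only [List.mem_append, List.mem_cons, List.not_mem_nil, or_false] at hQ
    rcases hQ with hQ | rfl | rfl
    · exact hR Q hQ
    · trivial
    · trivial
  conj := by
    refine h.conj.trans ?_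
    simp only [pval_append, pval_cons, pval_nil, Piece.val, Block.val]
    rw [isConj_iff]
    exact ⟨(y * c * (y * c) * (c⁻¹ * g * (c⁻¹ * g)))⁻¹, by group⟩

/-- `O3c`, opposite signs -/
theorem IsForm.o3c' {ω y g c : F} {L : List F} {R : List (Piece F)}
    (h : IsForm ω (y :: L) y (Piece.fac c (y⁻¹ * g) :: R)) (hg : g ∈ cl L)
    (hR : ∀ P ∈ R, P.Ok (cl L)) :
    IsForm ω L g (R.map (Piece.conj c⁻¹) ++ [Piece.blk (Block.comm c⁻¹ y)]) where
  basis := by
    have h1 : IsBasis (c :: (y :: (L ++ lets R))) := by
      refine h.basis.perm ?_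
      simp only [lets_cons, Piece.letters]
      classical
      rw [List.perm_iff_count]
      intro a
      simp only [List.count_append, List.count_cons, List.count_nil, List.nil_append,
        List.append_nil]
      omega
    have h2 := h1.cons_inv
    have h3 : IsBasis ((c⁻¹ :: y :: L) ++ lets R) := h2
    have hc : c⁻¹ ∈ cl (c⁻¹ :: y :: L) := mem_cl_of_mem (by simp)
    have h4 := h3.transv (forall₂_lets_conj hc R)
    refine h4.perm ?_
    simp only [lets_append, lets_cons, lets_nil, Piece.letters, Block.letters]
    classical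
    rw [List.perm_iff_count]
    intro a
    simp only [List.count_append, List.count_cons, List.count_nil, List.nil_append,
      List.append_nil]
    omega
  hu := hg
  ok := by
    intro Q hQ
    simp only [List.mem_append, List.mem_map, List.mem_singleton] at hQ
    rcases hQ with ⟨Q', hQ', rfl⟩ | rfl
    · exact (hR Q' hQ').conj _
    · trivial
  conj := by
    refine h.conj.trans ?_
    simp only [pval_append, pval_cons, pval_nil, Piece.val, Block.val, pval_conj]
    rw [isConj_iff]
    exact ⟨(y * c * y⁻¹)⁻¹, by group⟩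

/-- `O2` -/
theorem IsForm.o2 {ω a b : F} {L₁ L₂ : List F} {ps₂ ps₁ : List (Piece F)}
    (h : IsForm ω (L₁ ++ L₂) (a * b) (ps₂ ++ ps₁)) (ha : a ∈ cl L₁) (hb : b ∈ cl L₂)
    (h₂ : ∀ P ∈ ps₂, P.Ok (cl L₂)) (h₁ : ∀ P ∈ ps₁, P.Ok (cl L₁)) :
    IsForm ω L₁ a (Piece.gen (L₂ ++ lets ps₂) (b * pval ps₂) :: ps₁) where
  basis := by
    refine h.basis.perm ?_
    simp only [lets_append, lets_cons, Piece.letters]
    classical
    rw [List.perm_iff_count]
    intro a
    simp only [List.count_append, List.count_cons, List.count_nil, List.nil_append,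
      List.append_nil]
    omega
  hu := ha
  ok := by
    intro Q hQ
    rcases List.mem_cons.1 hQ with rfl | hQ
    · refine Subgroup.mul_mem _ (cl_mono (fun x hx => by simp [hx]) hb) ?_
      exact pval_mem h₂ _ (cl_mono fun x hx => by simp [hx]) (cl_mono fun x hx => by simp [hx])
    · exact h₁ Q hQ
  conj := by
    have : a * pval (Piece.gen (L₂ ++ lets ps₂) (b * pval ps₂) :: ps₁) =
        a * b * pval (ps₂ ++ ps₁) := by
      simp only [pval_append, pval_cons, Piece.val]
      group
    rw [this]
    exact h.conj

end H35.Tape
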