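import Mathlib
import Pool.Agent.H35.Tape.Forms

/-!
# Improving forms
-/

namespace H35.Tape

variable {F : Type*} [Group F]

/-- the inner elements of the factors -/
def facs : List (Piece F) → List F
  | [] => []
  | Piece.fac _ u :: ps => u :: facs ps
  | Piece.gen _ _ :: ps => facs ps
  | Piece.blk _ :: ps => facs ps

omit [Group F] in
@[simp] theorem facs_nil : facs ([] : List (Piece F)) = [] := rfl
omit [Group F] in
@[simp] theorem facs_fac (c u : F) (ps : List (Piece F)) :
    facs (Piece.fac c u :: ps) = u :: facs ps := rfl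
omit [Group F] in
@[simp] theorem facs_gen (L : List F) (β : F) (ps : List (Piece F)) :
    facs (Piece.gen L β :: ps) = facs ps := rfl
omit [Group F] in
@[simp] theorem facs_blk (B : Block F) (ps : List (Piece F)) :
    facs (Piece.blk B :: ps) = facs ps := rfl

omit [Group F] in
@[simp] theorem facs_append (ps qs : List (Piece F)) : facs (ps ++ qs) = facs ps ++ facs qs := by
  induction ps with
  | nil => rfl
  | cons P ps ih => cases P <;> simp [ih]

theorem facs_conj (g : F) (ps : List (Piece F)) : facs (ps.map (Piece.conj g)) = facs ps := by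
  induction ps with
  | nil => rfl
  | cons P ps ih => cases P <;> simp [Piece.conj, ih]

omit [Group F] in
theorem mem_facs {ps : List (Piece F)} {v : F} : v ∈ facs ps ↔ ∃ c, Piece.fac c v ∈ ps := by
  induction ps with
  | nil => simp
  | cons P ps ih =>
    cases P with
    | fac c u =>
      rw [facs_fac, List.mem_cons, ih]
      constructor
      · rintro (rfl | ⟨c', h⟩)
        · exact ⟨c, by simp⟩
        · exact ⟨c', by simp [h]⟩
      · rintro ⟨c', h⟩
        rcases List.mem_cons.1 h with h | h
        · left
          exact (Piece.fac.inj h).2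
        · exact Or.inr ⟨c', h⟩
    | gen L β =>
      rw [facs_gen, ih]
      simp
    | blk B =>
      rw [facs_blk, ih]
      simp

theorem IsForm.ok_of_facs {ω : F} {Lx : List F} {u₀ : F} {ps : List (Piece F)}
    (h : IsForm ω Lx u₀ ps) {K : Subgroup F} (hK : ∀ v ∈ facs ps, v ∈ K) : ∀ P ∈ ps, P.Ok K := by
  intro P hP
  cases P with
  | fac c u => exact hK u (mem_facs.2 ⟨c, hP⟩)
  | gen L β => exact h.ok (Piece.gen L β) hP
  | blk B => trivial

/-- bring a factor to the front -/
theorem IsForm.frontFac {ω : F} {Lx : List F} {u₀ v : F} {ps : List (Piece F)}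
    (h : IsForm ω Lx u₀ ps) (hv : v ∈ facs ps) :
    ∃ c R, IsForm ω Lx u₀ (Piece.fac c v :: R) ∧ (v :: facs R).Perm (facs ps) ∧
      qc R = qc ps ∧ (lets (Piece.fac c v :: R)).length = (lets ps).length := by
  obtain ⟨c, hc⟩ := mem_facs.1 hv
  obtain ⟨pre, post, rfl⟩ := List.append_of_mem hc
  have h1 := IsForm.front (pre₀ := []) (pre := pre) (P := Piece.fac c v) (post := post)
    (by simpa using h)
  rw [List.nil_append] at h1
  refine ⟨c, _, h1, ?_, ?_, ?_⟩
  · simp only [facs_append, facs_conj, facs_fac]
    exact List.perm_middle.symm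
  · simp only [qc_append, qc_cons, qc_conj, Piece.q]
    omega
  · simp only [lets_append, lets_cons, List.length_append, length_lets_conj, Piece.letters]
    omega

/-- change the base -/
theorem IsForm.focus {ω : F} {Lx : List F} {u₀ v : F} {ps : List (Piece F)}
    (h : IsForm ω Lx u₀ ps) (hv : v ∈ facs ps) :
    ∃ R, IsForm ω Lx v R ∧ (v :: facs R).Perm (u₀ :: facs ps) ∧
      qc R = qc ps ∧ (lets R).length = (lets ps).length := by
  obtain ⟨c, R, h1, h2, h3, h4⟩ := h.frontFac hv
  refine ⟨_, h1.rebase, ?_, ?_, ?_⟩
  · simp only [facs_append, facs_conj, facs_fac, facs_nil]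
    refine List.Perm.trans ?_ (h2.cons u₀)
    classical
    rw [List.perm_iff_count]
    intro a
    simp only [List.count_append, List.count_cons, List.count_nil, List.nil_append,
      List.append_nil]
    omega
  · simp only [qc_append, qc_cons, qc_nil, qc_conj, Piece.q]
    omega
  · rw [← h4]
    simp only [lets_append, lets_cons, lets_nil, List.length_append, length_lets_conj,
      Piece.letters, List.length_nil, List.length_singleton]
    omega

variable {ω : F}

/-- no factor has trivial inner element -/
theorem no_trivial_fac (hT : TProp ω) (hnp : ¬ IsPrim ω) {Lx : List F} {u₀ : F}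
    {ps : List (Piece F)} (h : IsForm ω Lx u₀ ps) (h1 : (1 : F) ∈ facs ps) : False := by
  obtain ⟨c, R, h2, -⟩ := h.frontFac h1
  have h3 : IsBasis ((Lx ++ lets R) ++ [c]) := by
    refine h2.basis.perm ?_
    simp only [lets_cons, Piece.letters]
    classical
    rw [List.perm_iff_count]
    intro a
    simp only [List.count_append, List.count_cons, List.count_nil, List.nil_append,
      List.append_nil]
    omega
  refine not_mem_proper hT hnp h3 (by simp) (x := u₀ * pval R) ?_ ?_
  · refine Subgroup.mul_mem _ (cl_mono (fun x hx => by simp [hx]) h2.hu) ?_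
    exact pval_mem (fun P hP => h2.ok P (by simp [hP])) _ (cl_mono fun x hx => by simp [hx])
      (cl_mono fun x hx => by simp [hx])
  · have := h2.conj
    simpa [Piece.val] using this

/-- the base is nontrivial -/
theorem no_trivial_base (hT : TProp ω) (hnp : ¬ IsPrim ω) {Lx : List F} (hLx : Lx ≠ [])
    {ps : List (Piece F)} (h : IsForm ω Lx 1 ps) : False := by
  by_cases hf : facs ps = []
  · have h3 : IsBasis (lets ps ++ Lx) := h.basis.perm List.perm_append_comm
    refine not_mem_proper hT hnp h3 hLx (x := pval ps) ?_ ?_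
    · exact pval_mem (K := ⊥) (h.ok_of_facs (by rw [hf]; simp)) _ bot_le le_rfl
    · have := h.conj
      rwa [one_mul] at this
  · obtain ⟨v, vs, hv⟩ := List.exists_cons_of_ne_nil hf
    obtain ⟨R, h1, h2, -⟩ := h.focus (v := v) (by rw [hv]; simp)
    apply no_trivial_fac hT hnp h1
    have h4 : (facs R).Perm (1 :: vs) := by
      rw [hv] at h2
      have : (v :: facs R).Perm (v :: 1 :: vs) := h2.trans (List.Perm.swap _ _ _)
      exact (List.perm_cons v).1 this
    exact h4.mem_iff.2 (by simp)

/-- `ω` is a product of blocks. -/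
def Surface (ω : F) : Prop :=
  ∃ bl : List (Block F), IsBasis (bl.flatMap Block.letters) ∧ IsConj ω (bl.map Block.val).prod

/-- existence of a form with given parameters -/
def HasForm (ω : F) (N r q : ℕ) : Prop :=
  ∃ Lx u₀ ps, IsForm ω Lx u₀ ps ∧ Lx.length = r ∧ qc ps = q ∧ Lx.length + (lets ps).length = N

theorem cl_nil : cl ([] : List F) = ⊥ := by
  unfold cl
  simp

/-- forms with `r = 0` can be rebased unless the element is a surface element -/
theorem HasForm.of_zero (hT : TProp ω) (hnp : ¬ IsPrim ω) (hs : ¬ Surface ω) {N q : ℕ}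
    (h : HasForm ω N 0 q) : ∃ r, 1 ≤ r ∧ HasForm ω N r q := by
  obtain ⟨Lx, u₀, ps, h, hr, hq, hN⟩ := h
  have hLx : Lx = [] := List.length_eq_zero_iff.1 hr
  subst hLx
  have hbot : cl ([] : List F) = ⊥ := cl_nil
  have hu0 : u₀ = 1 := by have := h.hu; rwa [hbot, Subgroup.mem_bot] at this
  subst hu0
  have hf : facs ps = [] := by
    by_contra hne
    obtain ⟨v, vs, hv⟩ := List.exists_cons_of_ne_nil hne
    obtain ⟨c, hc⟩ := mem_facs.1 (show v ∈ facs ps by rw [hv]; simp)
    have hv1 : v ∈ cl ([] : List F) := h.ok _ hc
    rw [hbot, Subgroup.mem_bot] at hv1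
    exact no_trivial_fac hT hnp h (by rw [hv, hv1]; simp)
  by_cases hg : ∃ L β, Piece.gen L β ∈ ps ∧ L ≠ []
  · obtain ⟨L, β, hmem, hL⟩ := hg
    obtain ⟨pre, post, rfl⟩ := List.append_of_mem hmem
    have h1 := IsForm.front (pre₀ := []) (pre := pre) (P := Piece.gen L β) (post := post)
      (by simpa using h)
    rw [List.nil_append] at h1
    refine ⟨L.length, List.length_pos_iff.2 hL, L, β,
      pre.map (Piece.conj (Piece.gen L β).val⁻¹) ++ post, ?_, rfl, ?_, ?_⟩
    · refine ⟨h1.basis, h1.ok (Piece.gen L β) (by simp), ?_, ?_⟩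
      · intro P hP
        refine h1.ok_of_facs (K := cl L) ?_ P (by simp only [List.mem_cons]; exact Or.inr hP)
        intro v hv
        exfalso
        simp only [facs_append, facs_gen, facs_conj] at hv hf
        rw [hf] at hv
        simp at hv
      · have := h1.conj
        simpa [Piece.val] using this
    · rw [← hq]
      simp only [qc_append, qc_cons, qc_conj, Piece.q]
      omega
    · rw [← hN]
      simp only [lets_append, lets_cons, List.length_append, length_lets_conj, Piece.letters,
        List.length_nil]
      omega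
  · exfalso
    apply hs
    -- all pieces are blocks or trivial
    have key : ∀ qs : List (Piece F), (∀ P ∈ qs, P ∈ ps) → ∃ bl : List (Block F),
        bl.flatMap Block.letters = lets qs ∧ (bl.map Block.val).prod = pval qs := by
      intro qs
      induction qs with
      | nil => intro _; exact ⟨[], rfl, rfl⟩
      | cons P qs ih =>
        intro hqs
        obtain ⟨bl, h1, h2⟩ := ih (fun P hP => hqs P (by simp [hP]))
        have hP := hqs P (by simp)
        cases P with
        | fac c u =>
          exfalso
          have := mem_facs.2 ⟨c, hP⟩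
          rw [hf] at this
          simp at this
        | gen L β =>
          have hL : L = [] := by
            by_contra hne
            exact hg ⟨L, β, hP, hne⟩
          subst hL
          have hβ : β ∈ cl ([] : List F) := h.ok _ hP
          rw [hbot, Subgroup.mem_bot] at hβ
          refine ⟨bl, ?_, ?_⟩
          · simpa [Piece.letters] using h1
          · simpa [Piece.val, hβ] using h2
        | blk B =>
          refine ⟨B :: bl, ?_, ?_⟩
          · simp [Piece.letters, h1]
          · simp [Piece.val, h2]
    obtain ⟨bl, h1, h2⟩ := key ps (fun P hP => hP)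
    refine ⟨bl, ?_, ?_⟩
    · rw [h1]; exact h.basis
    · rw [h2]
      have := h.conj
      rwa [one_mul] at this

section words

variable {X : Type*}

/-- evaluation of a word -/
def ev (b : X → F) (w : List (X × Bool)) : F := FreeGroup.lift b (FreeGroup.mk w)

@[simp] theorem ev_nil (b : X → F) : ev b [] = 1 := by
  unfold ev
  rw [← FreeGroup.one_eq_mk, map_one]

theorem ev_append (b : X → F) (w w' : List (X × Bool)) : ev b (w ++ w') = ev b w * ev b w' := by
  unfold ev
  rw [← FreeGroup.mul_mk, map_mul]

/-- value of a letter -/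
def evl (b : X → F) (l : X × Bool) : F := if l.2 then b l.1 else (b l.1)⁻¹

theorem ev_singleton (b : X → F) (l : X × Bool) : ev b [l] = evl b l := by
  rcases l with ⟨x, _ | _⟩
  · have : FreeGroup.mk [(x, false)] = (FreeGroup.of x)⁻¹ := rfl
    rw [ev, this, map_inv]
    simp [evl]
  · have : FreeGroup.mk [(x, true)] = FreeGroup.of x := rfl
    rw [ev, this]
    simp [evl]

theorem ev_cons (b : X → F) (l : X × Bool) (w : List (X × Bool)) :
    ev b (l :: w) = evl b l * ev b w := by
  rw [← ev_singleton, ← ev_append]; rfl

theorem ev_mem (b : X → F) (w : List (X × Bool)) (K : Subgroup F) (h : ∀ l ∈ w, b l.1 ∈ K) :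
    ev b w ∈ K := by
  induction w with
  | nil => rw [ev_nil]; exact K.one_mem
  | cons l w ih =>
    rw [ev_cons]
    refine K.mul_mem ?_ (ih fun l hl => h l (by simp [hl]))
    have := h l (by simp)
    unfold evl
    split_ifs
    · exact this
    · exact K.inv_mem this

/-- number of occurrences of a letter -/
noncomputable def cnt (x : X) (w : List (X × Bool)) : ℕ := by
  classical exact w.countP (fun l => l.1 = x)

theorem cnt_nil (x : X) : cnt x [] = 0 := rfl

theorem cnt_append (x : X) (w w' : List (X × Bool)) : cnt x (w ++ w') = cnt x w + cnt x w' := by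
  classical
  unfold cnt
  rw [List.countP_append]

theorem cnt_cons (x : X) (l : X × Bool) (w : List (X × Bool)) [Decidable (l.1 = x)] :
    cnt x (l :: w) = cnt x w + if l.1 = x then 1 else 0 := by
  classical
  unfold cnt
  rw [List.countP_cons]
  simp

theorem cnt_eq_zero {x : X} {w : List (X × Bool)} : cnt x w = 0 ↔ ∀ l ∈ w, l.1 ≠ x := by
  classical
  unfold cnt
  rw [List.countP_eq_zero]
  simp

theorem exists_split {x : X} {w : List (X × Bool)} (h : 0 < cnt x w) :
    ∃ P ε D, w = P ++ (x, ε) :: D ∧ cnt x P = 0 ∧ cnt x D + 1 = cnt x w := by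
  classical
  induction w with
  | nil => simp [cnt_nil] at h
  | cons l w ih =>
    by_cases hl : l.1 = x
    · refine ⟨[], l.2, w, ?_, cnt_nil x, ?_⟩
      · rw [← hl]; rfl
      · rw [cnt_cons, if_pos hl]
    · rw [cnt_cons, if_neg hl, add_zero] at h ⊢
      obtain ⟨P, ε, D, h1, h2, h3⟩ := ih h
      refine ⟨l :: P, ε, D, by rw [h1]; rfl, ?_, ?_⟩
      · rw [cnt_cons, if_neg hl, h2]
      · rw [h3]

end words

end H35.Tape
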