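import Mathlib
import Pool.Agent.H35.Tape.Improve

/-!
# Letters of small degree can be removed
-/

namespace H35.Tape

variable {F : Type*} [Group F] {ω : F}

theorem eq_not_of_ne {a b : Bool} (h : ¬ a = b) : a = !b := by
  cases a <;> cases b <;> simp_all

omit [Group F] in
theorem exists_rest {r : ℕ} (b : Fin r → F) (x : Fin r) :
    ∃ L, (List.ofFn b).Perm (b x :: L) ∧ (∀ y, y ≠ x → b y ∈ L) ∧ L.length + 1 = r := by
  have h1 : (List.finRange r).Perm (x :: (List.finRange r).erase x) :=
    List.perm_cons_erase (List.mem_finRange x)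
  have h2 : (List.ofFn b).Perm (b x :: ((List.finRange r).erase x).map b) := by
    rw [List.ofFn_eq_map]
    exact h1.map b
  refine ⟨((List.finRange r).erase x).map b, h2, ?_, ?_⟩
  · intro y hy
    exact List.mem_map.2 ⟨y, (List.mem_erase_of_ne hy).2 (List.mem_finRange y), rfl⟩
  · have := h2.length_eq
    rw [List.length_ofFn, List.length_cons] at this
    exact this.symm

theorem IsForm.focusW {r : ℕ} {b : Fin r → F} {w₀ : List (Fin r × Bool)}
    {ws : List (List (Fin r × Bool))} {ps : List (Piece F)}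
    (h : IsForm ω (List.ofFn b) (ev b w₀) ps) (hf : (facs ps).Perm (ws.map (ev b)))
    {w : List (Fin r × Bool)} {W' : List (List (Fin r × Bool))}
    (hp : (w₀ :: ws).Perm (w :: W')) :
    ∃ R, IsForm ω (List.ofFn b) (ev b w) R ∧ (facs R).Perm (W'.map (ev b)) ∧
      qc R = qc ps ∧ (lets R).length = (lets ps).length := by
  have hp' : (ev b w₀ :: ws.map (ev b)).Perm (ev b w :: W'.map (ev b)) := hp.map (ev b)
  by_cases hw : ev b w = ev b w₀
  · refine ⟨ps, by rw [hw]; exact h, ?_, rfl, rfl⟩
    rw [hw] at hp'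
    exact hf.trans ((List.perm_cons _).1 hp')
  · have h1 : ev b w ∈ ev b w₀ :: ws.map (ev b) := hp'.mem_iff.2 (by simp)
    rcases List.mem_cons.1 h1 with h1 | h1
    · exact absurd h1 hw
    obtain ⟨R, g1, g2, g3, g4⟩ := h.focus (hf.mem_iff.2 h1)
    refine ⟨R, g1, ?_, g3, g4⟩
    have h2 : (ev b w :: facs R).Perm (ev b w :: W'.map (ev b)) :=
      g2.trans ((hf.cons _).trans hp')
    exact (List.perm_cons _).1 h2

theorem IsForm.toY {r : ℕ} {b : Fin r → F} {v : F} {R : List (Piece F)} {x : Fin r}
    (h : IsForm ω (List.ofFn b) v R) {L : List F} (hL : (List.ofFn b).Perm (b x :: L))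
    (ε : Bool) : IsForm ω (evl b (x, ε) :: L) v R := by
  have h1 := h.permX hL
  cases ε with
  | true => exact h1
  | false => exact h1.invX

theorem ok_of_facs' {ps : List (Piece F)} {K₀ K : Subgroup F} (h : ∀ P ∈ ps, P.Ok K₀)
    (hK : ∀ v ∈ facs ps, v ∈ K) : ∀ P ∈ ps, P.Ok K := by
  intro P hP
  cases P with
  | fac c u => exact hK u (mem_facs.2 ⟨c, hP⟩)
  | gen L β => exact h (Piece.gen L β) hP
  | blk B => trivial

theorem exists_pos_sum {α : Type*} (f : α → ℕ) (W : List α) (h : 0 < (W.map f).sum) :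
    ∃ w W', W.Perm (w :: W') ∧ 0 < f w := by
  classical
  have : ∃ w ∈ W, 0 < f w := by
    by_contra hcon
    push Not at hcon
    have h0 : (W.map f).sum = 0 := by
      rw [List.sum_eq_zero_iff]
      intro y hy
      obtain ⟨w, hw, rfl⟩ := List.mem_map.1 hy
      have := hcon w hw
      omega
    omega
  obtain ⟨w, hw, hpos⟩ := this
  exact ⟨w, W.erase w, List.perm_cons_erase hw, hpos⟩

theorem improve_deg (hT : TProp ω) (hnp : ¬ IsPrim ω) {r : ℕ} {b : Fin r → F}
    {w₀ : List (Fin r × Bool)} {ws : List (List (Fin r × Bool))} {ps : List (Piece F)}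
    (h : IsForm ω (List.ofFn b) (ev b w₀) ps) (hf : (facs ps).Perm (ws.map (ev b))) {N q : ℕ}
    (hq : qc ps = q) (hN : r + (lets ps).length = N) (x : Fin r)
    (hx : ((w₀ :: ws).map (cnt x)).sum ≤ 2) :
    (∃ q' r', q < q' ∧ r' + 1 = r ∧ HasForm ω N r' q') ∨
      (∃ r', r' + 1 = r ∧ 1 ≤ r' ∧ HasForm ω N r' q) := by
  obtain ⟨L, hL, hLmem, hLlen⟩ := exists_rest b x
  have hzero : ∀ w : List (Fin r × Bool), cnt x w = 0 → ev b w ∈ cl L := by
    intro w hw
    refine ev_mem b w _ fun l hl => ?_
    exact mem_cl_of_mem (hLmem _ (cnt_eq_zero.1 hw l hl))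
  have hevl : ∀ ε : Bool, evl b (x, !ε) = (evl b (x, ε))⁻¹ := by
    intro ε; cases ε <;> simp [evl]
  rcases Nat.eq_zero_or_pos ((w₀ :: ws).map (cnt x)).sum with hx0 | hx0
  · -- the letter does not occur
    exfalso
    rw [List.sum_eq_zero_iff] at hx0
    have h0 : ∀ w ∈ w₀ :: ws, cnt x w = 0 := fun w hw => hx0 _ (List.mem_map.2 ⟨w, hw, rfl⟩)
    have h1 := h.toY hL true
    have hok : ∀ P ∈ ps, P.Ok (cl L) := h.ok_of_facs (by
      intro v hv
      obtain ⟨w, hw, rfl⟩ := List.mem_map.1 (hf.mem_iff.1 hv)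
      exact hzero w (h0 w (by simp [hw])))
    have h2 : IsBasis ((L ++ lets ps) ++ [evl b (x, true)]) := h1.basis.perm (by
        classical
        rw [List.perm_iff_count]
        intro a
        simp only [List.count_append, List.count_cons, List.count_nil, List.nil_append,
          List.append_nil]
        omega)
    refine not_mem_proper hT hnp h2 (by simp) (x := ev b w₀ * pval ps) ?_ h.conj
    refine Subgroup.mul_mem _ (cl_mono (fun x hx => by simp [hx]) (hzero w₀ (h0 w₀ (by simp)))) ?_
    exact pval_mem hok _ (cl_mono fun x hx => by simp [hx]) (cl_mono fun x hx => by simp [hx])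
  obtain ⟨w, W', hp, hw⟩ := exists_pos_sum (cnt x) _ hx0
  have hsum : ((w₀ :: ws).map (cnt x)).sum = cnt x w + (W'.map (cnt x)).sum := by
    rw [(hp.map (cnt x)).sum_eq]; simp
  obtain ⟨R, g1, g2, g3, g4⟩ := h.focusW hf hp
  obtain ⟨P, ε, D, hwe, hP0, hD⟩ := exists_split hw
  have hPm := hzero P hP0
  have g5 := g1.toY hL ε
  set y := evl b (x, ε) with hy
  have hbase : ev b w = ev b P * y * ev b D := by
    rw [hwe, ev_append, ev_cons, mul_assoc]
  have hmono : cl L ≤ cl (y :: L) := cl_mono fun x hx => by simp [hx]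
  -- all remaining words avoid `x`
  have hokR : ∀ (W'' : List (List (Fin r × Bool))) (R' : List (Piece F)) (K₀ : Subgroup F),
      (W''.map (cnt x)).sum = 0 → (facs R').Perm (W''.map (ev b)) → (∀ P ∈ R', P.Ok K₀) →
      ∀ P ∈ R', P.Ok (cl L) := by
    intro W'' R' K₀ hs hfac hform
    rw [List.sum_eq_zero_iff] at hs
    refine ok_of_facs' hform ?_
    intro v hv
    obtain ⟨w', hw', rfl⟩ := List.mem_map.1 (hfac.mem_iff.1 hv)
    exact hzero w' (hs _ (List.mem_map.2 ⟨w', hw', rfl⟩))
  rcases Nat.eq_zero_or_pos (cnt x D) with hD0 | hDpos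
  · -- `x` occurs once in `w`
    have hDm := hzero D hD0
    rcases Nat.eq_zero_or_pos (W'.map (cnt x)).sum with hW0 | hWpos
    · -- primitive
      exfalso
      apply hnp
      have hok := hokR W' R _ hW0 g2 g5.ok
      have h2 : IsBasis (y :: (L ++ lets R)) := g5.basis
      refine isPrim_of_once h2 (g := ev b P) (k := ev b D * pval R)
        (cl_mono (fun x hx => by simp [hx]) hPm) ?_ ?_
      · refine Subgroup.mul_mem _ (cl_mono (fun x hx => by simp [hx]) hDm) ?_
        exact pval_mem hok _ (cl_mono fun x hx => by simp [hx]) (cl_mono fun x hx => by simp [hx])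
      · have := g5.conj
        rw [hbase] at this
        rwa [mul_assoc (ev b P * y)] at this
    · -- `O3c`
      left
      obtain ⟨w₂, W'', hp₂, hw₂⟩ := exists_pos_sum (cnt x) _ hWpos
      have hsum₂ : (W'.map (cnt x)).sum = cnt x w₂ + (W''.map (cnt x)).sum := by
        rw [(hp₂.map (cnt x)).sum_eq]; simp
      obtain ⟨P₂, ε₂, D₂, hwe₂, hP₂0, hD₂⟩ := exists_split hw₂
      have hD₂0 : cnt x D₂ = 0 := by omega
      have hW''0 : (W''.map (cnt x)).sum = 0 := by omega
      have hP₂m := hzero P₂ hP₂0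
      have hD₂m := hzero D₂ hD₂0
      have g6 := g5.conjBase (g := (ev b P)⁻¹) (Subgroup.inv_mem _ (hmono hPm))
      set k := ev b D * ev b P with hk
      have hkm : k ∈ cl L := Subgroup.mul_mem _ hDm hPm
      have e1 : (ev b P)⁻¹ * ev b w * ((ev b P)⁻¹)⁻¹ = 1 * y * k := by
        rw [hbase, hk]; group
      rw [e1] at g6
      have g7 := g6.changeX (Subgroup.one_mem _) hkm
      obtain ⟨c, R', k1, k2, k3, k4⟩ := g7.frontFac (v := ev b w₂) (by
        rw [facs_conj]
        exact g2.mem_iff.2 (List.mem_map.2 ⟨w₂, hp₂.mem_iff.2 (by simp), rfl⟩))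
      rw [facs_conj] at k2
      have k5 : (facs R').Perm (W''.map (ev b)) := by
        have : (ev b w₂ :: facs R').Perm (ev b w₂ :: W''.map (ev b)) :=
          k2.trans (g2.trans (hp₂.map (ev b)))
        exact (List.perm_cons _).1 this
      have hokR' : ∀ P ∈ R', P.Ok (cl L) :=
        hokR W'' R' (cl (1 * y * k :: L)) hW''0 k5 (fun P hP => k1.ok P (by simp [hP]))
      have hmono' : cl L ≤ cl (1 * y * k :: L) := cl_mono fun x hx => by simp [hx]
      have hlen : (lets (Piece.fac c (ev b w₂) :: R')).length = (lets R').length + 1 := by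
        simp only [lets_cons, Piece.letters, List.length_append, List.length_singleton]
        omega
      have hqR' : qc R' = q := by rw [k3, qc_conj, g3, hq]
      have hlenR' : (lets R').length + 1 + r = N := by
        rw [← hlen, k4, length_lets_conj, g4]; omega
      have hbase₂ : ev b w₂ = ev b P₂ * evl b (x, ε₂) * ev b D₂ := by
        rw [hwe₂, ev_append, ev_cons, mul_assoc]
      by_cases hε : ε₂ = ε
      · have k6 := IsForm.conjFac (pre := []) (post := R') k1 (g := (ev b P₂)⁻¹)
          (Subgroup.inv_mem _ (hmono' hP₂m))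
        have e2 : (ev b P₂)⁻¹ * ev b w₂ * ((ev b P₂)⁻¹)⁻¹ =
            (1 * y * k) * (k⁻¹ * ev b D₂ * ev b P₂) := by
          rw [hbase₂, hε, ← hy]; group
        rw [e2] at k6
        have k7 := IsForm.o3c (L := L) k6 (Subgroup.mul_mem _ (Subgroup.mul_mem _
          (Subgroup.inv_mem _ hkm) hD₂m) hP₂m) hokR'
        refine ⟨q + 2, L.length, by omega, hLlen, L, _, _, k7, rfl, ?_, ?_⟩
        · simp only [qc_append, qc_cons, qc_nil, Piece.q, Block.letters, List.length_singleton, hqR']
        · simp only [lets_append, lets_cons, lets_nil, Piece.letters, Block.letters,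
            List.length_append, List.length_singleton, List.length_nil]
          omega
      · have hε' : evl b (x, ε₂) = y⁻¹ := by
          have : ε₂ = !ε := eq_not_of_ne hε
          rw [this, hevl]
        have k6 := IsForm.conjFac (pre := []) (post := R') k1 (g := (ev b P₂ * k)⁻¹)
          (Subgroup.inv_mem _ (hmono' (Subgroup.mul_mem _ hP₂m hkm)))
        have e2 : (ev b P₂ * k)⁻¹ * ev b w₂ * ((ev b P₂ * k)⁻¹)⁻¹ =
            (1 * y * k)⁻¹ * (ev b D₂ * ev b P₂ * k) := by
          rw [hbase₂, hε']; group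
        rw [e2] at k6
        have k7 := IsForm.o3c' (L := L) k6 (Subgroup.mul_mem _ (Subgroup.mul_mem _
          hD₂m hP₂m) hkm) hokR'
        refine ⟨q + 2, L.length, by omega, hLlen, L, _, _, k7, rfl, ?_, ?_⟩
        · simp only [qc_append, qc_cons, qc_nil, qc_conj, Piece.q, Block.letters, hqR',
            List.length_cons, List.length_nil]
        · simp only [lets_append, lets_cons, lets_nil, Piece.letters, Block.letters,
            List.length_append, List.length_cons, List.length_nil, length_lets_conj]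
          omega
  · -- `x` occurs twice in `w`
    obtain ⟨G, ε', D', hDe, hG0, hD'⟩ := exists_split hDpos
    have hD'0 : cnt x D' = 0 := by omega
    have hW0 : (W'.map (cnt x)).sum = 0 := by omega
    have hGm := hzero G hG0
    have hD'm := hzero D' hD'0
    have g6 := g5.conjBase (g := (ev b P)⁻¹) (Subgroup.inv_mem _ (hmono hPm))
    have hok : ∀ P' ∈ R.map (Piece.conj (ev b P)⁻¹), P'.Ok (cl L) := by
      refine hokR W' _ _ hW0 ?_ g6.ok
      rw [facs_conj]; exact g2
    have hqR : qc (R.map (Piece.conj (ev b P)⁻¹)) = q := by rw [qc_conj, g3, hq]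
    have hlR : (lets (R.map (Piece.conj (ev b P)⁻¹))).length + r = N := by
      rw [length_lets_conj, g4]; omega
    by_cases hε : ε' = ε
    · left
      have e1 : (ev b P)⁻¹ * ev b w * ((ev b P)⁻¹)⁻¹ = y * ev b G * y * (ev b D' * ev b P) := by
        rw [hbase, hDe, ev_append, ev_cons, hε, ← hy]; group
      rw [e1] at g6
      have k7 := g6.o3a hGm (Subgroup.mul_mem _ hD'm hPm) hok
      refine ⟨q + 1, L.length, by omega, hLlen, L, _, _, k7, rfl, ?_, ?_⟩
      · simp only [qc_append, qc_cons, qc_nil, Piece.q, Block.letters, List.length_singleton, hqR]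
      · simp only [lets_append, lets_cons, lets_nil, Piece.letters, Block.letters,
          List.length_append, List.length_singleton, List.length_nil]
        omega
    · right
      have hε' : evl b (x, ε') = y⁻¹ := by
        have : ε' = !ε := eq_not_of_ne hε
        rw [this, hevl]
      have e1 : (ev b P)⁻¹ * ev b w * ((ev b P)⁻¹)⁻¹ = y * ev b G * y⁻¹ * (ev b D' * ev b P) := by
        rw [hbase, hDe, ev_append, ev_cons, hε']; group
      rw [e1] at g6
      have k7 := g6.o3b hGm (Subgroup.mul_mem _ hD'm hPm) hok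
      refine ⟨L.length, hLlen, ?_, L, _, _, k7, rfl, ?_, ?_⟩
      · by_contra hcon
        have hL0 : L = [] := List.length_eq_zero_iff.1 (by omega)
        rw [hL0, cl_nil, Subgroup.mem_bot] at hGm
        refine no_trivial_fac hT hnp k7 ?_
        simp [hGm]
      · simp only [qc_append, qc_cons, qc_nil, Piece.q, hqR, add_zero]
      · simp only [lets_append, lets_cons, lets_nil, Piece.letters,
          List.length_append, List.length_singleton, List.length_nil]
        omega

end H35.Tape
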