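import Mathlib
import Pool.Agent.H35.Tape.Local

/-!
# Whitehead automorphisms and crossing numbers
-/

namespace H35.Tape

open Classical

variable {X : Type*}

/-- auxiliary factor -/
noncomputable def wa (A : X × Bool → Prop) (a l : X × Bool) : FreeGroup X :=
  if A l then FreeGroup.mk [a] else 1

/-- middle factor -/
noncomputable def wm (a l : X × Bool) : FreeGroup X :=
  if l.1 = a.1 then 1 else FreeGroup.mk [l]

/-- the Whitehead endomorphism -/
noncomputable def wphi (A : X × Bool → Prop) (a : X × Bool) : FreeGroup X →* FreeGroup X :=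
  FreeGroup.lift (fun x => wa A a (x, true) * wm a (x, true) * (wa A a (x, false))⁻¹)

theorem mk_false (x : X) : FreeGroup.mk [(x, false)] = (FreeGroup.mk [(x, true)])⁻¹ := rfl

theorem wphi_letter (A : X × Bool → Prop) (a l : X × Bool) :
    wphi A a (FreeGroup.mk [l]) = wa A a l * wm a l * (wa A a (linv l))⁻¹ := by
  rcases l with ⟨x, b⟩
  have h1 : wphi A a (FreeGroup.mk [(x, true)]) =
      wa A a (x, true) * wm a (x, true) * (wa A a (x, false))⁻¹ := by
    have : FreeGroup.mk [(x, true)] = FreeGroup.of x := rfl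
    rw [this, wphi, FreeGroup.lift_apply_of]
  cases b with
  | true => exact h1
  | false =>
    rw [mk_false, map_inv, h1]
    have h2 : (wm a (x, true))⁻¹ = wm a (x, false) := by
      unfold wm
      split_ifs
      · exact inv_one
      · rfl
    have h3 : linv (x, false) = (x, true) := rfl
    rw [h3, ← h2]
    group

theorem wphi_self {A : X × Bool → Prop} {a : X × Bool} (hA : A a) (hA' : ¬ A (linv a)) :
    wphi A a (FreeGroup.mk [a]) = FreeGroup.mk [a] := by
  rw [wphi_letter]
  simp [wa, wm, hA, hA']

theorem mk_linv (l : X × Bool) : FreeGroup.mk [linv l] = (FreeGroup.mk [l])⁻¹ := by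
  rcases l with ⟨x, b⟩
  cases b <;> rfl

/-- the inverse endomorphism -/
noncomputable def wpsi (A : X × Bool → Prop) (a : X × Bool) : FreeGroup X →* FreeGroup X :=
  FreeGroup.lift (fun x => if x = a.1 then FreeGroup.of x else
    (wa A a (x, true))⁻¹ * FreeGroup.of x * wa A a (x, false))

theorem wpsi_self (A : X × Bool → Prop) (a : X × Bool) :
    wpsi A a (FreeGroup.mk [a]) = FreeGroup.mk [a] := by
  have h1 : wpsi A a (FreeGroup.of a.1) = FreeGroup.of a.1 := by
    rw [wpsi, FreeGroup.lift_apply_of, if_pos rfl]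
  rcases a with ⟨x, b⟩
  cases b with
  | true => exact h1
  | false =>
    rw [mk_false, map_inv]
    congr 1

/-- the Whitehead automorphism -/
noncomputable def wequiv {A : X × Bool → Prop} {a : X × Bool} (hA : A a) (hA' : ¬ A (linv a)) :
    FreeGroup X ≃* FreeGroup X := by
  have hs : wphi A a (FreeGroup.mk [a]) = FreeGroup.mk [a] := wphi_self hA hA'
  have hof : wphi A a (FreeGroup.of a.1) = FreeGroup.of a.1 := by
    rcases a with ⟨x, b⟩
    cases b with
    | true => exact hs
    | false =>
      have h1 : (FreeGroup.of x : FreeGroup X) = (FreeGroup.mk [(x, false)])⁻¹ := by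
        rw [mk_false, inv_inv]; rfl
      change wphi A (x, false) (FreeGroup.of x) = FreeGroup.of x
      rw [h1, map_inv, hs]
  have hwa : ∀ l, wphi A a (wa A a l) = wa A a l := by
    intro l
    unfold wa
    split_ifs
    · exact hs
    · exact map_one _
  have hwa' : ∀ l, wpsi A a (wa A a l) = wa A a l := by
    intro l
    unfold wa
    split_ifs
    · exact wpsi_self A a
    · exact map_one _
  have hx : ∀ x, x ≠ a.1 → wphi A a (FreeGroup.of x) =
      wa A a (x, true) * FreeGroup.of x * (wa A a (x, false))⁻¹ := by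
    intro x hx
    rw [wphi, FreeGroup.lift_apply_of]
    unfold wm
    rw [if_neg hx]
    rfl
  have hx' : ∀ x, x ≠ a.1 → wpsi A a (FreeGroup.of x) =
      (wa A a (x, true))⁻¹ * FreeGroup.of x * wa A a (x, false) := by
    intro x hx
    rw [wpsi, FreeGroup.lift_apply_of, if_neg hx]
  have hof' : wpsi A a (FreeGroup.of a.1) = FreeGroup.of a.1 := by
    rw [wpsi, FreeGroup.lift_apply_of, if_pos rfl]
  refine MonoidHom.toMulEquiv (wphi A a) (wpsi A a) ?_ ?_
  · ext x
    rw [MonoidHom.comp_apply, MonoidHom.id_apply]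
    by_cases h : x = a.1
    · rw [h, hof, hof']
    · rw [hx x h, map_mul, map_mul, map_inv, hwa', hwa', hx' x h]
      group
  · ext x
    rw [MonoidHom.comp_apply, MonoidHom.id_apply]
    by_cases h : x = a.1
    · rw [h, hof', hof]
    · rw [hx' x h, map_mul, map_mul, map_inv, hwa, hwa, hx x h]
      group

theorem wequiv_apply {A : X × Bool → Prop} {a : X × Bool} (hA : A a) (hA' : ¬ A (linv a))
    (g : FreeGroup X) : wequiv hA hA' g = wphi A a g := rfl

/-- inserted letters at a turn -/
noncomputable def wt (A : X × Bool → Prop) (a z l : X × Bool) : List (X × Bool) :=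
  if A (linv z) ↔ A l then [] else if A l then [a] else [linv a]

/-- kept letter -/
noncomputable def wl (a l : X × Bool) : List (X × Bool) := if l.1 = a.1 then [] else [l]

/-- the transformed word -/
noncomputable def wword (A : X × Bool → Prop) (a : X × Bool) : X × Bool → List (X × Bool) →
    List (X × Bool)
  | _, [] => []
  | z, l :: w => wt A a z l ++ (wl a l ++ wword A a l w)

/-- the number of crossing turns -/
noncomputable def cr (A : X × Bool → Prop) : X × Bool → List (X × Bool) → ℕ
  | _, [] => 0
  | z, l :: w => (if A (linv z) ↔ A l then 0 else 1) + cr A l w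

theorem mk_wt (A : X × Bool → Prop) (a z l : X × Bool) :
    FreeGroup.mk (wt A a z l) = (wa A a (linv z))⁻¹ * wa A a l := by
  unfold wt wa
  by_cases h1 : A (linv z) <;> by_cases h2 : A l
  · rw [if_pos (by tauto), if_pos h1, if_pos h2, inv_mul_cancel, FreeGroup.one_eq_mk]
  · rw [if_neg (by tauto), if_neg h2, if_pos h1, if_neg h2, mk_linv, mul_one]
  · rw [if_neg (by tauto), if_pos h2, if_neg h1, if_pos h2, inv_one, one_mul]
  · rw [if_pos (by tauto), if_neg h1, if_neg h2, inv_mul_cancel, FreeGroup.one_eq_mk]

theorem mk_wl (a l : X × Bool) : FreeGroup.mk (wl a l) = wm a l := by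
  unfold wl wm
  split_ifs
  · rw [← FreeGroup.one_eq_mk]
  · rfl

theorem mk_wword (A : X × Bool → Prop) (a : X × Bool) (w : List (X × Bool)) :
    ∀ z, FreeGroup.mk (wword A a z w) =
      (wa A a (linv z))⁻¹ * wphi A a (FreeGroup.mk w) * wa A a (linv (w.getLastD z)) := by
  induction w with
  | nil =>
    intro z
    rw [wword, ← FreeGroup.one_eq_mk, map_one]
    simp
  | cons l w ih =>
    intro z
    have h1 : FreeGroup.mk (l :: w) = FreeGroup.mk [l] * FreeGroup.mk w := by
      rw [FreeGroup.mul_mk]; rfl
    rw [wword, ← FreeGroup.mul_mk, ← FreeGroup.mul_mk, ih, mk_wt, mk_wl, h1, map_mul, wphi_letter,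
      List.getLastD_cons]
    group

theorem length_wword (A : X × Bool → Prop) (a : X × Bool) (w : List (X × Bool)) :
    ∀ z, (wword A a z w).length + w.countP (fun l => l.1 = a.1) = cr A z w + w.length := by
  induction w with
  | nil => intro z; simp [wword, cr]
  | cons l w ih =>
    intro z
    rw [wword, cr, List.length_append, List.length_append, List.countP_cons, List.length_cons]
    have h1 := ih l
    have h2 : (wt A a z l).length = if A (linv z) ↔ A l then 0 else 1 := by
      unfold wt
      split_ifs <;> rfl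
    rw [h2]
    unfold wl
    by_cases h : l.1 = a.1
    · simp only [h, if_true, List.length_nil, decide_true]
      omega
    · simp only [h, if_false, List.length_singleton, decide_false]
      simp only [Bool.false_eq_true, if_false]
      omega

theorem cr_eq_sum (A : X × Bool → Prop) (w : List (X × Bool)) :
    ∀ z, cr A z w = ∑ i : Fin w.length, (if A (linv ((z :: w)[(i : ℕ)]'(by simp))) ↔ A (w[(i : ℕ)])
      then 0 else 1) := by
  induction w with
  | nil => intro z; simp [cr]
  | cons l w ih =>
    intro z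
    rw [cr, ih l]
    exact (Fin.sum_univ_succ (n := w.length) (fun i : Fin (w.length + 1) =>
      if A (linv ((z :: l :: w)[(i : ℕ)]'(by have := i.2; simp only [List.length_cons]; omega))) ↔
        A ((l :: w)[(i : ℕ)]'(by have := i.2; simp only [List.length_cons]; omega))
      then 0 else 1)).symm

theorem isTurn_last {w : List (X × Bool)} {z : X × Bool} (hz : w.getLast? = some z) (i : ℕ)
    (hi : i < w.length) :
    IsTurn w i (linv ((z :: w)[i]'(by simp; omega))) (w[i]) := by
  refine ⟨List.getElem?_eq_getElem hi, ?_⟩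
  rw [linv_linv]
  rcases Nat.eq_zero_or_pos i with rfl | hpos
  · rw [zero_add, Nat.mod_eq_of_lt (by omega), ← List.getLast?_eq_getElem?, hz]
    rfl
  · rw [show i + w.length - 1 = (i - 1) + w.length by omega, Nat.add_mod_right,
      Nat.mod_eq_of_lt (by omega), List.getElem?_eq_getElem (by omega)]
    congr 1
    rw [List.getElem_cons]
    rw [dif_neg (by omega)]

/-- If only two turns can cross, the total crossing number is at most two. -/
theorem sum_cr_le_two {ι : Type*} [Fintype ι] (u : ι → List (X × Bool)) (A : X × Bool → Prop)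
    (z : ι → X × Bool) (hz : ∀ j, (u j).getLast? = some (z j)) (t₁ t₂ : ι × ℕ)
    (h : ∀ j i a b, IsTurn (u j) i a b → (j, i) ≠ t₁ → (j, i) ≠ t₂ → (A a ↔ A b)) :
    ∑ j, cr A (z j) (u j) ≤ 2 := by
  have h1 : ∑ j, cr A (z j) (u j) = ∑ x : (Σ j, Fin (u j).length),
      (if A (linv ((z x.1 :: u x.1)[(x.2 : ℕ)]'(by simp))) ↔ A ((u x.1)[(x.2 : ℕ)])
        then 0 else 1) := by
    rw [Fintype.sum_sigma]
    refine Finset.sum_congr rfl fun j _ => ?_
    exact cr_eq_sum A (u j) (z j)
  rw [h1]
  have h2 : ∀ x : (Σ j, Fin (u j).length), (x.1, (x.2 : ℕ)) ≠ t₁ → (x.1, (x.2 : ℕ)) ≠ t₂ →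
      (if A (linv ((z x.1 :: u x.1)[(x.2 : ℕ)]'(by simp))) ↔ A ((u x.1)[(x.2 : ℕ)])
        then 0 else 1) = 0 := by
    rintro ⟨j, i, hi⟩ g1 g2
    have := h j i _ _ (isTurn_last (hz j) i hi) g1 g2
    exact if_pos this
  let f : (Σ j, Fin (u j).length) → ι × ℕ := fun x => (x.1, (x.2 : ℕ))
  have hf : Function.Injective f := by
    rintro ⟨j, i, hi⟩ ⟨j', i', hi'⟩ h
    simp only [f, Prod.mk.injEq] at h
    obtain ⟨rfl, rfl⟩ := h
    rfl
  calc _ ≤ ∑ x : (Σ j, Fin (u j).length), (if f x ∈ ({t₁, t₂} : Finset (ι × ℕ)) then 1 else 0) := by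
        refine Finset.sum_le_sum fun x _ => ?_
        split_ifs with g1 g2 g2
        · omega
        · omega
        · omega
        · exfalso
          simp only [Finset.mem_insert, Finset.mem_singleton, not_or] at g2
          have := h2 x g2.1 g2.2
          rw [if_neg g1] at this
          omega
    _ = (Finset.univ.filter (fun x => f x ∈ ({t₁, t₂} : Finset (ι × ℕ)))).card := by
        rw [Finset.card_filter]
    _ ≤ ({t₁, t₂} : Finset (ι × ℕ)).card := by
        refine Finset.card_le_card_of_injOn f ?_ hf.injOn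
        intro x hx
        exact (Finset.mem_filter.1 hx).2
    _ ≤ 2 := Finset.card_le_two

end H35.Tape
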