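import Mathlib
import Pool.Agent.H35.Tape.Wh
import Pool.Agent.H35.Tape.Deg

/-!
# Rigidity from minimality
-/

namespace H35.Tape

open Classical

variable {X : Type*}

/-- all letters on one side -/
def Pure (A : X → Prop) (w : List (X × Bool)) : Prop := (∀ l ∈ w, A l.1) ∨ (∀ l ∈ w, ¬ A l.1)

/-- a product of two one-sided words, up to conjugacy -/
def SplitW (A : X → Prop) (w : List (X × Bool)) : Prop :=
  ∃ P α β : List (X × Bool), FreeGroup.mk w =
    FreeGroup.mk P * (FreeGroup.mk α * FreeGroup.mk β) * (FreeGroup.mk P)⁻¹ ∧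
    (∀ l ∈ α, A l.1) ∧ (∀ l ∈ β, ¬ A l.1)

theorem mod_pred {n j : ℕ} (hj : j < n) : ((j + 1) % n + n - 1) % n = j := by
  rcases Nat.lt_or_ge (j + 1) n with h | h
  · rw [Nat.mod_eq_of_lt h, show j + 1 + n - 1 = j + n by omega,
      Nat.add_mod_right, Nat.mod_eq_of_lt hj]
  · have : j + 1 = n := by omega
    rw [this, Nat.mod_self, zero_add, Nat.mod_eq_of_lt (by omega)]
    omega

theorem turn_rotate {w : List (X × Bool)} (i₁ p : ℕ) (hp : p + 1 < (w.rotate i₁).length) :
    IsTurn w ((p + 1 + i₁) % w.length) (linv ((w.rotate i₁)[p]'(by omega)))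
      ((w.rotate i₁)[p + 1]) := by
  have hlen : (w.rotate i₁).length = w.length := List.length_rotate _ _
  have hn : 0 < w.length := by omega
  rw [List.getElem_rotate, List.getElem_rotate]
  refine ⟨List.getElem?_eq_getElem _, ?_⟩
  have h1 : ((p + i₁) % w.length + 1) % w.length = (p + 1 + i₁) % w.length := by
    rw [Nat.mod_add_mod]
    congr 1
    omega
  rw [← h1, mod_pred (Nat.mod_lt _ hn), linv_linv]
  exact List.getElem?_eq_getElem _

/-- Constancy along a word away from one place. -/
theorem const_split (f : ℕ → Prop) (n m : ℕ) (h : ∀ p, p + 1 < n → p + 1 ≠ m → (f p ↔ f (p + 1))) :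
    (∀ p, p < m → p < n → (f p ↔ f 0)) ∧ (∀ p, m ≤ p → p < n → (f p ↔ f m)) := by
  constructor
  · intro p
    induction p with
    | zero => intro _ _; exact Iff.rfl
    | succ p ih =>
      intro h1 h2
      exact (h p (by omega) (by omega)).symm.trans (ih (by omega) (by omega))
  · intro p hp
    induction p, hp using Nat.le_induction with
    | base => intro _; exact Iff.rfl
    | succ p hmp ih =>
      intro h2
      exact (h p (by omega) (by omega)).symm.trans (ih (by omega))

theorem two_parts (A : X → Prop) (w : List (X × Bool)) (i₁ i₂ : ℕ) (h12 : i₁ ≤ i₂)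
    (h2 : i₂ < w.length)
    (h : ∀ i a b, IsTurn w i a b → i ≠ i₁ → i ≠ i₂ → (A a.1 ↔ A b.1)) :
    ∃ k₁ k₂ : Prop, (∀ l ∈ (w.rotate i₁).take (i₂ - i₁), (A l.1 ↔ k₁)) ∧
      (∀ l ∈ (w.rotate i₁).drop (i₂ - i₁), (A l.1 ↔ k₂)) := by
  have hlen : (w.rotate i₁).length = w.length := List.length_rotate _ _
  let f : ℕ → Prop := fun p => if hp : p < (w.rotate i₁).length then A ((w.rotate i₁)[p]).1 else True
  have hf : ∀ p (hp : p < (w.rotate i₁).length), (f p ↔ A ((w.rotate i₁)[p]).1) := by
    intro p hp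
    simp only [f, dif_pos hp]
  obtain ⟨h3, h4⟩ := const_split f w.length (i₂ - i₁) (by
    intro p hp hpm
    rw [hf p (by omega), hf (p + 1) (by omega)]
    have ht := turn_rotate (w := w) i₁ p (by omega)
    have g1 : (p + 1 + i₁) % w.length ≠ i₁ := by
      rcases Nat.lt_or_ge (p + 1 + i₁) w.length with h5 | h5
      · rw [Nat.mod_eq_of_lt h5]; omega
      · rw [Nat.mod_eq_sub_mod h5, Nat.mod_eq_of_lt (by omega)]; omega
    have g2 : (p + 1 + i₁) % w.length ≠ i₂ := by
      rcases Nat.lt_or_ge (p + 1 + i₁) w.length with h5 | h5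
      · rw [Nat.mod_eq_of_lt h5]; omega
      · rw [Nat.mod_eq_sub_mod h5, Nat.mod_eq_of_lt (by omega)]; omega
    have g3 := h _ _ _ ht g1 g2
    exact g3)
  refine ⟨f 0, f (i₂ - i₁), ?_, ?_⟩
  · intro l hl
    obtain ⟨p, hp, rfl⟩ := List.getElem_of_mem hl
    rw [List.length_take] at hp
    rw [List.getElem_take, ← hf p (by omega)]
    exact h3 p (by omega) (by omega)
  · intro l hl
    obtain ⟨p, hp, rfl⟩ := List.getElem_of_mem hl
    rw [List.length_drop] at hp
    rw [List.getElem_drop, ← hf (i₂ - i₁ + p) (by omega)]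
    exact h4 _ (by omega) (by omega)

theorem pure_of_one (A : X → Prop) (w : List (X × Bool)) (i₁ : ℕ)
    (h : ∀ i a b, IsTurn w i a b → i ≠ i₁ → (A a.1 ↔ A b.1)) : Pure A w := by
  by_cases hw : w = []
  · left; rw [hw]; simp
  have hn : 0 < w.length := List.length_pos_iff.2 hw
  obtain ⟨i, hi, h'⟩ : ∃ i, i < w.length ∧ ∀ i' a b, IsTurn w i' a b → i' ≠ i → (A a.1 ↔ A b.1) := by
    by_cases hi : i₁ < w.length
    · exact ⟨i₁, hi, h⟩
    · refine ⟨0, hn, fun i' a b hab _ => h i' a b hab ?_⟩
      obtain ⟨h1, -⟩ := hab.rotate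
      omega
  obtain ⟨k₁, k₂, -, h2⟩ := two_parts A w i i le_rfl hi (fun i' a b hab hne _ => h' i' a b hab hne)
  rw [Nat.sub_self, List.drop_zero] at h2
  by_cases hk : k₂
  · left
    intro l hl
    exact (h2 l (List.mem_rotate.2 hl)).2 hk
  · right
    intro l hl hA
    exact hk ((h2 l (List.mem_rotate.2 hl)).1 hA)

theorem SplitW.of_pure {A : X → Prop} {w : List (X × Bool)} (h : Pure A w) : SplitW A w := by
  rcases h with h | h
  · refine ⟨[], w, [], ?_, h, by simp⟩
    simp [← FreeGroup.one_eq_mk]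
  · refine ⟨[], [], w, ?_, by simp, h⟩
    simp [← FreeGroup.one_eq_mk]

theorem splitW_of_two (A : X → Prop) (w : List (X × Bool)) (i₁ i₂ : ℕ)
    (h : ∀ i a b, IsTurn w i a b → i ≠ i₁ → i ≠ i₂ → (A a.1 ↔ A b.1)) : SplitW A w := by
  by_cases hi₁ : i₁ < w.length
  · by_cases hi₂ : i₂ < w.length
    · -- both are real
      have key : ∀ i₁ i₂, i₁ ≤ i₂ → i₂ < w.length →
          (∀ i a b, IsTurn w i a b → i ≠ i₁ → i ≠ i₂ → (A a.1 ↔ A b.1)) → SplitW A w := by
        intro i₁ i₂ h12 h2 h
        obtain ⟨k₁, k₂, g1, g2⟩ := two_parts A w i₁ i₂ h12 h2 h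
        have hrot : w.rotate i₁ = w.drop i₁ ++ w.take i₁ :=
          List.rotate_eq_drop_append_take (by omega)
        have hmk : FreeGroup.mk w = FreeGroup.mk (w.take i₁) *
            FreeGroup.mk (w.rotate i₁) * (FreeGroup.mk (w.take i₁))⁻¹ := by
          rw [hrot, ← FreeGroup.mul_mk]
          conv_lhs => rw [← List.take_append_drop i₁ w, ← FreeGroup.mul_mk]
          group
        have hmk2 : FreeGroup.mk (w.rotate i₁) = FreeGroup.mk ((w.rotate i₁).take (i₂ - i₁)) *
            FreeGroup.mk ((w.rotate i₁).drop (i₂ - i₁)) := by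
          rw [FreeGroup.mul_mk, List.take_append_drop]
        set α := (w.rotate i₁).take (i₂ - i₁)
        set β := (w.rotate i₁).drop (i₂ - i₁)
        by_cases hk1 : k₁ <;> by_cases hk2 : k₂
        · -- both in A
          refine ⟨w.take i₁, w.rotate i₁, [], ?_, ?_, by simp⟩
          · rw [← FreeGroup.one_eq_mk, mul_one]; exact hmk
          · intro l hl
            rw [← List.take_append_drop (i₂ - i₁) (w.rotate i₁)] at hl
            rcases List.mem_append.1 hl with hl | hl
            · exact (g1 l hl).2 hk1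
            · exact (g2 l hl).2 hk2
        · refine ⟨w.take i₁, α, β, ?_, fun l hl => (g1 l hl).2 hk1,
            fun l hl hA => hk2 ((g2 l hl).1 hA)⟩
          rw [hmk, hmk2]
        · refine ⟨w.take i₁ ++ α, β, α, ?_, fun l hl => (g2 l hl).2 hk2,
            fun l hl hA => hk1 ((g1 l hl).1 hA)⟩
          rw [hmk, hmk2, ← FreeGroup.mul_mk]
          group
        · refine ⟨w.take i₁, [], w.rotate i₁, ?_, by simp, ?_⟩
          · rw [← FreeGroup.one_eq_mk, one_mul]; exact hmk
          · intro l hl hA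
            rw [← List.take_append_drop (i₂ - i₁) (w.rotate i₁)] at hl
            rcases List.mem_append.1 hl with hl | hl
            · exact hk1 ((g1 l hl).1 hA)
            · exact hk2 ((g2 l hl).1 hA)
      rcases le_total i₁ i₂ with h12 | h12
      · exact key i₁ i₂ h12 hi₂ h
      · exact key i₂ i₁ h12 hi₁ (fun i a b hab h1 h2 => h i a b hab h2 h1)
    · refine SplitW.of_pure (pure_of_one A w i₁ fun i a b hab hne => h i a b hab hne ?_)
      obtain ⟨h1, -⟩ := hab.rotate
      omega
  · refine SplitW.of_pure (pure_of_one A w i₂ fun i a b hab hne => h i a b hab ?_ hne)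
    obtain ⟨h1, -⟩ := hab.rotate
    omega

/-- Whitehead minimality of a family of cyclic words. -/
def MinW {ι : Type*} [Fintype ι] (u : ι → List (X × Bool)) : Prop :=
  ∀ (A : X × Bool → Prop) (a : X × Bool), A a → ¬ A (linv a) →
    ∀ z : ι → X × Bool, (∀ j, (u j).getLast? = some (z j)) →
      ∑ j, cnt a.1 (u j) ≤ ∑ j, cr A (z j) (u j)

theorem exists_last {ι : Type*} {u : ι → List (X × Bool)} (hne : ∀ j, u j ≠ []) :
    ∃ z : ι → X × Bool, ∀ j, (u j).getLast? = some (z j) := by
  have : ∀ j, ∃ z, (u j).getLast? = some z := by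
    intro j
    cases hx : (u j).getLast? with
    | none => rw [List.getLast?_eq_none_iff] at hx; exact absurd hx (hne j)
    | some y => exact ⟨y, rfl⟩
  choose z hz using this
  exact ⟨z, hz⟩

theorem rig1_of {ι : Type*} [Fintype ι] (u : ι → List (X × Bool)) (hne : ∀ j, u j ≠ [])
    (hmin : MinW u) (hdeg : ∀ x, 3 ≤ ∑ j, cnt x (u j))
    (hsplit : ∀ A : X → Prop, (∃ x, A x) → (∃ x, ¬ A x) → ∀ j₀, SplitW A (u j₀) →
      (∀ j, j ≠ j₀ → Pure A (u j)) → False) : Rig1 u := by
  intro t₁ t₂ c hc
  obtain ⟨z, hz⟩ := exists_last hne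
  by_contra hcon
  push Not at hcon
  obtain ⟨a, b, hab⟩ := hcon
  by_cases hinv : ∃ l, c l ∧ ¬ c (linv l)
  · obtain ⟨l, hl, hl'⟩ := hinv
    have h1 := sum_cr_le_two u c z hz t₁ t₂ hc
    have h2 := hmin c l hl hl' z hz
    have h3 := hdeg l.1
    omega
  · have hinv' : ∀ l, c l ↔ c (linv l) := by
      intro l
      constructor
      · intro h
        by_contra h'
        exact hinv ⟨l, h, h'⟩
      · intro h
        by_contra h'
        exact hinv ⟨linv l, h, by rwa [linv_linv]⟩
    let A : X → Prop := fun x => c (x, true)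
    have hA : ∀ l : X × Bool, c l ↔ A l.1 := by
      rintro ⟨x, b⟩
      cases b with
      | true => exact Iff.rfl
      | false => exact hinv' (x, false)
    have hA1 : ∃ x, A x := by
      by_contra h
      push Not at h
      exact hab.elim (fun h' => h _ ((hA a).1 h'.1)) (fun h' => h _ ((hA b).1 h'.2))
    have hA2 : ∃ x, ¬ A x := by
      by_contra h
      push Not at h
      exact hab.elim (fun h' => h'.2 ((hA b).2 (h _))) (fun h' => h'.1 ((hA a).2 (h _)))
    have hc' : ∀ j i a b, IsTurn (u j) i a b → (j, i) ≠ t₁ → (j, i) ≠ t₂ → (A a.1 ↔ A b.1) := by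
      intro j i a b hab h1 h2
      rw [← hA, ← hA]
      exact hc j i a b hab h1 h2
    refine hsplit A hA1 hA2 t₁.1 ?_ ?_
    · by_cases h12 : t₁.1 = t₂.1
      · refine splitW_of_two A _ t₁.2 t₂.2 ?_
        intro i a b hab h1 h2
        refine hc' t₁.1 i a b hab ?_ ?_
        · intro h; exact h1 (congrArg Prod.snd h)
        · intro h; exact h2 (congrArg Prod.snd h)
      · refine SplitW.of_pure (pure_of_one A _ t₁.2 ?_)
        intro i a b hab h1
        refine hc' t₁.1 i a b hab ?_ ?_
        · intro h; exact h1 (congrArg Prod.snd h)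
        · intro h
          have h' : t₁.1 = t₂.1 := by rw [← h]
          exact h12 h'
    · intro j hj
      refine pure_of_one A _ t₂.2 ?_
      intro i a b hab h1
      refine hc' j i a b hab ?_ ?_
      · intro h; exact hj (congrArg Prod.fst h)
      · intro h; exact h1 (congrArg Prod.snd h)

section counting

variable {ι : Type*} [Fintype ι] (u : ι → List (X × Bool)) (z : ι → X × Bool)

/-- first half edge of a turn -/
def aT (x : Σ j, Fin (u j).length) : X × Bool :=
  linv ((z x.1 :: u x.1)[(x.2 : ℕ)]'(by simp))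

/-- second half edge of a turn -/
def bT (x : Σ j, Fin (u j).length) : X × Bool := (u x.1)[(x.2 : ℕ)]

omit [Fintype ι] in
theorem turn_T (hz : ∀ j, (u j).getLast? = some (z j)) (x : Σ j, Fin (u j).length) :
    IsTurn (u x.1) x.2 (aT u z x) (bT u x) := isTurn_last (hz x.1) x.2 x.2.2

omit [Fintype ι] in
theorem turn_T' (hz : ∀ j, (u j).getLast? = some (z j)) {j : ι} {i : ℕ} {a b : X × Bool}
    (h : IsTurn (u j) i a b) : ∃ x : Σ j, Fin (u j).length, x.1 = j ∧ (x.2 : ℕ) = i ∧
      aT u z x = a ∧ bT u x = b := by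
  obtain ⟨h1, -⟩ := h.rotate
  have h2 := turn_T u z hz ⟨j, ⟨i, h1⟩⟩
  refine ⟨⟨j, ⟨i, h1⟩⟩, rfl, rfl, ?_, ?_⟩
  · have e1 := h.2
    have e2 := h2.2
    change (u j)[(i + (u j).length - 1) % (u j).length]? = _ at e2
    rw [e1] at e2
    exact (linv_inj (Option.some.inj e2)).symm
  · have e1 := h.1
    have e2 := h2.1
    change (u j)[i]? = _ at e2
    rw [e1] at e2
    exact (Option.some.inj e2).symm

theorem sum_cr_eq (A : X × Bool → Prop) :
    ∑ j, cr A (z j) (u j) = ∑ x : (Σ j, Fin (u j).length),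
      (if A (aT u z x) ↔ A (bT u x) then 0 else 1) := by
  rw [Fintype.sum_sigma]
  refine Finset.sum_congr rfl fun j _ => ?_
  exact cr_eq_sum A (u j) (z j)

theorem shift_sum (g : X × Bool → ℕ) (w : List (X × Bool)) : ∀ z,
    (∑ i : Fin w.length, g ((z :: w)[(i : ℕ)]'(by simp))) + g (w.getLastD z) =
      g z + ∑ i : Fin w.length, g (w[(i : ℕ)]) := by
  induction w with
  | nil => intro z; simp
  | cons l w ih =>
    intro z
    have h1 : (∑ i : Fin (l :: w).length, g ((z :: l :: w)[(i : ℕ)]'(by simp))) =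
        g z + ∑ i : Fin w.length, g ((l :: w)[(i : ℕ)]'(by simp)) :=
      Fin.sum_univ_succ (n := w.length) (fun i : Fin (w.length + 1) =>
        g ((z :: l :: w)[(i : ℕ)]'(by have := i.2; simp only [List.length_cons]; omega)))
    have h2 : (∑ i : Fin (l :: w).length, g ((l :: w)[(i : ℕ)])) =
        g l + ∑ i : Fin w.length, g (w[(i : ℕ)]) :=
      Fin.sum_univ_succ (n := w.length) (fun i : Fin (w.length + 1) =>
        g ((l :: w)[(i : ℕ)]'(by have := i.2; simp only [List.length_cons]; omega)))
    rw [h1, h2, List.getLastD_cons, ← ih l]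
    ring

theorem cnt_eq_sum (x : X) (w : List (X × Bool)) :
    cnt x w = ∑ i : Fin w.length, (if (w[(i : ℕ)]).1 = x then 1 else 0) := by
  induction w with
  | nil => rfl
  | cons l w ih =>
    rw [cnt_cons, ih, add_comm]
    exact (Fin.sum_univ_succ (n := w.length) (fun i : Fin (w.length + 1) =>
        if ((l :: w)[(i : ℕ)]'(by have := i.2; simp only [List.length_cons]; omega)).1 = x
          then 1 else 0)).symm

theorem sum_cnt_eq (hz : ∀ j, (u j).getLast? = some (z j)) (ε : X × Bool) :
    ∑ j, cnt ε.1 (u j) = ∑ x : (Σ j, Fin (u j).length),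
      ((if aT u z x = ε then 1 else 0) + (if bT u x = ε then 1 else 0)) := by
  rw [Fintype.sum_sigma]
  refine Finset.sum_congr rfl fun j _ => ?_
  rw [Finset.sum_add_distrib, cnt_eq_sum]
  have h1 := shift_sum (fun l => if linv l = ε then 1 else 0) (u j) (z j)
  have h2 : (u j).getLastD (z j) = z j := by
    rw [List.getLastD_eq_getLast?, hz j]; rfl
  rw [h2, add_comm] at h1
  have h3 := Nat.add_left_cancel h1
  have h4 : (∑ y : Fin (u j).length, if aT u z ⟨j, y⟩ = ε then 1 else 0) =
      ∑ i : Fin (u j).length, (if linv ((u j)[(i : ℕ)]) = ε then 1 else 0) := h3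
  rw [h4, ← Finset.sum_add_distrib]
  refine Finset.sum_congr rfl fun i _ => ?_
  change _ = (if linv ((u j)[(i : ℕ)]) = ε then 1 else 0) + (if (u j)[(i : ℕ)] = ε then 1 else 0)
  generalize (u j)[(i : ℕ)] = l
  rcases l with ⟨x, b⟩
  rcases ε with ⟨y, b'⟩
  by_cases hxy : x = y
  · subst hxy
    cases b <;> cases b' <;> simp [linv]
  · simp [linv, hxy]

end counting

theorem rig2_of {ι : Type*} [Fintype ι] (u : ι → List (X × Bool)) (hne : ∀ j, u j ≠ [])
    (hmin : MinW u) (h1 : Rig1 u) : Rig2 u := by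
  intro t ε c hc
  obtain ⟨z, hz⟩ := exists_last hne
  by_contra hcon
  push Not at hcon
  obtain ⟨a, b, ha, hb, hab⟩ := hcon
  obtain ⟨B, hB⟩ : ∃ B : X × Bool → Prop, ∀ l, B l ↔ (l ≠ ε ∧ ¬ (c l ↔ c (linv ε))) :=
    ⟨_, fun _ => Iff.rfl⟩
  have hBne : ∃ l, B l := by
    by_cases h : (c a ↔ c (linv ε))
    · refine ⟨b, (hB b).2 ⟨hb, fun h' => ?_⟩⟩
      have h2 : c a ↔ c b := h.trans h'.symm
      exact hab.elim (fun h3 => h3.2 (h2.1 h3.1)) (fun h3 => h3.1 (h2.2 h3.2))
    · exact ⟨a, (hB a).2 ⟨ha, h⟩⟩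
  have hBε : ¬ B ε := fun h => ((hB ε).1 h).1 rfl
  have hBε' : ¬ B (linv ε) := fun h => ((hB _).1 h).2 Iff.rfl
  obtain ⟨A, hAd⟩ : ∃ A : X × Bool → Prop, ∀ l, A l ↔ (l = ε ∨ B l) := ⟨_, fun _ => Iff.rfl⟩
  have hA : A ε := (hAd ε).2 (Or.inl rfl)
  have hA' : ¬ A (linv ε) := fun h => ((hAd _).1 h).elim (fun h => linv_ne ε h) hBε'
  have hm := hmin A ε hA hA' z hz
  rw [sum_cr_eq, sum_cnt_eq u z hz] at hm
  let J : (Σ j, Fin (u j).length) → ℕ := fun x =>
    if (aT u z x = ε ∧ B (bT u x)) ∨ (B (aT u z x) ∧ bT u x = ε) then 1 else 0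
  let crf : (Σ j, Fin (u j).length) → ℕ := fun x =>
    if A (aT u z x) ↔ A (bT u x) then 0 else 1
  let tf : (Σ j, Fin (u j).length) → ℕ := fun x =>
    (if aT u z x = ε then 1 else 0) + (if bT u x = ε then 1 else 0)
  let df : (Σ j, Fin (u j).length) → ℕ := fun x => if (x.1, (x.2 : ℕ)) = t then 1 else 0
  have hm' : ∑ x, tf x ≤ ∑ x, crf x := hm
  have hpt : ∀ x : (Σ j, Fin (u j).length), crf x + J x ≤ tf x + df x := by
    intro x
    have hle : crf x + J x ≤ 1 := by
      by_cases g2 : (aT u z x = ε ∧ B (bT u x)) ∨ (B (aT u z x) ∧ bT u x = ε)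
      · have g1 : A (aT u z x) ↔ A (bT u x) := by
          rw [hAd, hAd]
          rcases g2 with ⟨h3, h4⟩ | ⟨h3, h4⟩
          · exact ⟨fun _ => Or.inr h4, fun _ => Or.inl h3⟩
          · exact ⟨fun _ => Or.inl h4, fun _ => Or.inr h3⟩
        simp only [crf, J, if_pos g1, if_pos g2, zero_add, le_refl]
      · simp only [crf, J, if_neg g2, add_zero]
        split_ifs
        · exact Nat.zero_le _
        · exact le_rfl
    by_cases h3 : aT u z x = ε
    · have : 1 ≤ tf x := by simp only [tf, if_pos h3]; omega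
      omega
    by_cases h4 : bT u x = ε
    · have : 1 ≤ tf x := by simp only [tf, if_pos h4]; omega
      omega
    by_cases h5 : (x.1, (x.2 : ℕ)) = t
    · have : df x = 1 := if_pos h5
      omega
    have h6 := hc x.1 x.2 _ _ (turn_T u z hz x) h5 h3 h4
    have h7 : B (aT u z x) ↔ B (bT u x) := by
      rw [hB, hB]
      exact ⟨fun h => ⟨h4, fun h' => h.2 (h6.trans h')⟩,
        fun h => ⟨h3, fun h' => h.2 (h6.symm.trans h')⟩⟩
    have h8 : A (aT u z x) ↔ A (bT u x) := by
      rw [hAd, hAd]
      exact ⟨fun h => Or.inr (h7.1 (h.resolve_left h3)), fun h => Or.inr (h7.2 (h.resolve_left h4))⟩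
    have h9 : crf x = 0 := if_pos h8
    have h10 : J x = 0 := if_neg (fun h => h.elim (fun h => h3 h.1) (fun h => h4 h.2))
    omega
  have hsum : ∑ x, crf x + ∑ x, J x ≤ ∑ x, tf x + ∑ x, df x := by
    rw [← Finset.sum_add_distrib, ← Finset.sum_add_distrib]
    exact Finset.sum_le_sum (fun x _ => hpt x)
  have ht : ∑ x, df x ≤ 1 := by
    change ∑ x : (Σ j, Fin (u j).length), (if (x.1, (x.2 : ℕ)) = t then 1 else 0) ≤ 1
    rw [← Finset.card_filter, Finset.card_le_one]
    rintro ⟨j, i, hi⟩ hx ⟨j', i', hi'⟩ hx'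
    rw [Finset.mem_filter] at hx hx'
    have := hx.2.trans hx'.2.symm
    simp only [Prod.mk.injEq] at this
    obtain ⟨rfl, rfl⟩ := this
    rfl
  have hJ : ∑ x, J x ≤ 1 := by
    clear_value J crf tf df
    omega
  -- at most one joining turn
  obtain ⟨t', ht'⟩ : ∃ t' : ι × ℕ, ∀ x, J x = 1 → (x.1, (x.2 : ℕ)) = t' := by
    by_cases hex : ∃ x, J x = 1
    · obtain ⟨x₀, hx₀⟩ := hex
      refine ⟨(x₀.1, (x₀.2 : ℕ)), fun x hx => ?_⟩
      by_contra hne'
      have hxx : x ≠ x₀ := fun h => hne' (by rw [h])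
      have h11 := Finset.sum_le_sum_of_subset (f := J) (Finset.subset_univ ({x, x₀} : Finset _))
      rw [Finset.sum_pair hxx, hx, hx₀] at h11
      exact absurd (h11.trans hJ) (by norm_num)
    · exact ⟨t, fun x hx => absurd ⟨x, hx⟩ hex⟩
  obtain ⟨l₀, hl₀⟩ := hBne
  have h9 := h1 t t' B (by
    intro j i a b hab h3 h4
    obtain ⟨x, rfl, rfl, rfl, rfl⟩ := turn_T' u z hz hab
    by_cases h5 : aT u z x = ε
    · constructor
      · intro h; rw [h5] at h; exact absurd h hBε
      · intro h
        exfalso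
        exact h4 (ht' x (if_pos (Or.inl ⟨h5, h⟩)))
    by_cases h6 : bT u x = ε
    · constructor
      · intro h
        exfalso
        exact h4 (ht' x (if_pos (Or.inr ⟨h, h6⟩)))
      · intro h; rw [h6] at h; exact absurd h hBε
    have h7 := hc x.1 x.2 _ _ hab h3 h5 h6
    rw [hB, hB]
    exact ⟨fun h => ⟨h6, fun h' => h.2 (h7.trans h')⟩,
        fun h => ⟨h5, fun h' => h.2 (h7.symm.trans h')⟩⟩) l₀ ε
  exact hBε (h9.1 hl₀)

/-- A word without crossing turns sees only one side. -/
theorem no_cross (w : List (X × Bool)) (hne : w ≠ []) (hmin : MinW (fun _ : Unit => w))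
    (hdeg : ∀ x, 1 ≤ cnt x w) (A : X × Bool → Prop)
    (h : ∀ i a b, IsTurn w i a b → (A a ↔ A b)) : ∀ a b, A a ↔ A b := by
  obtain ⟨z, hz⟩ := exists_last (u := fun _ : Unit => w) (fun _ => hne)
  intro a b
  by_contra hab
  by_cases hinv : ∃ l, A l ∧ ¬ A (linv l)
  · obtain ⟨l, hl, hl'⟩ := hinv
    have h1 := hmin A l hl hl' z hz
    rw [sum_cr_eq] at h1
    have h2 : ∑ x : (Σ j : Unit, Fin ((fun _ : Unit => w) j).length),
        (if A (aT (fun _ : Unit => w) z x) ↔ A (bT (fun _ : Unit => w) x) then 0 else 1) = 0 := by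
      refine Finset.sum_eq_zero fun x _ => ?_
      exact if_pos (h _ _ _ (turn_T _ z hz x))
    rw [h2] at h1
    have h3 := hdeg l.1
    simp only [Finset.univ_unique, Finset.sum_const, Finset.card_singleton, one_smul] at h1
    omega
  · have hinv' : ∀ l, A l ↔ A (linv l) := by
      intro l
      constructor
      · intro h
        by_contra h'
        exact hinv ⟨l, h, h'⟩
      · intro h
        by_contra h'
        exact hinv ⟨linv l, h, by rwa [linv_linv]⟩
    let A' : X → Prop := fun x => A (x, true)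
    have hA : ∀ l : X × Bool, A l ↔ A' l.1 := by
      rintro ⟨x, b⟩
      cases b with
      | true => exact Iff.rfl
      | false => exact hinv' (x, false)
    have hp : Pure A' w := pure_of_one A' w 0 (by
      intro i a b hab _
      rw [← hA, ← hA]
      exact h i a b hab)
    have hmem : ∀ x, ∃ l ∈ w, l.1 = x := by
      intro x
      by_contra hcon
      push Not at hcon
      have := cnt_eq_zero.2 hcon
      have := hdeg x
      omega
    obtain ⟨la, hla, hla'⟩ := hmem a.1
    obtain ⟨lb, hlb, hlb'⟩ := hmem b.1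
    apply hab
    rw [hA, hA, ← hla', ← hlb']
    rcases hp with hp | hp
    · exact ⟨fun _ => hp _ hlb, fun _ => hp _ hla⟩
    · exact ⟨fun h => absurd h (hp _ hla), fun h => absurd h (hp _ hlb)⟩

/-- The open Whitehead graph of a word is connected, and removing a vertex leaves components
meeting the ends. -/
def ConnWord (w : List (X × Bool)) : Prop :=
  ∃ p q, Conn (fun a b => ∃ i, i ≠ 0 ∧ IsTurn w i a b) Set.univ p (linv q) ∧
    w.head? = some p ∧ w.getLast? = some q

theorem connWord_of_min (w : List (X × Bool)) (hcyc : FreeGroup.IsCyclicallyReduced w)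
    (hne : w ≠ []) (hmin : MinW (fun _ : Unit => w)) (hdeg : ∀ x, 2 ≤ cnt x w) : ConnWord w := by
  obtain ⟨z, hz⟩ := exists_last (u := fun _ : Unit => w) (fun _ => hne)
  have hdeg1 : ∀ x, 1 ≤ cnt x w := fun x => le_trans (by norm_num) (hdeg x)
  -- ends
  obtain ⟨a₀, b₀, h0⟩ := exists_turn_zero hne
  have hab₀ := turn_ne hcyc h0
  have hz0 : w.getLast? = some (linv a₀) := by
    obtain ⟨-, M, hM1, hM2⟩ := h0.rotate
    simp only [List.drop_zero, List.take_zero, List.append_nil] at hM1
    rw [hM1]; exact hM2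
  have hp0 : w.head? = some b₀ := by
    obtain ⟨-, M, hM1, hM2⟩ := h0.rotate
    simp only [List.drop_zero, List.take_zero, List.append_nil] at hM1
    rw [hM1]; rfl
  have hturn0 : ∀ a b, IsTurn w 0 a b → a = a₀ ∧ b = b₀ := by
    rintro a b ⟨e1, e2⟩
    have e1' := h0.1
    have e2' := h0.2
    rw [e1] at e1'
    rw [e2] at e2'
    exact ⟨linv_inj (Option.some.inj e2'), Option.some.inj e1'⟩
  refine ⟨b₀, linv a₀, ?_, hp0, hz0⟩
  rw [linv_linv]
  refine ⟨Set.mem_univ _, Set.mem_univ _, ?_, ?_⟩
  · -- connectedness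
    intro c hc a _ b _
    have hc' : ∀ i a b, IsTurn w i a b → i ≠ 0 → (c a ↔ c b) := fun i a b hab hi =>
      hc a (Set.mem_univ _) b (Set.mem_univ _) ⟨i, hi, hab⟩
    by_contra hab
    by_cases hinv : ∃ l, c l ∧ ¬ c (linv l)
    · obtain ⟨l, hl, hl'⟩ := hinv
      have h1 := hmin c l hl hl' z hz
      rw [sum_cr_eq] at h1
      have h2 : ∑ x : (Σ j : Unit, Fin ((fun _ : Unit => w) j).length),
          (if c (aT (fun _ : Unit => w) z x) ↔ c (bT (fun _ : Unit => w) x) then 0 else 1) ≤ 1 := by
        calc _ ≤ ∑ x : (Σ j : Unit, Fin ((fun _ : Unit => w) j).length),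
              (if (x.2 : ℕ) = 0 then 1 else 0) := by
              refine Finset.sum_le_sum fun x _ => ?_
              by_cases hx : (x.2 : ℕ) = 0
              · rw [if_pos hx]; split_ifs <;> omega
              · rw [if_pos (hc' _ _ _ (turn_T _ z hz x) hx)]; exact Nat.zero_le _
          _ ≤ 1 := by
              rw [← Finset.card_filter, Finset.card_le_one]
              rintro ⟨⟨⟩, i, hi⟩ hx ⟨⟨⟩, i', hi'⟩ hx'
              rw [Finset.mem_filter] at hx hx'
              have h3 : i = 0 := hx.2
              have h4 : i' = 0 := hx'.2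
              subst h3; subst h4; rfl
      have h3 := hdeg l.1
      have h4 : cnt l.1 w ≤ 1 := by simpa using h1.trans h2
      omega
    · have hinv' : ∀ l, c l ↔ c (linv l) := by
        intro l
        constructor
        · intro h
          by_contra h'
          exact hinv ⟨l, h, h'⟩
        · intro h
          by_contra h'
          exact hinv ⟨linv l, h, by rwa [linv_linv]⟩
      let A' : X → Prop := fun x => c (x, true)
      have hA : ∀ l : X × Bool, c l ↔ A' l.1 := by
        rintro ⟨x, b⟩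
        cases b with
        | true => exact Iff.rfl
        | false => exact hinv' (x, false)
      have hp : Pure A' w := pure_of_one A' w 0 (by
        intro i a b hab hi
        rw [← hA, ← hA]
        exact hc' i a b hab hi)
      have hmem : ∀ x, ∃ l ∈ w, l.1 = x := by
        intro x
        by_contra hcon
        push Not at hcon
        have := cnt_eq_zero.2 hcon
        have := hdeg x
        omega
      obtain ⟨la, hla, hla'⟩ := hmem a.1
      obtain ⟨lb, hlb, hlb'⟩ := hmem b.1
      apply hab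
      rw [hA, hA, ← hla', ← hlb']
      rcases hp with hp | hp
      · exact ⟨fun _ => hp _ hlb, fun _ => hp _ hla⟩
      · exact ⟨fun h => absurd h (hp _ hla), fun h => absurd h (hp _ hlb)⟩
  · -- removing a vertex
    intro ε c k hc hp hq l₀ _ hl₀
    by_contra hcon
    obtain ⟨B, hB⟩ : ∃ B : X × Bool → Prop, ∀ l, B l ↔ (l ≠ ε ∧ ¬ (c l ↔ k)) :=
      ⟨_, fun _ => Iff.rfl⟩
    have hBl₀ : B l₀ := (hB _).2 ⟨hl₀, hcon⟩
    have hBε : ¬ B ε := fun h => ((hB ε).1 h).1 rfl
    have hBb : ¬ B b₀ := fun h => ((hB _).1 h).2 (hp ((hB _).1 h).1)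
    have hBa : ¬ B a₀ := fun h => ((hB _).1 h).2 (hq ((hB _).1 h).1)
    -- a turn crossing `B` joins `B` and `ε`
    have hcross : ∀ i a b, IsTurn w i a b → a ≠ ε → b ≠ ε → (B a ↔ B b) := by
      intro i a b hab ha hb
      rcases eq_or_ne i 0 with rfl | hi
      · obtain ⟨rfl, rfl⟩ := hturn0 a b hab
        exact ⟨fun h => absurd h hBa, fun h => absurd h hBb⟩
      · have h7 := hc a (Set.mem_univ _) b (Set.mem_univ _) ⟨i, hi, hab⟩ ha hb
        rw [hB, hB]
        exact ⟨fun h => ⟨hb, fun h' => h.2 (h7.trans h')⟩,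
          fun h => ⟨ha, fun h' => h.2 (h7.symm.trans h')⟩⟩
    let T := Σ j : Unit, Fin ((fun _ : Unit => w) j).length
    let J : T → ℕ := fun x =>
      if (aT (fun _ : Unit => w) z x = ε ∧ B (bT (fun _ : Unit => w) x)) ∨
        (B (aT (fun _ : Unit => w) z x) ∧ bT (fun _ : Unit => w) x = ε) then 1 else 0
    let tf : T → ℕ := fun x =>
      (if aT (fun _ : Unit => w) z x = ε then 1 else 0) +
        (if bT (fun _ : Unit => w) x = ε then 1 else 0)
    have hJtf : ∀ x, J x ≤ tf x := by
      intro x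
      by_cases g : (aT (fun _ : Unit => w) z x = ε ∧ B (bT (fun _ : Unit => w) x)) ∨
        (B (aT (fun _ : Unit => w) z x) ∧ bT (fun _ : Unit => w) x = ε)
      · have h1 : J x = 1 := if_pos g
        rw [h1]
        rcases g with ⟨h3, -⟩ | ⟨-, h3⟩
        · simp only [tf, if_pos h3]; omega
        · simp only [tf, if_pos h3]; omega
      · have h1 : J x = 0 := if_neg g
        rw [h1]; exact Nat.zero_le _
    by_cases hlin : B (linv ε)
    · -- case `linv ε ∈ B`
      have hm := hmin B (linv ε) hlin (by rwa [linv_linv]) z hz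
      have hcnt : ∑ j : Unit, cnt (linv ε).1 w = ∑ x, tf x := sum_cnt_eq (fun _ : Unit => w) z hz ε
      rw [sum_cr_eq] at hm
      have hcrJ : ∀ x : T, (if B (aT (fun _ : Unit => w) z x) ↔ B (bT (fun _ : Unit => w) x)
          then 0 else 1) ≤ J x := by
        intro x
        by_cases g : (B (aT (fun _ : Unit => w) z x) ↔ B (bT (fun _ : Unit => w) x))
        · rw [if_pos g]; exact Nat.zero_le _
        · rw [if_neg g]
          have h1 : J x = 1 := by
            refine if_pos ?_
            by_cases h3 : aT (fun _ : Unit => w) z x = ε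
            · left
              refine ⟨h3, ?_⟩
              by_contra h4
              exact g ⟨fun h => absurd (h3 ▸ h) hBε, fun h => absurd h h4⟩
            · by_cases h4 : bT (fun _ : Unit => w) x = ε
              · right
                refine ⟨?_, h4⟩
                by_contra h5
                exact g ⟨fun h => absurd h h5, fun h => absurd (h4 ▸ h) hBε⟩
              · exact absurd (hcross _ _ _ (turn_T _ z hz x) h3 h4) g
          rw [h1]
      have hle : ∑ x, tf x ≤ ∑ x, J x := by
        rw [← hcnt]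
        exact hm.trans (Finset.sum_le_sum fun x _ => hcrJ x)
      have heq : ∀ x, J x = tf x := by
        have h1 := (Finset.sum_eq_sum_iff_of_le (s := Finset.univ) (f := J) (g := tf)
          (fun x _ => hJtf x)).1 (le_antisymm (Finset.sum_le_sum fun x _ => hJtf x) hle)
        exact fun x => h1 x (Finset.mem_univ x)
      -- every turn touching `ε` goes to `B`
      have htouch : ∀ i a b, IsTurn w i a b → (a = ε → B b) ∧ (b = ε → B a) := by
        intro i a b hab
        obtain ⟨x, -, -, h3, h4⟩ := turn_T' (fun _ : Unit => w) z hz (j := ()) hab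
        have h5 := heq x
        have hJ1 : (a = ε ∨ b = ε) → (a = ε ∧ B b) ∨ (B a ∧ b = ε) := by
          intro hor
          by_contra hn
          have h6 : J x = 0 := by
            refine if_neg ?_
            rw [h3, h4]; exact hn
          rw [h6] at h5
          simp only [tf, h3, h4] at h5
          rcases hor with h | h
          · rw [if_pos h] at h5; omega
          · rw [if_pos h] at h5; omega
        constructor
        · intro ha
          rcases hJ1 (Or.inl ha) with h | h
          · exact h.2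
          · exact absurd (ha ▸ h.1) hBε
        · intro hb
          rcases hJ1 (Or.inr hb) with h | h
          · exact absurd (hb ▸ h.2) hBε
          · exact h.1
      obtain ⟨A, hAd⟩ : ∃ A : X × Bool → Prop, ∀ l, A l ↔ (l = ε ∨ B l) := ⟨_, fun _ => Iff.rfl⟩
      have hA0 : ¬ A b₀ := by
        rw [hAd]
        rintro (h | h)
        · exact hBa ((htouch 0 a₀ b₀ h0).2 h)
        · exact hBb h
      have hAε : A ε := (hAd ε).2 (Or.inl rfl)
      have := no_cross w hne hmin hdeg1 A (by
        intro i a b hab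
        obtain ⟨g1, g2⟩ := htouch i a b hab
        rw [hAd, hAd]
        by_cases ha : a = ε
        · exact ⟨fun _ => Or.inr (g1 ha), fun _ => Or.inl ha⟩
        · by_cases hb : b = ε
          · exact ⟨fun _ => Or.inl hb, fun _ => Or.inr (g2 hb)⟩
          · have g3 := hcross i a b hab ha hb
            exact ⟨fun h => Or.inr (g3.1 (h.resolve_left ha)),
              fun h => Or.inr (g3.2 (h.resolve_left hb))⟩) ε b₀
      exact hA0 (this.1 hAε)
    · -- case `linv ε ∉ B`
      obtain ⟨A, hAd⟩ : ∃ A : X × Bool → Prop, ∀ l, A l ↔ (l = ε ∨ B l) := ⟨_, fun _ => Iff.rfl⟩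
      have hA : A ε := (hAd ε).2 (Or.inl rfl)
      have hA' : ¬ A (linv ε) := fun h => ((hAd _).1 h).elim (fun h => linv_ne ε h) hlin
      have hm := hmin A ε hA hA' z hz
      have hcnt : ∑ j : Unit, cnt ε.1 w = ∑ x, tf x := sum_cnt_eq (fun _ : Unit => w) z hz ε
      rw [sum_cr_eq] at hm
      let crf : T → ℕ := fun x =>
        if A (aT (fun _ : Unit => w) z x) ↔ A (bT (fun _ : Unit => w) x) then 0 else 1
      have hm' : ∑ x, tf x ≤ ∑ x, crf x := by rw [← hcnt]; exact hm
      have hpt : ∀ x : T, crf x + J x ≤ tf x := by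
        intro x
        by_cases g : (aT (fun _ : Unit => w) z x = ε ∧ B (bT (fun _ : Unit => w) x)) ∨
          (B (aT (fun _ : Unit => w) z x) ∧ bT (fun _ : Unit => w) x = ε)
        · have h1 : crf x = 0 := by
            refine if_pos ?_
            rw [hAd, hAd]
            rcases g with ⟨h3, h4⟩ | ⟨h3, h4⟩
            · exact ⟨fun _ => Or.inr h4, fun _ => Or.inl h3⟩
            · exact ⟨fun _ => Or.inl h4, fun _ => Or.inr h3⟩
          rw [h1, zero_add]
          exact hJtf x
        · have h1 : J x = 0 := if_neg g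
          rw [h1, add_zero]
          by_cases h3 : aT (fun _ : Unit => w) z x = ε
          · have : 1 ≤ tf x := by simp only [tf, if_pos h3]; omega
            refine le_trans ?_ this
            simp only [crf]; split_ifs <;> omega
          by_cases h4 : bT (fun _ : Unit => w) x = ε
          · have : 1 ≤ tf x := by simp only [tf, if_pos h4]; omega
            refine le_trans ?_ this
            simp only [crf]; split_ifs <;> omega
          have g3 := hcross _ _ _ (turn_T _ z hz x) h3 h4
          have h5 : crf x = 0 := by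
            refine if_pos ?_
            rw [hAd, hAd]
            exact ⟨fun h => Or.inr (g3.1 (h.resolve_left h3)),
              fun h => Or.inr (g3.2 (h.resolve_left h4))⟩
          rw [h5]; exact Nat.zero_le _
      have hsum : ∑ x, crf x + ∑ x, J x ≤ ∑ x, tf x := by
        rw [← Finset.sum_add_distrib]
        exact Finset.sum_le_sum (fun x _ => hpt x)
      have hJ0 : ∑ x, J x = 0 := by
        clear_value J crf tf
        omega
      have hJ0' : ∀ x, J x = 0 := by
        intro x
        have := (Finset.sum_eq_zero_iff.1 hJ0) x (Finset.mem_univ _)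
        exact this
      have := no_cross w hne hmin hdeg1 B (by
        intro i a b hab
        by_cases ha : a = ε
        · by_cases hb : B b
          · exfalso
            obtain ⟨x, -, -, h3, h4⟩ := turn_T' (fun _ : Unit => w) z hz (j := ()) hab
            have h5 := hJ0' x
            have h6 : J x = 1 := by
              refine if_pos (Or.inl ?_)
              rw [h3, h4]; exact ⟨ha, hb⟩
            omega
          · exact ⟨fun h => absurd (ha ▸ h) hBε, fun h => absurd h hb⟩
        · by_cases hb : b = ε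
          · by_cases ha' : B a
            · exfalso
              obtain ⟨x, -, -, h3, h4⟩ := turn_T' (fun _ : Unit => w) z hz (j := ()) hab
              have h5 := hJ0' x
              have h6 : J x = 1 := by
                refine if_pos (Or.inr ?_)
                rw [h3, h4]; exact ⟨ha', hb⟩
              omega
            · exact ⟨fun h => absurd h ha', fun h => absurd (hb ▸ h) hBε⟩
          · exact hcross i a b hab ha hb) l₀ b₀
      exact hBb (this.1 hBl₀)

end H35.Tape
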