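import Mathlib
import Pool.Agent.H35.Tape.Rig

/-!
# Splitting a form along an inversion closed cut
-/

namespace H35.Tape

open Classical

variable {F : Type*} [Group F] {ω : F}

theorem ev_eq_of_mk {X : Type*} (b : X → F) {w w' : List (X × Bool)}
    (h : FreeGroup.mk w = FreeGroup.mk w') : ev b w = ev b w' := by
  unfold ev; rw [h]

theorem improve_split {r : ℕ} {b : Fin r → F}
    {w₀ : List (Fin r × Bool)} {ws : List (List (Fin r × Bool))} {ps : List (Piece F)}
    (h : IsForm ω (List.ofFn b) (ev b w₀) ps) (hf : (facs ps).Perm (ws.map (ev b))) {N q : ℕ}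
    (hq : qc ps = q) (hN : r + (lets ps).length = N) (A : Fin r → Prop) (hA : ∃ x, A x)
    (hA' : ∃ x, ¬ A x) (w : List (Fin r × Bool)) (W' : List (List (Fin r × Bool)))
    (hp : (w₀ :: ws).Perm (w :: W')) (hw : SplitW A w) (hW : ∀ w' ∈ W', Pure A w') :
    ∃ r', 1 ≤ r' ∧ r' < r ∧ HasForm ω N r' q := by
  set L₁ : List F := ((List.finRange r).filter (fun x => A x)).map b with hL₁
  set L₂ : List F := ((List.finRange r).filter (fun x => ¬ A x)).map b with hL₂
  have hperm : (List.ofFn b).Perm (L₁ ++ L₂) := by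
    rw [List.ofFn_eq_map, hL₁, hL₂, ← List.map_append]
    refine List.Perm.map b ?_
    have := List.filter_append_perm (fun x : Fin r => decide (A x)) (List.finRange r)
    refine this.symm.trans ?_
    apply List.Perm.of_eq
    congr 1
    apply List.filter_congr
    intro x _
    simp
  have hmem1 : ∀ v : List (Fin r × Bool), (∀ l ∈ v, A l.1) → ev b v ∈ cl L₁ := by
    intro v hv
    refine ev_mem b v _ fun l hl => mem_cl_of_mem ?_
    exact List.mem_map.2 ⟨l.1, List.mem_filter.2 ⟨List.mem_finRange _, by simpa using hv l hl⟩, rfl⟩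
  have hmem2 : ∀ v : List (Fin r × Bool), (∀ l ∈ v, ¬ A l.1) → ev b v ∈ cl L₂ := by
    intro v hv
    refine ev_mem b v _ fun l hl => mem_cl_of_mem ?_
    exact List.mem_map.2 ⟨l.1, List.mem_filter.2 ⟨List.mem_finRange _, by simpa using hv l hl⟩, rfl⟩
  have hlen1 : 1 ≤ L₁.length := by
    obtain ⟨x, hx⟩ := hA
    apply List.length_pos_iff.2
    rw [hL₁]
    have : x ∈ (List.finRange r).filter (fun x => A x) :=
      List.mem_filter.2 ⟨List.mem_finRange _, by simpa using hx⟩
    intro h0
    rw [List.map_eq_nil_iff] at h0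
    rw [h0] at this
    simp at this
  have hlen2 : 1 ≤ L₂.length := by
    obtain ⟨x, hx⟩ := hA'
    apply List.length_pos_iff.2
    rw [hL₂]
    have : x ∈ (List.finRange r).filter (fun x => ¬ A x) :=
      List.mem_filter.2 ⟨List.mem_finRange _, by simpa using hx⟩
    intro h0
    rw [List.map_eq_nil_iff] at h0
    rw [h0] at this
    simp at this
  have hlen : L₁.length + L₂.length = r := by
    have := hperm.length_eq
    rw [List.length_ofFn, List.length_append] at this
    exact this.symm
  obtain ⟨R, g1, g2, g3, g4⟩ := h.focusW hf hp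
  obtain ⟨P, α, β, hmk, hα, hβ⟩ := hw
  have hev : ev b w = ev b P * (ev b α * ev b β) * (ev b P)⁻¹ := by
    unfold ev
    rw [hmk]
    simp only [map_mul, map_inv]
  have hPm : ev b P ∈ cl (List.ofFn b) :=
    ev_mem b P _ fun l _ => mem_cl_of_mem (by rw [List.mem_ofFn]; exact ⟨l.1, rfl⟩)
  have g5 := (g1.conjBase (Subgroup.inv_mem _ hPm)).permX hperm
  have e1 : (ev b P)⁻¹ * ev b w * ((ev b P)⁻¹)⁻¹ = ev b α * ev b β := by rw [hev]; group
  rw [e1] at g5
  -- partition
  let p : Piece F → Prop := fun P => ∃ c u, P = Piece.fac c u ∧ u ∈ cl L₂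
  have hp' : ∀ (P : Piece F) (g : F), ¬ p P → ¬ p (P.conj g) := by
    intro P g hP
    rintro ⟨c, u, hcu, hu⟩
    apply hP
    cases P with
    | fac c' u' =>
      simp only [Piece.conj, Piece.fac.injEq] at hcu
      exact ⟨c', u', rfl, by rw [hcu.2]; exact hu⟩
    | gen L β => simp [Piece.conj] at hcu
    | blk B => simp [Piece.conj] at hcu
  obtain ⟨ps₁, ps₂, k1, k2, k3, k4, k5, k6⟩ := IsForm.partition p hp'
    (ps := R.map (Piece.conj (ev b P)⁻¹)) (post := []) (by rw [List.append_nil]; exact g5)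
  rw [List.append_nil] at k3
  have hps₁ : ∀ P ∈ ps₁, P.Ok (cl L₂) := by
    intro P hP
    obtain ⟨c, u, rfl, hu⟩ := k1 P hP
    exact hu
  have hps₂ : ∀ P ∈ ps₂, P.Ok (cl L₁) := by
    intro P hP
    have hok := k3.ok P (by simp [hP])
    cases P with
    | fac c u =>
      have hu2 : u ∉ cl L₂ := fun hu => k2 _ hP ⟨c, u, rfl, hu⟩
      obtain ⟨Q, hQ, g, hPQ⟩ := k6 (Piece.fac c u) (by simp [hP])
      obtain ⟨Q', hQ', rfl⟩ := List.mem_map.1 hQ
      have hu' : u ∈ facs R := by
        cases Q' with
        | fac c' u' =>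
          simp only [Piece.conj, Piece.fac.injEq] at hPQ
          rw [hPQ.2]
          exact mem_facs.2 ⟨c', hQ'⟩
        | gen L β => simp [Piece.conj] at hPQ
        | blk B => simp [Piece.conj] at hPQ
      obtain ⟨w', hw', rfl⟩ := List.mem_map.1 (g2.mem_iff.1 hu')
      rcases hW w' hw' with h1 | h1
      · exact hmem1 w' h1
      · exact absurd (hmem2 w' h1) hu2
    | gen L β => exact hok
    | blk B => trivial
  have k7 := k3.o2 (hmem1 α hα) (hmem2 β hβ) hps₁ hps₂
  refine ⟨L₁.length, hlen1, by omega, L₁, _, _, k7, rfl, ?_, ?_⟩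
  · have h1 : qc ps₁ = 0 := by
      have : ∀ qs : List (Piece F), (∀ P ∈ qs, p P) → qc qs = 0 := by
        intro qs
        induction qs with
        | nil => intro _; rfl
        | cons P qs ih =>
          intro hqs
          rw [qc_cons, ih fun P hP => hqs P (by simp [hP])]
          obtain ⟨c, u, rfl, -⟩ := hqs P (by simp)
          rfl
      exact this ps₁ k1
    rw [qc_append, h1, zero_add, qc_conj, g3, hq] at k4
    rw [qc_cons, k4]
    simp [Piece.q]
  · rw [lets_append, List.length_append, length_lets_conj, g4] at k5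
    rw [lets_cons, List.length_append]
    simp only [Piece.letters, List.length_append]
    omega

end H35.Tape
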