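import Mathlib
import Pool.Agent.H35.Tape.Split

/-!
# Forms with words
-/

set_option linter.unusedSectionVars false

namespace H35.Tape

open Classical

variable {F : Type*} [Group F] {ω : F}

/-- A form given by words. -/
structure WForm (ω : F) {r k s : ℕ} (b : Fin r → F) (c : Fin k → F)
    (u : Option (Fin k) → List (Fin r × Bool)) (bb : Fin s → F) (wb : List (Fin s × Bool))
    (bl : List (Block F)) : Prop where
  basis : IsBasis (List.ofFn b ++ (List.ofFn c ++ (List.ofFn bb ++ bl.flatMap Block.letters)))
  conj : IsConj ω (ev b (u none) * ((List.ofFn fun j => c j * ev b (u (some j)) * (c j)⁻¹).prod *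
    (ev bb wb * (bl.map Block.val).prod)))

section basics

variable {r k s : ℕ} {b : Fin r → F} {c : Fin k → F}
    {u : Option (Fin k) → List (Fin r × Bool)} {bb : Fin s → F} {wb : List (Fin s × Bool)}
    {bl : List (Block F)}

/-- the pieces of a form with words -/
def wpieces (b : Fin r → F) (c : Fin k → F)
    (u : Option (Fin k) → List (Fin r × Bool)) (bb : Fin s → F) (wb : List (Fin s × Bool))
    (bl : List (Block F)) : List (Piece F) :=
  List.ofFn (fun j => Piece.fac (c j) (ev b (u (some j)))) ++
    (Piece.gen (List.ofFn bb) (ev bb wb) :: bl.map Piece.blk)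

theorem lets_ofFn_fac {k : ℕ} (c v : Fin k → F) :
    lets (List.ofFn fun j => Piece.fac (c j) (v j)) = List.ofFn c := by
  induction k with
  | zero => simp
  | succ k ih =>
    rw [List.ofFn_succ, List.ofFn_succ, lets_cons, ih]
    rfl

theorem pval_ofFn_fac {k : ℕ} (c v : Fin k → F) :
    pval (List.ofFn fun j => Piece.fac (c j) (v j)) =
      (List.ofFn fun j => c j * v j * (c j)⁻¹).prod := by
  induction k with
  | zero => simp
  | succ k ih =>
    rw [List.ofFn_succ, List.ofFn_succ, pval_cons, ih, List.prod_cons]
    rfl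

theorem qc_ofFn_fac {k : ℕ} (c v : Fin k → F) :
    qc (List.ofFn fun j => Piece.fac (c j) (v j)) = 0 := by
  induction k with
  | zero => simp
  | succ k ih =>
    rw [List.ofFn_succ, qc_cons, ih]
    rfl

theorem facs_ofFn_fac {k : ℕ} (c v : Fin k → F) :
    facs (List.ofFn fun j => Piece.fac (c j) (v j)) = List.ofFn v := by
  induction k with
  | zero => simp
  | succ k ih =>
    rw [List.ofFn_succ, List.ofFn_succ, facs_fac, ih]

theorem lets_map_blk (bl : List (Block F)) : lets (bl.map Piece.blk) = bl.flatMap Block.letters := by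
  induction bl with
  | nil => rfl
  | cons B bl ih => rw [List.map_cons, lets_cons, ih]; rfl

theorem pval_map_blk (bl : List (Block F)) : pval (bl.map Piece.blk) = (bl.map Block.val).prod := by
  induction bl with
  | nil => rfl
  | cons B bl ih => rw [List.map_cons, pval_cons, ih]; rfl

theorem qc_map_blk (bl : List (Block F)) :
    qc (bl.map Piece.blk) = (bl.flatMap Block.letters).length := by
  induction bl with
  | nil => rfl
  | cons B bl ih => rw [List.map_cons, qc_cons, ih, List.flatMap_cons, List.length_append]; rfl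

theorem facs_map_blk (bl : List (Block F)) : facs (bl.map Piece.blk) = [] := by
  induction bl with
  | nil => rfl
  | cons B bl ih => rw [List.map_cons, facs_blk, ih]

theorem lets_wpieces : lets (wpieces b c u bb wb bl) =
    List.ofFn c ++ (List.ofFn bb ++ bl.flatMap Block.letters) := by
  rw [wpieces, lets_append, lets_ofFn_fac, lets_cons, lets_map_blk]
  rfl

theorem pval_wpieces : pval (wpieces b c u bb wb bl) =
    (List.ofFn fun j => c j * ev b (u (some j)) * (c j)⁻¹).prod *
      (ev bb wb * (bl.map Block.val).prod) := by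
  rw [wpieces, pval_append, pval_ofFn_fac, pval_cons, pval_map_blk]
  rfl

theorem qc_wpieces : qc (wpieces b c u bb wb bl) = (bl.flatMap Block.letters).length := by
  rw [wpieces, qc_append, qc_ofFn_fac, qc_cons, qc_map_blk]
  simp [Piece.q]

theorem facs_wpieces : facs (wpieces b c u bb wb bl) = List.ofFn fun j => ev b (u (some j)) := by
  rw [wpieces, facs_append, facs_ofFn_fac, facs_gen, facs_map_blk, List.append_nil]

theorem ev_mem_cl {X : ℕ} (b : Fin X → F) (w : List (Fin X × Bool)) : ev b w ∈ cl (List.ofFn b) :=
  ev_mem b w _ fun l _ => mem_cl_of_mem (by rw [List.mem_ofFn]; exact ⟨l.1, rfl⟩)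

theorem WForm.toIsForm (h : WForm ω b c u bb wb bl) :
    IsForm ω (List.ofFn b) (ev b (u none)) (wpieces b c u bb wb bl) where
  basis := by rw [lets_wpieces]; exact h.basis
  hu := ev_mem_cl b _
  ok := by
    intro P hP
    rw [wpieces, List.mem_append, List.mem_cons, List.mem_ofFn, List.mem_map] at hP
    rcases hP with ⟨j, rfl⟩ | rfl | ⟨B, -, rfl⟩
    · exact ev_mem_cl b _
    · exact ev_mem_cl bb _
    · trivial
  conj := by rw [pval_wpieces]; exact h.conj

theorem exists_word {L : List F} {v : F} (h : v ∈ cl L) :
    ∃ w : List (Fin L.length × Bool), ev (fun i => L.get i) w = v := by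
  rw [cl_eq_range] at h
  obtain ⟨g, hg⟩ := h
  refine ⟨g.toWord, ?_⟩
  unfold ev
  rw [FreeGroup.mk_toWord, hg]

theorem IsForm.toWForm {Lx : List F} {u₀ : F} {ps : List (Piece F)} (h : IsForm ω Lx u₀ ps) :
    ∃ (k s : ℕ) (b : Fin Lx.length → F) (c : Fin k → F)
      (u : Option (Fin k) → List (Fin Lx.length × Bool)) (bb : Fin s → F)
      (wb : List (Fin s × Bool)) (bl : List (Block F)), WForm ω b c u bb wb bl ∧
      (bl.flatMap Block.letters).length = qc ps ∧ k + (s + qc ps) = (lets ps).length := by
  let p : Piece F → Prop := fun P => ∀ B, P ≠ Piece.blk B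
  have hp : ∀ (P : Piece F) (g : F), ¬ p P → ¬ p (P.conj g) := by
    intro P g hP hP'
    apply hP
    intro B hB
    subst hB
    exact hP' _ rfl
  obtain ⟨A, B, a1, a2, a3, a4, a5, a6⟩ := IsForm.partition p hp (ps := ps) (post := [])
    (by rw [List.append_nil]; exact h)
  rw [List.append_nil] at a3
  let p' : Piece F → Prop := fun P => ∃ c v, P = Piece.fac c v
  have hp' : ∀ (P : Piece F) (g : F), ¬ p' P → ¬ p' (P.conj g) := by
    intro P g hP
    rintro ⟨c, v, hcv⟩
    apply hP
    cases P with
    | fac c' u' => exact ⟨c', u', rfl⟩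
    | gen L β => simp [Piece.conj] at hcv
    | blk B => simp [Piece.conj] at hcv
  obtain ⟨A₁, A₂, b1, b2, b3, b4, b5, b6⟩ := IsForm.partition p' hp' (ps := A) (post := B) a3
  -- the factors
  have hA₁ : ∀ j : Fin A₁.length, ∃ cv : F × F, A₁.get j = Piece.fac cv.1 cv.2 := by
    intro j
    obtain ⟨c, v, hcv⟩ := b1 (A₁.get j) (List.get_mem _ _)
    exact ⟨(c, v), hcv⟩
  choose cv hcv using hA₁
  have hA₁' : A₁ = List.ofFn fun j => Piece.fac (cv j).1 (cv j).2 := by
    conv_lhs => rw [← List.ofFn_get A₁]
    congr 1
    funext j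
    exact hcv j
  -- the blocks
  have hB : ∃ bl : List (Block F), B = bl.map Piece.blk := by
    have : ∀ B : List (Piece F), (∀ P ∈ B, ¬ p P) → ∃ bl : List (Block F), B = bl.map Piece.blk := by
      intro B
      induction B with
      | nil => intro _; exact ⟨[], rfl⟩
      | cons P B ih =>
        intro hB
        obtain ⟨bl, rfl⟩ := ih fun P hP => hB P (by simp [hP])
        have hP := hB P (by simp)
        simp only [p, not_forall, not_not] at hP
        obtain ⟨B', rfl⟩ := hP
        exact ⟨B' :: bl, rfl⟩
    exact this B a2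
  obtain ⟨bl, rfl⟩ := hB
  -- all pieces of `A₂` are generic
  have hfA₂ : facs A₂ = [] := by
    have : ∀ A₂ : List (Piece F), (∀ P ∈ A₂, ¬ p' P) → facs A₂ = [] := by
      intro A₂
      induction A₂ with
      | nil => intro _; rfl
      | cons P A₂ ih =>
        intro hA
        have hP := hA P (by simp)
        have := ih fun P hP => hA P (by simp [hP])
        cases P with
        | fac c v => exact absurd ⟨c, v, rfl⟩ hP
        | gen L β => rw [facs_gen, this]
        | blk B => rw [facs_blk, this]
    exact this A₂ b2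
  have hqA₂ : qc A₂ = 0 := by
    have : ∀ A₂ : List (Piece F), (∀ P ∈ A₂, p P) → qc A₂ = 0 := by
      intro A₂
      induction A₂ with
      | nil => intro _; rfl
      | cons P A₂ ih =>
        intro hA
        have hP := hA P (by simp)
        rw [qc_cons, ih fun P hP => hA P (by simp [hP])]
        cases P with
        | fac c v => rfl
        | gen L β => rfl
        | blk B => exact absurd rfl (hP B)
    refine this A₂ ?_
    intro P hP
    obtain ⟨Q, hQ, g, rfl⟩ := b6 P (by simp [hP])
    have hQ' := a1 Q hQ
    intro B hB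
    cases Q with
    | fac c v => simp [Piece.conj] at hB
    | gen L β => simp [Piece.conj] at hB
    | blk B' => exact hQ' B' rfl
  have hqA₁ : qc A₁ = 0 := by rw [hA₁', qc_ofFn_fac]
  have hβ : pval A₂ ∈ cl (lets A₂) := by
    refine pval_mem (K := ⊥) ?_ _ bot_le le_rfl
    refine ok_of_facs' (K₀ := cl Lx) (fun P hP => b3.ok P (by simp [hP])) ?_
    rw [hfA₂]; simp
  obtain ⟨wb, hwb⟩ := exists_word hβ
  obtain ⟨w₀, hw₀⟩ := exists_word h.hu
  have hv : ∀ j : Fin A₁.length, ∃ w : List (Fin Lx.length × Bool),
      ev (fun i => Lx.get i) w = (cv j).2 := by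
    intro j
    have : Piece.fac (cv j).1 (cv j).2 ∈ A₁ := by rw [← hcv j]; exact List.get_mem _ _
    have hok := b3.ok _ (List.mem_append_left _ this)
    exact exists_word hok
  choose wv hwv using hv
  refine ⟨A₁.length, (lets A₂).length, fun i => Lx.get i, fun j => (cv j).1,
    fun o => o.elim w₀ wv, fun i => (lets A₂).get i, wb, bl, ⟨?_, ?_⟩, ?_, ?_⟩
  · have h1 := b3.basis
    rw [List.ofFn_get, List.ofFn_get]
    rw [lets_append, lets_append, lets_map_blk] at h1
    rw [hA₁', lets_ofFn_fac] at h1
    exact h1
  · have h1 := b3.conj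
    rw [pval_append, pval_append, pval_map_blk, hA₁', pval_ofFn_fac] at h1
    simp only [Option.elim_none, Option.elim_some, hw₀, hwv, hwb]
    exact h1
  · rw [← qc_map_blk]
    rw [qc_append] at a4 b4
    omega
  · have e1 : (lets A₁).length = A₁.length := by
      conv_lhs => rw [hA₁', lets_ofFn_fac, List.length_ofFn]
    rw [lets_append, List.length_append] at a5 b5
    have e2 : (lets (bl.map Piece.blk)).length = qc ps := by
      rw [lets_map_blk, ← qc_map_blk]
      rw [qc_append] at a4 b4
      omega
    omega

end basics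

theorem forall₂_ofFn {α β : Type*} {n : ℕ} {R : α → β → Prop} {f : Fin n → α} {g : Fin n → β}
    (h : ∀ i, R (f i) (g i)) : List.Forall₂ R (List.ofFn f) (List.ofFn g) := by
  rw [List.ofFn_eq_map, List.ofFn_eq_map, List.forall₂_map_left_iff, List.forall₂_map_right_iff,
    List.forall₂_same]
  exact fun x _ => h x

theorem prod_ofFn_conj {n : ℕ} (g : F) (f : Fin n → F) :
    (List.ofFn fun j => g⁻¹ * f j * g).prod = g⁻¹ * (List.ofFn f).prod * g := by
  induction n with
  | zero => simp
  | succ n ih =>
    rw [List.ofFn_succ, List.ofFn_succ, List.prod_cons, List.prod_cons, ih]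
    group

theorem ev_conj {X : Type*} (b : X → F) (g : F) (w : List (X × Bool)) :
    ev (fun i => g⁻¹ * b i * g) w = g⁻¹ * ev b w * g := by
  induction w with
  | nil => simp
  | cons l w ih =>
    rw [ev_cons, ev_cons, ih]
    have : evl (fun i => g⁻¹ * b i * g) l = g⁻¹ * evl b l * g := by
      unfold evl
      split_ifs
      · rfl
      · group
    rw [this]
    group

theorem blocks_conj (g : F) (bl : List (Block F)) :
    ((bl.map (Block.conj g⁻¹)).map Block.val).prod = g⁻¹ * (bl.map Block.val).prod * g := by
  induction bl with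
  | nil => simp
  | cons B bl ih =>
    rw [List.map_cons, List.map_cons, List.prod_cons, ih, Block.val_conj, List.map_cons,
      List.prod_cons]
    group

theorem length_blocks_conj (g : F) (bl : List (Block F)) :
    ((bl.map (Block.conj g)).flatMap Block.letters).length = (bl.flatMap Block.letters).length := by
  induction bl with
  | nil => rfl
  | cons B bl ih =>
    rw [List.map_cons, List.flatMap_cons, List.flatMap_cons, List.length_append,
      List.length_append, ih, Block.letters_conj, List.length_map]

theorem forall₂_blocks_conj {K : Subgroup F} {g : F} (hg : g ∈ K) (bl : List (Block F)) :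
    List.Forall₂ (fun a a' : F => ∃ g ∈ K, ∃ k ∈ K, a' = g * a * k) (bl.flatMap Block.letters)
      ((bl.map (Block.conj g)).flatMap Block.letters) := by
  have h1 := forall₂_lets_conj hg (bl.map Piece.blk)
  rw [lets_map_blk, List.map_map] at h1
  have h2 : bl.map (Piece.conj g ∘ Piece.blk) = (bl.map (Block.conj g)).map Piece.blk := by
    rw [List.map_map]; rfl
  rw [h2, lets_map_blk] at h1
  exact h1

section change

variable {r k s : ℕ} {b : Fin r → F} {c : Fin k → F}
    {u : Option (Fin k) → List (Fin r × Bool)} {bb : Fin s → F} {wb : List (Fin s × Bool)}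
    {bl : List (Block F)}

theorem WForm.changeX (h : WForm ω b c u bb wb bl)
    (φ : FreeGroup (Fin r) ≃* FreeGroup (Fin r)) (u' : Option (Fin k) → List (Fin r × Bool))
    (g : Option (Fin k) → FreeGroup (Fin r))
    (hu' : ∀ j, FreeGroup.mk (u' j) = (g j)⁻¹ * φ (FreeGroup.mk (u j)) * g j) :
    ∃ (b' : Fin r → F) (c' : Fin k → F) (bb' : Fin s → F) (bl' : List (Block F)),
      WForm ω b' c' u' bb' wb bl' ∧
      (bl'.flatMap Block.letters).length = (bl.flatMap Block.letters).length := by
  let b' : Fin r → F := fun i => FreeGroup.lift b (φ.symm (FreeGroup.of i))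
  have hb' : ∀ x, FreeGroup.lift b' x = FreeGroup.lift b (φ.symm x) := by
    intro x
    have : FreeGroup.lift b' = (FreeGroup.lift b).comp φ.symm.toMonoidHom := by
      ext i; simp [b']
    exact DFunLike.congr_fun this x
  let t : Option (Fin k) → F := fun j => FreeGroup.lift b (φ.symm (g j))
  have hev : ∀ j, ev b' (u' j) = (t j)⁻¹ * ev b (u j) * t j := by
    intro j
    unfold ev
    rw [hb', hu' j]
    simp only [map_mul, map_inv, MulEquiv.symm_apply_apply, t]
  have ht : ∀ j, t j ∈ cl (List.ofFn b') := by
    intro j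
    have h1 : t j = ev b' (g j).toWord := by
      unfold ev
      rw [FreeGroup.mk_toWord, hb']
    rw [h1]
    exact ev_mem_cl b' _
  refine ⟨b', fun j => (t none)⁻¹ * c j * t (some j), fun i => (t none)⁻¹ * bb i * t none,
    bl.map (Block.conj (t none)⁻¹), ⟨?_, ?_⟩, length_blocks_conj _ _⟩
  · have h1 := h.basis
    rw [isBasis_ofFn_append_iff] at h1
    have h2 := h1.sum_aut φ.symm
    rw [← isBasis_ofFn_append_iff] at h2
    refine h2.transv ?_
    refine List.rel_append (forall₂_ofFn fun j => ?_) (List.rel_append (forall₂_ofFn fun i => ?_)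
      (forall₂_blocks_conj (Subgroup.inv_mem _ (ht none)) bl))
    · exact ⟨_, Subgroup.inv_mem _ (ht none), _, ht (some j), rfl⟩
    · exact ⟨_, Subgroup.inv_mem _ (ht none), _, ht none, rfl⟩
  · refine h.conj.trans ?_
    have e1 : (fun j => (t none)⁻¹ * c j * t (some j) * ev b' (u' (some j)) *
        ((t none)⁻¹ * c j * t (some j))⁻¹) =
        fun j => (t none)⁻¹ * (c j * ev b (u (some j)) * (c j)⁻¹) * t none := by
      funext j
      rw [hev]; group
    rw [e1, prod_ofFn_conj, ev_conj, blocks_conj, hev]
    rw [isConj_iff]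
    exact ⟨(t none)⁻¹, by group⟩

theorem WForm.changeB (h : WForm ω b c u bb wb bl)
    (φ : FreeGroup (Fin s) ≃* FreeGroup (Fin s)) (wb' : List (Fin s × Bool))
    (g : FreeGroup (Fin s))
    (hwb' : FreeGroup.mk wb' = g⁻¹ * φ (FreeGroup.mk wb) * g) :
    ∃ (b' : Fin r → F) (c' : Fin k → F) (bb' : Fin s → F) (bl' : List (Block F)),
      WForm ω b' c' u bb' wb' bl' ∧
      (bl'.flatMap Block.letters).length = (bl.flatMap Block.letters).length := by
  let bb' : Fin s → F := fun i => FreeGroup.lift bb (φ.symm (FreeGroup.of i))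
  have hb' : ∀ x, FreeGroup.lift bb' x = FreeGroup.lift bb (φ.symm x) := by
    intro x
    have : FreeGroup.lift bb' = (FreeGroup.lift bb).comp φ.symm.toMonoidHom := by
      ext i; simp [bb']
    exact DFunLike.congr_fun this x
  let t : F := FreeGroup.lift bb (φ.symm g)
  have hev : ev bb' wb' = t⁻¹ * ev bb wb * t := by
    unfold ev
    rw [hb', hwb']
    simp only [map_mul, map_inv, MulEquiv.symm_apply_apply, t]
  have ht : t ∈ cl (List.ofFn bb') := by
    have h1 : t = ev bb' g.toWord := by
      unfold ev
      rw [FreeGroup.mk_toWord, hb']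
    rw [h1]
    exact ev_mem_cl bb' _
  refine ⟨fun i => t⁻¹ * b i * t, fun j => t⁻¹ * c j * t, bb',
    bl.map (Block.conj t⁻¹), ⟨?_, ?_⟩, length_blocks_conj _ _⟩
  · have h0 : IsBasis (List.ofFn bb ++ (List.ofFn b ++ (List.ofFn c ++
        bl.flatMap Block.letters))) := h.basis.perm (by
            classical
            rw [List.perm_iff_count]
            intro a
            simp only [List.count_append, List.count_cons, List.count_nil, List.nil_append,
              List.append_nil]
            omega)
    rw [isBasis_ofFn_append_iff] at h0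
    have h2 := h0.sum_aut φ.symm
    rw [← isBasis_ofFn_append_iff] at h2
    change IsBasis (List.ofFn bb' ++ _) at h2
    have h3 := h2.transv (List.rel_append (forall₂_ofFn fun j =>
      ⟨_, Subgroup.inv_mem _ ht, _, ht, rfl⟩) (List.rel_append (forall₂_ofFn fun i =>
      ⟨_, Subgroup.inv_mem _ ht, _, ht, rfl⟩) (forall₂_blocks_conj (Subgroup.inv_mem _ ht) bl)))
    exact h3.perm (by
        classical
        rw [List.perm_iff_count]
        intro a
        simp only [List.count_append, List.count_cons, List.count_nil, List.nil_append,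
          List.append_nil]
        omega)
  · refine h.conj.trans ?_
    have e1 : (fun j => t⁻¹ * c j * t * ev (fun i => t⁻¹ * b i * t) (u (some j)) *
        (t⁻¹ * c j * t)⁻¹) =
        fun j => t⁻¹ * (c j * ev b (u (some j)) * (c j)⁻¹) * t := by
      funext j
      rw [ev_conj]; group
    rw [e1, prod_ofFn_conj, ev_conj, blocks_conj, hev]
    rw [isConj_iff]
    exact ⟨t⁻¹, by group⟩

end change

end H35.Tape
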