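import Mathlib
import Pool.Agent.H35.Tape.WForm

/-!
# Extremal forms
-/

set_option linter.unusedSectionVars false

namespace H35.Tape

open Classical

variable {F : Type*} [Group F] {ω : F}

/-- existence of a form with words of given total length -/
def WExists (ω : F) (r q N M : ℕ) : Prop :=
  ∃ (k s : ℕ) (b : Fin r → F) (c : Fin k → F) (u : Option (Fin k) → List (Fin r × Bool))
    (bb : Fin s → F) (wb : List (Fin s × Bool)) (bl : List (Block F)),
    WForm ω b c u bb wb bl ∧ (bl.flatMap Block.letters).length = q ∧ r + (k + (s + q)) = N ∧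
      ∑ j, (u j).length + wb.length = M

theorem HasForm.wexists {r q N : ℕ} (h : HasForm ω N r q) : ∃ M, WExists ω r q N M := by
  obtain ⟨Lx, u₀, ps, h, rfl, rfl, rfl⟩ := h
  obtain ⟨k, s, b, c, u, bb, wb, bl, h1, h2, h3⟩ := h.toWForm
  exact ⟨_, k, s, b, c, u, bb, wb, bl, h1, h2, by omega, rfl⟩

/-- An extremal form. -/
structure Good (ω : F) (r q N k s : ℕ) (b : Fin r → F) (c : Fin k → F)
    (u : Option (Fin k) → List (Fin r × Bool)) (bb : Fin s → F) (wb : List (Fin s × Bool))
    (bl : List (Block F)) : Prop where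
  form : WForm ω b c u bb wb bl
  hq : (bl.flatMap Block.letters).length = q
  hN : r + (k + (s + q)) = N
  hr : 1 ≤ r
  maxq : ∀ r' q', 1 ≤ r' → HasForm ω N r' q' → q' ≤ q
  minr : ∀ r', 1 ≤ r' → HasForm ω N r' q → r ≤ r'
  minM : ∀ M, WExists ω r q N M → ∑ j, (u j).length + wb.length ≤ M

theorem exists_good {N r₀ q₀ : ℕ} (hr₀ : 1 ≤ r₀) (h : HasForm ω N r₀ q₀) :
    ∃ (r q k s : ℕ) (b : Fin r → F) (c : Fin k → F) (u : Option (Fin k) → List (Fin r × Bool))
      (bb : Fin s → F) (wb : List (Fin s × Bool)) (bl : List (Block F)),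
      Good ω r q N k s b c u bb wb bl := by
  -- maximal `q`
  let Pq : ℕ → Prop := fun q => ∃ r, 1 ≤ r ∧ HasForm ω N r q
  have hbound : ∀ q, Pq q → q ≤ N := by
    rintro q ⟨r, -, Lx, u₀, ps, h, -, rfl, hN⟩
    have : qc ps ≤ (lets ps).length := by
      clear h hN
      induction ps with
      | nil => simp
      | cons P ps ih =>
        rw [qc_cons, lets_cons, List.length_append]
        have : P.q ≤ P.letters.length := by
          cases P <;> simp [Piece.q, Piece.letters]
        omega
    omega
  have hPq : Pq q₀ := ⟨r₀, hr₀, h⟩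
  let q := Nat.findGreatest Pq N
  have hq : Pq q := Nat.findGreatest_spec (hbound q₀ hPq) hPq
  have hqmax : ∀ q', Pq q' → q' ≤ q := fun q' hq' =>
    Nat.le_findGreatest (hbound q' hq') hq'
  -- minimal `r`
  have hex : ∃ r, 1 ≤ r ∧ HasForm ω N r q := hq
  let r := Nat.find hex
  have hr := Nat.find_spec hex
  have hrmin : ∀ r', 1 ≤ r' → HasForm ω N r' q → r ≤ r' := fun r' h1 h2 =>
    Nat.find_min' hex ⟨h1, h2⟩
  -- minimal length
  have hexM := hr.2.wexists
  have hM := Nat.find_spec hexM
  have hMmin : ∀ M, WExists ω r q N M → Nat.find hexM ≤ M := fun M h => Nat.find_min' hexM h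
  obtain ⟨k, s, b, c, u, bb, wb, bl, h1, h2, h3, h4⟩ := hM
  exact ⟨r, q, k, s, b, c, u, bb, wb, bl, h1, h2, h3, hr.1,
    fun r' q' h5 h6 => hqmax q' ⟨r', h5, h6⟩, hrmin, by rw [h4]; exact hMmin⟩

theorem exists_shorter {X : Type*} {w : List (X × Bool)} (h : ¬ FreeGroup.IsCyclicallyReduced w) :
    ∃ (w' : List (X × Bool)) (g : FreeGroup X), w'.length < w.length ∧
      FreeGroup.mk w' = g⁻¹ * FreeGroup.mk w * g := by
  by_cases hred : FreeGroup.IsReduced w
  · have h1 : ¬ ∀ a ∈ w.getLast?, ∀ b ∈ w.head?, a.1 = b.1 → a.2 = b.2 := fun h' => h ⟨hred, h'⟩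
    push Not at h1
    obtain ⟨a, ha, b, hb, hab1, hab2⟩ := h1
    have hab : a = linv b := by
      rcases a with ⟨x, e⟩
      rcases b with ⟨y, e'⟩
      simp only at hab1 hab2
      subst hab1
      simp only [linv, Prod.mk.injEq, true_and]
      cases e <;> cases e' <;> simp_all
    cases w with
    | nil => simp at hb
    | cons b' M =>
      simp only [List.head?_cons, Option.mem_def, Option.some.injEq] at hb
      subst hb
      rcases List.eq_nil_or_concat' M with rfl | ⟨M', a', rfl⟩
      · simp only [List.getLast?_singleton, Option.mem_def, Option.some.injEq] at ha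
        exact absurd (ha.trans hab).symm (linv_ne _)
      · rw [Option.mem_def, List.getLast?_cons, List.getLast?_append] at ha
        simp only [List.getLast?_singleton, Option.some_or, Option.getD_some,
          Option.some.injEq] at ha
        subst ha
        subst hab
        refine ⟨M', FreeGroup.mk [b'], by simp, ?_⟩
        have : FreeGroup.mk (b' :: (M' ++ [linv b'])) =
            FreeGroup.mk [b'] * (FreeGroup.mk M' * FreeGroup.mk [linv b']) := by
          rw [FreeGroup.mul_mk, FreeGroup.mul_mk]; rfl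
        rw [this, mk_linv]
        group
  · rw [FreeGroup.isReduced_iff_not_step] at hred
    push Not at hred
    obtain ⟨w', hw'⟩ := hred
    refine ⟨w', 1, ?_, ?_⟩
    · have := hw'.length; omega
    · rw [inv_one, one_mul, mul_one]
      exact (Quot.sound hw').symm

section good

variable {r q N k s : ℕ} {b : Fin r → F} {c : Fin k → F}
    {u : Option (Fin k) → List (Fin r × Bool)} {bb : Fin s → F} {wb : List (Fin s × Bool)}
    {bl : List (Block F)}

theorem Good.le_changeX (h : Good ω r q N k s b c u bb wb bl)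
    (φ : FreeGroup (Fin r) ≃* FreeGroup (Fin r)) (u' : Option (Fin k) → List (Fin r × Bool))
    (g : Option (Fin k) → FreeGroup (Fin r))
    (hu' : ∀ j, FreeGroup.mk (u' j) = (g j)⁻¹ * φ (FreeGroup.mk (u j)) * g j) :
    ∑ j, (u j).length ≤ ∑ j, (u' j).length := by
  obtain ⟨b', c', bb', bl', h1, h2⟩ := h.form.changeX φ u' g hu'
  have := h.minM _ ⟨k, s, b', c', u', bb', wb, bl', h1, h2.trans h.hq, h.hN, rfl⟩
  omega

theorem Good.le_changeB (h : Good ω r q N k s b c u bb wb bl)
    (φ : FreeGroup (Fin s) ≃* FreeGroup (Fin s)) (wb' : List (Fin s × Bool))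
    (g : FreeGroup (Fin s))
    (hwb' : FreeGroup.mk wb' = g⁻¹ * φ (FreeGroup.mk wb) * g) : wb.length ≤ wb'.length := by
  obtain ⟨b', c', bb', bl', h1, h2⟩ := h.form.changeB φ wb' g hwb'
  have := h.minM _ ⟨k, s, b', c', u, bb', wb', bl', h1, h2.trans h.hq, h.hN, rfl⟩
  omega

theorem Good.cyc (h : Good ω r q N k s b c u bb wb bl) (j : Option (Fin k)) :
    FreeGroup.IsCyclicallyReduced (u j) := by
  by_contra hcon
  obtain ⟨w', g, h1, h2⟩ := exists_shorter hcon
  have h3 := h.le_changeX (MulEquiv.refl _) (Function.update u j w')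
    (Function.update (fun _ => 1) j g) (by
      intro i
      by_cases hi : i = j
      · subst hi
        simp [h2]
      · simp [Function.update_of_ne hi])
  have h4 : ∑ i, (Function.update u j w' i).length < ∑ i, (u i).length := by
    refine Finset.sum_lt_sum ?_ ⟨j, Finset.mem_univ _, by simpa using h1⟩
    intro i _
    by_cases hi : i = j
    · subst hi; simp [h1.le]
    · simp [Function.update_of_ne hi]
  omega

theorem Good.cycB (h : Good ω r q N k s b c u bb wb bl) : FreeGroup.IsCyclicallyReduced wb := by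
  by_contra hcon
  obtain ⟨w', g, h1, h2⟩ := exists_shorter hcon
  have h3 := h.le_changeB (MulEquiv.refl _) w' g (by simpa using h2)
  omega

theorem getLastD_of_last {X : Type*} {w : List (X × Bool)} {z : X × Bool}
    (hz : w.getLast? = some z) : w.getLastD z = z := by
  rw [List.getLastD_eq_getLast?, hz]; rfl

theorem Good.minW (h : Good ω r q N k s b c u bb wb bl) : MinW u := by
  intro A a hA hA' z hz
  have h1 := h.le_changeX (wequiv hA hA') (fun j => wword A a (z j) (u j))
    (fun j => wa A a (linv (z j))) (by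
      intro j
      rw [mk_wword, getLastD_of_last (hz j), wequiv_apply])
  have h2 : ∑ j, (wword A a (z j) (u j)).length + ∑ j, cnt a.1 (u j) =
      ∑ j, cr A (z j) (u j) + ∑ j, (u j).length := by
    rw [← Finset.sum_add_distrib, ← Finset.sum_add_distrib]
    refine Finset.sum_congr rfl fun j _ => ?_
    exact length_wword A a (u j) (z j)
  omega

theorem Good.minWB (h : Good ω r q N k s b c u bb wb bl) : MinW (fun _ : Unit => wb) := by
  intro A a hA hA' z hz
  have h1 := h.le_changeB (wequiv hA hA') (wword A a (z ()) wb) (wa A a (linv (z ()))) (by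
      rw [mk_wword, getLastD_of_last (hz ()), wequiv_apply])
  have h2 : (wword A a (z ()) wb).length + cnt a.1 wb = cr A (z ()) wb + wb.length :=
    length_wword A a wb (z ())
  have h3 : cnt a.1 wb ≤ cr A (z ()) wb := by
    omega
  simpa using h3

theorem Good.ne_nil (hT : TProp ω) (hnp : ¬ IsPrim ω) (h : Good ω r q N k s b c u bb wb bl)
    (j : Option (Fin k)) : u j ≠ [] := by
  intro hj
  have h1 := h.form.toIsForm
  cases j with
  | none =>
    rw [hj, ev_nil] at h1
    refine no_trivial_base hT hnp ?_ h1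
    intro h0
    have := congrArg List.length h0
    rw [List.length_ofFn] at this
    have := h.hr
    simp_all
  | some j =>
    refine no_trivial_fac hT hnp h1 ?_
    rw [facs_wpieces, List.mem_ofFn]
    exact ⟨j, by rw [hj, ev_nil]⟩

theorem facs_eq_map : facs (wpieces b c u bb wb bl) =
    (List.ofFn fun j => u (some j)).map (ev b) := by
  rw [facs_wpieces, List.map_ofFn]
  rfl

theorem Good.length_eq (h : Good ω r q N k s b c u bb wb bl) :
    r + (lets (wpieces b c u bb wb bl)).length = N := by
  rw [lets_wpieces]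
  simp only [List.length_append, List.length_ofFn]
  rw [h.hq]
  exact h.hN

theorem Good.deg (hT : TProp ω) (hnp : ¬ IsPrim ω) (hs : ¬ Surface ω)
    (h : Good ω r q N k s b c u bb wb bl) (x : Fin r) : 3 ≤ ∑ j, cnt x (u j) := by
  by_contra hcon
  have h1 := h.form.toIsForm
  have hsum : ((u none :: List.ofFn fun j => u (some j)).map (cnt x)).sum = ∑ j, cnt x (u j) := by
    rw [List.map_cons, List.sum_cons, List.map_ofFn, List.sum_ofFn, Fintype.sum_option]
    rfl
  rcases improve_deg hT hnp h1 (ws := List.ofFn fun j => u (some j))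
    (by rw [facs_eq_map]) (N := N) (q := q) (by rw [qc_wpieces, h.hq]) h.length_eq x
    (by rw [hsum]; omega) with ⟨q', r', h2, h3, h4⟩ | ⟨r', h3, h5, h4⟩
  · rcases Nat.eq_zero_or_pos r' with h0 | h0
    · subst h0
      obtain ⟨r'', h6, h7⟩ := h4.of_zero hT hnp hs
      have := h.maxq r'' q' h6 h7
      omega
    · have := h.maxq r' q' h0 h4
      omega
  · have := h.minr r' h5 h4
    omega

theorem Good.no_split (h : Good ω r q N k s b c u bb wb bl) (A : Fin r → Prop)
    (hA : ∃ x, A x) (hA' : ∃ x, ¬ A x) (j₀ : Option (Fin k)) (hw : SplitW A (u j₀))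
    (hW : ∀ j, j ≠ j₀ → Pure A (u j)) : False := by
  have h1 := h.form.toIsForm
  let K : List (Option (Fin k)) := none :: (List.finRange k).map some
  have hKnd : K.Nodup := by
    refine List.nodup_cons.2 ⟨by simp, (List.nodup_finRange k).map (Option.some_injective _)⟩
  have hK : ∀ j, j ∈ K := by
    intro j
    cases j with
    | none => simp [K]
    | some j => simp [K]
  have hV : (u none :: List.ofFn fun j => u (some j)) = K.map u := by
    simp only [K, List.map_cons, List.map_map, List.ofFn_eq_map]
    rfl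
  have hperm : (u none :: List.ofFn fun j => u (some j)).Perm (u j₀ :: (K.erase j₀).map u) := by
    rw [hV]
    exact (List.perm_cons_erase (hK j₀)).map u
  obtain ⟨r', h2, h3, h4⟩ := improve_split h1 (ws := List.ofFn fun j => u (some j))
    (by rw [facs_eq_map]) (N := N) (q := q) (by rw [qc_wpieces, h.hq]) h.length_eq A hA hA'
    (u j₀) _ hperm hw (by
      intro w' hw'
      obtain ⟨j, hj, rfl⟩ := List.mem_map.1 hw'
      rw [hKnd.mem_erase_iff] at hj
      exact hW j hj.1)
  have := h.minr r' h2 h4
  omega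

theorem Good.rig1 (hT : TProp ω) (hnp : ¬ IsPrim ω) (hs : ¬ Surface ω)
    (h : Good ω r q N k s b c u bb wb bl) : Rig1 u :=
  rig1_of u (h.ne_nil hT hnp) h.minW (h.deg hT hnp hs) h.no_split

theorem Good.rig2 (hT : TProp ω) (hnp : ¬ IsPrim ω) (hs : ¬ Surface ω)
    (h : Good ω r q N k s b c u bb wb bl) : Rig2 u :=
  rig2_of u (h.ne_nil hT hnp) h.minW (h.rig1 hT hnp hs)

theorem Good.wb_nil (hs0 : s = 0) (_h : Good ω r q N k s b c u bb wb bl) : wb = [] := by
  subst hs0
  cases wb with
  | nil => rfl
  | cons l w => exact l.1.elim0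

theorem blocks_mem (bl : List (Block F)) : (bl.map Block.val).prod ∈ cl (bl.flatMap Block.letters) := by
  rw [← pval_map_blk, ← lets_map_blk]
  refine pval_mem (K := ⊥) ?_ _ bot_le le_rfl
  intro P hP
  obtain ⟨B, -, rfl⟩ := List.mem_map.1 hP
  trivial

theorem Good.degB (hT : TProp ω) (hnp : ¬ IsPrim ω) (h : Good ω r q N k s b c u bb wb bl)
    (y : Fin s) : 2 ≤ cnt y wb := by
  by_contra hcon
  obtain ⟨L, hL, hLmem, hLlen⟩ := exists_rest bb y
  have hzero : ∀ w : List (Fin s × Bool), cnt y w = 0 → ev bb w ∈ cl L := by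
    intro w hw
    refine ev_mem bb w _ fun l hl => ?_
    exact mem_cl_of_mem (hLmem _ (cnt_eq_zero.1 hw l hl))
  set K : List F := List.ofFn b ++ (List.ofFn c ++ (L ++ bl.flatMap Block.letters)) with hK
  have hbasis : IsBasis (bb y :: K) := by
    have h1 : (List.ofFn b ++ (List.ofFn c ++ (List.ofFn bb ++ bl.flatMap Block.letters))).Perm
        (List.ofFn b ++ (List.ofFn c ++ ((bb y :: L) ++ bl.flatMap Block.letters))) :=
      List.Perm.append_left _ (List.Perm.append_left _ (hL.append_right _))
    refine (h.form.basis.perm h1).perm ?_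
    rw [hK]
    classical
    rw [List.perm_iff_count]
    intro a
    simp only [List.count_append, List.count_cons, List.count_nil, List.nil_append,
      List.append_nil]
    omega
  have hbK : cl (List.ofFn b) ≤ cl K := cl_mono fun x hx => by simp [hK, hx]
  have hLK : cl L ≤ cl K := cl_mono fun x hx => by simp [hK, hx]
  have hSK : cl (bl.flatMap Block.letters) ≤ cl K := cl_mono fun x hx => by
    simp only [hK, List.mem_append]; tauto
  have hCK : (List.ofFn fun j => c j * ev b (u (some j)) * (c j)⁻¹).prod ∈ cl K := by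
    refine Subgroup.list_prod_mem _ ?_
    intro v hv
    rw [List.mem_ofFn] at hv
    obtain ⟨j, rfl⟩ := hv
    have hc : c j ∈ cl K := mem_cl_of_mem (by
      simp only [hK, List.mem_append, List.mem_ofFn]
      exact Or.inr (Or.inl ⟨j, rfl⟩))
    exact Subgroup.mul_mem _ (Subgroup.mul_mem _ hc (hbK (ev_mem_cl b _))) (Subgroup.inv_mem _ hc)
  have hUK := hbK (ev_mem_cl b (u none))
  have hSK' := hSK (blocks_mem bl)
  rcases Nat.eq_zero_or_pos (cnt y wb) with h0 | h0
  · have h2 : IsBasis (K ++ [bb y]) := hbasis.perm (by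
      classical
      rw [List.perm_iff_count]
      intro a
      simp only [List.count_append, List.count_cons, List.count_nil, List.nil_append,
        List.append_nil]
      omega)
    refine not_mem_proper hT hnp h2 (by simp) ?_ h.form.conj
    exact Subgroup.mul_mem _ hUK (Subgroup.mul_mem _ hCK (Subgroup.mul_mem _
      (hLK (hzero wb h0)) hSK'))
  · obtain ⟨P, ε, D, hwe, hP0, hD⟩ := exists_split h0
    have hPm := hLK (hzero P hP0)
    have hDm := hLK (hzero D (by omega))
    have hb2 : IsBasis (evl bb (y, ε) :: K) := by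
      cases ε with
      | true => exact hbasis
      | false => exact hbasis.cons_inv
    apply hnp
    refine isPrim_of_once hb2 (Subgroup.mul_mem _ hUK (Subgroup.mul_mem _ hCK hPm))
      (Subgroup.mul_mem _ hDm hSK') ?_
    have := h.form.conj
    rw [hwe, ev_append, ev_cons] at this
    simp only [mul_assoc] at this ⊢
    exact this

theorem Good.connB (hT : TProp ω) (hnp : ¬ IsPrim ω) (h : Good ω r q N k s b c u bb wb bl)
    (hs0 : s ≠ 0) : wb ≠ [] ∧ ConnWord wb := by
  have hne : wb ≠ [] := by
    rintro rfl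
    have := h.degB hT hnp ⟨0, Nat.pos_of_ne_zero hs0⟩
    rw [cnt_nil] at this
    omega
  exact ⟨hne, connWord_of_min wb h.cycB hne h.minWB (h.degB hT hnp)⟩

end good

end H35.Tape
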