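import Mathlib

/-!
# A weak Stepanov bound for `y² + y = 1/τ(x)` in characteristic two
-/

namespace H35.Tape

open Polynomial

section nonvanishing

variable {K : Type*} [Field K]

/-- Expansion in base `X^q` is unique. -/
theorem eq_zero_of_eval_X_pow {q : ℕ} (_hq : 0 < q) :
    ∀ (n : ℕ) (P : K[X][X]), P.natDegree ≤ n → (∀ i, (P.coeff i).natDegree < q) →
      P.eval (X ^ q) = 0 → P = 0 := by
  intro n
  induction n with
  | zero =>
    intro P hP hc h0
    rw [eq_C_of_natDegree_le_zero hP] at h0 ⊢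
    rw [eval_C] at h0
    rw [h0, C_0]
  | succ n ih =>
    intro P hP hc h0
    have hdec : P = divX P * X + C (P.coeff 0) := (divX_mul_X_add P).symm
    have h1 : (divX P).eval (X ^ q) * X ^ q + P.coeff 0 = 0 := by
      conv at h0 => lhs; rw [hdec]
      rwa [eval_add, eval_mul, eval_X, eval_C] at h0
    have h2 : P.coeff 0 = 0 := by
      by_contra hne
      have h3 : (X : K[X]) ^ q ∣ P.coeff 0 := by
        rw [← (dvd_add_right (Dvd.intro_left _ rfl) :
          (X : K[X]) ^ q ∣ (divX P).eval (X ^ q) * X ^ q + P.coeff 0 ↔ _), h1]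
        exact dvd_zero _
      have h4 := natDegree_le_of_dvd h3 hne
      rw [natDegree_X_pow] at h4
      have := hc 0
      omega
    have h5 : (divX P).eval (X ^ q) = 0 := by
      rw [h2, add_zero] at h1
      rcases mul_eq_zero.1 h1 with h | h
      · exact h
      · exact absurd h (pow_ne_zero _ X_ne_zero)
    have h6 : divX P = 0 := by
      refine ih (divX P) ?_ ?_ h5
      · rw [natDegree_divX_eq_natDegree_tsub_one]; omega
      · intro i
        rw [coeff_divX]
        exact hc (i + 1)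
    rw [hdec, h6, h2]
    simp

/-- coefficient bound predicate -/
def CB (P : K[X][X]) (n : ℕ) : Prop := ∀ i, (P.coeff i).natDegree ≤ n

theorem CB.mul {P Q : K[X][X]} {n k : ℕ} (hP : CB P n) (hQ : CB Q k) : CB (P * Q) (n + k) := by
  intro i
  rw [coeff_mul]
  refine natDegree_sum_le_of_forall_le _ _ ?_
  intro x _
  exact natDegree_mul_le.trans (add_le_add (hP _) (hQ _))

theorem CB.add {P Q : K[X][X]} {n : ℕ} (hP : CB P n) (hQ : CB Q n) : CB (P + Q) n := by
  intro i
  rw [coeff_add]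
  exact natDegree_add_le_of_degree_le (hP i) (hQ i)

theorem CB.sub {P Q : K[X][X]} {n : ℕ} (hP : CB P n) (hQ : CB Q n) : CB (P - Q) n := by
  intro i
  rw [coeff_sub]
  exact (natDegree_sub_le _ _).trans (max_le (hP i) (hQ i))

theorem CB.mono {P : K[X][X]} {n k : ℕ} (hP : CB P n) (h : n ≤ k) : CB P k :=
  fun i => (hP i).trans h

/-- The key contradiction: `r (r + s) τ = s²` is impossible. -/
theorem no_artin_schreier {r s τ : K[X]} (hs : s ≠ 0) (hτ : 0 < τ.natDegree)
    (h : r * (r + s) * τ = s ^ 2) : False := by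
  classical
  obtain ⟨g, u, v, hgne, hu, hv, hcop⟩ :
      ∃ g u v : K[X], g ≠ 0 ∧ r = g * u ∧ s = g * v ∧ IsCoprime u v := by
    have hgne : EuclideanDomain.gcd r s ≠ 0 := by
      intro h0
      rw [EuclideanDomain.gcd_eq_zero_iff] at h0
      exact hs h0.2
    obtain ⟨u, hu⟩ := EuclideanDomain.gcd_dvd_left r s
    obtain ⟨v, hv⟩ := EuclideanDomain.gcd_dvd_right r s
    refine ⟨EuclideanDomain.gcd r s, u, v, hgne, hu, hv, ?_⟩
    have hb := EuclideanDomain.gcd_eq_gcd_ab r s
    refine ⟨EuclideanDomain.gcdA r s, EuclideanDomain.gcdB r s, ?_⟩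
    apply mul_left_cancel₀ hgne
    rw [mul_one]
    calc EuclideanDomain.gcd r s * (EuclideanDomain.gcdA r s * u + EuclideanDomain.gcdB r s * v)
        = (EuclideanDomain.gcd r s * u) * EuclideanDomain.gcdA r s
          + (EuclideanDomain.gcd r s * v) * EuclideanDomain.gcdB r s := by ring
      _ = r * EuclideanDomain.gcdA r s + s * EuclideanDomain.gcdB r s := by rw [← hu, ← hv]
      _ = EuclideanDomain.gcd r s := hb.symm
  have h1 : u * (u + v) * τ = v ^ 2 := by
    have h2 : g ^ 2 * (u * (u + v) * τ) = g ^ 2 * v ^ 2 := by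
      have := h
      rw [hu, hv] at this
      linear_combination this
    exact mul_left_cancel₀ (pow_ne_zero 2 hgne) h2
  have hvne : v ≠ 0 := by
    rintro rfl
    rw [mul_zero] at hv
    exact hs hv
  have hu_unit : IsUnit u := by
    have h3 : IsCoprime u (v ^ 2) := hcop.pow_right
    have h4 : u ∣ v ^ 2 := ⟨(u + v) * τ, by rw [← h1]; ring⟩
    exact h3.isUnit_of_dvd' dvd_rfl h4
  have huv_unit : IsUnit (u + v) := by
    have h3 : IsCoprime (u + v) v := by
      obtain ⟨a, b, hab⟩ := hcop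
      exact ⟨a, b - a, by linear_combination hab⟩
    have h3' : IsCoprime (u + v) (v ^ 2) := h3.pow_right
    have h4 : (u + v) ∣ v ^ 2 := ⟨u * τ, by rw [← h1]; ring⟩
    exact h3'.isUnit_of_dvd' dvd_rfl h4
  have hu0 := natDegree_eq_zero_of_isUnit hu_unit
  have huv0 := natDegree_eq_zero_of_isUnit huv_unit
  have hv0 : v.natDegree = 0 := by
    have : v = (u + v) - u := by ring
    rw [this]
    have := natDegree_sub_le (u + v) u
    rw [hu0, huv0] at this
    simpa using this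
  have h5 : (u * (u + v) * τ).natDegree = (v ^ 2).natDegree := by rw [h1]
  have hune : u ≠ 0 := hu_unit.ne_zero
  have huvne : u + v ≠ 0 := huv_unit.ne_zero
  have hτne : τ ≠ 0 := by rintro rfl; simp at hτ
  rw [natDegree_mul (mul_ne_zero hune huvne) hτne, natDegree_mul hune huvne, hu0, huv0,
    natDegree_pow, hv0] at h5
  omega

end nonvanishing

section trpart

variable {R : Type*} [CommRing R] [CharP R 2]

/-- `τ^(2^n) * (τ⁻¹ + τ⁻² + ... )` -/
def trPart (τ : R) (n : ℕ) : R := ∑ i ∈ Finset.range (n + 1), τ ^ (2 ^ n - 2 ^ i)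

theorem trPart_sq (τ : R) (n : ℕ) :
    trPart τ n ^ 2 + τ ^ (2 ^ n) * trPart τ n = 1 + τ ^ (2 ^ (n + 1) - 1) := by
  have h1 : trPart τ n ^ 2 = ∑ i ∈ Finset.range (n + 1), τ ^ (2 ^ (n + 1) - 2 ^ (i + 1)) := by
    rw [trPart, CharTwo.sum_sq]
    refine Finset.sum_congr rfl fun i _ => ?_
    rw [← pow_mul]
    congr 1
    rw [pow_succ, pow_succ, Nat.sub_mul]
  have h2 : τ ^ (2 ^ n) * trPart τ n = ∑ i ∈ Finset.range (n + 1), τ ^ (2 ^ (n + 1) - 2 ^ i) := by
    rw [trPart, Finset.mul_sum]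
    refine Finset.sum_congr rfl fun i hi => ?_
    rw [← pow_add]
    congr 1
    have : 2 ^ i ≤ 2 ^ n := Nat.pow_le_pow_right (by norm_num)
      (Nat.lt_succ_iff.1 (Finset.mem_range.1 hi))
    rw [pow_succ]
    omega
  have h3 : ∑ i ∈ Finset.range (n + 2), τ ^ (2 ^ (n + 1) - 2 ^ i)
      = ∑ i ∈ Finset.range (n + 1), τ ^ (2 ^ (n + 1) - 2 ^ i) + 1 := by
    rw [Finset.sum_range_succ]
    simp
  have h4 : ∑ i ∈ Finset.range (n + 2), τ ^ (2 ^ (n + 1) - 2 ^ i)
      = ∑ i ∈ Finset.range (n + 1), τ ^ (2 ^ (n + 1) - 2 ^ (i + 1)) + τ ^ (2 ^ (n + 1) - 1) := by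
    rw [Finset.sum_range_succ']
    simp
  rw [h1, h2]
  have h5 := h3.symm.trans h4
  have h6 : (2 : R) = 0 := CharTwo.two_eq_zero
  linear_combination (-1 : R) * h5 + (∑ i ∈ Finset.range (n + 1), τ ^ (2 ^ (n + 1) - 2 ^ i)
    - τ ^ (2 ^ (n + 1) - 1)) * h6

theorem trPart_eq {K : Type*} [Field K] (y : K) (hy : y ≠ 0) (n : ℕ) :
    trPart y n = y ^ (2 ^ n) * ∑ i ∈ Finset.range (n + 1), (y⁻¹) ^ (2 ^ i) := by
  rw [trPart, Finset.mul_sum]
  refine Finset.sum_congr rfl fun i hi => ?_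
  have : 2 ^ i ≤ 2 ^ n := Nat.pow_le_pow_right (by norm_num)
    (Nat.lt_succ_iff.1 (Finset.mem_range.1 hi))
  rw [inv_pow, pow_sub₀ _ hy this]

end trpart

section core

variable {K : Type*} [Field K]

/-- The two variable polynomial attached to a coefficient array. -/
noncomputable def biv {J d : ℕ} (v : Fin J → Fin (d + 1) → K) : K[X][X] :=
  ∑ j : Fin J, ∑ i : Fin (d + 1), monomial (j : ℕ) (monomial (i : ℕ) (v j i))

theorem biv_coeff {J d : ℕ} (v : Fin J → Fin (d + 1) → K) (n : ℕ) :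
    (biv v).coeff n = ∑ j : Fin J, if (j : ℕ) = n then ∑ i : Fin (d + 1), monomial (i : ℕ) (v j i)
      else 0 := by
  rw [biv, finsetSum_coeff]
  refine Finset.sum_congr rfl fun j _ => ?_
  rw [finsetSum_coeff]
  split_ifs with h
  · refine Finset.sum_congr rfl fun i _ => ?_
    rw [coeff_monomial, if_pos h]
  · refine Finset.sum_eq_zero fun i _ => ?_
    rw [coeff_monomial, if_neg h]

theorem biv_coeff_lt {J d : ℕ} (v : Fin J → Fin (d + 1) → K) (j : Fin J) :
    (biv v).coeff (j : ℕ) = ∑ i : Fin (d + 1), monomial (i : ℕ) (v j i) := by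
  rw [biv_coeff, Finset.sum_eq_single j]
  · simp
  · intro b _ hb
    rw [if_neg]
    intro h
    exact hb (Fin.ext h)
  · intro h
    exact absurd (Finset.mem_univ _) h

theorem biv_CB {J d : ℕ} (v : Fin J → Fin (d + 1) → K) : CB (biv v) d := by
  intro n
  rw [biv_coeff]
  refine natDegree_sum_le_of_forall_le _ _ ?_
  intro j _
  split_ifs
  · refine natDegree_sum_le_of_forall_le _ _ ?_
    intro i _
    exact (natDegree_monomial_le _).trans (Nat.lt_succ_iff.1 i.2)
  · simp

theorem biv_natDegree {J d : ℕ} (v : Fin (J + 1) → Fin (d + 1) → K) : (biv v).natDegree ≤ J := by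
  rw [biv]
  refine natDegree_sum_le_of_forall_le _ _ ?_
  intro j _
  refine natDegree_sum_le_of_forall_le _ _ ?_
  intro i _
  exact (natDegree_monomial_le _).trans (Nat.lt_succ_iff.1 j.2)

theorem biv_eq_zero {J d : ℕ} (v : Fin J → Fin (d + 1) → K) (h : biv v = 0) : v = 0 := by
  funext j i
  have h1 := biv_coeff_lt v j
  rw [h, coeff_zero] at h1
  have h2 := congrArg (fun P => coeff P (i : ℕ)) h1
  simp only [coeff_zero, finsetSum_coeff, coeff_monomial] at h2
  rw [Finset.sum_eq_single i] at h2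
  · simpa using h2.symm
  · intro b _ hb
    rw [if_neg]
    intro h'
    exact hb (Fin.ext h')
  · intro h'
    exact absurd (Finset.mem_univ _) h'

theorem biv_eval {J d : ℕ} (v : Fin J → Fin (d + 1) → K) (q : ℕ) :
    (biv v).eval (X ^ q) = ∑ j : Fin J, ∑ i : Fin (d + 1), v j i • (X : K[X]) ^ ((i : ℕ) + q * j) := by
  rw [biv, eval_finsetSum]
  refine Finset.sum_congr rfl fun j _ => ?_
  rw [eval_finsetSum]
  refine Finset.sum_congr rfl fun i _ => ?_
  rw [eval_monomial, ← C_mul_X_pow_eq_monomial, smul_eq_C_mul, pow_add, pow_mul]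
  ring

variable [CharP K 2]

/-- The auxiliary polynomial does not vanish. -/
theorem core_ne_zero {J d n : ℕ} {τ : K[X]} (hτ : 0 < τ.natDegree)
    (hτ2 : ∀ k, (τ.coeff k) ^ 2 = τ.coeff k)
    (hq : 2 * d + τ.natDegree < 2 ^ (n + 1))
    (v w : Fin (J + 1) → Fin (d + 1) → K) (hvw : ¬ (v = 0 ∧ w = 0)) :
    (biv v).eval (X ^ (2 ^ (n + 1))) * τ ^ (2 ^ n)
      + (biv w).eval (X ^ (2 ^ (n + 1))) * trPart τ n ≠ 0 := by
  intro h0
  have h2 : (2 : K[X]) = 0 := CharTwo.two_eq_zero
  set q := 2 ^ (n + 1) with hqdef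
  set Re := (biv v).eval (X ^ q)
  set Se := (biv w).eval (X ^ q)
  have hpow : ∀ k, τ ^ (2 ^ k) = τ.comp (X ^ (2 ^ k)) := by
    intro k
    have hk : ∀ i, (τ.coeff i) ^ (2 ^ k) = τ.coeff i := by
      intro i
      induction k with
      | zero => simp
      | succ k ih => rw [pow_succ, pow_mul, ih, hτ2]
    have h3 := τ.as_sum_range_C_mul_X_pow
    conv_lhs => rw [h3]
    conv_rhs => rw [h3]
    rw [sum_pow_char_pow, Polynomial.sum_comp]
    refine Finset.sum_congr rfl fun i _ => ?_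
    rw [mul_pow, ← C_pow, hk, mul_comp, C_comp, X_pow_comp, ← pow_mul, ← pow_mul, mul_comm i]
  have hsq := trPart_sq τ n
  have hT : τ ^ q = (τ ^ (2 ^ n)) ^ 2 := by
    rw [← pow_mul, hqdef, pow_succ]
  have hT1 : τ ^ (q - 1) * τ = τ ^ q := by
    rw [← pow_succ]
    congr 1
    have : 0 < q := by positivity
    omega
  have key : Re * (Re + Se) * τ * τ ^ q = Se ^ 2 * (τ + τ ^ q) := by
    rw [← hT1]
    have e1 : τ ^ (q - 1) * τ = (τ ^ (2 ^ n)) ^ 2 := by rw [hT1, hT]
    set T := τ ^ (2 ^ n)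
    set W := trPart τ n
    -- Re * T = - Se * W
    have e2 : Re ^ 2 * T ^ 2 = Se ^ 2 * W ^ 2 := by
      linear_combination (Re * T - Se * W) * h0
    have e3 : Se * Re * T ^ 2 = Se ^ 2 * T * W := by
      linear_combination (Se * T) * h0 - (Se ^ 2 * T * W) * h2
    linear_combination τ * e2 + τ * e3 + Se ^ 2 * τ * hsq + (Re * (Re + Se) * τ) * e1
  -- the identity in two variables
  set P : K[X][X] := biv v * (biv v + biv w) * C τ * τ.map C
    - (biv w) ^ 2 * (C τ + τ.map C) with hP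
  have hevalmap : (τ.map (C : K →+* K[X])).eval (X ^ q) = τ ^ q := by
    rw [eval_map, hpow, comp]
  have hPeval : P.eval (X ^ q) = 0 := by
    rw [hP]
    simp only [eval_sub, eval_mul, eval_add, eval_C, eval_pow, hevalmap]
    rw [sub_eq_zero]
    exact key
  have hCBτ : CB (C τ : K[X][X]) τ.natDegree := by
    intro i
    rw [coeff_C]
    split_ifs <;> simp
  have hCBm : CB (τ.map (C : K →+* K[X])) 0 := by
    intro i
    rw [coeff_map]
    simp
  have hPCB : CB P (2 * d + τ.natDegree) := by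
    have a1 : CB (biv v * (biv v + biv w)) (d + d) := (biv_CB v).mul ((biv_CB v).add (biv_CB w))
    have a2 : CB ((biv w) ^ 2) (d + d) := by
      rw [sq]; exact (biv_CB w).mul (biv_CB w)
    have a3 : CB (C τ + τ.map (C : K →+* K[X])) τ.natDegree := hCBτ.add (hCBm.mono (Nat.zero_le _))
    exact (((a1.mul hCBτ).mul hCBm).mono (by omega)).sub ((a2.mul a3).mono (by omega))
  have hP0 : P = 0 := eq_zero_of_eval_X_pow (q := q) (by positivity) P.natDegree P le_rfl
    (fun i => (hPCB i).trans_lt hq) hPeval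
  -- leading coefficient
  set N := max (biv v).natDegree (biv w).natDegree with hN
  set r0 := (biv v).coeff N with hr0
  set s0 := (biv w).coeff N with hs0
  have hlead : r0 * (r0 + s0) * τ * C τ.leadingCoeff = s0 ^ 2 * C τ.leadingCoeff := by
    have b1 : (biv v * (biv v + biv w)).coeff (N + N) = r0 * (r0 + s0) := by
      rw [coeff_mul_add_eq_of_natDegree_le (le_max_left _ _) ((natDegree_add_le _ _)), coeff_add]
    have b2 : (biv v * (biv v + biv w) * C τ).coeff (N + N + 0) = r0 * (r0 + s0) * τ := by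
      rw [coeff_mul_add_eq_of_natDegree_le _ (natDegree_C _).le, b1, coeff_C_zero]
      exact natDegree_mul_le.trans (add_le_add (le_max_left _ _) (natDegree_add_le _ _))
    have b3 : (biv v * (biv v + biv w) * C τ * τ.map C).coeff (N + N + 0 + τ.natDegree)
        = r0 * (r0 + s0) * τ * C τ.leadingCoeff := by
      rw [coeff_mul_add_eq_of_natDegree_le _ natDegree_map_le, b2, coeff_map, leadingCoeff]
      refine natDegree_mul_le.trans (add_le_add ?_ (natDegree_C _).le)
      exact natDegree_mul_le.trans (add_le_add (le_max_left _ _) (natDegree_add_le _ _))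
    have b4 : ((biv w) ^ 2).coeff (N + N) = s0 ^ 2 := by
      rw [sq, coeff_mul_add_eq_of_natDegree_le (le_max_right _ _) (le_max_right _ _), sq]
    have b5 : (C τ + τ.map (C : K →+* K[X])).coeff τ.natDegree = C τ.leadingCoeff := by
      rw [coeff_add, coeff_map, coeff_C, if_neg hτ.ne', zero_add, leadingCoeff]
    have b6 : ((biv w) ^ 2 * (C τ + τ.map (C : K →+* K[X]))).coeff (N + N + τ.natDegree)
        = s0 ^ 2 * C τ.leadingCoeff := by
      rw [coeff_mul_add_eq_of_natDegree_le, b4, b5]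
      · rw [sq]
        exact natDegree_mul_le.trans (add_le_add (le_max_right _ _) (le_max_right _ _))
      · refine (natDegree_add_le _ _).trans (max_le ?_ natDegree_map_le)
        rw [natDegree_C]; exact Nat.zero_le _
    have b7 := congrArg (fun Q => coeff Q (N + N + τ.natDegree)) hP0
    simp only [hP, coeff_sub, coeff_zero] at b7
    rw [add_zero] at b3
    rw [b3, b6] at b7
    exact sub_eq_zero.1 b7
  have hτne : τ ≠ 0 := by rintro rfl; simp at hτ
  have hlc : (C τ.leadingCoeff : K[X]) ≠ 0 := by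
    rw [Ne, C_eq_zero]; exact leadingCoeff_ne_zero.2 hτne
  have hlead' := mul_right_cancel₀ hlc hlead
  have hzero : ∀ a b : Fin (J + 1) → Fin (d + 1) → K,
      (biv a).natDegree = N → (biv b).natDegree ≤ N → (biv a).coeff N = 0 →
      (biv b).coeff N = 0 → a = 0 ∧ b = 0 := by
    intro a b ha hb ha0 hb0
    rw [← ha] at ha0
    have ha' : biv a = 0 := leadingCoeff_eq_zero.1 ha0
    have hN0 : N = 0 := by rw [← ha, ha', natDegree_zero]
    rw [hN0] at hb hb0
    have hb' : biv b = 0 := by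
      rw [eq_C_of_natDegree_le_zero hb, hb0, C_0]
    exact ⟨biv_eq_zero a ha', biv_eq_zero b hb'⟩
  by_cases hs : s0 = 0
  · rw [hs] at hlead'
    have hr : r0 = 0 := by
      have : r0 ^ 2 * τ = 0 := by linear_combination hlead'
      rcases mul_eq_zero.1 this with h | h
      · exact pow_eq_zero_iff (two_ne_zero) |>.1 h
      · exact absurd h hτne
    rcases le_total (biv v).natDegree (biv w).natDegree with hle | hle
    · have hNw : (biv w).natDegree = N := by rw [hN, max_eq_right hle]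
      have := hzero w v hNw (le_max_left _ _) hs hr
      exact hvw ⟨this.2, this.1⟩
    · have hNv : (biv v).natDegree = N := by rw [hN, max_eq_left hle]
      exact hvw (hzero v w hNv (le_max_right _ _) hr hs)
  · exact no_artin_schreier hs hτ hlead'

end core

section bound

variable {K : Type*} [Field K]

/-- the linear map sending a coefficient array to the sparse polynomial -/
noncomputable def arr (K : Type*) [Field K] (J d M : ℕ) :
    (Fin (J + 1) → Fin (d + 1) → K) →ₗ[K] K[X] where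
  toFun := fun v => ∑ j : Fin (J + 1), ∑ i : Fin (d + 1), v j i • (X : K[X]) ^ (M * (i : ℕ) + j)
  map_add' := by
    intro v w
    simp only [Pi.add_apply, add_smul, Finset.sum_add_distrib]
  map_smul' := by
    intro c v
    simp only [Pi.smul_apply, smul_eq_mul, mul_smul, Finset.smul_sum, RingHom.id_apply]

theorem arr_apply {J d M : ℕ} (v : Fin (J + 1) → Fin (d + 1) → K) :
    arr K J d M v = ∑ j : Fin (J + 1), ∑ i : Fin (d + 1), v j i • (X : K[X]) ^ (M * (i : ℕ) + j) :=
  rfl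

theorem natDegree_arr_mul_lt {J d M B k : ℕ} (v : Fin (J + 1) → Fin (d + 1) → K) (W : K[X])
    (hW : W.natDegree ≤ k) (hB : ∀ i ≤ d, ∀ j ≤ J, M * i + j + k < B) :
    (arr K J d M v * W).natDegree < B := by
  have h0 : 0 < B := by
    have := hB 0 (Nat.zero_le _) 0 (Nat.zero_le _)
    omega
  have : (arr K J d M v * W).natDegree ≤ B - 1 := by
    rw [arr_apply, Finset.sum_mul]
    refine natDegree_sum_le_of_forall_le _ _ ?_
    intro j _
    rw [Finset.sum_mul]
    refine natDegree_sum_le_of_forall_le _ _ ?_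
    intro i _
    have := hB i (Nat.lt_succ_iff.1 i.2) j (Nat.lt_succ_iff.1 j.2)
    refine natDegree_mul_le.trans ?_
    have h1 : (v j i • (X : K[X]) ^ (M * (i : ℕ) + j)).natDegree ≤ M * (i : ℕ) + j :=
      (natDegree_smul_le _ _).trans (natDegree_X_pow_le _)
    omega
  omega

/-- the linear system -/
noncomputable def sysMap (J d M : ℕ) (W₁ W₂ : K[X]) :
    (Fin (J + 1) → Fin (d + 1) → K) × (Fin (J + 1) → Fin (d + 1) → K) →ₗ[K] K[X] :=
  (LinearMap.mulRight K W₁).comp ((arr K J d M).comp (LinearMap.fst K _ _)) +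
    (LinearMap.mulRight K W₂).comp ((arr K J d M).comp (LinearMap.snd K _ _))

theorem sysMap_apply (J d M : ℕ) (W₁ W₂ : K[X]) (x) :
    sysMap J d M W₁ W₂ x = arr K J d M x.1 * W₁ + arr K J d M x.2 * W₂ := rfl

theorem exists_kernel {J d M B k : ℕ} (W₁ W₂ : K[X]) (hW₁ : W₁.natDegree ≤ k)
    (hW₂ : W₂.natDegree ≤ k)
    (hB : ∀ i ≤ d, ∀ j ≤ J, M * i + j + k < B)
    (hlt : B < 2 * ((J + 1) * (d + 1))) :
    ∃ v w : Fin (J + 1) → Fin (d + 1) → K, ¬ (v = 0 ∧ w = 0) ∧
      arr K J d M v * W₁ + arr K J d M w * W₂ = 0 := by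
  classical
  have hdeg : ∀ x, (sysMap J d M W₁ W₂ x).natDegree < B := by
    intro x
    rw [sysMap_apply]
    exact (natDegree_add_le _ _).trans_lt (max_lt (natDegree_arr_mul_lt _ _ hW₁ hB)
      (natDegree_arr_mul_lt _ _ hW₂ hB))
  have hfr : Module.finrank K (Fin B → K) < Module.finrank K
      ((Fin (J + 1) → Fin (d + 1) → K) × (Fin (J + 1) → Fin (d + 1) → K)) := by
    rw [Module.finrank_fin_fun, Module.finrank_prod]
    have : Module.finrank K (Fin (J + 1) → Fin (d + 1) → K) = (J + 1) * (d + 1) := by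
      rw [Module.finrank_pi_fintype]
      simp
    rw [this]
    omega
  have hker := LinearMap.ker_ne_bot_of_finrank_lt
    (f := LinearMap.pi (fun k : Fin B => (lcoeff K (k : ℕ)).comp (sysMap J d M W₁ W₂))) hfr
  obtain ⟨x, hx, hx0⟩ := Submodule.exists_mem_ne_zero_of_ne_bot hker
  refine ⟨x.1, x.2, ?_, ?_⟩
  · rintro ⟨h1, h2⟩
    exact hx0 (Prod.ext h1 h2)
  · rw [← sysMap_apply]
    ext k
    by_cases hk : k < B
    · exact congrFun (LinearMap.mem_ker.1 hx) ⟨k, hk⟩
    · rw [coeff_zero]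
      exact coeff_eq_zero_of_natDegree_lt ((hdeg x).trans_le (not_lt.1 hk))

theorem eval_arr_eq {J d q M : ℕ} (v : Fin (J + 1) → Fin (d + 1) → K) (a : K)
    (ha : (a ^ q) ^ M = a) :
    ((biv v).eval (X ^ q)).eval a = (arr K J d M v).eval (a ^ q) := by
  rw [biv_eval, arr_apply]
  simp only [eval_finsetSum, eval_smul, eval_pow, eval_X, smul_eq_mul]
  refine Finset.sum_congr rfl fun j _ => Finset.sum_congr rfl fun i _ => ?_
  rw [pow_add, pow_add, pow_mul (a ^ q) M, ha, pow_mul a q]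

theorem pow_two_pow_comp {τ : K[X]} [CharP K 2] (hτ2 : ∀ k, (τ.coeff k) ^ 2 = τ.coeff k)
    (k : ℕ) (a : K) : τ.eval (a ^ (2 ^ k)) = (τ.eval a) ^ (2 ^ k) := by
  have hk : ∀ i, (τ.coeff i) ^ (2 ^ k) = τ.coeff i := by
    intro i
    induction k with
    | zero => simp
    | succ k ih => rw [pow_succ, pow_mul, ih, hτ2]
  rw [eval_eq_sum_range, eval_eq_sum_range, sum_pow_char_pow]
  refine Finset.sum_congr rfl fun i _ => ?_
  rw [mul_pow, hk, ← pow_mul, ← pow_mul, mul_comm (2 ^ k) i]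

theorem trPart_eval (τ : K[X]) (n : ℕ) (a : K) : (trPart τ n).eval a = trPart (τ.eval a) n := by
  rw [trPart, trPart, eval_finsetSum]
  refine Finset.sum_congr rfl fun i _ => ?_
  rw [eval_pow]

theorem natDegree_trPart (τ : K[X]) (n : ℕ) : (trPart τ n).natDegree ≤ 2 ^ n * τ.natDegree := by
  rw [trPart]
  refine natDegree_sum_le_of_forall_le _ _ ?_
  intro i _
  refine natDegree_pow_le.trans ?_
  exact Nat.mul_le_mul_right _ (Nat.sub_le _ _)

open Classical in
theorem stepanov_aux [Fintype K] [CharP K 2] {μ ν D : ℕ}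
    (hcard : Fintype.card K = 2 ^ ((ν + 1) + (μ + 1))) {τ : K[X]} (hτ : 0 < τ.natDegree)
    (hD : τ.natDegree ≤ D) (hτ2 : ∀ k, (τ.coeff k) ^ 2 = τ.coeff k)
    (hM : 4 * D ≤ 2 ^ (μ + 1)) (hν : 2 * (D * 2 ^ (μ + 1)) + D < 2 ^ (ν + 1)) :
    4 * (Finset.univ.filter (fun a : K => τ.eval a ≠ 0 ∧
      ∑ i ∈ Finset.range ((ν + 1) + (μ + 1)), ((τ.eval a)⁻¹) ^ (2 ^ i) = 1)).card
      ≤ 3 * 2 ^ ((ν + 1) + (μ + 1)) := by
  have h2 : (2 : K) = 0 := CharTwo.two_eq_zero
  set M := 2 ^ (μ + 1) with hMdef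
  set q := 2 ^ (ν + 1) with hqdef
  set J := 2 ^ μ with hJdef
  set d := D * M with hddef
  have hMJ : M = 2 * J := by rw [hMdef, hJdef, pow_succ]; ring
  have hDpos : 0 < D := lt_of_lt_of_le hτ hD
  have hJpos : 0 < J := by positivity
  have hk1 : (τ ^ (2 ^ μ)).natDegree ≤ J * D :=
    natDegree_pow_le.trans (Nat.mul_le_mul_left _ hD)
  have hk2 : (trPart τ μ).natDegree ≤ J * D :=
    (natDegree_trPart τ μ).trans (Nat.mul_le_mul_left _ hD)
  obtain ⟨v, w, hvw, hvw0⟩ := exists_kernel (K := K) (J := J) (d := d) (M := M)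
    (B := M * d + J + J * D + 1) (k := J * D) (τ ^ (2 ^ μ)) (τ ^ (2 ^ μ) + trPart τ μ) hk1
    ((natDegree_add_le _ _).trans (max_le hk1 hk2))
    (by
      intro i hi j hj
      have : M * i ≤ M * d := Nat.mul_le_mul_left _ hi
      omega)
    (by
      have e1 : J * D = D * J := mul_comm _ _
      have e2 : d = 2 * (D * J) := by rw [hddef, hMJ]; ring
      have e3 : 2 * ((J + 1) * (d + 1)) = M * d + M + 2 * d + 2 := by rw [hMJ]; ring
      rw [e3, e1]
      omega)
  set C₀ : K[X] := (biv v).eval (X ^ q) * τ ^ (2 ^ ν) + (biv w).eval (X ^ q) * trPart τ ν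
    with hC
  have hCne : C₀ ≠ 0 := core_ne_zero hτ hτ2 (by omega) v w hvw
  have hdegb : ∀ (u : Fin (J + 1) → Fin (d + 1) → K), ((biv u).eval (X ^ q)).natDegree ≤ d + q * J := by
    intro u
    rw [biv_eval]
    refine natDegree_sum_le_of_forall_le _ _ ?_
    intro j _
    refine natDegree_sum_le_of_forall_le _ _ ?_
    intro i _
    refine (natDegree_smul_le _ _).trans ((natDegree_X_pow_le _).trans ?_)
    have h3 : (i : ℕ) ≤ d := Nat.lt_succ_iff.1 i.2
    have h4 : q * (j : ℕ) ≤ q * J := Nat.mul_le_mul_left _ (Nat.lt_succ_iff.1 j.2)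
    omega
  have hCdeg : C₀.natDegree ≤ d + q * J + 2 ^ ν * D := by
    refine (natDegree_add_le _ _).trans (max_le ?_ ?_)
    · exact natDegree_mul_le.trans (add_le_add (hdegb v) (natDegree_pow_le.trans
        (Nat.mul_le_mul_left _ hD)))
    · exact natDegree_mul_le.trans (add_le_add (hdegb w) ((natDegree_trPart τ ν).trans
        (Nat.mul_le_mul_left _ hD)))
  have hroots : (Finset.univ.filter (fun a : K => τ.eval a ≠ 0 ∧
      ∑ i ∈ Finset.range ((ν + 1) + (μ + 1)), ((τ.eval a)⁻¹) ^ (2 ^ i) = 1)).card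
      ≤ C₀.natDegree := by
    have hsub : (Finset.univ.filter (fun a : K => τ.eval a ≠ 0 ∧
      ∑ i ∈ Finset.range ((ν + 1) + (μ + 1)), ((τ.eval a)⁻¹) ^ (2 ^ i) = 1)) ⊆
        C₀.roots.toFinset := by
      intro a ha
      rw [Finset.mem_filter] at ha
      obtain ⟨-, ha0, ha1⟩ := ha
      rw [Multiset.mem_toFinset, mem_roots hCne, IsRoot.def]
      have hbM : (a ^ q) ^ M = a := by
        rw [← pow_mul, hqdef, hMdef, ← pow_add, ← hcard]
        exact FiniteField.pow_card a
      have hτb : τ.eval (a ^ q) = (τ.eval a) ^ q := pow_two_pow_comp hτ2 _ _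
      have hb0 : τ.eval (a ^ q) ≠ 0 := by rw [hτb]; exact pow_ne_zero _ ha0
      have hker := congrArg (fun P => eval (a ^ q) P) hvw0
      simp only [eval_add, eval_mul, eval_pow, eval_zero, trPart_eval] at hker
      rw [trPart_eq _ hb0] at hker
      rw [hC]
      simp only [eval_add, eval_mul, eval_pow, trPart_eval]
      rw [eval_arr_eq v a hbM, eval_arr_eq w a hbM, trPart_eq _ ha0]
      rw [Finset.sum_range_add] at ha1
      have hG0 : ∑ x ∈ Finset.range (μ + 1), (eval a τ)⁻¹ ^ 2 ^ (ν + 1 + x)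
          = ∑ i ∈ Finset.range (μ + 1), (eval (a ^ q) τ)⁻¹ ^ 2 ^ i := by
        refine Finset.sum_congr rfl fun i _ => ?_
        rw [hτb, ← inv_pow, ← pow_mul, pow_add]
      rw [hG0] at ha1
      set G1 := ∑ i ∈ Finset.range (ν + 1), (eval a τ)⁻¹ ^ 2 ^ i
      set G0 := ∑ i ∈ Finset.range (μ + 1), (eval (a ^ q) τ)⁻¹ ^ 2 ^ i
      have hker' : eval (a ^ q) (arr K J d M v) + eval (a ^ q) (arr K J d M w) * (1 + G0) = 0 := by
        have : eval (a ^ q) τ ^ 2 ^ μ * (eval (a ^ q) (arr K J d M v) +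
            eval (a ^ q) (arr K J d M w) * (1 + G0)) = 0 := by
          linear_combination hker
        rcases mul_eq_zero.1 this with h | h
        · exact absurd h (pow_ne_zero _ hb0)
        · exact h
      linear_combination (eval a τ ^ 2 ^ ν) * hker' +
        (eval a τ ^ 2 ^ ν) * eval (a ^ q) (arr K J d M w) * ha1 -
        (eval a τ ^ 2 ^ ν) * eval (a ^ q) (arr K J d M w) * G0 * h2
    exact (Finset.card_le_card hsub).trans ((Multiset.toFinset_card_le _).trans (card_roots' _))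
  have hfin : 4 * (d + q * J + 2 ^ ν * D) ≤ 3 * 2 ^ ((ν + 1) + (μ + 1)) := by
    have e1 : 2 ^ ((ν + 1) + (μ + 1)) = q * M := by rw [pow_add]
    have e2 : q = 2 * 2 ^ ν := by rw [hqdef, pow_succ]; ring
    rw [e1]
    have e3 : 4 * (q * J) = 2 * (q * M) := by rw [hMJ]; ring
    have e4 : 4 * (2 ^ ν * D) = 2 * (q * D) := by rw [e2]; ring
    have e5 : 4 * (q * D) ≤ q * M := by
      calc 4 * (q * D) = q * (4 * D) := by ring
        _ ≤ q * M := Nat.mul_le_mul_left _ hM
    have e6 : 8 * d ≤ q * M := by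
      have : 8 * d = (8 * D) * M := by rw [hddef]; ring
      rw [this]
      apply Nat.mul_le_mul_right
      have : 2 * (D * 4) ≤ 2 * (D * M) := by
        apply Nat.mul_le_mul_left
        apply Nat.mul_le_mul_left
        omega
      omega
    omega
  calc _ ≤ 4 * C₀.natDegree := Nat.mul_le_mul_left _ hroots
    _ ≤ 4 * (d + q * J + 2 ^ ν * D) := Nat.mul_le_mul_left _ hCdeg
    _ ≤ _ := hfin

open Classical in
/-- **Weak Stepanov bound.** -/
theorem stepanov (D : ℕ) (hD0 : 0 < D) : ∃ m₀ : ℕ, ∀ m ≥ m₀, ∀ (K : Type) [Field K] [Fintype K] [CharP K 2],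
    Fintype.card K = 2 ^ m → ∀ τ : K[X], 0 < τ.natDegree → τ.natDegree ≤ D →
    (∀ k, (τ.coeff k) ^ 2 = τ.coeff k) →
    4 * (Finset.univ.filter (fun a : K => τ.eval a ≠ 0 ∧
      ∑ i ∈ Finset.range m, ((τ.eval a)⁻¹) ^ (2 ^ i) = 1)).card ≤ 3 * 2 ^ m := by
  refine ⟨(2 * (D * 2 ^ (D + 1 + 1)) + D + 1) + (D + 1 + 1), ?_⟩
  intro m hm K _ _ _ hcard τ hτ hD hτ2
  obtain ⟨ν, hν, rfl⟩ : ∃ ν, 2 * (D * 2 ^ (D + 1 + 1)) + D ≤ ν ∧ m = (ν + 1) + (D + 1 + 1) := by
    refine ⟨m - (D + 1 + 1) - 1, ?_, ?_⟩ <;> omega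
  refine stepanov_aux hcard hτ hD hτ2 ?_ ?_
  · have : D < 2 ^ D := Nat.lt_two_pow_self
    have e : 2 ^ (D + 1 + 1) = 4 * 2 ^ D := by rw [pow_succ, pow_succ]; ring
    omega
  · have : ν < 2 ^ ν := Nat.lt_two_pow_self
    have e : 2 ^ (ν + 1) = 2 * 2 ^ ν := by rw [pow_succ]; ring
    omega

end bound

end H35.Tape
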