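import Mathlib
import Pool.Agent.H35.Tape.Comm

/-!
# A representation of free groups whose traces have large degree
-/

set_option linter.unusedSectionVars false

namespace H35.Tape

open Polynomial Matrix
open scoped MatrixGroups

section traces

variable {X R : Type*} [CommRing R] [CharP R 2] (h : X → R)

/-- the parameter of a letter -/
def hl (l : X × Bool) : R := if l.2 then h l.1 else h l.1 + 1

theorem two_eq_zero : (2 : R) = 0 := CharTwo.two_eq_zero

theorem hl_linv (l : X × Bool) : hl h (linv l) = hl h l + 1 := by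
  rcases l with ⟨x, b⟩
  cases b with
  | true => simp [hl, linv]
  | false =>
    simp only [hl, linv, Bool.not_false, if_true, Bool.false_eq_true, if_false]
    linear_combination -(two_eq_zero (R := R))

/-- the matrix of a letter -/
noncomputable def Ml (l : X × Bool) : Matrix (Fin 2) (Fin 2) R[X] :=
  !![Polynomial.X * C (hl h l + 1) + 1, Polynomial.X;
    Polynomial.X * C (hl h l * (hl h l + 1)) + 1, Polynomial.X * C (hl h l) + 1]

theorem two_poly : (2 : R[X]) = 0 := CharTwo.two_eq_zero

theorem det_Ml (l : X × Bool) : (Ml h l).det = 1 := by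
  rw [Matrix.det_fin_two, Ml]
  simp only [Matrix.of_apply, Matrix.cons_val', Matrix.cons_val_zero, Matrix.cons_val_one,
    Matrix.cons_val_fin_one, map_add, map_mul, map_one]
  linear_combination (Polynomial.X * C (hl h l)) * (two_poly (R := R))

theorem mat_eq {S : Type*} {a b c d a' b' c' d' : S} (h1 : a = a') (h2 : b = b') (h3 : c = c')
    (h4 : d = d') : !![a, b; c, d] = !![a', b'; c', d'] := by
  rw [h1, h2, h3, h4]

theorem adj_Ml (l : X × Bool) : (Ml h l).adjugate = Ml h (linv l) := by
  have h2 := two_poly (R := R)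
  rw [Ml, Matrix.adjugate_fin_two_of, Ml, hl_linv]
  refine mat_eq ?_ ?_ ?_ ?_
  · simp only [map_add, map_one]
    linear_combination -(Polynomial.X) * h2
  · linear_combination -(Polynomial.X) * h2
  · simp only [map_add, map_mul, map_one]
    linear_combination -(Polynomial.X * (C (hl h l) + 1) ^ 2 + 1) * h2
  · rfl

/-- the matrix of a letter -/
noncomputable def Gl (l : X × Bool) : SL(2, R[X]) := ⟨Ml h l, det_Ml h l⟩

/-- The representation with a variable. -/
noncomputable def repT : FreeGroup X →* SL(2, R[X]) :=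
  FreeGroup.lift fun x => Gl h (x, true)

theorem repT_single (l : X × Bool) : (repT h (FreeGroup.mk [l])).1 = Ml h l := by
  rcases l with ⟨x, b⟩
  cases b with
  | true =>
    have : FreeGroup.mk [(x, true)] = FreeGroup.of x := rfl
    rw [this, repT, FreeGroup.lift_apply_of]
    rfl
  | false =>
    have : FreeGroup.mk [(x, false)] = (FreeGroup.of x)⁻¹ := rfl
    rw [this, repT, map_inv, FreeGroup.lift_apply_of]
    rw [Matrix.SpecialLinearGroup.coe_inv]
    exact adj_Ml h (x, true)

/-- coefficients of the leading matrix -/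
def av (l : X × Bool) (i : Fin 2) : R := if i = 0 then 1 else hl h l
/-- coefficients of the leading matrix -/
def bv (l : X × Bool) (i : Fin 2) : R := if i = 0 then hl h l + 1 else 1

theorem natDegree_Ml (l : X × Bool) (i j : Fin 2) : (Ml h l i j).natDegree ≤ 1 := by
  have key : ∀ (a b : R), (Polynomial.X * C a + C b).natDegree ≤ 1 := by
    intro a b
    rw [mul_comm]
    exact natDegree_linear_le
  have h1 : (1 : R[X]) = C 1 := by simp
  fin_cases i <;> fin_cases j
  · have := key (hl h l + 1) 1
    rwa [← h1] at this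
  · exact natDegree_X_le
  · have := key (hl h l * (hl h l + 1)) 1
    rwa [← h1] at this
  · have := key (hl h l) 1
    rwa [← h1] at this

theorem coeff_Ml (l : X × Bool) (i j : Fin 2) : (Ml h l i j).coeff 1 = av h l i * bv h l j := by
  fin_cases i <;> fin_cases j
  · simp [Ml, av, bv, coeff_one]
  · simp [Ml, av, bv]
  · simp [Ml, av, bv, coeff_one, coeff_X]
  · simp [Ml, av, bv, coeff_one]

variable [IsDomain R] (hinj : ∀ l l', hl h l = hl h l' → l = l')

include hinj in
theorem pair_ne {l l' : X × Bool} (hne : l' ≠ linv l) :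
    bv h l 0 * av h l' 0 + bv h l 1 * av h l' 1 ≠ 0 := by
  simp only [av, bv, if_true, Fin.isValue, one_ne_zero, if_false]
  intro h0
  apply hne
  apply hinj
  rw [hl_linv]
  linear_combination h0 - (hl h l + 1) * (two_eq_zero (R := R))

include hinj in
theorem lead (w : List (X × Bool)) : ∀ l z, FreeGroup.IsReduced (l :: w) →
    (l :: w).getLast? = some z → ∃ c : R, c ≠ 0 ∧ ∀ i j,
      ((repT h (FreeGroup.mk (l :: w))).1 i j).natDegree ≤ (l :: w).length ∧
      ((repT h (FreeGroup.mk (l :: w))).1 i j).coeff (l :: w).length = c * av h l i * bv h z j := by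
  induction w with
  | nil =>
    intro l z _ hz
    simp only [List.getLast?_singleton, Option.some.injEq] at hz
    subst hz
    refine ⟨1, one_ne_zero, fun i j => ?_⟩
    rw [repT_single, one_mul]
    exact ⟨natDegree_Ml h l i j, coeff_Ml h l i j⟩
  | cons l' w ih =>
    intro l z hred hz
    have hred' : FreeGroup.IsReduced (l' :: w) := (isReduced_append_iff (L := [l]).1 hred).2.1
    have hz' : (l' :: w).getLast? = some z := by
      rw [List.getLast?_cons_cons] at hz
      exact hz
    obtain ⟨c, hc, hcoef⟩ := ih l' z hred' hz'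
    have hne : l' ≠ linv l := by
      rintro rfl
      rw [FreeGroup.IsReduced, List.isChain_cons_cons] at hred
      have := hred.1 rfl
      rcases l with ⟨x, b⟩
      cases b <;> simp [linv] at this
    refine ⟨c * (bv h l 0 * av h l' 0 + bv h l 1 * av h l' 1),
      mul_ne_zero hc (pair_ne h hinj hne), fun i j => ?_⟩
    have hmul : (repT h (FreeGroup.mk (l :: l' :: w))).1 =
        Ml h l * (repT h (FreeGroup.mk (l' :: w))).1 := by
      have : FreeGroup.mk (l :: l' :: w) = FreeGroup.mk [l] * FreeGroup.mk (l' :: w) := by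
        rw [FreeGroup.mul_mk]; rfl
      rw [this, map_mul, Matrix.SpecialLinearGroup.coe_mul, repT_single]
    rw [hmul, Matrix.mul_apply, Fin.sum_univ_two]
    have hlen : (l :: l' :: w).length = 1 + (l' :: w).length := by simp; omega
    rw [hlen]
    constructor
    · refine (natDegree_add_le _ _).trans (max_le ?_ ?_)
      · exact natDegree_mul_le.trans (add_le_add (natDegree_Ml h l i 0) (hcoef 0 j).1)
      · exact natDegree_mul_le.trans (add_le_add (natDegree_Ml h l i 1) (hcoef 1 j).1)
    · rw [coeff_add, coeff_mul_add_eq_of_natDegree_le (natDegree_Ml h l i 0) (hcoef 0 j).1,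
        coeff_mul_add_eq_of_natDegree_le (natDegree_Ml h l i 1) (hcoef 1 j).1,
        coeff_Ml, coeff_Ml, (hcoef 0 j).2, (hcoef 1 j).2]
      ring

include hinj in
theorem trace_cyc {w : List (X × Bool)} (hw : FreeGroup.IsCyclicallyReduced w) (hne : w ≠ []) :
    0 < ((repT h (FreeGroup.mk w)).1.trace).natDegree := by
  cases w with
  | nil => exact absurd rfl hne
  | cons l w =>
    obtain ⟨z, hz⟩ : ∃ z, (l :: w).getLast? = some z := by
      cases hz : (l :: w).getLast? with
      | none => simp [List.getLast?_eq_none_iff] at hz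
      | some z => exact ⟨z, rfl⟩
    obtain ⟨c, hc, hcoef⟩ := lead h hinj w l z hw.1 hz
    have hlz : l ≠ linv z := by
      intro hlz
      have h3 := hw.2 z hz l (by simp)
      rw [hlz] at h3
      have := h3 rfl
      rcases z with ⟨x, b⟩
      cases b <;> simp [linv] at this
    have h1 : ((repT h (FreeGroup.mk (l :: w))).1.trace).coeff (l :: w).length ≠ 0 := by
      rw [Matrix.trace_fin_two, coeff_add, (hcoef 0 0).2, (hcoef 1 1).2]
      have h2 := mul_ne_zero hc (pair_ne h hinj hlz)
      intro h0
      apply h2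
      linear_combination h0
    have h2 := le_natDegree_of_ne_zero h1
    have : 0 < (l :: w).length := by simp
    omega

include hinj in
theorem trace_pos {g : FreeGroup X} (hg : g ≠ 1) : 0 < ((repT h g).1.trace).natDegree := by
  classical
  set L := g.toWord with hL
  have h1 := FreeGroup.reduceCyclically.conj_conjugator_reduceCyclically L
  set c := FreeGroup.reduceCyclically.conjugator L
  set w := FreeGroup.reduceCyclically L
  have h2 : g = FreeGroup.mk c * FreeGroup.mk w * (FreeGroup.mk c)⁻¹ := by
    rw [FreeGroup.inv_mk, FreeGroup.mul_mk, FreeGroup.mul_mk, h1, hL, FreeGroup.mk_toWord]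
  have hw : FreeGroup.IsCyclicallyReduced w :=
    FreeGroup.reduceCyclically.isCyclicallyReduced FreeGroup.isReduced_toWord
  have hne : w ≠ [] := by
    intro h0
    apply hg
    rw [h2, h0, ← FreeGroup.one_eq_mk]
    group
  have h3 : (repT h g).1.trace = (repT h (FreeGroup.mk w)).1.trace := by
    rw [h2, map_mul, map_mul, Matrix.SpecialLinearGroup.coe_mul, Matrix.trace_mul_comm,
      ← Matrix.SpecialLinearGroup.coe_mul, ← mul_assoc, map_inv, inv_mul_cancel, one_mul]
  rw [h3]
  exact trace_cyc h hinj hw hne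

end traces

section special

theorem exists_N {R : Type*} [CommRing R] [IsDomain R] (P : R[X][X]) (hP : 0 < P.natDegree) :
    ∃ N₀ : ℕ, ∀ N ≥ N₀, 0 < (P.eval (Polynomial.X ^ N)).natDegree := by
  obtain ⟨D, hD⟩ : ∃ D, ∀ k, (P.coeff k).natDegree ≤ D := by
    refine ⟨P.support.sup fun k => (P.coeff k).natDegree, fun k => ?_⟩
    by_cases hk : k ∈ P.support
    · exact Finset.le_sup (f := fun k => (P.coeff k).natDegree) hk
    · rw [notMem_support_iff.1 hk]; simp
  refine ⟨D + 1, fun N hN => ?_⟩
  have hle : ∀ k, k < P.natDegree → (P.coeff k * (Polynomial.X ^ N) ^ k).natDegree <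
      N * P.natDegree := by
    intro k hk
    calc (P.coeff k * (Polynomial.X ^ N) ^ k).natDegree ≤
        (P.coeff k).natDegree + ((Polynomial.X ^ N) ^ k : R[X]).natDegree := natDegree_mul_le
      _ ≤ D + N * k := by
        refine add_le_add (hD k) ?_
        rw [← pow_mul, natDegree_X_pow]
      _ < N * (k + 1) := by rw [mul_add]; omega
      _ ≤ N * P.natDegree := Nat.mul_le_mul_left _ hk
  have hcoeff : ((P.eval (Polynomial.X ^ N)).coeff (N * P.natDegree + P.leadingCoeff.natDegree)) ≠ 0 := by
    rw [eval_eq_sum_range, Finset.sum_range_succ, coeff_add, finsetSum_coeff,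
      Finset.sum_eq_zero, zero_add, ← pow_mul, coeff_natDegree, add_comm, coeff_mul_X_pow,
      coeff_natDegree]
    · have : P ≠ 0 := by rintro rfl; simp at hP
      exact leadingCoeff_ne_zero.2 (leadingCoeff_ne_zero.2 this)
    · intro k hk
      rw [Finset.mem_range] at hk
      apply coeff_eq_zero_of_natDegree_lt
      have := hle k hk
      omega
  have h1 := le_natDegree_of_ne_zero hcoeff
  have h2 : 0 < N * P.natDegree := Nat.mul_pos (by omega) hP
  omega

theorem exists_rep {X : Type} [Finite X] (S : Finset (FreeGroup X)) (hS : ∀ g ∈ S, g ≠ 1) :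
    ∃ Θ : FreeGroup X →* SL(2, (ZMod 2)[X]), ∀ g ∈ S, 0 < ((Θ g).1.trace).natDegree := by
  classical
  obtain ⟨n, ⟨e⟩⟩ := Finite.exists_equiv_fin X
  let h : X → (ZMod 2)[X] := fun x => Polynomial.X ^ ((e x : ℕ) + 1)
  have hinj : ∀ l l', hl h l = hl h l' → l = l' := by
    rintro ⟨x, b⟩ ⟨y, b'⟩ hxy
    have hc : ∀ (x : X) (b : Bool), (hl h (x, b)).coeff ((e x : ℕ) + 1) = 1 := by
      intro x b
      cases b <;> simp [hl, h, coeff_one]
    have hc' : ∀ (x : X) (b : Bool) (y : X), x ≠ y → (hl h (x, b)).coeff ((e y : ℕ) + 1) = 0 := by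
      intro x b y hne
      have : (e y : ℕ) ≠ e x := fun h => hne (e.injective (Fin.ext h)).symm
      cases b <;> simp [hl, h, coeff_X_pow, coeff_one, this]
    have hx : x = y := by
      by_contra hne
      have h1 : (hl h (x, b)).coeff ((e x : ℕ) + 1) = (hl h (y, b')).coeff ((e x : ℕ) + 1) := by
        rw [hxy]
      rw [hc, hc' y b' x (Ne.symm hne)] at h1
      exact one_ne_zero h1
    subst hx
    have h2 : (hl h (x, b)).coeff 0 = (hl h (x, b')).coeff 0 := by rw [hxy]
    cases b <;> cases b' <;> simp [hl, h] at h2 ⊢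
  have hpos : ∀ g ∈ S, 0 < ((repT h g).1.trace).natDegree := fun g hg => trace_pos h hinj (hS g hg)
  have hN : ∀ g : FreeGroup X, ∃ N₀ : ℕ, g ∈ S → ∀ N ≥ N₀,
      0 < (((repT h g).1.trace).eval (Polynomial.X ^ N)).natDegree := by
    intro g
    by_cases hg : g ∈ S
    · obtain ⟨N₀, hN₀⟩ := exists_N _ (hpos g hg)
      exact ⟨N₀, fun _ => hN₀⟩
    · exact ⟨0, fun h => absurd h hg⟩
  choose N₀ hN₀ using hN
  let N := S.sup N₀
  refine ⟨(Matrix.SpecialLinearGroup.map (evalRingHom (Polynomial.X ^ N))).comp (repT h),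
    fun g hg => ?_⟩
  have h1 := hN₀ g hg N (Finset.le_sup hg)
  have h2 : ((((Matrix.SpecialLinearGroup.map (evalRingHom (Polynomial.X ^ N))).comp
      (repT h)) g).1.trace) = ((repT h g).1.trace).eval (Polynomial.X ^ N) := by
    rw [Matrix.trace_fin_two, Matrix.trace_fin_two, eval_add]
    rfl
  rw [h2]
  exact h1

end special

end H35.Tape
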