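import Mathlib
import Pool.Agent.H35.Tape.Stepanov
import Pool.Agent.H35.Tape.Traces

/-!
# Good points over large finite fields of characteristic two
-/

set_option linter.unusedSectionVars false

namespace H35.Tape

open Polynomial

section artin

variable {K : Type} [Field K] [Fintype K] [CharP K 2]

theorem tele (y : K) (m : ℕ) :
    ∑ i ∈ Finset.range m, (y ^ 2 + y) ^ (2 ^ i) = y ^ (2 ^ m) + y := by
  have h2 : (2 : K) = 0 := CharTwo.two_eq_zero
  induction m with
  | zero => simp; linear_combination -y * h2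
  | succ m ih =>
    have e : (y ^ 2 + y) ^ (2 ^ m) = y ^ (2 ^ (m + 1)) + y ^ (2 ^ m) := by
      rw [add_pow_char_pow, ← pow_mul, ← pow_succ']
    rw [Finset.sum_range_succ, ih, e]
    linear_combination (y ^ (2 ^ m)) * h2

theorem artin {m : ℕ} (hm : 0 < m) (hcard : Fintype.card K = 2 ^ m) (c : K)
    (hc : ∑ i ∈ Finset.range m, c ^ (2 ^ i) = 0) : ∃ y : K, y ^ 2 + y = c := by
  classical
  have h2 : (2 : K) = 0 := CharTwo.two_eq_zero
  by_contra hcon
  push Not at hcon
  set P : K[X] := ∑ i ∈ Finset.range m, Polynomial.X ^ (2 ^ i) with hP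
  have heval : ∀ a : K, P.eval a = ∑ i ∈ Finset.range m, a ^ (2 ^ i) := by
    intro a
    rw [hP, eval_finsetSum]
    simp
  have hdeg : P.natDegree ≤ 2 ^ (m - 1) := by
    rw [hP]
    refine natDegree_sum_le_of_forall_le _ _ ?_
    intro i hi
    rw [Finset.mem_range] at hi
    rw [natDegree_X_pow]
    exact Nat.pow_le_pow_right (by norm_num) (by omega)
  have hP0 : P ≠ 0 := by
    intro h0
    have h1 : P.coeff 1 = 1 := by
      rw [hP, finsetSum_coeff, Finset.sum_eq_single 0]
      · simp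
      · intro i _ hi
        rw [coeff_X_pow, if_neg]
        intro h
        have := Nat.one_lt_two_pow hi
        omega
      · intro h
        simp at h
        omega
    rw [h0] at h1
    simp at h1
  set I := Finset.univ.image (fun y : K => y ^ 2 + y) with hI
  have hcardI : 2 ^ m ≤ 2 * I.card := by
    rw [← hcard, ← Finset.card_univ]
    refine Finset.card_le_mul_card_image _ 2 ?_
    intro b hb
    rw [Finset.mem_image] at hb
    obtain ⟨z, -, rfl⟩ := hb
    refine (Finset.card_le_card (t := {z, z + 1}) ?_).trans Finset.card_le_two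
    intro y hy
    rw [Finset.mem_filter] at hy
    have h3 : (y + z) * (y + z + 1) = 0 := by
      linear_combination hy.2 + (z ^ 2 + z + y * z) * h2
    rw [Finset.mem_insert, Finset.mem_singleton]
    rcases mul_eq_zero.1 h3 with h | h
    · left; linear_combination h - z * h2
    · right; linear_combination h - (z + 1) * h2
  have hsub : insert c I ⊆ P.roots.toFinset := by
    intro a ha
    rw [Multiset.mem_toFinset, mem_roots hP0, IsRoot.def, heval]
    rw [Finset.mem_insert] at ha
    rcases ha with rfl | ha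
    · exact hc
    · rw [hI, Finset.mem_image] at ha
      obtain ⟨y, -, rfl⟩ := ha
      rw [tele, ← hcard, FiniteField.pow_card]
      linear_combination y * h2
  have h3 := Finset.card_le_card hsub
  rw [Finset.card_insert_of_notMem (by
    rw [hI, Finset.mem_image]
    rintro ⟨y, -, hy⟩
    exact hcon y hy)] at h3
  have h4 : P.roots.toFinset.card ≤ 2 ^ (m - 1) :=
    (Multiset.toFinset_card_le _).trans ((card_roots' P).trans hdeg)
  have h5 : 2 ^ m = 2 * 2 ^ (m - 1) := by
    rw [← pow_succ']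
    congr 1
    omega
  omega

theorem trace_zero_or_one {m : ℕ} (hcard : Fintype.card K = 2 ^ m) (c : K) :
    ∑ i ∈ Finset.range m, c ^ (2 ^ i) = 0 ∨ ∑ i ∈ Finset.range m, c ^ (2 ^ i) = 1 := by
  set t := ∑ i ∈ Finset.range m, c ^ (2 ^ i) with ht
  have h1 : t ^ 2 = ∑ i ∈ Finset.range m, c ^ (2 ^ (i + 1)) := by
    rw [ht]
    have := map_sum (frobenius K 2) (fun i => c ^ (2 ^ i)) (Finset.range m)
    simp only [frobenius_def] at this
    rw [this]
    refine Finset.sum_congr rfl fun i _ => ?_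
    rw [← pow_mul, ← pow_succ]
  have h2 : t ^ 2 = t := by
    have e1 := Finset.sum_range_succ (fun i => c ^ (2 ^ i)) m
    have e2 := Finset.sum_range_succ' (fun i => c ^ (2 ^ i)) m
    rw [e1] at e2
    rw [← h1, ← ht, ← hcard, FiniteField.pow_card, pow_zero, pow_one] at e2
    exact (add_right_cancel e2).symm
  have h3 : t * (t - 1) = 0 := by linear_combination h2
  rcases mul_eq_zero.1 h3 with h | h
  · exact Or.inl h
  · exact Or.inr (by linear_combination h)

theorem exists_unit {m : ℕ} (hm : 0 < m) (hcard : Fintype.card K = 2 ^ m) (τ : K) (h0 : τ ≠ 0)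
    (hc : ∑ i ∈ Finset.range m, (τ⁻¹) ^ (2 ^ i) ≠ 1) :
    ∃ μ : Kˣ, τ = (μ : K) + (μ : K)⁻¹ := by
  have h2 : (2 : K) = 0 := CharTwo.two_eq_zero
  obtain ⟨z, hz⟩ := artin hm hcard (τ⁻¹) ((trace_zero_or_one hcard _).resolve_right hc)
  set μ := τ * z ^ 2 with hμ
  have h3 : μ * (μ + τ) = 1 := by
    have h4 : z ^ 2 * (z ^ 2 + 1) = (τ⁻¹) ^ 2 := by
      rw [← hz]
      linear_combination -(z ^ 3) * h2
    have h5 : μ * (μ + τ) = τ ^ 2 * (z ^ 2 * (z ^ 2 + 1)) := by rw [hμ]; ring
    rw [h5, h4, ← mul_pow, mul_inv_cancel₀ h0, one_pow]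
  have hμ0 : μ ≠ 0 := by
    intro h
    rw [h, zero_mul] at h3
    exact zero_ne_one h3
  refine ⟨Units.mk0 μ hμ0, ?_⟩
  rw [Units.val_mk0]
  have h4 : μ⁻¹ = μ + τ := inv_eq_of_mul_eq_one_right h3
  rw [h4]
  linear_combination -μ * h2

end artin

section gens

theorem prime_factor_large {m p : ℕ} (hm : m.Prime) (hp : p ∈ (2 ^ m - 1).primeFactors) :
    m ≤ p := by
  have hpp := Nat.prime_of_mem_primeFactors hp
  have hdvd := Nat.dvd_of_mem_primeFactors hp
  have : Fact p.Prime := ⟨hpp⟩
  have h1 : (2 : ZMod p) ^ m = 1 := by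
    have h3 : ((2 ^ m - 1 : ℕ) : ZMod p) = 0 := (ZMod.natCast_eq_zero_iff _ _).2 hdvd
    rw [Nat.cast_sub Nat.one_le_two_pow] at h3
    push_cast at h3
    linear_combination h3
  have h2 : (2 : ZMod p) ≠ 0 := by
    intro h
    rw [h, zero_pow hm.ne_zero] at h1
    exact zero_ne_one h1
  have h3 : orderOf (2 : ZMod p) ∣ m := orderOf_dvd_of_pow_eq_one h1
  have h4 : orderOf (2 : ZMod p) ∣ p - 1 := ZMod.orderOf_dvd_card_sub_one h2
  rcases (Nat.dvd_prime hm).1 h3 with h5 | h5
  · exfalso
    rw [orderOf_eq_one_iff] at h5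
    have : (1 : ZMod p) = 0 := by linear_combination h5
    exact one_ne_zero this
  · rw [h5] at h4
    have := Nat.le_of_dvd (by have := hpp.two_le; omega) h4
    omega

theorem card_nongen {G : Type} [CommGroup G] [Fintype G] [IsCyclic G] [DecidableEq G] {m B : ℕ}
    (hm : m.Prime) (hB : 2 ^ B ≤ m) (hcard : Fintype.card G = 2 ^ m - 1)
    (S : Finset G) (hS : ∀ x ∈ S, ¬ ∀ y, y ∈ Subgroup.zpowers x) :
    B * S.card ≤ 2 ^ m := by
  set n := 2 ^ m - 1 with hn
  have hn0 : n ≠ 0 := by
    rw [← hcard]; exact Fintype.card_ne_zero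
  set k := n.primeFactors.card with hk
  have hsub : S ⊆ n.primeFactors.biUnion fun p => Finset.univ.filter fun x : G => x ^ (n / p) = 1 := by
    intro x hx
    have h1 : orderOf x ∣ n := by rw [← hcard]; exact orderOf_dvd_card
    have h2 : n / orderOf x ≠ 1 := by
      intro h
      apply hS x hx
      have h3 : orderOf x = n := by
        obtain ⟨c, hc⟩ := h1
        have h0 : 0 < orderOf x := orderOf_pos x
        rw [hc, Nat.mul_div_cancel_left _ h0] at h
        rw [h, mul_one] at hc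
        exact hc.symm
      intro y
      have h4 : Subgroup.zpowers x = ⊤ := by
        apply Subgroup.eq_top_of_card_eq
        rw [Nat.card_zpowers, h3, Nat.card_eq_fintype_card, hcard]
      rw [h4]; trivial
    obtain ⟨p, hp, hpd⟩ := Nat.exists_prime_and_dvd h2
    rw [Finset.mem_biUnion]
    have h3 : p ∣ n := hpd.trans (Nat.div_dvd_of_dvd h1)
    refine ⟨p, Nat.mem_primeFactors.2 ⟨hp, h3, hn0⟩, ?_⟩
    rw [Finset.mem_filter]
    refine ⟨Finset.mem_univ _, ?_⟩
    rw [← orderOf_dvd_iff_pow_eq_one]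
    obtain ⟨c, hc⟩ := hpd
    have h0 : 0 < orderOf x := orderOf_pos x
    obtain ⟨d, hd⟩ := h1
    rw [hd, Nat.mul_div_cancel_left _ h0] at hc
    rw [hd, hc, mul_left_comm, Nat.mul_div_cancel_left _ hp.pos]
    exact dvd_mul_right _ _
  have hS1 : m * S.card ≤ k * n := by
    have h1 : S.card ≤ ∑ p ∈ n.primeFactors, n / p := by
      refine (Finset.card_le_card hsub).trans (Finset.card_biUnion_le.trans ?_)
      refine Finset.sum_le_sum fun p hp => ?_
      have h0 : 0 < n / p := Nat.div_pos (Nat.le_of_dvd (Nat.pos_of_ne_zero hn0)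
        (Nat.dvd_of_mem_primeFactors hp)) (Nat.prime_of_mem_primeFactors hp).pos
      exact IsCyclic.card_pow_eq_one_le h0
    calc m * S.card ≤ m * ∑ p ∈ n.primeFactors, n / p := Nat.mul_le_mul_left _ h1
      _ = ∑ p ∈ n.primeFactors, m * (n / p) := Finset.mul_sum _ _ _
      _ ≤ ∑ p ∈ n.primeFactors, n := by
        refine Finset.sum_le_sum fun p hp => ?_
        exact (Nat.mul_le_mul_right _ (prime_factor_large hm hp)).trans (Nat.mul_div_le n p)
      _ = k * n := by rw [Finset.sum_const, smul_eq_mul]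
  have hBk : B * k ≤ m := by
    have h1 : m ^ k ≤ ∏ p ∈ n.primeFactors, p :=
      Finset.pow_card_le_prod _ _ _ fun p hp => prime_factor_large hm hp
    have h2 : ∏ p ∈ n.primeFactors, p ≤ n :=
      Nat.le_of_dvd (Nat.pos_of_ne_zero hn0) (Nat.prod_primeFactors_dvd n)
    have h3 : (2 ^ B) ^ k ≤ 2 ^ m := by
      calc (2 ^ B) ^ k ≤ m ^ k := Nat.pow_le_pow_left hB _
        _ ≤ n := h1.trans h2
        _ ≤ 2 ^ m := Nat.sub_le _ _
    rw [← pow_mul] at h3
    exact (Nat.pow_le_pow_iff_right (by norm_num)).1 h3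
  have h5 : m * (B * S.card) ≤ m * n := by
    calc m * (B * S.card) = B * (m * S.card) := by ring
      _ ≤ B * (k * n) := Nat.mul_le_mul_left _ hS1
      _ = (B * k) * n := by ring
      _ ≤ m * n := Nat.mul_le_mul_right _ hBk
  have h6 := Nat.le_of_mul_le_mul_left h5 hm.pos
  omega

end gens

theorem zmod2_sq : ∀ x : ZMod 2, x ^ 2 = x := by decide

theorem exists_point (τ Q : (ZMod 2)[X]) (hτ : 0 < τ.natDegree) (hQ : Q ≠ 0) :
    ∃ (K : Type) (_ : Field K) (_ : Finite K) (φ : (ZMod 2)[X] →+* K) (μ : Kˣ),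
      ringChar K = 2 ∧ 4 ≤ Nat.card K ∧ (∀ x : Kˣ, x ∈ Subgroup.zpowers μ) ∧
      φ τ = (μ : K) + (μ : K)⁻¹ ∧ φ Q ≠ 0 := by
  classical
  set D := τ.natDegree with hD
  obtain ⟨m₀, hm₀⟩ := stepanov D hτ
  obtain ⟨m, hm, hmp⟩ := Nat.exists_infinite_primes (m₀ + 2 ^ (8 * D) + D + Q.natDegree + 4)
  have : Fact (Nat.Prime 2) := Nat.fact_prime_two
  let K := GaloisField 2 m
  have hfin : Finite K := inferInstance
  let _ : Fintype K := Fintype.ofFinite K
  have hNcard : Nat.card K = 2 ^ m := GaloisField.card 2 m hmp.ne_zero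
  have hcard : Fintype.card K = 2 ^ m := by rw [← Nat.card_eq_fintype_card, hNcard]
  have hchar : CharP K 2 := inferInstance
  set ψ : ZMod 2 →+* K := algebraMap (ZMod 2) K with hψ
  have hψinj : Function.Injective ψ := ψ.injective
  set τK := τ.map ψ with hτK
  set QK := Q.map ψ with hQK
  have hdegτ : τK.natDegree = D := natDegree_map_eq_of_injective hψinj τ
  have hdegQ : QK.natDegree = Q.natDegree := natDegree_map_eq_of_injective hψinj Q
  have hQK0 : QK ≠ 0 := (Polynomial.map_ne_zero_iff hψinj).2 hQ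
  have hτK0 : τK ≠ 0 := by
    intro h0
    rw [h0, natDegree_zero] at hdegτ
    omega
  have hcoef : ∀ k, (τK.coeff k) ^ 2 = τK.coeff k := by
    intro k
    rw [hτK, coeff_map, ← map_pow]
    congr 1
    exact zmod2_sq _
  have hpow8 : 0 < 2 ^ (8 * D) := by positivity
  have hst := hm₀ m (by omega) K hcard τK (by omega) (by omega) hcoef
  set A := Finset.univ.filter (fun a : K => τK.eval a ≠ 0 ∧
      ∑ i ∈ Finset.range m, ((τK.eval a)⁻¹) ^ (2 ^ i) = 1) with hA
  set Bset := τK.roots.toFinset with hBset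
  set Cset := QK.roots.toFinset with hCset
  set NG : Finset Kˣ := Finset.univ.filter fun x => ¬ ∀ y, y ∈ Subgroup.zpowers x with hNG
  set Nset := NG.biUnion fun x => (τK - C ((x : K) + (x : K)⁻¹)).roots.toFinset with hNset
  have hB : Bset.card ≤ D := (Multiset.toFinset_card_le _).trans ((card_roots' _).trans hdegτ.le)
  have hC : Cset.card ≤ Q.natDegree :=
    (Multiset.toFinset_card_le _).trans ((card_roots' _).trans hdegQ.le)
  have hNGc : (8 * D) * NG.card ≤ 2 ^ m := by
    refine card_nongen (G := Kˣ) hmp ?_ ?_ NG ?_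
    · omega
    · rw [Fintype.card_units, hcard]
    · intro x hx
      exact (Finset.mem_filter.1 hx).2
  have hN : Nset.card ≤ NG.card * D := by
    refine Finset.card_biUnion_le_card_mul _ _ _ ?_
    intro x _
    refine (Multiset.toFinset_card_le _).trans ((card_roots' _).trans ?_)
    rw [natDegree_sub_C, hdegτ]
  have hbig : D + Q.natDegree + 1 < 2 ^ (m - 3) := by
    have h1 : m - 3 < 2 ^ (m - 3) := Nat.lt_two_pow_self
    omega
  have h8 : 2 ^ m = 8 * 2 ^ (m - 3) := by
    have : m = 3 + (m - 3) := by omega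
    conv_lhs => rw [this]
    rw [pow_add]; norm_num
  obtain ⟨a, ha⟩ : ∃ a : K, a ∉ A ∪ (Bset ∪ (Cset ∪ Nset)) := by
    by_contra hcon
    push Not at hcon
    have h1 : (Finset.univ : Finset K) ⊆ A ∪ (Bset ∪ (Cset ∪ Nset)) := fun a _ => hcon a
    have h2 := Finset.card_le_card h1
    rw [Finset.card_univ, hcard] at h2
    have h3 := Finset.card_union_le A (Bset ∪ (Cset ∪ Nset))
    have h4 := Finset.card_union_le Bset (Cset ∪ Nset)
    have h5 := Finset.card_union_le Cset Nset
    have h6 : 8 * (NG.card * D) ≤ 2 ^ m := by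
      calc 8 * (NG.card * D) = (8 * D) * NG.card := by ring
        _ ≤ _ := hNGc
    omega
  simp only [Finset.mem_union, not_or] at ha
  obtain ⟨haA, haB, haC, haN⟩ := ha
  have hτa : τK.eval a ≠ 0 := by
    intro h
    apply haB
    rw [hBset, Multiset.mem_toFinset, mem_roots hτK0]
    exact h
  have hQa : QK.eval a ≠ 0 := by
    intro h
    apply haC
    rw [hCset, Multiset.mem_toFinset, mem_roots hQK0]
    exact h
  have htr : ∑ i ∈ Finset.range m, ((τK.eval a)⁻¹) ^ (2 ^ i) ≠ 1 := by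
    intro h
    apply haA
    rw [hA, Finset.mem_filter]
    exact ⟨Finset.mem_univ _, hτa, h⟩
  obtain ⟨μ, hμ⟩ := exists_unit hmp.pos hcard _ hτa htr
  refine ⟨K, inferInstance, hfin, eval₂RingHom ψ a, μ, ringChar.eq K 2, ?_, ?_, ?_, ?_⟩
  · rw [hNcard]
    have : 2 ^ 2 ≤ 2 ^ m := Nat.pow_le_pow_right (by norm_num) hmp.two_le
    omega
  · by_contra hcon
    apply haN
    rw [hNset, Finset.mem_biUnion]
    refine ⟨μ, ?_, ?_⟩
    · rw [hNG, Finset.mem_filter]
      exact ⟨Finset.mem_univ _, hcon⟩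
    · rw [Multiset.mem_toFinset, mem_roots, IsRoot.def, eval_sub, eval_C, hμ, sub_self]
      intro h0
      have := congrArg natDegree h0
      rw [natDegree_sub_C, natDegree_zero] at this
      omega
  · rw [coe_eval₂RingHom, ← eval_map, ← hμ]
  · rw [coe_eval₂RingHom, ← eval_map]
    exact hQa

end H35.Tape
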