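import Mathlib
import Pool.Agent.H35.Tape.Local

/-!
# The certificate for a form with several factors
-/

namespace H35.Tape

open Equiv

section words

variable {X J Y : Type*}

/-- The alphabet of a form: letters of the factors, conjugating letters, remaining letters. -/
abbrev Al (X J Y : Type*) := X ⊕ (J ⊕ Y)

/-- inclusion of letters -/
def eX (J Y : Type*) (l : X × Bool) : Al X J Y × Bool := (Sum.inl l.1, l.2)
/-- inclusion of letters -/
def eC (X Y : Type*) (j : J) (b : Bool) : Al X J Y × Bool := (Sum.inr (Sum.inl j), b)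
/-- inclusion of letters -/
def eY (X J : Type*) (l : Y × Bool) : Al X J Y × Bool := (Sum.inr (Sum.inr l.1), l.2)

theorem eX_linv (l : X × Bool) : eX J Y (linv l) = linv (eX J Y l) := rfl
theorem eY_linv (l : Y × Bool) : eY X J (linv l) = linv (eY X J l) := rfl
theorem eC_linv (j : J) (b : Bool) : linv (eC X Y j b) = eC X Y j (!b) := rfl

theorem eX_injective : Function.Injective (eX (X := X) J Y) := by
  rintro ⟨a, b⟩ ⟨c, d⟩ h
  simp only [eX, Prod.mk.injEq, Sum.inl.injEq] at h
  rw [h.1, h.2]

theorem eY_injective : Function.Injective (eY (Y := Y) X J) := by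
  rintro ⟨a, b⟩ ⟨c, d⟩ h
  simp only [eY, Prod.mk.injEq, Sum.inr.injEq] at h
  rw [h.1, h.2]

/-- The part of the word after the first factor. -/
def tailWord (u : Option J → List (X × Bool)) (ρ : List (Y × Bool)) :
    List J → List (Al X J Y × Bool)
  | [] => ρ.map (eY X J)
  | j :: js => eC X Y j true :: ((u (some j)).map (eX J Y) ++ (eC X Y j false :: tailWord u ρ js))

/-- The word of a form. -/
def formWord (u : Option J → List (X × Bool)) (ρ : List (Y × Bool)) (js : List J) :
    List (Al X J Y × Bool) := (u none).map (eX J Y) ++ tailWord u ρ js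

theorem IsTurn.map {A B : Type*} (g : A × Bool → B × Bool) (hg : ∀ a, g (linv a) = linv (g a))
    {w : List (A × Bool)} {i : ℕ} {a b : A × Bool} (h : IsTurn w i a b) :
    IsTurn (w.map g) i (g a) (g b) := by
  obtain ⟨h1, h2⟩ := h
  refine ⟨?_, ?_⟩
  · rw [List.getElem?_map, h1]; rfl
  · rw [List.length_map, List.getElem?_map, h2, ← hg]; rfl

theorem isTurn_of_split {A : Type*} {ω : List (A × Bool)} {P Q : List (A × Bool)}
    {l₁ l₂ : A × Bool} (h : ω = P ++ l₁ :: l₂ :: Q) :
    IsTurn ω (P.length + 1) (linv l₁) l₂ := by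
  have h1 : ω = (P ++ [l₁]) ++ l₂ :: Q := by rw [h]; simp
  have hlen : ω.length = P.length + 2 + Q.length := by rw [h]; simp; omega
  refine ⟨?_, ?_⟩
  · rw [h1, List.getElem?_append_right (by simp)]
    simp
  · have h2 : (P.length + 1 + ω.length - 1) % ω.length = P.length := by
      rw [show P.length + 1 + ω.length - 1 = P.length + ω.length by omega, Nat.add_mod_right,
        Nat.mod_eq_of_lt (by omega)]
    rw [h2, linv_linv, h, List.getElem?_append_right le_rfl]
    simp

theorem isTurn_wrap {A : Type*} {ω Q : List (A × Bool)} {l₁ l₂ : A × Bool} (h : ω = l₂ :: Q)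
    (h' : ω.getLast? = some l₁) : IsTurn ω 0 (linv l₁) l₂ := by
  refine ⟨by rw [h]; rfl, ?_⟩
  rw [linv_linv, ← h', List.getLast?_eq_getElem?]
  have : 0 < ω.length := by rw [h]; simp
  rw [zero_add, Nat.mod_eq_of_lt (by omega)]

theorem IsTurn.split {A : Type*} {w : List (A × Bool)} {i : ℕ} {a b : A × Bool}
    (h : IsTurn w i a b) (hi : i ≠ 0) :
    w = w.take (i - 1) ++ linv a :: b :: w.drop (i + 1) ∧
      w.take i = w.take (i - 1) ++ [linv a] := by
  obtain ⟨h1, h2⟩ := h
  have hil : i < w.length := by
    by_contra hcon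
    rw [List.getElem?_eq_none (by omega)] at h1
    exact absurd h1 (by simp)
  have h4 : (i + w.length - 1) % w.length = i - 1 := by
    rw [show i + w.length - 1 = (i - 1) + w.length by omega, Nat.add_mod_right,
      Nat.mod_eq_of_lt (by omega)]
  rw [h4] at h2
  have hb : w[i] = b := by
    rw [List.getElem?_eq_getElem hil] at h1
    exact Option.some.inj h1
  have ha : w[i - 1] = linv a := by
    rw [List.getElem?_eq_getElem (by omega)] at h2
    exact Option.some.inj h2
  have e1 : w.take i = w.take (i - 1) ++ [linv a] := by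
    have := List.take_succ_eq_append_getElem (l := w) (i := i - 1) (by omega)
    rw [show i - 1 + 1 = i by omega, ha] at this
    exact this
  refine ⟨?_, e1⟩
  conv_lhs => rw [← List.take_append_drop i w, e1, List.drop_eq_getElem_cons hil, hb]
  simp

end words

section cert

variable {X J Y V : Type*}

/-- half edges allowed at a vertex -/
def EOm (S : Option J → Set V) : V → Al X J Y × Bool → Prop
  | _, (Sum.inl _, _) => True
  | v, (Sum.inr (Sum.inl _), true) => v ∈ S none
  | v, (Sum.inr (Sum.inl j), false) => v ∈ S (some j)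
  | v, (Sum.inr (Sum.inr _), _) => v ∈ S none

/-- the turn a, b of the word is seen at v -/
def RAt (σ : Al X J Y → Perm V) (S₀ : Set V) (ω : List (Al X J Y × Bool)) (v : V)
    (a b : Al X J Y × Bool) : Prop :=
  ∃ s ∈ S₀, ∃ i, run σ s (ω.take i) = v ∧ IsTurn ω i a b

variable {σ : Al X J Y → Perm V} {S : Option J → Set V} {u : Option J → List (X × Bool)}
  {ρ : List (Y × Bool)} {ω : List (Al X J Y × Bool)}

theorem RAt.of_split {S₀ : Set V} {P Q : List (Al X J Y × Bool)} {l₁ l₂ : Al X J Y × Bool}
    (h : ω = P ++ l₁ :: l₂ :: Q) {s v : V} (hs : s ∈ S₀) (hv : run σ s (P ++ [l₁]) = v) :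
    RAt σ S₀ ω v (linv l₁) l₂ := by
  refine ⟨s, hs, P.length + 1, ?_, isTurn_of_split h⟩
  rw [← hv]
  congr 1
  have h1 : ω = (P ++ [l₁]) ++ l₂ :: Q := by rw [h]; simp
  rw [h1, List.take_left' (by simp)]

theorem RAt.interior {S₀ : Set V} {P w Q : List (Al X J Y × Bool)} (h : ω = P ++ w ++ Q) {i : ℕ}
    {a b : Al X J Y × Bool} (hw : IsTurn w i a b) (hi : i ≠ 0) {s v : V} (hs : s ∈ S₀)
    (hv : run σ s (P ++ w.take i) = v) : RAt σ S₀ ω v a b := by
  obtain ⟨e1, e2⟩ := hw.split hi
  have h2 := RAt.of_split (σ := σ) (S₀ := S₀) (ω := ω) (P := P ++ w.take (i - 1))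
    (Q := w.drop (i + 1) ++ Q) (l₁ := linv a) (l₂ := b) (by
      rw [h]
      conv_lhs => rw [e1]
      simp) hs (v := v) (by rw [← hv, e2]; simp)
  rwa [linv_linv] at h2

/-- Every vertex of `A` is reached from `S₀` by reading `P`. -/
def Onto (σ : Al X J Y → Perm V) (S₀ A : Set V) (P : List (Al X J Y × Bool)) : Prop :=
  ∀ v ∈ A, ∃ s ∈ S₀, run σ s P = v

theorem Onto.append {S₀ A B : Set V} {P w : List (Al X J Y × Bool)} (h : Onto σ S₀ A P)
    (h' : Onto σ A B w) : Onto σ S₀ B (P ++ w) := by
  intro v hv
  obtain ⟨s, hs, rfl⟩ := h' v hv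
  obtain ⟨s', hs', rfl⟩ := h s hs
  exact ⟨s', hs', run_append _ _ _ _⟩

theorem onto_of_iff {A : Set V} {w : List (Al X J Y × Bool)} (h : ∀ v, run σ v w ∈ A → v ∈ A) :
    Onto σ A A w := by
  intro v hv
  refine ⟨run σ v (FreeGroup.invRev w), ?_, ?_⟩
  · apply h
    have := run_invRev (σ := σ) v (FreeGroup.invRev w)
    rw [FreeGroup.invRev_invRev] at this
    rw [this]; exact hv
  · have := run_invRev (σ := σ) v (FreeGroup.invRev w)
    rwa [FreeGroup.invRev_invRev] at this

/-- Compatibility conditions between the permutations and the subsets. -/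
structure Compat (σ : Al X J Y → Perm V) (S : Option J → Set V)
    (u : Option J → List (X × Bool)) : Prop where
  hu : ∀ j v, v ∈ S j ↔ run σ v ((u j).map (eX J Y)) ∈ S j
  hc : ∀ j v, v ∈ S none ↔ σ (Sum.inr (Sum.inl j)) v ∈ S (some j)
  hY : ∀ y v, v ∈ S none ↔ σ (Sum.inr (Sum.inr y)) v ∈ S none

theorem Compat.ontoC (hcomp : Compat σ S u) (j : J) : Onto σ (S none) (S (some j)) [eC X Y j true] := by
  intro v hv
  refine ⟨(σ (Sum.inr (Sum.inl j)))⁻¹ v, ?_, ?_⟩
  · rw [hcomp.hc j]; simpa using hv
  · simp [eC, step]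

theorem Compat.ontoC' (hcomp : Compat σ S u) (j : J) :
    Onto σ (S (some j)) (S none) [eC X Y j false] := by
  intro v hv
  refine ⟨σ (Sum.inr (Sum.inl j)) v, ?_, ?_⟩
  · rw [← hcomp.hc j]; exact hv
  · simp [eC, step]

theorem Compat.ontoU (hcomp : Compat σ S u) (j : Option J) :
    Onto σ (S j) (S j) ((u j).map (eX J Y)) :=
  onto_of_iff fun v hv => (hcomp.hu j v).2 hv

theorem Compat.stepY (hcomp : Compat σ S u) (l : Y × Bool) (v : V) :
    step σ v (eY X J l) ∈ S none ↔ v ∈ S none := by
  rcases l with ⟨y, b⟩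
  cases b with
  | true => simpa [step, eY] using (hcomp.hY y v).symm
  | false =>
    have := hcomp.hY y ((σ (Sum.inr (Sum.inr y)))⁻¹ v)
    rw [show σ (Sum.inr (Sum.inr y)) ((σ (Sum.inr (Sum.inr y)))⁻¹ v) = v by simp] at this
    simpa [step, eY] using this

theorem Compat.runY (hcomp : Compat σ S u) (w : List (Y × Bool)) (v : V) :
    run σ v (w.map (eY X J)) ∈ S none ↔ v ∈ S none := by
  induction w generalizing v with
  | nil => rfl
  | cons l w ih => rw [List.map_cons, run_cons, ih, hcomp.stepY]

theorem Compat.ontoY (hcomp : Compat σ S u) (w : List (Y × Bool)) :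
    Onto σ (S none) (S none) (w.map (eY X J)) :=
  onto_of_iff fun v hv => (hcomp.runY w v).1 hv

/-- All turns of the tail. -/
theorem tail_facts (hcomp : Compat σ S u) (hu0 : ∀ j, u j ≠ [])
    (hρ : ρ ≠ [] → ∃ p q, Conn (fun a b => ∃ i, i ≠ 0 ∧ IsTurn ρ i a b) Set.univ p (linv q) ∧
      ρ.head? = some p ∧ ρ.getLast? = some q)
    (hY : ρ = [] → IsEmpty Y) :
    ∀ (js : List J), js.Nodup → ∀ (P : List (Al X J Y × Bool)) (l : Al X J Y × Bool),
      ω = P ++ l :: tailWord u ρ js → Onto σ (S none) (S none) (P ++ [l]) →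
      (∀ j ∈ js, ∀ v ∈ S (some j), ∀ a b, IsTurn (u (some j)) 0 a b →
        RAt σ (S none) ω v (eX J Y a) (eC X Y j false) ∧
        RAt σ (S none) ω v (eC X Y j false) (eX J Y b)) ∧
      (∀ j ∈ js, ∀ i a b, IsTurn (u (some j)) i a b → i ≠ 0 → ∀ s ∈ S (some j),
        RAt σ (S none) ω (run σ s (((u (some j)).take i).map (eX J Y))) (eX J Y a) (eX J Y b)) ∧
      ((js ≠ [] ∨ ρ ≠ []) → ∃ p l' : Al X J Y × Bool, ω.getLast? = some l' ∧
        ∀ v ∈ S none, Conn (RAt σ (S none) ω v)
          ({z | ∃ j ∈ js, z = eC X Y j true} ∪ Set.range (eY X J)) p (linv l') ∧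
          RAt σ (S none) ω v (linv l) p) := by
  intro js
  induction js with
  | nil =>
    intro _ P l hω hP
    refine ⟨by simp, by simp, ?_⟩
    rintro (h | hρne)
    · exact absurd rfl h
    obtain ⟨p, q, hconn, hp, hq⟩ := hρ hρne
    rw [tailWord] at hω
    refine ⟨eY X J p, eY X J q, ?_, ?_⟩
    · rw [hω, List.getLast?_append, List.getLast?_cons, List.getLast?_map, hq]
      rfl
    · intro v hv
      refine ⟨?_, ?_⟩
      · have h1 := (hconn.image (eY X J) eY_injective (R' := RAt σ (S none) ω v) (by
          rintro a b ⟨i, hi, hab⟩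
          obtain ⟨s, hs, hsv⟩ := (hP.append (hcomp.ontoY (ρ.take i))) v hv
          refine RAt.interior (P := P ++ [l]) (w := ρ.map (eY X J)) (Q := []) (by rw [hω]; simp)
            (hab.map _ eY_linv) hi hs ?_
          rw [← hsv, List.map_take]))
        have h2 : ({z | ∃ j ∈ ([] : List J), z = eC X Y j true} ∪ Set.range (eY X J)
            : Set (Al X J Y × Bool)) = eY X J '' Set.univ := by
          rw [Set.image_univ]
          ext z
          simp
        rw [h2]
        exact h1
      · obtain ⟨s, hs, hsv⟩ := hP v hv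
        obtain ⟨Q, hQ⟩ : ∃ Q, ρ = p :: Q := by
          cases ρ with
          | nil => exact absurd rfl hρne
          | cons a Q => simp only [List.head?_cons, Option.some.injEq] at hp; exact ⟨Q, by rw [hp]⟩
        exact RAt.of_split (P := P) (Q := Q.map (eY X J)) (by rw [hω, hQ]; rfl) hs hsv
  | cons j js ih =>
    intro hnd P l hω hP
    rw [List.nodup_cons] at hnd
    rw [tailWord] at hω
    -- prefixes
    have hP1 : Onto σ (S none) (S (some j)) (P ++ [l] ++ [eC X Y j true]) :=
      hP.append (hcomp.ontoC j)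
    have hP2 : Onto σ (S none) (S (some j)) (P ++ [l] ++ [eC X Y j true] ++
        (u (some j)).map (eX J Y)) := hP1.append (hcomp.ontoU (some j))
    have hP3 : Onto σ (S none) (S none) (P ++ [l] ++ [eC X Y j true] ++
        (u (some j)).map (eX J Y) ++ [eC X Y j false]) := hP2.append (hcomp.ontoC' j)
    obtain ⟨ih1, ih2, ih3⟩ := ih hnd.2 (P ++ [l] ++ [eC X Y j true] ++
        (u (some j)).map (eX J Y)) (eC X Y j false) (by rw [hω]; simp) hP3
    refine ⟨?_, ?_, ?_⟩
    · intro j' hj' v hv a b hab
      rcases List.mem_cons.1 hj' with rfl | hj'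
      · obtain ⟨hlt, M, hM1, hM2⟩ := hab.rotate
        simp only [List.drop_zero, List.take_zero, List.append_nil] at hM1
        constructor
        · -- last letter then `c⁻¹`
          obtain ⟨N, hN⟩ : ∃ N, u (some j') = N ++ [linv a] := by
            rw [← hM1] at hM2
            rcases List.eq_nil_or_concat' (u (some j')) with h | ⟨N, x, hx⟩
            · exact absurd h (hu0 _)
            · rw [hx, List.getLast?_append] at hM2
              simp only [List.getLast?_singleton, Option.some_or, Option.some.injEq] at hM2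
              exact ⟨N, by rw [hx, hM2]⟩
          obtain ⟨s, hs, hsv⟩ := hP2 v hv
          have := RAt.of_split (σ := σ) (S₀ := S none) (ω := ω)
            (P := P ++ [l] ++ [eC X Y j' true] ++ N.map (eX J Y)) (l₁ := eX J Y (linv a))
            (l₂ := eC X Y j' false) (Q := tailWord u ρ js) (by rw [hω, hN]; simp) hs (v := v)
            (by rw [← hsv, hN]; simp)
          rwa [eX_linv, linv_linv] at this
        · obtain ⟨s, hs, hsv⟩ := hP1 v hv
          have := RAt.of_split (σ := σ) (S₀ := S none) (ω := ω)
            (P := P ++ [l]) (l₁ := eC X Y j' true)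
            (l₂ := eX J Y b) (Q := M.map (eX J Y) ++ eC X Y j' false :: tailWord u ρ js)
            (by rw [hω, hM1]; simp) hs (v := v) (by rw [← hsv])
          exact this
      · exact ih1 j' hj' v hv a b hab
    · intro j' hj' i a b hab hi s hs
      rcases List.mem_cons.1 hj' with rfl | hj'
      · obtain ⟨s', hs', hsv⟩ := hP1 s hs
        refine RAt.interior (P := P ++ [l] ++ [eC X Y j' true]) (w := (u (some j')).map (eX J Y))
          (Q := eC X Y j' false :: tailWord u ρ js) (by rw [hω]; simp) (hab.map _ eX_linv) hi hs' ?_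
        rw [run_append, hsv, List.map_take]
      · exact ih2 j' hj' i a b hab hi s hs
    · intro _
      have hR : ∀ v ∈ S none, RAt σ (S none) ω v (linv l) (eC X Y j true) := by
        intro v hv
        obtain ⟨s, hs, hsv⟩ := hP v hv
        exact RAt.of_split (P := P) (by rw [hω]) hs hsv
      by_cases hlast : js = [] ∧ ρ = []
      · obtain ⟨rfl, rfl⟩ := hlast
        refine ⟨eC X Y j true, eC X Y j false, ?_, ?_⟩
        · rw [hω]
          simp only [tailWord, List.map_nil]
          rw [List.getLast?_append, List.getLast?_cons, List.getLast?_cons, List.getLast?_append]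
          rfl
        · intro v hv
          refine ⟨?_, hR v hv⟩
          have h2 : ({z | ∃ j' ∈ [j], z = eC X Y j' true} ∪ Set.range (eY X J)
              : Set (Al X J Y × Bool)) = {eC X Y j true} := by
            have := hY rfl
            ext z
            simp
          rw [h2]
          exact Conn.single _ _
      · obtain ⟨p, l', hl', hcon⟩ := ih3 (by tauto)
        refine ⟨eC X Y j true, l', hl', ?_⟩
        intro v hv
        refine ⟨?_, hR v hv⟩
        obtain ⟨h1, h2⟩ := hcon v hv
        have h3 := (Conn.single (RAt σ (S none) ω v) (eC X Y j true)).append h1 (by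
          rw [Set.disjoint_left]
          rintro z hz hz'
          rw [Set.mem_singleton_iff] at hz
          subst hz
          rcases hz' with ⟨j', hj', hz'⟩ | ⟨y, hy⟩
          · have : j = j' := by simpa [eC] using hz'
            exact hnd.1 (this ▸ hj')
          · simp [eC, eY] at hy) h2
        have h4 : ({z | ∃ j' ∈ j :: js, z = eC X Y j' true} ∪ Set.range (eY X J)
            : Set (Al X J Y × Bool)) = {eC X Y j true} ∪
              ({z | ∃ j' ∈ js, z = eC X Y j' true} ∪ Set.range (eY X J)) := by
          ext z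
          simp only [List.mem_cons, Set.mem_union, Set.mem_ofPred_eq, Set.mem_range,
            Set.mem_singleton_iff]
          constructor
          · rintro (⟨j', rfl | hj', rfl⟩ | h)
            · exact Or.inl rfl
            · exact Or.inr (Or.inl ⟨j', hj', rfl⟩)
            · exact Or.inr (Or.inr h)
          · rintro (rfl | ⟨j', hj', rfl⟩ | h)
            · exact Or.inl ⟨j, Or.inl rfl, rfl⟩
            · exact Or.inl ⟨j', Or.inr hj', rfl⟩
            · exact Or.inr h
        rw [h4]
        exact h3

theorem EOm_symm (hcomp : Compat σ S u) (v : V) (l : Al X J Y × Bool) (h : EOm S v l) :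
    EOm S (step σ v l) (linv l) := by
  rcases l with ⟨x | j | y, b⟩
  · exact trivial
  · cases b with
    | true =>
      change σ (Sum.inr (Sum.inl j)) v ∈ S (some j)
      exact (hcomp.hc j v).1 h
    | false =>
      change (σ (Sum.inr (Sum.inl j)))⁻¹ v ∈ S none
      rw [hcomp.hc j]
      have h' : v ∈ S (some j) := h
      simpa using h'
  · have h' : v ∈ S none := h
    exact (hcomp.stepY (y, b) v).2 h'

theorem Rd_mapX (w : List (X × Bool)) (v : V) : Rd σ (EOm S) v (w.map (eX J Y)) := by
  induction w generalizing v with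
  | nil => exact trivial
  | cons l w ih => exact ⟨trivial, ih _⟩

theorem Rd_mapY (hcomp : Compat σ S u) (w : List (Y × Bool)) (v : V) (hv : v ∈ S none) :
    Rd σ (EOm S) v (w.map (eY X J)) := by
  induction w generalizing v with
  | nil => exact trivial
  | cons l w ih => exact ⟨hv, ih _ ((hcomp.stepY l v).2 hv)⟩

theorem tail_run (hcomp : Compat σ S u) (js : List J) (v : V) (hv : v ∈ S none) :
    Rd σ (EOm S) v (tailWord u ρ js) ∧ run σ v (tailWord u ρ js) ∈ S none := by
  induction js generalizing v with
  | nil => exact ⟨Rd_mapY hcomp _ v hv, (hcomp.runY _ v).2 hv⟩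
  | cons j js ih =>
    rw [tailWord, Rd_cons, Rd_append, Rd_cons, run_cons, run_append, run_cons]
    have h1 : step σ v (eC X Y j true) ∈ S (some j) := (hcomp.hc j v).1 hv
    have h2 := (hcomp.hu (some j) _).1 h1
    have h3 : step σ (run σ (step σ v (eC X Y j true)) ((u (some j)).map (eX J Y)))
        (eC X Y j false) ∈ S none := by
      have := (EOm_symm hcomp) _ (eC X Y j false) h2
      exact this
    exact ⟨⟨hv, Rd_mapX _ _, h2, (ih _ h3).1⟩, (ih _ h3).2⟩

theorem form_run (hcomp : Compat σ S u) (js : List J) (v : V) (hv : v ∈ S none) :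
    Rd σ (EOm S) v (formWord u ρ js) ∧ run σ v (formWord u ρ js) ∈ S none := by
  rw [formWord, Rd_append, run_append]
  have h1 := (hcomp.hu none v).1 hv
  exact ⟨⟨Rd_mapX _ _, (tail_run hcomp js _ h1).1⟩, (tail_run hcomp js _ h1).2⟩

theorem run_pow_mem {A : Type*} {τ : A → Perm V} {S₀ : Set V} {w : List (A × Bool)}
    (h : ∀ v ∈ S₀, run τ v w ∈ S₀) (e : ℕ) : ∀ v ∈ S₀, run τ v (List.replicate e w).flatten ∈ S₀ := by
  induction e with
  | zero => intro v hv; simpa using hv
  | succ e ih =>
    intro v hv
    rw [List.replicate_succ, List.flatten_cons, run_append]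
    exact ih _ (h v hv)

/-- Cyclic reducedness of the word of a form. -/
theorem tail_reduced (hu : ∀ j, FreeGroup.IsReduced (u j)) (hu0 : ∀ j, u j ≠ [])
    (hρr : FreeGroup.IsReduced ρ) : ∀ js : List J, js.Nodup →
      FreeGroup.IsReduced (tailWord u ρ js) ∧
      (∀ b, (tailWord u ρ js).head? = some b → (∃ j ∈ js, b = eC X Y j true) ∨
        ∃ y ∈ ρ.head?, b = eY X J y) := by
  have hmapX : ∀ w : List (X × Bool), FreeGroup.IsReduced w →
      FreeGroup.IsReduced (w.map (eX J Y)) := by
    intro w hw
    rw [FreeGroup.IsReduced, List.isChain_map]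
    refine List.IsChain.imp ?_ hw
    rintro ⟨a, b⟩ ⟨c, d⟩ h h'
    exact h (Sum.inl_injective h')
  have hmapY : ∀ w : List (Y × Bool), FreeGroup.IsReduced w →
      FreeGroup.IsReduced (w.map (eY X J)) := by
    intro w hw
    rw [FreeGroup.IsReduced, List.isChain_map]
    refine List.IsChain.imp ?_ hw
    rintro ⟨a, b⟩ ⟨c, d⟩ h h'
    exact h (Sum.inr_injective (Sum.inr_injective h'))
  intro js
  induction js with
  | nil =>
    intro _
    refine ⟨hmapY _ hρr, ?_⟩
    intro b hb
    right
    rw [tailWord, List.head?_map, Option.map_eq_some_iff] at hb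
    obtain ⟨y, hy, rfl⟩ := hb
    exact ⟨y, hy, rfl⟩
  | cons j js ih =>
    intro hnd
    rw [List.nodup_cons] at hnd
    obtain ⟨ih1, ih2⟩ := ih hnd.2
    refine ⟨?_, ?_⟩
    · rw [tailWord, isReduced_cons_iff', isReduced_append_iff, isReduced_cons_iff']
      refine ⟨⟨hmapX _ (hu _), ⟨ih1, ?_⟩, ?_⟩, ?_⟩
      · intro b hb hb'
        rcases ih2 b hb with ⟨j', hj', rfl⟩ | ⟨y, -, rfl⟩
        · rw [eC_linv] at hb'
          have : j' = j := by simpa [eC] using hb'
          exact hnd.1 (this ▸ hj')
        · simp [eC, eY, linv] at hb'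
      · intro a ha b hb
        rw [Option.mem_def, List.getLast?_map, Option.map_eq_some_iff] at ha
        obtain ⟨a', -, rfl⟩ := ha
        simp only [List.head?_cons, Option.mem_def, Option.some.injEq] at hb
        subst hb
        simp [eX, eC, linv]
      · intro b hb
        rw [Option.mem_def, List.head?_append] at hb
        cases hw : u (some j) with
        | nil => exact absurd hw (hu0 _)
        | cons a w =>
          rw [hw] at hb
          simp only [List.map_cons, List.head?_cons, Option.some_or, Option.some.injEq] at hb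
          subst hb
          simp [eX, eC, linv]
    · intro b hb
      rw [tailWord, List.head?_cons, Option.some.injEq] at hb
      left
      exact ⟨j, List.mem_cons_self, hb.symm⟩

theorem tail_last (js : List J) (hne : js ≠ [] ∨ ρ ≠ []) (b : Al X J Y × Bool)
    (hb : (tailWord u ρ js).getLast? = some b) : ∃ z : J ⊕ Y, b.1 = Sum.inr z := by
  induction js with
  | nil =>
    rw [tailWord, List.getLast?_map, Option.map_eq_some_iff] at hb
    obtain ⟨y, -, rfl⟩ := hb
    exact ⟨_, rfl⟩
  | cons j js ih =>
    by_cases h : js = [] ∧ ρ = []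
    · obtain ⟨rfl, rfl⟩ := h
      simp only [tailWord, List.map_nil] at hb
      rw [List.getLast?_cons, List.getLast?_append] at hb
      simp only [List.getLast?_singleton, Option.some_or, Option.getD_some,
        Option.some.injEq] at hb
      rw [← hb]
      exact ⟨_, rfl⟩
    · apply ih (by tauto)
      rw [tailWord, List.getLast?_cons, List.getLast?_append, List.getLast?_cons] at hb
      have htne : tailWord u ρ js ≠ [] := by
        cases js with
        | nil =>
          have : ρ ≠ [] := fun h' => h ⟨rfl, h'⟩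
          simpa [tailWord] using this
        | cons j' js => simp [tailWord]
      cases hx : (tailWord u ρ js).getLast? with
      | none => rw [List.getLast?_eq_none_iff] at hx; exact absurd hx htne
      | some y =>
        rw [hx] at hb
        simpa using hb

theorem formWord_cyc (hu : ∀ j, FreeGroup.IsReduced (u j)) (hu0 : ∀ j, u j ≠ [])
    (hρr : FreeGroup.IsReduced ρ) (js : List J) (hnd : js.Nodup) (hne : js ≠ [] ∨ ρ ≠ []) :
    FreeGroup.IsCyclicallyReduced (formWord u ρ js) := by
  obtain ⟨h1, h2⟩ := tail_reduced (u := u) (ρ := ρ) hu hu0 hρr js hnd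
  have hmapX : ∀ w : List (X × Bool), FreeGroup.IsReduced w →
      FreeGroup.IsReduced (w.map (eX J Y)) := by
    intro w hw
    rw [FreeGroup.IsReduced, List.isChain_map]
    refine List.IsChain.imp ?_ hw
    rintro ⟨a, b⟩ ⟨c, d⟩ h h'
    exact h (Sum.inl_injective h')
  have htne : tailWord u ρ js ≠ [] := by
    cases js with
    | nil => simpa [tailWord] using hne
    | cons j' js => simp [tailWord]
  constructor
  · rw [formWord, isReduced_append_iff]
    refine ⟨hmapX _ (hu _), h1, ?_⟩
    intro a ha b hb
    rw [Option.mem_def, List.getLast?_map, Option.map_eq_some_iff] at ha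
    obtain ⟨a', -, rfl⟩ := ha
    rcases h2 b hb with ⟨j, -, rfl⟩ | ⟨y, -, rfl⟩
    · simp [eX, eC, linv]
    · simp [eX, eY, linv]
  · intro a ha b hb
    rw [red_iff]
    rw [formWord, Option.mem_def, List.getLast?_append] at ha
    rw [formWord, Option.mem_def, List.head?_append] at hb
    cases hw : u none with
    | nil => exact absurd hw (hu0 _)
    | cons x w =>
      rw [hw] at hb
      simp only [List.map_cons, List.head?_cons, Option.some_or, Option.some.injEq] at hb
      subst hb
      cases hx : (tailWord u ρ js).getLast? with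
      | none => rw [List.getLast?_eq_none_iff] at hx; exact absurd hx htne
      | some y =>
        rw [hx] at ha
        simp only [Option.some_or, Option.some.injEq] at ha
        subst ha
        obtain ⟨z, hz⟩ := tail_last js hne y hx
        intro h
        have := congrArg Prod.fst h
        simp [eX, linv, hz] at this

/-- **The certificate for forms.** -/
theorem not_TProp_form [Finite X] [Finite J] [Finite Y] [Finite V] (js : List J)
    (hnd : js.Nodup) (hall : ∀ j, j ∈ js) (hne : js ≠ [] ∨ ρ ≠ []) (hcomp : Compat σ S u)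
    (hcyc : ∀ j, FreeGroup.IsCyclicallyReduced (u j)) (hu0 : ∀ j, u j ≠ [])
    (h1 : Rig1 u) (h2 : Rig2 u) (hρr : FreeGroup.IsReduced ρ)
    (hρ : ρ ≠ [] → ∃ p q, Conn (fun a b => ∃ i, i ≠ 0 ∧ IsTurn ρ i a b) Set.univ p (linv q) ∧
      ρ.head? = some p ∧ ρ.getLast? = some q)
    (hY : ρ = [] → IsEmpty Y)
    (hmiss : ∀ v, ∃ t₀ : Option J × ℕ, ∀ j i, i < (u j).length → (j, i) ≠ t₀ →
      ∃ s ∈ S j, run σ s (((u j).take i).map (eX J Y)) = v)
    (htr : ∀ s ∈ S none, ∀ s' ∈ S none, ∃ e,
      run σ s (List.replicate e (formWord u ρ js)).flatten = s')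
    {v0 : V} (hv0 : v0 ∈ S none) (hout : ∃ s ∈ S none, ∃ L, run σ s L ∉ S none) :
    ¬ TProp (FreeGroup.mk (formWord u ρ js)) := by
  classical
  set ω := formWord u ρ js with hωdef
  have hured : ∀ j, FreeGroup.IsReduced (u j) := fun j => (hcyc j).1
  have hωcyc : FreeGroup.IsCyclicallyReduced ω := formWord_cyc hured hu0 hρr js hnd hne
  have htne : tailWord u ρ js ≠ [] := by
    cases js with
    | nil => simpa [tailWord] using hne
    | cons j' js => simp [tailWord]
  have hωne : ω ≠ [] := by
    rw [hωdef, formWord]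
    simp [htne]
  -- the last letter of `u none`
  obtain ⟨a₀, b₀, hab₀⟩ := exists_turn_zero (hu0 none)
  obtain ⟨hlt₀, M₀, hM₀, hM₀'⟩ := hab₀.rotate
  simp only [List.drop_zero, List.take_zero, List.append_nil] at hM₀
  obtain ⟨N₀, hN₀⟩ : ∃ N, u none = N ++ [linv a₀] := by
    rw [← hM₀] at hM₀'
    rcases List.eq_nil_or_concat' (u none) with h | ⟨N, x, hx⟩
    · exact absurd h (hu0 _)
    · rw [hx, List.getLast?_append] at hM₀'
      simp only [List.getLast?_singleton, Option.some_or, Option.some.injEq] at hM₀'
      exact ⟨N, by rw [hx, hM₀']⟩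
  have honto0 : Onto σ (S none) (S none) (N₀.map (eX J Y) ++ [eX J Y (linv a₀)]) := by
    have := hcomp.ontoU none
    rw [hN₀] at this
    simpa using this
  obtain ⟨t1, t2, t3⟩ := tail_facts (ω := ω) hcomp hu0 hρ hY js hnd (N₀.map (eX J Y))
    (eX J Y (linv a₀)) (by rw [hωdef, formWord, hN₀]; simp) honto0
  obtain ⟨p₀, l', hl', hchain0⟩ := t3 hne
  -- turn zero is unique
  have hturn0 : ∀ w : List (X × Bool), ∀ a b a' b', IsTurn w 0 a b → IsTurn w 0 a' b' →
      a = a' ∧ b = b' := by
    rintro w a b a' b' ⟨e1, e2⟩ ⟨e1', e2'⟩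
    rw [e1] at e1'
    rw [e2] at e2'
    exact ⟨linv_inj (Option.some.inj e2'), Option.some.inj e1'⟩
  -- local connectivity at every vertex
  have hlocal : ∀ (v : V) (ε : Al X J Y × Bool) (c : Al X J Y × Bool → Prop),
      (∀ a b, RAt σ (S none) ω v a b → a ≠ ε → b ≠ ε → (c a ↔ c b)) →
      ∀ a b, EOm S v a → EOm S v b → a ≠ ε → b ≠ ε → (c a ↔ c b) := by
    intro v ε c hc a b ha hb haε hbε
    obtain ⟨t₀, ht₀⟩ := hmiss v
    let Z : Option J → Set (Al X J Y × Bool) := fun j => match j with
      | none => {z | ∃ j ∈ js, z = eC X Y j true} ∪ Set.range (eY X J)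
      | some j => {eC X Y j false}
    let p : Option J → Al X J Y × Bool := fun j => match j with
      | none => p₀
      | some j => eC X Y j false
    let q : Option J → Al X J Y × Bool := fun j => match j with
      | none => linv l'
      | some j => eC X Y j false
    have hrel : ∀ x : Al X J Y × Bool, EOm S v x →
        (x ∈ Set.range (eX (X := X) J Y) ∨ ∃ j, v ∈ S j ∧ x ∈ Z j) := by
      rintro ⟨x | j | y, b⟩ hx
      · exact Or.inl ⟨(x, b), rfl⟩
      · right
        cases b with
        | true => exact ⟨none, hx, Or.inl ⟨j, hall j, rfl⟩⟩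
        | false => exact ⟨some j, hx, rfl⟩
      · right
        exact ⟨none, hx, Or.inr ⟨(y, b), rfl⟩⟩
    refine local_conn u hcyc hu0 h1 h2 (eX J Y) eX_injective (RAt σ (S none) ω v) t₀
      (fun j => v ∈ S j) Z p q ?_ ?_ ?_ ?_ ?_ ?_ ε c hc a b (hrel a ha) (hrel b hb) haε hbε
    · -- interior turns
      intro j i a b hab hi hji
      obtain ⟨hlt, -⟩ := hab.rotate
      obtain ⟨s, hs, hsv⟩ := ht₀ j i hlt hji
      cases j with
      | none =>
        refine RAt.interior (P := []) (w := (u none).map (eX J Y)) (Q := tailWord u ρ js)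
          (by rw [hωdef, formWord]; simp) (hab.map _ eX_linv) hi hs ?_
        rw [← hsv, List.map_take]; rfl
      | some j =>
        have := t2 j (hall j) i a b hab hi s hs
        rwa [hsv] at this
    · intro j hj
      obtain ⟨s, hs, hsv⟩ := ht₀ j 0 (List.length_pos_iff.2 (hu0 j)) hj
      rw [List.take_zero, List.map_nil, run_nil] at hsv
      rwa [← hsv]
    · intro j hj
      cases j with
      | none => exact (hchain0 v hj).1
      | some j => exact Conn.single _ _
    · intro j hj a b hab
      cases j with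
      | none =>
        obtain ⟨rfl, rfl⟩ := hturn0 _ _ _ _ _ hab hab₀
        refine ⟨?_, ?_⟩
        · have := (hchain0 v hj).2
          rwa [← eX_linv, linv_linv] at this
        · refine ⟨v, hj, 0, by simp, ?_⟩
          refine isTurn_wrap (Q := M₀.map (eX J Y) ++ tailWord u ρ js) ?_ hl'
          rw [hωdef, formWord, hM₀]; rfl
      | some j => exact t1 j (hall j) v hj a b hab
    · intro j z hz a
      cases j with
      | none =>
        rcases hz with ⟨j', -, rfl⟩ | ⟨y, rfl⟩
        · simp [eC, eX]
        · simp [eY, eX]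
      | some j =>
        rw [Set.mem_singleton_iff.1 hz]
        simp [eC, eX]
    · intro j j' hjj'
      rw [Set.disjoint_left]
      intro z hz hz'
      cases j with
      | none =>
        cases j' with
        | none => exact hjj' rfl
        | some j' =>
          rw [Set.mem_singleton_iff.1 hz'] at hz
          rcases hz with ⟨j'', -, h⟩ | ⟨y, h⟩
          · simp [eC] at h
          · simp [eC, eY] at h
      | some j =>
        rw [Set.mem_singleton_iff.1 hz] at hz'
        cases j' with
        | none =>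
          rcases hz' with ⟨j'', -, h⟩ | ⟨y, h⟩
          · simp [eC] at h
          · simp [eC, eY] at h
        | some j' =>
          have h := Set.mem_singleton_iff.1 hz'
          have : j = j' := by simpa [eC] using h
          exact hjj' (by rw [this])
  have hkeep : ∀ v ∈ S none, run σ v ω ∈ S none := fun v hv => (form_run hcomp js v hv).2
  refine not_TProp_of_cert σ (EOm S) (EOm_symm hcomp) v0 ω hωcyc hωne ?_ ?_ ?_ ?_ ?_
  · intro e
    exact (form_run hcomp js _ (run_pow_mem hkeep e v0 hv0)).1
  · intro v ε c hc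
    refine hlocal v ε c ?_
    rintro a b ⟨s, hs, i, hi, hab⟩ haε hbε
    obtain ⟨e, rfl⟩ := htr v0 hv0 s hs
    exact hc e i a b hi hab haε hbε
  · intro c hc a b ha hb
    -- choose a half edge different from `a` and `b`
    have hc' : ∀ a b, RAt σ (S none) ω v0 a b → (c a ↔ c b) := by
      rintro a b ⟨s, hs, i, hi, hab⟩
      obtain ⟨e, rfl⟩ := htr v0 hv0 s hs
      exact hc e i a b hi hab
    obtain ⟨ε, h3, h4⟩ : ∃ ε : Al X J Y × Bool, a ≠ ε ∧ b ≠ ε := by
      let e1 := eX J Y (a₀.1, true)
      let e2 := eX J Y (a₀.1, false)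
      have he12 : e1 ≠ e2 := by simp [e1, e2, eX]
      obtain ⟨e3, he31, he32⟩ : ∃ e3 : Al X J Y × Bool, e3 ≠ e1 ∧ e3 ≠ e2 := by
        have : ∃ z : J ⊕ Y, True := by
          rcases hne with h | h
          · obtain ⟨j, js', rfl⟩ := List.exists_cons_of_ne_nil h
            exact ⟨Sum.inl j, trivial⟩
          · obtain ⟨y, ys', rfl⟩ := List.exists_cons_of_ne_nil h
            exact ⟨Sum.inr y.1, trivial⟩
        obtain ⟨z, -⟩ := this
        exact ⟨(Sum.inr z, true), by simp [e1, eX], by simp [e2, eX]⟩
      by_cases h1 : a = e1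
      · by_cases h2 : b = e2
        · exact ⟨e3, by rw [h1]; exact he31.symm, by rw [h2]; exact he32.symm⟩
        · exact ⟨e2, by rw [h1]; exact he12, h2⟩
      · by_cases h2 : b = e1
        · by_cases h3 : a = e2
          · exact ⟨e3, by rw [h3]; exact he32.symm, by rw [h2]; exact he31.symm⟩
          · exact ⟨e2, h3, by rw [h2]; exact he12⟩
        · exact ⟨e1, h1, h2⟩
    exact hlocal v0 ε c (fun a b hab _ _ => hc' a b hab) a b ha hb h3 h4
  · -- a loop which is not a power
    let w : List (Al X J Y × Bool) := List.replicate (orderOf (σ (Sum.inl a₀.1)))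
      (eX J Y (a₀.1, true))
    have hpos : 0 < orderOf (σ (Sum.inl a₀.1)) := orderOf_pos _
    have hwX : w = (List.replicate (orderOf (σ (Sum.inl a₀.1))) (a₀.1, true)).map (eX J Y) := by
      simp [w]
    have hrun : ∀ (n : ℕ) (v : V), run σ v (List.replicate n (eX J Y (a₀.1, true))) =
        (σ (Sum.inl a₀.1) ^ n) v := by
      intro n
      induction n with
      | zero => intro v; rfl
      | succ n ih =>
        intro v
        rw [List.replicate_succ, run_cons, ih, pow_succ, Perm.mul_apply]
        rfl
    refine ⟨FreeGroup.mk w, ?_, ?_⟩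
    · refine mem_loopGroup_of_word _ ?_ ?_
      · rw [hwX]; exact Rd_mapX _ _
      · rw [hrun, pow_orderOf_eq_one]; rfl
    · intro hmem
      -- `w` only involves letters of `X`
      have hwred : FreeGroup.IsReduced w := List.isChain_replicate_of_rel _ (fun _ => rfl)
      have hw1 : (FreeGroup.mk w).toWord = w := toWord_mk_of_isReduced hwred
      have key : ∀ n : ℕ, ∀ g : FreeGroup (Al X J Y), (g = FreeGroup.mk ω ^ n) →
          (g = FreeGroup.mk w ∨ g = (FreeGroup.mk w)⁻¹) → False := by
        intro n g hg hgw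
        have hletters : ∀ x ∈ g.toWord, ∃ y, x = eX J Y y := by
          intro x hx
          rcases hgw with h | h
          · rw [h, hw1, hwX, List.mem_map] at hx
            obtain ⟨y, -, rfl⟩ := hx
            exact ⟨y, rfl⟩
          · rw [h, FreeGroup.toWord_inv, hw1, hwX] at hx
            simp only [FreeGroup.invRev, List.mem_reverse, List.mem_map] at hx
            obtain ⟨z, ⟨y, -, rfl⟩, rfl⟩ := hx
            exact ⟨linv y, rfl⟩
        have hn : n ≠ 0 := by
          rintro rfl
          rw [pow_zero] at hg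
          have hw0 : FreeGroup.mk w = 1 := by
            rcases hgw with h | h
            · rw [← h, hg]
            · rw [← inv_inv (FreeGroup.mk w), ← h, hg, inv_one]
          rw [← FreeGroup.toWord_eq_nil_iff, hw1] at hw0
          have := congrArg List.length hw0
          simp only [w, List.length_replicate, List.length_nil] at this
          omega
        have hgword : g.toWord = (List.replicate n ω).flatten := by
          rw [hg, ← mk_replicate_flatten]
          exact toWord_mk_of_isReduced (hωcyc.flatten_replicate n).1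
        obtain ⟨l, hl⟩ : ∃ l, (tailWord u ρ js).getLast? = some l := by
          cases hx : (tailWord u ρ js).getLast? with
          | none => rw [List.getLast?_eq_none_iff] at hx; exact absurd hx htne
          | some y => exact ⟨y, rfl⟩
        have hlω : l ∈ g.toWord := by
          rw [hgword, List.mem_flatten]
          refine ⟨ω, List.mem_replicate.2 ⟨hn, rfl⟩, ?_⟩
          rw [hωdef, formWord]
          exact List.mem_append_right _ (List.mem_of_getLast? hl)
        obtain ⟨y, hy⟩ := hletters l hlω
        obtain ⟨z, hz⟩ := tail_last js hne l hl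
        rw [hy] at hz
        simp [eX] at hz
      obtain ⟨n, hn⟩ := Subgroup.mem_zpowers_iff.1 hmem
      rcases Int.eq_nat_or_neg n with ⟨m, rfl | rfl⟩
      · exact key m (FreeGroup.mk w) (by rw [← hn, zpow_natCast]) (Or.inl rfl)
      · refine key m (FreeGroup.mk w)⁻¹ ?_ (Or.inr rfl)
        rw [← hn, zpow_neg, zpow_natCast, inv_inv]
  · obtain ⟨s, hs, L, hL⟩ := hout
    obtain ⟨e₀, rfl⟩ := htr v0 hv0 s hs
    refine ⟨(List.replicate e₀ ω).flatten ++ L, ?_⟩
    intro e he
    apply hL
    rw [← run_append, ← he]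
    exact run_pow_mem hkeep e v0 hv0

end cert

end H35.Tape
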