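import Mathlib

/-!
# Products of conjugates with at most two cycles

If two permutations of a finite set have at most two fixed points in total, then the second one
can be conjugated so that the product has at most two cycles.
-/

namespace H35.Tape

open Equiv Equiv.Perm

variable {S : Type*}

/-- The number of cycles (orbits, fixed points included) of a permutation. -/
noncomputable def nc (f : Perm S) : ℕ := Nat.card (Quotient (SameCycle.setoid f))

/-- Merge the classes of `x` and `y` in a setoid. -/
def mergeSetoid (r : Setoid S) (x y : S) : Setoid S where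
  r u v := r u v ∨ ((r u x ∨ r u y) ∧ (r v x ∨ r v y))
  iseqv := by
    constructor
    · intro u
      exact Or.inl (r.refl u)
    · intro u v h
      rcases h with h | h
      · exact Or.inl (r.symm h)
      · exact Or.inr ⟨h.2, h.1⟩
    · intro u v w h1 h2
      rcases h1 with h1 | ⟨h1, h1'⟩
      · rcases h2 with h2 | ⟨h2, h2'⟩
        · exact Or.inl (r.trans h1 h2)
        · refine Or.inr ⟨?_, h2'⟩
          rcases h2 with h2 | h2
          · exact Or.inl (r.trans h1 h2)
          · exact Or.inr (r.trans h1 h2)
      · rcases h2 with h2 | ⟨h2, h2'⟩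
        · refine Or.inr ⟨h1, ?_⟩
          rcases h1' with h1' | h1'
          · exact Or.inl (r.trans (r.symm h2) h1')
          · exact Or.inr (r.trans (r.symm h2) h1')
        · exact Or.inr ⟨h1, h2'⟩

theorem appInv (f : Perm S) (x : S) : f (f⁻¹ x) = x := by simp

theorem invApp (f : Perm S) (x : S) : f⁻¹ (f x) = x := by simp

theorem mergeSetoid_rel (r : Setoid S) (x y u v : S) :
    (mergeSetoid r x y) u v ↔ (r u v ∨ ((r u x ∨ r u y) ∧ (r v x ∨ r v y))) := Iff.rfl

theorem card_le_card_of_le [Finite S] {r s : Setoid S} (h : ∀ u v, r u v → s u v) :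
    Nat.card (Quotient s) ≤ Nat.card (Quotient r) := by
  classical
  have : Finite (Quotient r) := Quotient.finite r
  refine Nat.card_le_card_of_surjective
    (fun q : Quotient r => Quotient.map' (s₂ := s) id (fun a b hab => h a b hab) q) ?_
  intro q
  induction q using Quotient.inductionOn with
  | _ a => exact ⟨Quotient.mk _ a, rfl⟩

theorem card_lt_card_of_le [Finite S] {r s : Setoid S} (h : ∀ u v, r u v → s u v)
    {x y : S} (hs : s x y) (hr : ¬ r x y) :
    Nat.card (Quotient s) < Nat.card (Quotient r) := by
  classical
  have : Finite (Quotient r) := Quotient.finite r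
  have : Finite (Quotient s) := Quotient.finite s
  have hle := card_le_card_of_le h
  rcases lt_or_eq_of_le hle with hlt | heq
  · exact hlt
  · exfalso
    let φ : Quotient r → Quotient s :=
      fun q => Quotient.map' (s₂ := s) id (fun a b hab => h a b hab) q
    have hsurj : Function.Surjective φ := by
      intro q
      induction q using Quotient.inductionOn with
      | _ a => exact ⟨Quotient.mk _ a, rfl⟩
    have hinj : Function.Injective φ := by
      have hc : Nat.card (Quotient r) ≤ Nat.card (Quotient s) := heq.ge
      exact ((Nat.bijective_iff_surjective_and_card φ).2 ⟨hsurj, heq.symm⟩).1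
    have h1 : φ (Quotient.mk r x) = φ (Quotient.mk r y) := Quotient.sound hs
    exact hr (Quotient.exact (hinj h1))

theorem card_le_mergeSetoid [Finite S] (r : Setoid S) (x y : S) :
    Nat.card (Quotient r) ≤ Nat.card (Quotient (mergeSetoid r x y)) + 1 := by
  classical
  have : Finite (Quotient r) := Quotient.finite r
  have : Finite (Quotient (mergeSetoid r x y)) := Quotient.finite _
  have hrel : ∀ u v, r u v → (mergeSetoid r x y) u v := fun u v huv => Or.inl huv
  let φ : Quotient r → Quotient (mergeSetoid r x y) :=
    fun q => Quotient.map' (s₂ := mergeSetoid r x y) id (fun a b hab => hrel a b hab) q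
  -- injective away from the class of y
  let ψ : Quotient r → Option (Quotient (mergeSetoid r x y)) :=
    fun q => if q = Quotient.mk r y then none else some (φ q)
  have hψ : Function.Injective ψ := by
    intro p q hpq
    by_cases hp : p = Quotient.mk r y
    · by_cases hq : q = Quotient.mk r y
      · rw [hp, hq]
      · simp [ψ, hp, hq] at hpq
    · by_cases hq : q = Quotient.mk r y
      · simp [ψ, hp, hq] at hpq
      · have h1 : φ p = φ q := by simpa [ψ, hp, hq] using hpq
        induction p using Quotient.inductionOn with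
        | _ a =>
        induction q using Quotient.inductionOn with
        | _ b =>
          have h2 : (mergeSetoid r x y) a b := Quotient.exact h1
          have ha : ¬ r a y := fun h => hp (Quotient.sound h)
          have hb : ¬ r b y := fun h => hq (Quotient.sound h)
          rcases h2 with h2 | ⟨h2, h3⟩
          · exact Quotient.sound h2
          · have h2' : r a x := h2.resolve_right ha
            have h3' : r b x := h3.resolve_right hb
            exact Quotient.sound (r.trans h2' (r.symm h3'))
  have := Nat.card_le_card_of_injective ψ hψ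
  rwa [Finite.card_option] at this

theorem sameCycle_of_invariant [Finite S] {f : Perm S} {D : Set S} (hD : ∀ u ∈ D, f u ∈ D)
    {a u : S} (ha : a ∈ D) (h : SameCycle f a u) : u ∈ D := by
  obtain ⟨i, hi⟩ := h.exists_nat_pow_eq
  rw [← hi]
  clear hi h
  induction i with
  | zero => simpa using ha
  | succ n ih => rw [pow_succ', Perm.mul_apply]; exact hD _ ih

/-- An equivalence relation compatible with `f` contains `SameCycle f`. -/
theorem rel_of_sameCycle [Finite S] {f : Perm S} {r : Setoid S} (h : ∀ u, r u (f u))
    {a u : S} (hs : SameCycle f a u) : r a u := by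
  refine sameCycle_of_invariant (D := {v | r a v}) ?_ (r.refl a) hs
  intro v hv
  exact r.trans hv (h v)

section swap

variable [DecidableEq S]

omit [DecidableEq S] in
theorem pow_succ_apply' (g : Perm S) (k : ℕ) (z : S) : (g ^ (k + 1)) z = g ((g ^ k) z) := by
  rw [pow_succ', Perm.mul_apply]

theorem sameCycle_swap_mul_self [Finite S] {f : Perm S} {x y : S} (h : ¬ SameCycle f x y) :
    SameCycle (swap x y * f) x y := by
  classical
  -- least n ≥ 1 with f^n x = x
  have hex : ∃ n : ℕ, 0 < n ∧ (f ^ n) x = x := by
    have : Fintype S := Fintype.ofFinite S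
    exact ⟨orderOf f, orderOf_pos f, by rw [pow_orderOf_eq_one]; rfl⟩
  let n := Nat.find hex
  obtain ⟨hn0, hn⟩ := Nat.find_spec hex
  have hmin : ∀ k, k < n → ¬ (0 < k ∧ (f ^ k) x = x) := fun k hk => Nat.find_min hex hk
  have key : ∀ k, k < n → ((swap x y * f) ^ k) x = (f ^ k) x := by
    intro k
    induction k with
    | zero => intro _; rfl
    | succ k ih =>
      intro hk
      rw [pow_succ_apply', ih (by omega), Perm.mul_apply, ← pow_succ_apply' f]
      apply swap_apply_of_ne_of_ne
      · intro hx
        exact hmin (k+1) hk ⟨by omega, hx⟩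
      · intro hy
        exact h ⟨(k+1 : ℕ), by exact_mod_cast hy⟩
  have hlast : ((swap x y * f) ^ n) x = y := by
    obtain ⟨m, hm⟩ : ∃ m, n = m + 1 := ⟨n - 1, by omega⟩
    rw [hm, pow_succ_apply', key m (by omega), Perm.mul_apply, ← pow_succ_apply' f, ← hm]
    have : (f ^ n) x = x := hn
    rw [this, swap_apply_left]
  exact ⟨(n : ℕ), by exact_mod_cast hlast⟩

theorem sameCycle_swap_mul_iff [Finite S] {f : Perm S} {x y : S} (h : ¬ SameCycle f x y)
    (u v : S) : SameCycle (swap x y * f) u v ↔
      (mergeSetoid (SameCycle.setoid f) x y) u v := by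
  have hxy := sameCycle_swap_mul_self h
  constructor
  · intro huv
    refine rel_of_sameCycle (r := mergeSetoid (SameCycle.setoid f) x y) ?_ huv
    intro w
    rw [Perm.mul_apply]
    by_cases h1 : f w = x
    · rw [h1, swap_apply_left]
      refine Or.inr ⟨Or.inl ?_, Or.inr (SameCycle.refl _ _)⟩
      change SameCycle f w x
      rw [← h1]
      exact (sameCycle_apply_right).2 (SameCycle.refl _ _)
    · by_cases h2 : f w = y
      · rw [h2, swap_apply_right]
        refine Or.inr ⟨Or.inr ?_, Or.inl (SameCycle.refl _ _)⟩
        change SameCycle f w y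
        rw [← h2]
        exact (sameCycle_apply_right).2 (SameCycle.refl _ _)
      · rw [swap_apply_of_ne_of_ne h1 h2]
        refine Or.inl ?_
        change SameCycle f w (f w)
        exact (sameCycle_apply_right).2 (SameCycle.refl _ _)
  · have hbase : ∀ a b, SameCycle f a b → SameCycle (swap x y * f) a b := by
      intro a b hab
      refine rel_of_sameCycle (r := SameCycle.setoid (swap x y * f)) ?_ hab
      intro w
      change SameCycle (swap x y * f) w (f w)
      have hw : SameCycle (swap x y * f) w ((swap x y * f) w) :=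
        (sameCycle_apply_right).2 (SameCycle.refl _ _)
      rw [Perm.mul_apply] at hw
      by_cases h1 : f w = x
      · rw [h1] at hw ⊢
        rw [swap_apply_left] at hw
        exact hw.trans hxy.symm
      · by_cases h2 : f w = y
        · rw [h2] at hw ⊢
          rw [swap_apply_right] at hw
          exact hw.trans hxy
        · rwa [swap_apply_of_ne_of_ne h1 h2] at hw
    rintro (huv | ⟨hu, hv⟩)
    · exact hbase _ _ huv
    · have hu' : SameCycle (swap x y * f) u x := by
        rcases hu with hu | hu
        · exact hbase _ _ hu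
        · exact (hbase _ _ hu).trans hxy.symm
      have hv' : SameCycle (swap x y * f) v x := by
        rcases hv with hv | hv
        · exact hbase _ _ hv
        · exact (hbase _ _ hv).trans hxy.symm
      exact hu'.trans hv'.symm

theorem nc_swap_mul_lt [Finite S] {f : Perm S} {x y : S} (h : ¬ SameCycle f x y) :
    nc (swap x y * f) < nc f := by
  unfold nc
  refine card_lt_card_of_le (x := x) (y := y) ?_ (sameCycle_swap_mul_self h) h
  intro u v huv
  exact (sameCycle_swap_mul_iff h u v).2 (Or.inl huv)

theorem mergeSetoid_swap [Finite S] (f : Perm S) (x y u v : S)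
    (h : (mergeSetoid (SameCycle.setoid (swap x y * f)) x y) u v) :
    (mergeSetoid (SameCycle.setoid f) x y) u v := by
  have hbase : ∀ a b, SameCycle (swap x y * f) a b → (mergeSetoid (SameCycle.setoid f) x y) a b := by
    intro a b hab
    refine rel_of_sameCycle (r := mergeSetoid (SameCycle.setoid f) x y) ?_ hab
    intro w
    rw [Perm.mul_apply]
    by_cases h1 : f w = x
    · rw [h1, swap_apply_left]
      refine Or.inr ⟨Or.inl ?_, Or.inr (SameCycle.refl _ _)⟩
      change SameCycle f w x
      rw [← h1]
      exact (sameCycle_apply_right).2 (SameCycle.refl _ _)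
    · by_cases h2 : f w = y
      · rw [h2, swap_apply_right]
        refine Or.inr ⟨Or.inr ?_, Or.inl (SameCycle.refl _ _)⟩
        change SameCycle f w y
        rw [← h2]
        exact (sameCycle_apply_right).2 (SameCycle.refl _ _)
      · rw [swap_apply_of_ne_of_ne h1 h2]
        refine Or.inl ?_
        change SameCycle f w (f w)
        exact (sameCycle_apply_right).2 (SameCycle.refl _ _)
  have hxy : (mergeSetoid (SameCycle.setoid f) x y) x y :=
    Or.inr ⟨Or.inl (SameCycle.refl _ _), Or.inr (SameCycle.refl _ _)⟩
  rcases h with h | ⟨hu, hv⟩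
  · exact hbase _ _ h
  · have hu' : (mergeSetoid (SameCycle.setoid f) x y) u x := by
      rcases hu with hu | hu
      · exact hbase _ _ hu
      · exact (mergeSetoid (SameCycle.setoid f) x y).trans (hbase _ _ hu)
          ((mergeSetoid (SameCycle.setoid f) x y).symm hxy)
    have hv' : (mergeSetoid (SameCycle.setoid f) x y) v x := by
      rcases hv with hv | hv
      · exact hbase _ _ hv
      · exact (mergeSetoid (SameCycle.setoid f) x y).trans (hbase _ _ hv)
          ((mergeSetoid (SameCycle.setoid f) x y).symm hxy)
    exact (mergeSetoid (SameCycle.setoid f) x y).trans hu'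
      ((mergeSetoid (SameCycle.setoid f) x y).symm hv')

theorem nc_swap_mul_le [Finite S] (f : Perm S) (x y : S) :
    nc (swap x y * f) ≤ nc f + 1 := by
  unfold nc
  calc Nat.card (Quotient (SameCycle.setoid (swap x y * f)))
      ≤ Nat.card (Quotient (mergeSetoid (SameCycle.setoid (swap x y * f)) x y)) + 1 :=
        card_le_mergeSetoid _ _ _
    _ ≤ Nat.card (Quotient (SameCycle.setoid f)) + 1 := by
        refine Nat.add_le_add_right ?_ 1
        refine card_le_card_of_le ?_
        intro u v huv
        -- SameCycle f u v → merge (swap * f)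
        have := mergeSetoid_swap (swap x y * f) x y u v
        have hcancel : swap x y * (swap x y * f) = f := by
          rw [← mul_assoc, swap_mul_self, one_mul]
        rw [hcancel] at this
        exact this (Or.inl huv)

omit [DecidableEq S] in
theorem exists_third [Finite S] {f : Perm S} (h : 3 ≤ nc f) (x y : S) :
    ∃ z, ¬ SameCycle f x z ∧ ¬ SameCycle f y z := by
  by_contra hcon
  push Not at hcon
  have : Finite (Quotient (SameCycle.setoid f)) := Quotient.finite _
  have hsurj : Function.Surjective
      (fun b : Bool => (Quotient.mk (SameCycle.setoid f) (if b then x else y))) := by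
    intro q
    induction q using Quotient.inductionOn with
    | _ z =>
      by_cases hx : SameCycle f x z
      · exact ⟨true, Quotient.sound hx⟩
      · exact ⟨false, Quotient.sound (hcon z hx)⟩
  have := Nat.card_le_card_of_surjective _ hsurj
  simp only [Nat.card_eq_fintype_card, Fintype.card_bool] at this
  unfold nc at h
  omega

/-- In a minimal configuration with at least three cycles, `p₂` preserves every cycle. -/
theorem sameCycle_apply_of_min [Finite S] {p w : Perm S} (h3 : 3 ≤ nc w)
    (hmin : ∀ a b, nc w ≤ nc (swap a b * (swap (p a) (p b) * w))) (a : S) :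
    SameCycle w a (p a) := by
  classical
  -- the basic alternative
  have hstar : ∀ a b, SameCycle w (p a) (p b) ∨ SameCycle w a b ∨
      ((SameCycle w a (p a) ∨ SameCycle w a (p b)) ∧
        (SameCycle w b (p a) ∨ SameCycle w b (p b))) := by
    intro a b
    by_contra hcon
    push Not at hcon
    obtain ⟨h1, h2, h4⟩ := hcon
    have h5 : ¬ SameCycle (swap (p a) (p b) * w) a b := by
      rw [sameCycle_swap_mul_iff h1, mergeSetoid_rel]
      rintro (h6 | ⟨h6, h7⟩)
      · exact h2 h6
      · have := h4 h6
        rcases h7 with h7 | h7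
        · exact this.1 h7
        · exact this.2 h7
    have h6 := nc_swap_mul_lt h5
    have h7 := nc_swap_mul_lt h1
    have h8 := hmin a b
    omega
  by_contra hcon
  obtain ⟨d, hd1, hd2⟩ := exists_third h3 a (p a)
  -- `d` is in a third class
  have tr : ∀ {x y z : S}, SameCycle w x y → SameCycle w y z → SameCycle w x z :=
    fun h h' => h.trans h'
  have sy : ∀ {x y : S}, SameCycle w x y → SameCycle w y x := fun h => h.symm
  have hd : SameCycle w (p a) (p d) := by
    rcases hstar a d with h | h | ⟨h, h'⟩
    · exact h
    · exact absurd h hd1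
    · rcases h with h | h
      · exact absurd h hcon
      · rcases h' with h' | h'
        · exact absurd (sy h') hd2
        · exact absurd (tr h (sy h')) hd1
  have hall : ∀ b, SameCycle w (p a) (p b) := by
    intro b
    by_cases hba : SameCycle w a b
    · -- compare with d
      rcases hstar d b with h | h | ⟨h, h'⟩
      · exact tr hd h
      · exact absurd (tr hba (sy h)) hd1
      · rcases h with h | h
        · exact absurd (sy (tr h (sy hd))) hd2
        · rcases h' with h' | h'
          · exact absurd (tr hba (tr h' (sy hd))) hcon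
          · exact absurd (tr hba (tr h' (sy h))) hd1
    · rcases hstar a b with h | h | ⟨h, h'⟩
      · exact h
      · exact absurd h hba
      · rcases h with h | h
        · exact absurd h hcon
        · -- a ~ p b; then compare b with d
          rcases hstar d b with k | k | ⟨k, k'⟩
          · exact tr hd k
          · -- d ~ b
            rcases h' with h' | h'
            · exact absurd (sy (tr k h')) hd2
            · exact absurd (tr h (sy (tr k h'))) hd1
          · rcases k with k | k
            · exact absurd (sy (tr k (sy hd))) hd2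
            · exact absurd (tr h (sy k)) hd1
  have := hall (p.symm a)
  rw [Equiv.apply_symm_apply] at this
  exact hcon (sy this)

theorem conj_swap_mul (p q : Perm S) (a b : S) :
    (swap a b * q * (swap a b)⁻¹) * p = swap a b * (swap (q a) (q b) * (q * p)) := by
  rw [swap_inv, mul_assoc (swap a b) q, Equiv.mul_swap_eq_swap_mul]
  simp only [mul_assoc]

/-- A minimal configuration has at most two cycles. -/
theorem nc_le_two_of_min [Fintype S] (p q : Perm S)
    (hfix : (Finset.univ.filter (fun x => p x = x)).card +
      (Finset.univ.filter (fun x => q x = x)).card ≤ 2)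
    (hmin : ∀ τ : Perm S, nc (q * p) ≤ nc ((τ * q * τ⁻¹) * p)) : nc (q * p) ≤ 2 := by
  classical
  by_contra hcon
  have h3 : 3 ≤ nc (q * p) := by omega
  -- every minimal conjugate preserves cycles
  have hpres : ∀ τ : Perm S, nc ((τ * q * τ⁻¹) * p) ≤ nc (q * p) →
      ∀ x, SameCycle ((τ * q * τ⁻¹) * p) x (p x) := by
    intro τ hτ x
    set q' := τ * q * τ⁻¹ with hq'
    have h1 : 3 ≤ nc (q' * p) := h3.trans (hmin τ)
    have h2 : ∀ a, SameCycle (q' * p) a (q' a) := by
      refine sameCycle_apply_of_min h1 ?_
      intro a b
      rw [← conj_swap_mul]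
      refine hτ.trans ?_
      have := hmin (swap a b * τ)
      simpa only [hq', mul_assoc, mul_inv_rev] using this
    have h4 := h2 (p x)
    have h5 : SameCycle (q' * p) x ((q' * p) x) := (sameCycle_apply_right).2 (SameCycle.refl _ _)
    rw [Perm.mul_apply] at h5
    exact h5.trans h4.symm
  have hp : ∀ x, SameCycle (q * p) x (p x) := by
    have := hpres 1 (by simp)
    simpa using this
  have hq : ∀ x, SameCycle (q * p) x (q x) := by
    intro x
    have h5 : SameCycle (q * p) (p⁻¹ x) ((q * p) (p⁻¹ x)) :=
      (sameCycle_apply_right).2 (SameCycle.refl _ _)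
    rw [Perm.mul_apply, appInv] at h5
    have h6 := hp (p⁻¹ x)
    rw [appInv] at h6
    exact h6.symm.trans h5
  set w := q * p with hw
  -- a cycle without fixed points
  obtain ⟨x0, hx0⟩ : ∃ x0, ∀ x, SameCycle w x0 x → p x ≠ x ∧ q x ≠ x := by
    by_contra hno
    push Not at hno
    choose g hg1 hg2 using hno
    let F : Finset S := Finset.univ.filter (fun x => p x = x) ∪ Finset.univ.filter (fun x => q x = x)
    have hF : F.card ≤ 2 := (Finset.card_union_le _ _).trans hfix
    have hgF : ∀ x, g x ∈ F := by
      intro x
      by_cases hpx : p (g x) = g x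
      · exact Finset.mem_union_left _ (by simp [hpx])
      · exact Finset.mem_union_right _ (by simp [hg2 x hpx])
    let ψ : Quotient (SameCycle.setoid w) → F := fun r => ⟨g r.out, hgF _⟩
    have hψ : Function.Injective ψ := by
      intro r s hrs
      have h1 : g r.out = g s.out := congrArg Subtype.val hrs
      have h2 : SameCycle w r.out s.out := by
        have ha := hg1 r.out
        have hb := hg1 s.out
        rw [h1] at ha
        exact ha.trans hb.symm
      rw [← Quotient.out_eq r, ← Quotient.out_eq s]
      exact Quotient.sound h2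
    have := Nat.card_le_card_of_injective ψ hψ
    rw [Nat.card_eq_fintype_card (α := F), Fintype.card_coe] at this
    have h4 : nc w ≤ 2 := this.trans hF
    omega
  obtain ⟨b, hb, -⟩ := exists_third h3 x0 x0
  -- minimal distance
  have hex : ∃ t : ℕ, ∃ a, SameCycle w x0 a ∧ (w ^ t) a = p⁻¹ a := by
    have h1 : SameCycle w x0 (p⁻¹ x0) := by
      have := hp (p⁻¹ x0)
      rw [appInv] at this
      exact this.symm
    obtain ⟨t, ht⟩ := h1.exists_nat_pow_eq
    exact ⟨t, x0, SameCycle.refl _ _, ht⟩
  obtain ⟨a, ha, hta⟩ := Nat.find_spec hex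
  set t := Nat.find hex with ht
  have htmin : ∀ j, j < t → ∀ x, SameCycle w x0 x → (w ^ j) x ≠ p⁻¹ x := by
    intro j hj x hx hjx
    exact Nat.find_min hex hj ⟨x, hx, hjx⟩
  have ht1 : 1 ≤ t := by
    by_contra h0
    have h0' : t = 0 := by omega
    rw [h0', pow_zero, Perm.one_apply] at hta
    have : p a = a := by
      conv_lhs => rw [hta]
      exact appInv _ _
    exact (hx0 a ha).1 this
  have hexb : ∃ t : ℕ, (w ^ t) b = p⁻¹ b := by
    have h1 : SameCycle w b (p⁻¹ b) := by
      have := hp (p⁻¹ b)
      rw [appInv] at this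
      exact this.symm
    exact h1.exists_nat_pow_eq
  have htb := Nat.find_spec hexb
  set t' := Nat.find hexb with ht'
  have htbmin : ∀ j, j < t' → (w ^ j) b ≠ p⁻¹ b := fun j hj => Nat.find_min hexb hj
  -- classes
  have hab : ¬ SameCycle w a b := fun h => hb (ha.trans h)
  have hclsA : ∀ i : ℕ, SameCycle w a ((w ^ i) a) := fun i => ⟨i, by simp⟩
  have hclsB : ∀ i : ℕ, SameCycle w b ((w ^ i) b) := fun i => ⟨i, by simp⟩
  have ha2 : q a = (w ^ (t + 1)) a := by
    rw [pow_succ_apply', hta, hw, Perm.mul_apply, appInv]
  have hb2 : q b = (w ^ (t' + 1)) b := by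
    rw [pow_succ_apply', htb, hw, Perm.mul_apply, appInv]
  set w' := swap a b * (swap (q a) (q b) * w) with hw'
  have hw'app : ∀ u, w' u = swap a b (swap (q a) (q b) (w u)) := fun u => by
    rw [hw', Perm.mul_apply, Perm.mul_apply]
  have hw'conj : w' = (swap a b * q * (swap a b)⁻¹) * p := (conj_swap_mul p q a b).symm
  -- ne facts
  have hneA : ∀ u v, SameCycle w a u → SameCycle w b v → u ≠ v := by
    intro u v hu hv huv
    rw [huv] at hu
    exact hab (hu.trans hv.symm)
  let D : Set S := {u | ∃ i, i ≤ t ∧ u = (w ^ i) a} ∪
    {u | SameCycle w b u ∧ ∀ i, i ≤ t' → u ≠ (w ^ i) b}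
  have hperA : ∀ k, 1 ≤ k → k ≤ t → (w ^ k) a ≠ a := by
    intro k hk hkt hka
    have h1 : (w ^ (t - k)) a = p⁻¹ a := by
      rw [← hta]
      conv_rhs => rw [show t = (t - k) + k by omega, pow_add, Perm.mul_apply, hka]
    exact htmin (t - k) (by omega) a ha h1
  have hDinv : ∀ u ∈ D, w' u ∈ D := by
    intro u hu
    rcases hu with ⟨i, hi, rfl⟩ | ⟨hu1, hu2⟩
    · rw [hw'app, ← pow_succ_apply']
      rcases Nat.lt_or_ge i t with hlt | hge
      · have h1 : (w ^ (i + 1)) a ≠ q a := by
          rw [ha2]
          intro h
          rw [pow_succ_apply', pow_succ_apply'] at h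
          have h2 := w.injective h
          rw [hta] at h2
          exact htmin i hlt a ha h2
        have h2 : (w ^ (i + 1)) a ≠ q b := hneA _ _ (hclsA _) (by rw [hb2]; exact hclsB _)
        have h3 : (w ^ (i + 1)) a ≠ a := hperA _ (by omega) (by omega)
        have h4 : (w ^ (i + 1)) a ≠ b := hneA _ _ (hclsA _) (SameCycle.refl _ _)
        rw [swap_apply_of_ne_of_ne h1 h2, swap_apply_of_ne_of_ne h3 h4]
        exact Or.inl ⟨i + 1, by omega, rfl⟩
      · have hit : i = t := by omega
        rw [hit, ← ha2, swap_apply_left]
        by_cases hqb : q b = b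
        · rw [hqb, swap_apply_right]
          exact Or.inl ⟨0, by omega, rfl⟩
        · have h1 : q b ≠ a := by
            refine (hneA a (q b) (SameCycle.refl _ _) ?_).symm
            rw [hb2]; exact hclsB _
          rw [swap_apply_of_ne_of_ne h1 hqb]
          refine Or.inr ⟨by rw [hb2]; exact hclsB _, ?_⟩
          intro j hj hqj
          rcases Nat.eq_zero_or_pos j with h0 | hpos
          · rw [h0] at hqj
            exact hqb hqj
          · obtain ⟨j', rfl⟩ : ∃ j', j = j' + 1 := ⟨j - 1, by omega⟩
            rw [hb2, pow_succ_apply', pow_succ_apply'] at hqj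
            have h2 := w.injective hqj
            rw [htb] at h2
            exact htbmin j' (by omega) h2.symm
    · rw [hw'app]
      have hwu : SameCycle w b (w u) := (sameCycle_apply_right).2 hu1
      have h1 : w u ≠ q a := by
        refine (hneA (q a) (w u) ?_ hwu).symm
        rw [ha2]; exact hclsA _
      have h2 : w u ≠ q b := by
        rw [hb2, pow_succ_apply']
        intro h
        exact hu2 t' le_rfl (w.injective h)
      rw [swap_apply_of_ne_of_ne h1 h2]
      by_cases hwb : w u = b
      · rw [hwb, swap_apply_right]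
        exact Or.inl ⟨0, by omega, rfl⟩
      · have h4 : w u ≠ a := (hneA a (w u) (SameCycle.refl _ _) hwu).symm
        rw [swap_apply_of_ne_of_ne h4 hwb]
        refine Or.inr ⟨hwu, ?_⟩
        intro j hj hwj
        rcases Nat.eq_zero_or_pos j with h0 | hpos
        · rw [h0] at hwj
          exact hwb hwj
        · obtain ⟨j', rfl⟩ : ∃ j', j = j' + 1 := ⟨j - 1, by omega⟩
          rw [pow_succ_apply'] at hwj
          exact hu2 j' (by omega) (w.injective hwj)
  -- minimality of w'
  have hqab : ¬ SameCycle w (q a) (q b) := by
    intro h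
    rw [ha2, hb2] at h
    exact hab (((hclsA _).trans h).trans (hclsB _).symm)
  have hle : nc ((swap a b * q * (swap a b)⁻¹) * p) ≤ nc w := by
    rw [← hw'conj, hw']
    have h1 := nc_swap_mul_lt hqab
    have h2 := nc_swap_mul_le (swap (q a) (q b) * w) a b
    omega
  have hpw' : ∀ x, SameCycle w' x (p x) := by
    have := hpres (swap a b) hle
    rwa [← hw'conj] at this
  -- w' a = w a
  have haD : a ∈ D := Or.inl ⟨0, by omega, rfl⟩
  have hw'a : w' a = w a := by
    rw [hw'app]
    have h1 : w a ≠ q a := by
      rw [ha2, pow_succ_apply']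
      intro h
      have h2 := w.injective h
      exact hperA t ht1 le_rfl h2.symm
    have h2 : w a ≠ q b := hneA _ _ (by simpa using hclsA 1) (by rw [hb2]; exact hclsB _)
    have h3 : w a ≠ a := by simpa using hperA 1 le_rfl ht1
    have h4 : w a ≠ b := hneA _ _ (by simpa using hclsA 1) (SameCycle.refl _ _)
    rw [swap_apply_of_ne_of_ne h1 h2, swap_apply_of_ne_of_ne h3 h4]
  have hSC : SameCycle w' a (p⁻¹ (w a)) := by
    have h1 : SameCycle w' a (w a) := by
      rw [← hw'a]
      exact (sameCycle_apply_right).2 (SameCycle.refl _ _)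
    have h2 := hpw' (p⁻¹ (w a))
    rw [appInv] at h2
    exact h1.trans h2.symm
  have hmem := sameCycle_of_invariant hDinv haD hSC
  have hwa : SameCycle w x0 (w a) := (sameCycle_apply_right).2 ha
  have hcls : SameCycle w x0 (p⁻¹ (w a)) := by
    have h2 := hp (p⁻¹ (w a))
    rw [appInv] at h2
    exact hwa.trans h2.symm
  rcases hmem with ⟨i, hi, hieq⟩ | ⟨hu1, -⟩
  · rcases Nat.eq_zero_or_pos i with h0 | hpos
    · rw [h0, pow_zero, Perm.one_apply] at hieq
      have h1 : p a = w a := by
        rw [← hieq, appInv]
        rw [hieq]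
      have h2 : q (p a) = p a := by
        rw [h1]
        conv_rhs => rw [hw, Perm.mul_apply, h1]
      have h3 : SameCycle w x0 (p a) := ha.trans (hp a)
      exact (hx0 _ h3).2 h2
    · obtain ⟨i', rfl⟩ : ∃ i', i = i' + 1 := ⟨i - 1, by omega⟩
      have h1 : (w ^ i') (w a) = p⁻¹ (w a) := by
        rw [hieq, ← Perm.mul_apply, ← pow_succ]
      exact htmin i' (by omega) (w a) hwa h1
  · exact hb (hcls.trans hu1.symm)

/-- **Merging theorem.** Two permutations with at most two fixed points in total: after
conjugating the second one, the product has at most two cycles. -/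
theorem exists_conj_nc_le_two [Fintype S] (p q : Perm S)
    (hfix : (Finset.univ.filter (fun x => p x = x)).card +
      (Finset.univ.filter (fun x => q x = x)).card ≤ 2) :
    ∃ τ : Perm S, nc ((τ * q * τ⁻¹) * p) ≤ 2 := by
  classical
  have hex : ∃ n : ℕ, ∃ τ : Perm S, nc ((τ * q * τ⁻¹) * p) = n := ⟨_, 1, rfl⟩
  obtain ⟨τ, hτ⟩ := Nat.find_spec hex
  refine ⟨τ, nc_le_two_of_min p (τ * q * τ⁻¹) ?_ ?_⟩
  · have : (Finset.univ.filter (fun x => (τ * q * τ⁻¹) x = x)).card =
        (Finset.univ.filter (fun x => q x = x)).card := by
      refine (Finset.card_bij (fun x _ => τ x) ?_ ?_ ?_).symm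
      · intro x hx
        simp only [Finset.mem_filter, Finset.mem_univ, true_and] at hx ⊢
        simp [hx]
      · intro x _ y _ h
        exact τ.injective h
      · intro y hy
        have hy' : τ (q (τ⁻¹ y)) = y := by
          have := (Finset.mem_filter.1 hy).2
          simpa [Perm.mul_apply] using this
        refine ⟨τ⁻¹ y, ?_, by simp⟩
        simp only [Finset.mem_filter, Finset.mem_univ, true_and]
        exact τ.injective (by rw [hy']; simp)
    rw [this]
    exact hfix
  · intro σ
    rw [hτ]
    refine Nat.find_min' hex ⟨σ * τ, ?_⟩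
    simp only [mul_assoc, mul_inv_rev]

omit [DecidableEq S] in
theorem all_sameCycle_of_nc_le_one [Finite S] {f : Perm S} (h : nc f ≤ 1) (x y : S) :
    SameCycle f x y := by
  have : Finite (Quotient (SameCycle.setoid f)) := Quotient.finite _
  have : Subsingleton (Quotient (SameCycle.setoid f)) := by
    rw [← Finite.card_le_one_iff_subsingleton]
    exact h
  exact Quotient.exact (Subsingleton.elim (Quotient.mk (SameCycle.setoid f) x)
    (Quotient.mk (SameCycle.setoid f) y))

theorem card_fix_le_one [Fintype S] {f : Perm S} (h : nc f ≤ 2) (h3 : 3 ≤ Fintype.card S) :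
    (Finset.univ.filter (fun x => f x = x)).card ≤ 1 := by
  classical
  rw [Finset.card_le_one]
  intro x hx y hy
  simp only [Finset.mem_filter, Finset.mem_univ, true_and] at hx hy
  by_contra hxy
  -- a third point
  obtain ⟨z, hz⟩ : ∃ z, z ∉ ({x, y} : Finset S) := by
    by_contra hno
    push Not at hno
    have h1 : (Finset.univ : Finset S) ⊆ {x, y} := fun z _ => hno z
    have h2 := Finset.card_le_card h1
    have h4 : ({x, y} : Finset S).card ≤ 2 := Finset.card_le_two
    rw [Finset.card_univ] at h2
    omega
  simp only [Finset.mem_insert, Finset.mem_singleton, not_or] at hz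
  have : Finite (Quotient (SameCycle.setoid f)) := Quotient.finite _
  let φ : Fin 3 → Quotient (SameCycle.setoid f) := fun i =>
    Quotient.mk _ (![x, y, z] i)
  have hx' : ∀ u, SameCycle f x u → x = u := fun u hu => hu.eq_of_left hx
  have hy' : ∀ u, SameCycle f y u → y = u := fun u hu => hu.eq_of_left hy
  have hφ : Function.Injective φ := by
    intro i j hij
    have h1 : SameCycle f (![x, y, z] i) (![x, y, z] j) := Quotient.exact hij
    fin_cases i <;> fin_cases j <;> simp at h1 ⊢
    · exact hxy (hx' _ h1)
    · exact hz.1 (hx' _ h1).symm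
    · exact hxy (hx' _ h1.symm)
    · exact hz.2 (hy' _ h1).symm
    · exact hz.1 (hx' _ h1.symm).symm
    · exact hz.2 (hy' _ h1.symm).symm
  have := Nat.card_le_card_of_injective φ hφ
  rw [Nat.card_eq_fintype_card, Fintype.card_fin] at this
  unfold nc at h
  omega

theorem sign_of_all_sameCycle [Fintype S] {f : Perm S} (h2 : 2 ≤ Fintype.card S)
    (h : ∀ x y, SameCycle f x y) : sign f = -(-1) ^ Fintype.card S := by
  classical
  have hmove : ∀ x, f x ≠ x := by
    intro x hx
    obtain ⟨y, hy⟩ : ∃ y, y ≠ x := by
      have : Nontrivial S := Fintype.one_lt_card_iff_nontrivial.1 (by omega)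
      exact exists_ne x
    exact hy ((h x y).eq_of_left hx).symm
  have hne : Nonempty S := by
    rw [← Fintype.card_pos_iff]; omega
  have hcyc : f.IsCycle := by
    obtain ⟨x⟩ := hne
    exact ⟨x, hmove x, fun y _ => h x y⟩
  have hsupp : f.support = Finset.univ := by
    ext x
    simp [hmove x]
  rw [hcyc.sign, hsupp, Finset.card_univ]

/-- With at most two cycles, the sign decides whether there is exactly one. -/
theorem all_sameCycle_of_sign [Fintype S] {f : Perm S} (h2 : 2 ≤ Fintype.card S) (hf : nc f ≤ 2)
    (hs : sign f = -(-1) ^ Fintype.card S) (x y : S) : SameCycle f x y := by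
  classical
  by_contra hxy
  have h1 := nc_swap_mul_lt hxy
  have h3 := all_sameCycle_of_nc_le_one (f := swap x y * f) (by omega)
  have h4 := sign_of_all_sameCycle h2 h3
  have hne : x ≠ y := by
    rintro rfl
    exact hxy (SameCycle.refl _ _)
  rw [Perm.sign_mul, Perm.sign_swap hne, hs] at h4
  rcases neg_one_pow_eq_or ℤˣ (Fintype.card S) with h5 | h5 <;> rw [h5] at h4 <;>
    exact absurd h4 (by decide)

/-- Iterated merging. -/
theorem exists_conj_list [Fintype S] (h3 : 3 ≤ Fintype.card S) :
    ∀ (L : List (Perm S)) (p : Perm S), L ≠ [] →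
      (Finset.univ.filter (fun x => p x = x)).card ≤ 1 →
      (∀ q ∈ L, (Finset.univ.filter (fun x => q x = x)).card ≤ 1) →
      ∃ L' : List (Perm S), List.Forall₂ (fun q q' => ∃ τ : Perm S, q' = τ * q * τ⁻¹) L L' ∧
        nc (L'.foldl (fun acc q' => q' * acc) p) ≤ 2 := by
  intro L
  induction L with
  | nil => intro p h; exact absurd rfl h
  | cons q L ih =>
    intro p _ hp hL
    obtain ⟨τ, hτ⟩ := exists_conj_nc_le_two p q
      (by have := hL q (List.mem_cons_self ..); omega)
    rcases List.eq_nil_or_concat L with hnil | hne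
    · subst hnil
      exact ⟨[τ * q * τ⁻¹], List.Forall₂.cons ⟨τ, rfl⟩ List.Forall₂.nil, by simpa using hτ⟩
    · have hLne : L ≠ [] := by
        rintro rfl
        obtain ⟨a, b, hab⟩ := hne
        simp at hab
      obtain ⟨L', hL', hnc⟩ := ih ((τ * q * τ⁻¹) * p) hLne (card_fix_le_one hτ h3)
        (fun q' hq' => hL q' (List.mem_cons_of_mem _ hq'))
      exact ⟨(τ * q * τ⁻¹) :: L', List.Forall₂.cons ⟨τ, rfl⟩ hL', by simpa using hnc⟩

theorem sign_foldl [Fintype S] (L : List (Perm S)) (p : Perm S) :
    sign (L.foldl (fun acc q' => q' * acc) p) = sign p * (L.map sign).prod := by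
  induction L generalizing p with
  | nil => simp
  | cons q L ih =>
    rw [List.foldl_cons, ih, Perm.sign_mul, List.map_cons, List.prod_cons,
      mul_comm (sign q) (sign p), mul_assoc]

theorem sign_map_conj [Fintype S] {L L' : List (Perm S)}
    (h : List.Forall₂ (fun q q' => ∃ τ : Perm S, q' = τ * q * τ⁻¹) L L') :
    (L'.map sign).prod = (L.map sign).prod := by
  induction h with
  | nil => rfl
  | cons h _ ih =>
    obtain ⟨τ, rfl⟩ := h
    rw [List.map_cons, List.prod_cons, List.map_cons, List.prod_cons, ih, Perm.sign_mul, Perm.sign_mul,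
      Perm.sign_inv]
    congr 1
    rw [mul_comm (sign τ), mul_assoc]
    rcases Int.units_eq_one_or (sign τ) with h | h <;> rw [h] <;> simp

/-- **Iterated merging with parity.** -/
theorem exists_conj_list_transitive [Fintype S] (h3 : 3 ≤ Fintype.card S)
    (L : List (Perm S)) (p : Perm S) (hne : L ≠ [])
    (hp : (Finset.univ.filter (fun x => p x = x)).card ≤ 1)
    (hL : ∀ q ∈ L, (Finset.univ.filter (fun x => q x = x)).card ≤ 1)
    (hs : sign p * (L.map sign).prod = -(-1) ^ Fintype.card S) :
    ∃ L' : List (Perm S), List.Forall₂ (fun q q' => ∃ τ : Perm S, q' = τ * q * τ⁻¹) L L' ∧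
        ∀ x y, SameCycle (L'.foldl (fun acc q' => q' * acc) p) x y := by
  obtain ⟨L', hL', hnc⟩ := exists_conj_list h3 L p hne hp hL
  refine ⟨L', hL', all_sameCycle_of_sign (by omega) hnc ?_⟩
  rw [sign_foldl, sign_map_conj hL', hs]

end swap

end H35.Tape
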