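import Mathlib
import Pool.Agent.H35.Tape.Omega
import Pool.Agent.H35.Tape.Perm

/-!
# Existence of the data for the certificate
-/

namespace H35.Tape

open Equiv

theorem exists_perm_of_rel {C : Type*} [Finite C] (r : C → C → Prop)
    (h1 : ∀ a b c, r a b → r a c → b = c) (h2 : ∀ a b c, r a c → r b c → a = b) :
    ∃ π : Perm C, ∀ a b, r a b → π a = b := by
  classical
  have := Fintype.ofFinite C
  let e : {a // ∃ b, r a b} ≃ {b // ∃ a, r a b} :=
    Equiv.ofBijective (fun a => ⟨a.2.choose, a.1, a.2.choose_spec⟩) ⟨by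
      rintro ⟨a, ha⟩ ⟨b, hb⟩ hab
      have h3 : ha.choose = hb.choose := congrArg Subtype.val hab
      apply Subtype.ext
      have h4 := ha.choose_spec
      rw [h3] at h4
      exact h2 _ _ _ h4 hb.choose_spec, by
      rintro ⟨b, a, hab⟩
      refine ⟨⟨a, b, hab⟩, Subtype.ext ?_⟩
      exact h1 _ _ _ (Exists.choose_spec (⟨b, hab⟩ : ∃ b, r a b)) hab⟩
  refine ⟨e.extendSubtype, fun a b hab => ?_⟩
  rw [Equiv.extendSubtype_apply_of_mem e a ⟨b, hab⟩]
  exact h1 _ _ _ (Exists.choose_spec (⟨b, hab⟩ : ∃ b, r a b)) hab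

variable {X : Type*}

theorem succ_ne_linv {w : List (X × Bool)} (hw : FreeGroup.IsCyclicallyReduced w) {i : ℕ}
    (hi : i < w.length) (hi' : (i + 1) % w.length < w.length) :
    w[(i + 1) % w.length] ≠ linv w[i] := by
  have hmod : ((i + 1) % w.length + w.length - 1) % w.length = i := by
    rcases Nat.lt_or_ge (i + 1) w.length with h | h
    · rw [Nat.mod_eq_of_lt h, show i + 1 + w.length - 1 = i + w.length by omega,
        Nat.add_mod_right, Nat.mod_eq_of_lt hi]
    · have : i + 1 = w.length := by omega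
      rw [this, Nat.mod_self, zero_add, Nat.mod_eq_of_lt (by omega)]
      omega
  have h : IsTurn w ((i + 1) % w.length) (linv w[i]) (w[(i + 1) % w.length]) := by
    refine ⟨List.getElem?_eq_getElem _, ?_⟩
    rw [hmod, linv_linv, List.getElem?_eq_getElem hi]
  exact (turn_ne hw h).symm

theorem exists_circle (w : List (X × Bool)) (hw : FreeGroup.IsCyclicallyReduced w)
    (hne : 0 < w.length) :
    ∃ σ : X → Perm (Fin w.length), ∀ i (hi : i < w.length),
      step σ ⟨i, hi⟩ w[i] = ⟨(i + 1) % w.length, Nat.mod_lt _ hne⟩ := by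
  classical
  let sc : Fin w.length → Fin w.length := fun a => ⟨(a + 1) % w.length, Nat.mod_lt _ hne⟩
  have hscinj : Function.Injective sc := by
    rintro ⟨a, ha⟩ ⟨b, hb⟩ hab
    have h : (a + 1) % w.length = (b + 1) % w.length := congrArg Fin.val hab
    apply Fin.ext
    change a = b
    rcases Nat.lt_or_ge (a + 1) w.length with h1 | h1 <;>
      rcases Nat.lt_or_ge (b + 1) w.length with h2 | h2
    · rw [Nat.mod_eq_of_lt h1, Nat.mod_eq_of_lt h2] at h; omega
    · have : b + 1 = w.length := by omega
      rw [Nat.mod_eq_of_lt h1, this, Nat.mod_self] at h; omega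
    · have : a + 1 = w.length := by omega
      rw [Nat.mod_eq_of_lt h2, this, Nat.mod_self] at h; omega
    · omega
  have hkey : ∀ a : Fin w.length, w[sc a] ≠ linv w[a] := fun a => succ_ne_linv hw a.2 _
  have hex : ∀ x : X, ∃ π : Perm (Fin w.length), ∀ a b : Fin w.length,
      ((w[a] = (x, true) ∧ b = sc a) ∨ (w[b] = (x, false) ∧ a = sc b)) → π a = b := by
    intro x
    refine exists_perm_of_rel _ ?_ ?_
    · rintro a b c (⟨h1, h2⟩ | ⟨h1, h2⟩) (⟨h3, h4⟩ | ⟨h3, h4⟩)
      · rw [h2, h4]
      · exfalso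
        apply hkey c
        rw [← h4, h1, h3]; rfl
      · exfalso
        apply hkey b
        rw [← h2, h1, h3]; rfl
      · exact hscinj (h2.symm.trans h4)
    · rintro a b c (⟨h1, h2⟩ | ⟨h1, h2⟩) (⟨h3, h4⟩ | ⟨h3, h4⟩)
      · exact hscinj (h2.symm.trans h4)
      · exfalso
        apply hkey a
        rw [← h2, h1, h3]; rfl
      · exfalso
        apply hkey b
        rw [← h4, h1, h3]; rfl
      · rw [h2, h4]
  choose σ hσ using hex
  refine ⟨σ, fun i hi => ?_⟩
  change step σ ⟨i, hi⟩ w[i] = sc ⟨i, hi⟩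
  rcases hx : w[i] with ⟨x, b⟩
  cases b with
  | true => exact hσ x _ _ (Or.inl ⟨hx, rfl⟩)
  | false =>
    have h := hσ x (sc ⟨i, hi⟩) ⟨i, hi⟩ (Or.inr ⟨hx, rfl⟩)
    change (σ x)⁻¹ ⟨i, hi⟩ = _
    rw [Perm.inv_eq_iff_eq, h]

theorem exists_circle_two (u : List (X × Bool)) (hu : FreeGroup.IsCyclicallyReduced u)
    (hne : 0 < u.length) :
    ∃ (C : Type) (_ : Fintype C) (σ : X → Perm C) (pos : ℕ → C),
      (∀ a b, pos a = pos b → a % (2 * u.length) = b % (2 * u.length)) ∧
      ∀ e i, i ≤ u.length →
        run σ (pos 0) ((List.replicate e u).flatten ++ u.take i) = pos (e * u.length + i) := by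
  have hw : FreeGroup.IsCyclicallyReduced (u ++ u) := by
    have := hu.flatten_replicate 2
    simpa [List.replicate_succ] using this
  have hlen : (u ++ u).length = 2 * u.length := by simp; omega
  obtain ⟨σ, hσ⟩ := exists_circle (u ++ u) hw (by omega)
  let pos : ℕ → Fin (u ++ u).length := fun p => ⟨p % (u ++ u).length, Nat.mod_lt _ (by omega)⟩
  have hstep : ∀ p (hp : p % u.length < u.length), step σ (pos p) (u[p % u.length]) = pos (p + 1) := by
    intro p hp
    have h1 := hσ (p % (u ++ u).length) (Nat.mod_lt _ (by omega))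
    have h2 : (u ++ u)[p % (u ++ u).length]'(Nat.mod_lt _ (by omega)) = u[p % u.length] := by
      rw [List.getElem_append]
      split_ifs with h
      · congr 1
        rw [hlen] at h ⊢
        have h3 := Nat.mod_mod_of_dvd p (show u.length ∣ 2 * u.length from ⟨2, by ring⟩)
        rw [← h3, Nat.mod_eq_of_lt h]
      · congr 1
        rw [hlen] at h ⊢
        have h3 := Nat.mod_mod_of_dvd p (show u.length ∣ 2 * u.length from ⟨2, by ring⟩)
        have h4 : p % (2 * u.length) < 2 * u.length := Nat.mod_lt _ (by omega)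
        generalize p % (2 * u.length) = r at h h3 h4
        rw [← h3, Nat.mod_eq_sub_mod (not_lt.1 h), Nat.mod_eq_of_lt (by omega)]
    rw [h2] at h1
    change step σ (pos p) (u[p % u.length]) = _ at h1
    rw [h1]
    apply Fin.ext
    change (p % (u ++ u).length + 1) % (u ++ u).length = (p + 1) % (u ++ u).length
    rw [Nat.mod_add_mod]
  have hrun : ∀ p, p % u.length = 0 → ∀ i, i ≤ u.length → run σ (pos p) (u.take i) = pos (p + i) := by
    intro p hp i
    induction i with
    | zero => intro _; simp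
    | succ i ih =>
      intro hi
      have h1 := List.take_succ_eq_append_getElem (l := u) (i := i) (by omega)
      have h2 : (p + i) % u.length = i := by
        rw [Nat.add_mod, hp, zero_add, Nat.mod_mod, Nat.mod_eq_of_lt (by omega)]
      have h3 := hstep (p + i) (by rw [h2]; omega)
      rw [h1, run_append, ih (by omega)]
      simp only [h2] at h3
      exact h3
  have hpow : ∀ e, run σ (pos 0) (List.replicate e u).flatten = pos (e * u.length) := by
    intro e
    induction e with
    | zero => simp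
    | succ e ih =>
      have h1 : (List.replicate (e + 1) u).flatten = (List.replicate e u).flatten ++ u := by
        rw [List.replicate_succ']; simp
      have h2 := hrun (e * u.length) (by simp) u.length le_rfl
      rw [List.take_length] at h2
      rw [h1, run_append, ih, h2]
      congr 1
      ring
  refine ⟨Fin (u ++ u).length, inferInstance, σ, pos, ?_, ?_⟩
  · intro a b hab
    have := congrArg Fin.val hab
    rw [← hlen]
    exact this
  · intro e i hi
    rw [run_append, hpow, hrun _ (by simp) i hi]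

/-- A finite quotient in which the words `u j` embed. -/
theorem exists_quotient {J : Type*} [Finite J] (u : J → List (X × Bool))
    (hcyc : ∀ j, FreeGroup.IsCyclicallyReduced (u j)) (hne : ∀ j, u j ≠ []) :
    ∃ (Q : Type) (_ : Group Q) (_ : Fintype Q) (ψ : FreeGroup X →* Q),
      (∀ j, ψ (FreeGroup.mk (u j)) ≠ 1) ∧
      (∀ j i i', i < (u j).length → i' < (u j).length →
        ψ (FreeGroup.mk ((u j).take i)) * (ψ (FreeGroup.mk ((u j).take i')))⁻¹ ∈
          Subgroup.zpowers (ψ (FreeGroup.mk (u j))) → i = i') := by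
  classical
  have hpos : ∀ j, 0 < (u j).length := fun j => List.length_pos_iff.2 (hne j)
  choose C hC σ pos hpos1 hpos2 using fun j => exists_circle_two (u j) (hcyc j) (hpos j)
  obtain ⟨n, ⟨eJ⟩⟩ := Finite.exists_equiv_fin J
  let Q := ∀ k : Fin n, Perm (C (eJ.symm k))
  let ψ : FreeGroup X →* Q := MonoidHom.pi (fun k => rep (σ (eJ.symm k)))
  have hψ : ∀ g k, ψ g k = rep (σ (eJ.symm k)) g := fun g k => rfl
  have hcomp : ∀ (j : J) (a b : List (X × Bool)), ψ (FreeGroup.mk a) = ψ (FreeGroup.mk b) →
      ∀ v, run (σ j) v a = run (σ j) v b := by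
    intro j a b hab v
    have h1 := congrFun hab (eJ j)
    rw [hψ, hψ] at h1
    have h2 : rep (σ j) (FreeGroup.mk a) = rep (σ j) (FreeGroup.mk b) := by
      have := h1
      rwa [eJ.symm_apply_apply] at this
    rw [run_eq, run_eq, h2]
  refine ⟨Q, inferInstance, inferInstanceAs (Fintype (∀ k : Fin n, Perm (C (eJ.symm k)))), ψ, ?_, ?_⟩
  · intro j h
    have h1 := hcomp j (u j) [] (by rw [h, ← FreeGroup.one_eq_mk, map_one]) (pos j 0)
    have h2 := hpos2 j 1 0 (Nat.zero_le _)
    simp only [List.replicate_one, List.flatten_cons, List.flatten_nil, List.append_nil,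
      List.take_zero, add_zero, one_mul] at h2
    rw [h2, run_nil] at h1
    have h3 := hpos1 j _ _ h1
    have := hpos j
    rw [Nat.zero_mod, Nat.mod_eq_of_lt (by omega)] at h3
    omega
  · intro j i i' hi hi' hmem
    rw [mem_zpowers_iff_mem_range_orderOf, Finset.mem_image] at hmem
    obtain ⟨e, -, he⟩ := hmem
    have h1 : ψ (FreeGroup.mk ((List.replicate 0 (u j)).flatten ++ (u j).take i)) =
        ψ (FreeGroup.mk ((List.replicate e (u j)).flatten ++ (u j).take i')) := by
      have e1 : ψ (FreeGroup.mk ((List.replicate e (u j)).flatten ++ (u j).take i')) =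
          ψ (FreeGroup.mk (u j)) ^ e * ψ (FreeGroup.mk ((u j).take i')) := by
        rw [← FreeGroup.mul_mk, mk_replicate_flatten, map_mul, map_pow]
      rw [e1, he]
      simp
    have h2 := hcomp j _ _ h1 (pos j 0)
    rw [hpos2 j 0 i hi.le, hpos2 j e i' hi'.le] at h2
    have h3 := hpos1 j _ _ h2
    have h4 : (0 * (u j).length + i) % (u j).length = (e * (u j).length + i') % (u j).length := by
      have h5 := Nat.mod_mod_of_dvd (0 * (u j).length + i)
        (show (u j).length ∣ 2 * (u j).length from ⟨2, by ring⟩)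
      have h6 := Nat.mod_mod_of_dvd (e * (u j).length + i')
        (show (u j).length ∣ 2 * (u j).length from ⟨2, by ring⟩)
      rw [← h5, ← h6, h3]
    rw [zero_mul, zero_add, Nat.mod_eq_of_lt hi, Nat.add_comm, Nat.add_mul_mod_self_right,
      Nat.mod_eq_of_lt hi'] at h4
    exact h4

end H35.Tape
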