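import Mathlib
import Pool.Agent.H35.Tape.OmegaEx

/-!
# Building the permutations
-/

namespace H35.Tape

open Equiv

section misc

/-- doubling a permutation and adding a fixed point -/
def dbl {W : Type*} (f : Perm W) : Perm (Option (Bool × W)) :=
  Equiv.optionCongr ((Equiv.refl Bool).prodCongr f)

@[simp] theorem dbl_none {W : Type*} (f : Perm W) : dbl f none = none := rfl
@[simp] theorem dbl_some {W : Type*} (f : Perm W) (b : Bool) (w : W) :
    dbl f (some (b, w)) = some (b, f w) := rfl

/-- `dbl` as a homomorphism -/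
def dblHom (W : Type*) : Perm W →* Perm (Option (Bool × W)) where
  toFun := dbl
  map_one' := by
    ext x
    rcases x with _ | ⟨b, w⟩ <;> simp
  map_mul' := by
    intro f g
    ext x
    rcases x with _ | ⟨b, w⟩ <;> simp

theorem sign_dbl {W : Type*} [Fintype W] [DecidableEq W] (f : Perm W) : Perm.sign (dbl f) = 1 := by
  rw [dbl, Equiv.optionCongr_sign]
  have h : (Equiv.refl Bool).prodCongr f = Equiv.prodCongrRight (fun _ : Bool => f) := by
    ext x <;> rfl
  rw [h, Perm.sign_prodCongrRight]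
  simp

theorem card_fix_dbl {W : Type*} [Fintype W] [DecidableEq W] (f : Perm W) (hf : ∀ w, f w ≠ w) :
    (Finset.univ.filter (fun x => dbl f x = x)).card ≤ 1 := by
  rw [Finset.card_le_one_iff_subset_singleton]
  refine ⟨none, ?_⟩
  intro x hx
  rw [Finset.mem_filter] at hx
  rcases x with _ | ⟨b, w⟩
  · simp
  · exfalso
    rw [dbl_some] at hx
    simp only [Option.some.injEq, Prod.mk.injEq, true_and] at hx
    exact hf w hx.2

theorem card_fix_conj {S : Type*} [Fintype S] [DecidableEq S] (τ q : Perm S) :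
    (Finset.univ.filter (fun x => (τ * q * τ⁻¹) x = x)).card =
      (Finset.univ.filter (fun x => q x = x)).card := by
  refine Finset.card_bij' (fun x _ => τ⁻¹ x) (fun x _ => τ x) ?_ ?_ ?_ ?_
  · intro x hx
    rw [Finset.mem_filter] at hx ⊢
    refine ⟨Finset.mem_univ _, ?_⟩
    have h := hx.2
    rw [Perm.mul_apply, Perm.mul_apply] at h
    rw [Perm.eq_inv_iff_eq, h]
  · intro x hx
    rw [Finset.mem_filter] at hx ⊢
    refine ⟨Finset.mem_univ _, ?_⟩
    rw [Perm.mul_apply, Perm.mul_apply, invApp, hx.2]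
  · intro x _; simp
  · intro x _; simp

theorem exists_perm_of_range {A B : Type*} (ι : A → B) (hι : Function.Injective ι) (f : Perm B)
    (h : ∀ b, b ∈ Set.range ι ↔ f b ∈ Set.range ι) :
    ∃ f' : Perm A, ∀ a, f (ι a) = ι (f' a) := by
  let e := Equiv.ofInjective ι hι
  refine ⟨(e.trans (f.subtypePerm (p := fun b => b ∈ Set.range ι) (fun b => (h b).symm))).trans
    e.symm, ?_⟩
  intro a
  have h1 : (ι (e.symm (f.subtypePerm (p := fun b => b ∈ Set.range ι) (fun b => (h b).symm) (e a))) : B)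
      = (f.subtypePerm (p := fun b => b ∈ Set.range ι) (fun b => (h b).symm) (e a)).1 := by
    have h2 := e.apply_symm_apply
      (f.subtypePerm (p := fun b => b ∈ Set.range ι) (fun b => (h b).symm) (e a))
    exact congrArg Subtype.val h2
  change f (ι a) = ι _
  exact h1.symm

theorem run_of_hom {A V : Type*} (Φ : FreeGroup A →* Perm V) (v : V) (L : List (A × Bool)) :
    run (fun a => (Φ (FreeGroup.of a))⁻¹) v L = (Φ (FreeGroup.mk L))⁻¹ v := by
  rw [run_eq]
  congr 3
  have : rep (fun a => (Φ (FreeGroup.of a))⁻¹) = Φ := by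
    ext a : 1
    simp [rep]
  rw [this]

theorem run_map {A B V : Type*} (g : A × Bool → B × Bool) (σ : B → Perm V) (σ' : A → Perm V)
    (h : ∀ v l, step σ v (g l) = step σ' v l) (L : List (A × Bool)) (v : V) :
    run σ v (L.map g) = run σ' v L := by
  induction L generalizing v with
  | nil => rfl
  | cons l L ih => rw [List.map_cons, run_cons, run_cons, h, ih]

theorem exists_conj_indexed {S K : Type*} [Fintype S] [DecidableEq S] (h3 : 3 ≤ Fintype.card S)
    (ks : List K) (hnd : ks.Nodup) (hne : ks ≠ []) (p : Perm S) (qq : K → Perm S)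
    (hp : (Finset.univ.filter (fun x => p x = x)).card ≤ 1)
    (hq : ∀ k, (Finset.univ.filter (fun x => qq k x = x)).card ≤ 1)
    (hs : Perm.sign p * (ks.map (fun k => Perm.sign (qq k))).prod = -(-1) ^ Fintype.card S) :
    ∃ τ : K → Perm S, ∀ x y, Perm.SameCycle
      ((ks.map fun k => τ k * qq k * (τ k)⁻¹).foldl (fun acc q' => q' * acc) p) x y := by
  classical
  obtain ⟨L', hL', hcyc⟩ := exists_conj_list_transitive h3 (ks.map qq) p
    (by simpa using hne) hp
    (by intro q hq'; obtain ⟨k, -, rfl⟩ := List.mem_map.1 hq'; exact hq k)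
    (by rw [List.map_map]; exact hs)
  have key : ∀ (ks : List K), ks.Nodup → ∀ L' : List (Perm S),
      List.Forall₂ (fun q q' => ∃ τ : Perm S, q' = τ * q * τ⁻¹) (ks.map qq) L' →
      ∃ τ : K → Perm S, L' = ks.map fun k => τ k * qq k * (τ k)⁻¹ := by
    intro ks
    induction ks with
    | nil =>
      intro _ L' h
      rw [List.map_nil, List.forall₂_nil_left_iff] at h
      exact ⟨fun _ => 1, h⟩
    | cons k ks ih =>
      intro hnd L' h
      rw [List.nodup_cons] at hnd
      rw [List.map_cons, List.forall₂_cons_left_iff] at h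
      obtain ⟨q', L'', ⟨τ₀, hτ₀⟩, hL'', rfl⟩ := h
      obtain ⟨τ, rfl⟩ := ih hnd.2 L'' hL''
      refine ⟨Function.update τ k τ₀, ?_⟩
      rw [List.map_cons, Function.update_self, hτ₀]
      congr 1
      apply List.map_congr_left
      intro k' hk'
      have : k' ≠ k := fun h => hnd.1 (h ▸ hk')
      rw [Function.update_of_ne this]
  obtain ⟨τ, rfl⟩ := key ks hnd L' hL'
  exact ⟨τ, hcyc⟩

theorem range_iff {S V : Type*} (F : Perm V) (e₁ e₂ : S → V) (qq : Perm S)
    (h : ∀ s, F (e₁ s) = e₂ (qq s)) (v : V) : v ∈ Set.range e₁ ↔ F v ∈ Set.range e₂ := by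
  constructor
  · rintro ⟨s, rfl⟩
    exact ⟨qq s, (h s).symm⟩
  · rintro ⟨s, hs⟩
    refine ⟨qq⁻¹ s, F.injective ?_⟩
    rw [h, appInv, hs]

theorem foldl_perm {S : Type*} (L : List (Perm S)) (p : Perm S) (s : S) :
    (L.foldl (fun acc q' => q' * acc) p) s = L.foldl (fun s q => q s) (p s) := by
  induction L generalizing p with
  | nil => rfl
  | cons q L ih => rw [List.foldl_cons, List.foldl_cons, ih, Perm.mul_apply]

/-- left multiplication on the first coordinate -/
def mulHom (Q T : Type*) [Group Q] : Q →* Perm (Q × T) where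
  toFun g := (Equiv.mulLeft g).prodCongr (Equiv.refl T)
  map_one' := by ext x <;> simp
  map_mul' := by
    intro a b
    ext x
    · simp [mul_assoc]
    · simp

theorem mulHom_apply {Q T : Type*} [Group Q] (g : Q) (x : Q × T) :
    mulHom Q T g x = (g * x.1, x.2) := rfl

theorem mulHom_inv_apply {Q T : Type*} [Group Q] (g : Q) (x : Q × T) :
    (mulHom Q T g)⁻¹ x = (g⁻¹ * x.1, x.2) := by
  rw [← map_inv, mulHom_apply]

/-- transport of a permutation representation -/
def transHom {A B : Type*} (ε : A ≃ B) : Perm B →* Perm A where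
  toFun f := (ε.trans f).trans ε.symm
  map_one' := by ext x; simp
  map_mul' := by intro a b; ext x; simp

theorem transHom_apply {A B : Type*} (ε : A ≃ B) (f : Perm B) (a : A) :
    transHom ε f a = ε.symm (f (ε a)) := rfl

end misc

theorem dbl_inv {W : Type*} (f : Perm W) : (dbl f)⁻¹ = dbl f⁻¹ :=
  (map_inv (dblHom W) f).symm

theorem not_TProp_rigid {X J Y : Type} [Finite X] [Finite J] [Finite Y]
    (u : Option J → List (X × Bool)) (ρ : List (Y × Bool)) (js : List J)
    (hnd : js.Nodup) (hall : ∀ j, j ∈ js) (hne : js ≠ [] ∨ ρ ≠ [])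
    (hcyc : ∀ j, FreeGroup.IsCyclicallyReduced (u j)) (hu0 : ∀ j, u j ≠ [])
    (h1 : Rig1 u) (h2 : Rig2 u) (hρcyc : FreeGroup.IsCyclicallyReduced ρ)
    (hρ : ρ ≠ [] → ∃ p q, Conn (fun a b => ∃ i, i ≠ 0 ∧ IsTurn ρ i a b) Set.univ p (linv q) ∧
      ρ.head? = some p ∧ ρ.getLast? = some q)
    (hY : ρ = [] → IsEmpty Y) : ¬ TProp (FreeGroup.mk (formWord u ρ js)) := by
  classical
  have := Fintype.ofFinite J
  obtain ⟨Q, _, _, ψ, hψ1, hψ2⟩ := exists_quotient u hcyc hu0
  obtain ⟨GB, _, _, ψB, hψB⟩ : ∃ (G : Type) (_ : Group G) (_ : Fintype G)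
      (ψ : FreeGroup Y →* G), ρ ≠ [] → ψ (FreeGroup.mk ρ) ≠ 1 := by
    by_cases h : ρ = []
    · exact ⟨Unit, inferInstance, inferInstance, 1, fun h' => absurd h h'⟩
    · obtain ⟨G, i1, i2, ψ', h1', -⟩ := exists_quotient (J := Unit) (fun _ => ρ)
        (fun _ => hρcyc) (fun _ => h)
      exact ⟨G, i1, i2, ψ', fun _ => h1' ()⟩
  -- sizes
  set g : Option J → Q := fun j => ψ (FreeGroup.mk (u j)) with hg
  set R0 : ℕ := Fintype.card Q * Fintype.card GB with hR0
  have hR0pos : 0 < R0 := Nat.mul_pos Fintype.card_pos Fintype.card_pos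
  have ho : ∀ j, orderOf (g j) ∣ R0 := fun j => (orderOf_dvd_card).mul_right _
  have hopos : ∀ j, 0 < orderOf (g j) := fun j => orderOf_pos _
  have hdivpos : ∀ j, 0 < R0 / orderOf (g j) := fun j =>
    Nat.div_pos (Nat.le_of_dvd hR0pos (ho j)) (hopos j)
  let W : Type := Q × (Option J × Fin R0)
  let bad : Option J → W → Prop := fun j w =>
    w.2.1 = j ∧ (w.2.2 : ℕ) < R0 / orderOf (g j) ∧ w.1 ∈ Subgroup.zpowers (g j)
  have hcardbad : ∀ j, Fintype.card {w // bad j w} = R0 := by
    intro j
    let e : {w // bad j w} ≃ Subgroup.zpowers (g j) × Fin (R0 / orderOf (g j)) :=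
      { toFun := fun w => (⟨w.1.1, w.2.2.2⟩, ⟨w.1.2.2, w.2.2.1⟩)
        invFun := fun x => ⟨(x.1.1, (j, ⟨x.2.1, lt_of_lt_of_le x.2.2 (Nat.div_le_self _ _)⟩)),
          rfl, x.2.2, x.1.2⟩
        left_inv := by
          rintro ⟨⟨a, b, c⟩, h, h', h''⟩
          subst h
          rfl
        right_inv := by
          rintro ⟨⟨a, ha⟩, ⟨b, hb⟩⟩
          rfl }
    rw [Fintype.card_congr e, Fintype.card_prod, Fintype.card_zpowers, Fintype.card_fin]
    exact Nat.mul_div_cancel' (ho j)
  have hQ2 : 2 ≤ Fintype.card Q := by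
    have : Nontrivial Q := ⟨g none, 1, hψ1 none⟩
    exact Fintype.one_lt_card
  set n0 : ℕ := R0 * (Fintype.card Q * (Fintype.card J + 1) - 1) with hn0
  have hcardW : Fintype.card W = n0 + R0 := by
    change Fintype.card (Q × (Option J × Fin R0)) = _
    rw [Fintype.card_prod, Fintype.card_prod, Fintype.card_option, Fintype.card_fin, hn0]
    have : 1 ≤ Fintype.card Q * (Fintype.card J + 1) :=
      Nat.mul_pos (by omega) (by omega)
    obtain ⟨k, hk⟩ := Nat.exists_eq_add_of_le this
    rw [hk, Nat.add_sub_cancel_left, ← mul_assoc, hk]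
    ring
  have hn0pos : 0 < n0 := by
    apply Nat.mul_pos hR0pos
    have : Fintype.card Q * 1 ≤ Fintype.card Q * (Fintype.card J + 1) :=
      Nat.mul_le_mul_left _ (by omega)
    omega
  have hcardgood : ∀ j, Fintype.card {w // ¬ bad j w} = n0 := by
    intro j
    rw [Fintype.card_subtype_compl, hcardbad, hcardW, Nat.add_sub_cancel]
  -- embeddings
  let ι : Option J → Fin n0 → W := fun j t => ((Fintype.equivFinOfCardEq (hcardgood j)).symm t).1
  have hι : ∀ j, Function.Injective (ι j) := fun j a b hab =>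
    (Fintype.equivFinOfCardEq (hcardgood j)).symm.injective (Subtype.ext hab)
  have hιr : ∀ j w, w ∈ Set.range (ι j) ↔ ¬ bad j w := by
    intro j w
    constructor
    · rintro ⟨t, rfl⟩
      exact ((Fintype.equivFinOfCardEq (hcardgood j)).symm t).2
    · intro h
      refine ⟨Fintype.equivFinOfCardEq (hcardgood j) ⟨w, h⟩, ?_⟩
      simp [ι]
  let V : Type := Option (Bool × W)
  let S' : Type := Option (Bool × Fin n0)
  let emb : Option J → S' → V := fun j => Option.map (Prod.map id (ι j))
  have hemb_none : ∀ j, emb j none = none := fun j => rfl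
  have hemb_some : ∀ j b t, emb j (some (b, t)) = some (b, ι j t) := fun j b t => rfl
  have hemb : ∀ j, Function.Injective (emb j) := fun j =>
    Option.map_injective (Function.injective_id.prodMap (hι j))
  have hembr : ∀ j b w, some (b, w) ∈ Set.range (emb j) ↔ ¬ bad j w := by
    intro j b w
    rw [← hιr]
    constructor
    · rintro ⟨s, hs⟩
      rcases s with _ | ⟨b', t⟩
      · exact absurd hs.symm (Option.some_ne_none _)
      · have hs' : (b', ι j t) = (b, w) := Option.some.inj hs
        exact ⟨t, congrArg Prod.snd hs'⟩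
    · rintro ⟨t, rfl⟩
      exact ⟨some (b, t), rfl⟩
  -- the letters of `X`
  let ΦX : FreeGroup X →* Perm V := (dblHom W).comp ((mulHom Q (Option J × Fin R0)).comp ψ)
  have hΦX : ∀ h b w, (ΦX h)⁻¹ (some (b, w)) = some (b, ((ψ h)⁻¹ * w.1, w.2)) := by
    intro h b w
    have : ΦX h = dbl (mulHom Q (Option J × Fin R0) (ψ h)) := rfl
    rw [this, dbl_inv, dbl_some, mulHom_inv_apply]
  have hΦXn : ∀ h, (ΦX h)⁻¹ none = none := by
    intro h
    have : ΦX h = dbl (mulHom Q (Option J × Fin R0) (ψ h)) := rfl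
    rw [this, dbl_inv, dbl_none]
  have hbadinv : ∀ j w, w ∈ Set.range (ι j) ↔
      (mulHom Q (Option J × Fin R0) (g j))⁻¹ w ∈ Set.range (ι j) := by
    intro j w
    rw [hιr, hιr, mulHom_inv_apply]
    have : (g j)⁻¹ * w.1 ∈ Subgroup.zpowers (g j) ↔ w.1 ∈ Subgroup.zpowers (g j) :=
      Subgroup.mul_mem_cancel_left _ (Subgroup.inv_mem _ (Subgroup.mem_zpowers _))
    change ¬ (_ ∧ _ ∧ _) ↔ ¬ (_ ∧ _ ∧ _)
    rw [this]
  choose f hf using fun j => exists_perm_of_range (ι j) (hι j)
    (mulHom Q (Option J × Fin R0) (g j))⁻¹ (hbadinv j)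
  have hU : ∀ j s, (ΦX (FreeGroup.mk (u j)))⁻¹ (emb j s) = emb j (dbl (f j) s) := by
    intro j s
    rcases s with _ | ⟨b, t⟩
    · rw [hemb_none, hΦXn, dbl_none, hemb_none]
    · rw [hemb_some, hΦX, dbl_some, hemb_some, ← hf, mulHom_inv_apply]
  have hfne : ∀ j w, f j w ≠ w := by
    intro j w hw
    have h3 := hf j w
    rw [hw, mulHom_inv_apply] at h3
    have h4 : (g j)⁻¹ * (ι j w).1 = (ι j w).1 := congrArg Prod.fst h3
    have h5 : (g j)⁻¹ = 1 := mul_eq_right.1 h4
    exact hψ1 j (inv_eq_one.1 h5)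
  -- the letters of `Y`
  obtain ⟨m0, hm0⟩ : ∃ m0, n0 = Fintype.card GB * m0 :=
    ⟨Fintype.card Q * (Fintype.card Q * (Fintype.card J + 1) - 1), by rw [hn0, hR0]; ring⟩
  have hε : Nonempty (Fin n0 ≃ GB × Fin m0) := by
    refine ⟨Fintype.equivOfCardEq ?_⟩
    rw [Fintype.card_fin, Fintype.card_prod, Fintype.card_fin, hm0]
  obtain ⟨ε⟩ := hε
  let trB : FreeGroup Y →* Perm (Fin n0) := (transHom ε).comp ((mulHom GB (Fin m0)).comp ψB)
  have htrB : ρ ≠ [] → ∀ w, (trB (FreeGroup.mk ρ))⁻¹ w ≠ w := by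
    intro hρne w hw
    rw [Perm.inv_eq_iff_eq] at hw
    have h3 : trB (FreeGroup.mk ρ) w = ε.symm (mulHom GB (Fin m0) (ψB (FreeGroup.mk ρ)) (ε w)) := rfl
    rw [h3, Equiv.eq_symm_apply, mulHom_apply] at hw
    have h4 : (ε w).1 = ψB (FreeGroup.mk ρ) * (ε w).1 := congrArg Prod.fst hw
    exact hψB hρne (mul_eq_right.1 h4.symm)
  -- merging
  let ks : List (J ⊕ Unit) := js.map Sum.inl ++ (if ρ = [] then [] else [Sum.inr ()])
  have hksnd : ks.Nodup := by
    rw [List.nodup_append]
    refine ⟨hnd.map Sum.inl_injective, ?_, ?_⟩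
    · split_ifs <;> simp
    · intro a ha b hb
      split_ifs at hb with h
      · simp at hb
      · rw [List.mem_singleton] at hb
        obtain ⟨j, -, rfl⟩ := List.mem_map.1 ha
        rw [hb]; simp
  have hksne : ks ≠ [] := by
    rcases hne with h | h
    · simp [ks, h]
    · simp [ks, h]
  let qq : J ⊕ Unit → Perm S' := Sum.elim (fun j => dbl (f (some j)))
    (fun _ => if ρ = [] then dbl (f none) else dbl (trB (FreeGroup.mk ρ))⁻¹)
  have hcardS : Fintype.card S' = 2 * n0 + 1 := by
    change Fintype.card (Option (Bool × Fin n0)) = _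
    simp
  have hqqfix : ∀ k, (Finset.univ.filter (fun x => qq k x = x)).card ≤ 1 := by
    rintro (j | -)
    · exact card_fix_dbl _ (hfne _)
    · change (Finset.univ.filter (fun x => (if ρ = [] then dbl (f none)
        else dbl (trB (FreeGroup.mk ρ))⁻¹ : Perm S') x = x)).card ≤ 1
      split_ifs with h
      · exact card_fix_dbl _ (hfne _)
      · exact card_fix_dbl _ (htrB h)
  have hqqsign : ∀ k, Perm.sign (qq k) = 1 := by
    rintro (j | -)
    · exact sign_dbl _
    · change Perm.sign (if ρ = [] then dbl (f none)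
        else dbl (trB (FreeGroup.mk ρ))⁻¹ : Perm S') = 1
      split_ifs with h
      · exact sign_dbl _
      · exact sign_dbl _
  obtain ⟨τ, hτ⟩ := exists_conj_indexed (S := S') (by rw [hcardS]; omega) ks hksnd hksne
    (dbl (f none)) qq (card_fix_dbl _ (hfne _)) hqqfix (by
      have h3 : (ks.map (fun k => Perm.sign (qq k))).prod = 1 := by
        apply List.prod_eq_one
        intro x hx
        obtain ⟨k, -, rfl⟩ := List.mem_map.1 hx
        exact hqqsign k
      rw [h3, sign_dbl, hcardS, pow_succ, pow_mul]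
      simp)
  -- the permutations of the letters
  let ΦY : FreeGroup Y →* Perm S' := (MulAut.conj (τ (Sum.inr ()))).toMonoidHom.comp
    ((dblHom (Fin n0)).comp trB)
  have hσC : ∀ j : J, ∃ π : Perm V, ∀ s, π (emb none s) = emb (some j) ((τ (Sum.inl j))⁻¹ s) := by
    intro j
    obtain ⟨π, hπ⟩ := exists_perm_of_rel
      (fun a b : V => ∃ s, a = emb none s ∧ b = emb (some j) ((τ (Sum.inl j))⁻¹ s))
      (by
        rintro a b c ⟨s, rfl, rfl⟩ ⟨s', h, rfl⟩
        rw [hemb none h])
      (by
        rintro a b c ⟨s, rfl, h⟩ ⟨s', rfl, h'⟩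
        rw [h] at h'
        rw [(τ (Sum.inl j))⁻¹.injective (hemb (some j) h')])
    exact ⟨π, fun s => hπ _ _ ⟨s, rfl, rfl⟩⟩
  choose σC hσC using hσC
  have hσY : ∀ y : Y, ∃ π : Perm V, ∀ s, π (emb none s) = emb none ((ΦY (FreeGroup.of y))⁻¹ s) := by
    intro y
    obtain ⟨π, hπ⟩ := exists_perm_of_rel
      (fun a b : V => ∃ s, a = emb none s ∧ b = emb none ((ΦY (FreeGroup.of y))⁻¹ s))
      (by
        rintro a b c ⟨s, rfl, rfl⟩ ⟨s', h, rfl⟩
        rw [hemb none h])
      (by
        rintro a b c ⟨s, rfl, h⟩ ⟨s', rfl, h'⟩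
        rw [h] at h'
        rw [(ΦY (FreeGroup.of y))⁻¹.injective (hemb none h')])
    exact ⟨π, fun s => hπ _ _ ⟨s, rfl, rfl⟩⟩
  choose σY hσY using hσY
  let σX : X → Perm V := fun x => (ΦX (FreeGroup.of x))⁻¹
  let σ : Al X J Y → Perm V := Sum.elim σX (Sum.elim σC σY)
  let S : Option J → Set V := fun j => Set.range (emb j)
  have hrunX : ∀ (L : List (X × Bool)) (v : V), run σ v (L.map (eX J Y)) =
      (ΦX (FreeGroup.mk L))⁻¹ v := by
    intro L v
    rw [run_map (eX J Y) σ σX (fun v l => rfl), run_of_hom]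
  have hrunY : ∀ (L : List (Y × Bool)) (s : S'), run σ (emb none s) (L.map (eY X J)) =
      emb none ((ΦY (FreeGroup.mk L))⁻¹ s) := by
    intro L s
    rw [← run_of_hom]
    induction L generalizing s with
    | nil => rfl
    | cons l L ih =>
      rw [List.map_cons, run_cons, run_cons]
      have h3 : step σ (emb none s) (eY X J l) =
          emb none (step (fun a => (ΦY (FreeGroup.of a))⁻¹) s l) := by
        rcases l with ⟨y, b⟩
        cases b with
        | true => exact hσY y s
        | false =>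
          change (σY y)⁻¹ (emb none s) = emb none (((ΦY (FreeGroup.of y))⁻¹)⁻¹ s)
          rw [Perm.inv_eq_iff_eq, hσY]
          simp
      rw [h3, ih]
  have hcomp : Compat σ S u := by
    refine ⟨?_, ?_, ?_⟩
    · intro j v
      rw [hrunX]
      exact range_iff (ΦX (FreeGroup.mk (u j)))⁻¹ (emb j) (emb j) (dbl (f j)) (hU j) v
    · intro j v
      exact range_iff (σC j) (emb none) (emb (some j)) ((τ (Sum.inl j))⁻¹) (hσC j) v
    · intro y v
      exact range_iff (σY y) (emb none) (emb none) ((ΦY (FreeGroup.of y))⁻¹) (hσY y) v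
  -- missing turns
  have huniq : ∀ j (w : W) i i', i < (u j).length → i' < (u j).length →
      bad j (ψ (FreeGroup.mk ((u j).take i)) * w.1, w.2) →
      bad j (ψ (FreeGroup.mk ((u j).take i')) * w.1, w.2) → i = i' := by
    intro j w i i' hi hi' hb hb'
    refine hψ2 j i i' hi hi' ?_
    have h3 := Subgroup.mul_mem _ hb.2.2 (Subgroup.inv_mem _ hb'.2.2)
    have h4 : (ψ (FreeGroup.mk ((u j).take i)) * w.1) *
        (ψ (FreeGroup.mk ((u j).take i')) * w.1)⁻¹ =
        ψ (FreeGroup.mk ((u j).take i)) * (ψ (FreeGroup.mk ((u j).take i')))⁻¹ := by group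
    rwa [h4] at h3
  have hpre : ∀ j (b : Bool) (w : W) i, ¬ bad j (ψ (FreeGroup.mk ((u j).take i)) * w.1, w.2) →
      ∃ s ∈ S j, run σ s (((u j).take i).map (eX J Y)) = some (b, w) := by
    intro j b w i hb
    refine ⟨some (b, (ψ (FreeGroup.mk ((u j).take i)) * w.1, w.2)), (hembr j b _).2 hb, ?_⟩
    rw [hrunX, hΦX]
    simp
  have hmiss : ∀ v, ∃ t₀ : Option J × ℕ, ∀ j i, i < (u j).length → (j, i) ≠ t₀ →
      ∃ s ∈ S j, run σ s (((u j).take i).map (eX J Y)) = v := by
    rintro (_ | ⟨b, w⟩)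
    · refine ⟨(none, 0), fun j i _ _ => ⟨none, ⟨none, rfl⟩, ?_⟩⟩
      rw [hrunX, hΦXn]
    · by_cases hex : ∃ i, i < (u w.2.1).length ∧
        bad w.2.1 (ψ (FreeGroup.mk ((u w.2.1).take i)) * w.1, w.2)
      · obtain ⟨i₀, hi₀, hb₀⟩ := hex
        refine ⟨(w.2.1, i₀), fun j i hi hji => hpre j b w i ?_⟩
        intro hb
        have hj : w.2.1 = j := hb.1
        subst hj
        exact hji (by rw [huniq _ w i i₀ hi hi₀ hb hb₀])
      · refine ⟨(none, 0), fun j i hi _ => hpre j b w i ?_⟩
        intro hb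
        have hj : w.2.1 = j := hb.1
        subst hj
        exact hex ⟨i, hi, hb⟩
  -- the action of the whole word
  let F : J ⊕ Unit → Perm S' := fun k => τ k * qq k * (τ k)⁻¹
  have hFj : ∀ (j : J) (s : S'), run σ (emb none s)
      (eC X Y j true :: ((u (some j)).map (eX J Y) ++ [eC X Y j false])) =
      emb none (F (Sum.inl j) s) := by
    intro j s
    rw [run_cons, run_append]
    have h3 : step σ (emb none s) (eC X Y j true) = emb (some j) ((τ (Sum.inl j))⁻¹ s) := hσC j s
    rw [h3, hrunX, hU]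
    change (σC j)⁻¹ (emb (some j) (dbl (f (some j)) ((τ (Sum.inl j))⁻¹ s))) = _
    rw [Perm.inv_eq_iff_eq, hσC]
    simp [F, qq]
  have hFρ : ρ ≠ [] → ∀ s, run σ (emb none s) (ρ.map (eY X J)) = emb none (F (Sum.inr ()) s) := by
    intro hρne s
    rw [hrunY]
    have h3 : (ΦY (FreeGroup.mk ρ))⁻¹ = F (Sum.inr ()) := by
      have h4 : ΦY (FreeGroup.mk ρ) = τ (Sum.inr ()) * dbl (trB (FreeGroup.mk ρ)) *
        (τ (Sum.inr ()))⁻¹ := rfl
      have h5 : qq (Sum.inr ()) = (dbl (trB (FreeGroup.mk ρ)))⁻¹ := by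
        change (if ρ = [] then dbl (f none) else dbl (trB (FreeGroup.mk ρ))⁻¹ : Perm S') = _
        rw [if_neg hρne, dbl_inv]
      rw [h4]
      change _ = τ (Sum.inr ()) * qq (Sum.inr ()) * (τ (Sum.inr ()))⁻¹
      rw [h5]
      group
    rw [h3]
  have htail : ∀ (js' : List J) (s : S'), run σ (emb none s) (tailWord u ρ js') =
      emb none (((js'.map Sum.inl ++ (if ρ = [] then [] else [Sum.inr ()])).map F).foldl
        (fun (s : S') (q : Perm S') => q s) s) := by
    intro js'
    induction js' with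
    | nil =>
      intro s
      rw [tailWord]
      by_cases h : ρ = []
      · simp [h]
      · rw [hFρ h]
        simp [h]
    | cons j js' ih =>
      intro s
      have h3 : tailWord u ρ (j :: js') =
          (eC X Y j true :: ((u (some j)).map (eX J Y) ++ [eC X Y j false])) ++
            tailWord u ρ js' := by
        rw [tailWord]; simp
      rw [h3, run_append, hFj, ih]
      simp
  set Pi0 : Perm S' := (ks.map F).foldl (fun acc q' => q' * acc) (dbl (f none)) with hPi0
  have hω : ∀ s, run σ (emb none s) (formWord u ρ js) = emb none (Pi0 s) := by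
    intro s
    rw [formWord, run_append, hrunX, hU, htail, hPi0, foldl_perm]
  have hωpow : ∀ (e : ℕ) s, run σ (emb none s) (List.replicate e (formWord u ρ js)).flatten =
      emb none ((Pi0 ^ e) s) := by
    intro e
    induction e with
    | zero => intro s; simp
    | succ e ih =>
      intro s
      rw [List.replicate_succ, List.flatten_cons, run_append, hω, ih, pow_succ, Perm.mul_apply]
  have htr : ∀ s ∈ S none, ∀ s' ∈ S none, ∃ e,
      run σ s (List.replicate e (formWord u ρ js)).flatten = s' := by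
    rintro _ ⟨s, rfl⟩ _ ⟨s', rfl⟩
    obtain ⟨e, -, he⟩ := (hτ s s').exists_pow_eq'
    refine ⟨e, ?_⟩
    rw [hωpow]
    exact congrArg (emb none) he
  -- leaving `S none`
  have hout : ∃ s ∈ S none, ∃ L, run σ s L ∉ S none := by
    have hb0 : bad none ((1 : Q), ((none : Option J), (⟨0, hR0pos⟩ : Fin R0))) :=
      ⟨rfl, hdivpos none, Subgroup.one_mem _⟩
    cases js with
    | cons j js =>
      let v : V := some (true, ((1 : Q), ((none : Option J), (⟨0, hR0pos⟩ : Fin R0))))
      have hv1 : v ∈ S (some j) := by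
        refine (hembr (some j) true _).2 ?_
        intro hb
        exact absurd hb.1 (by simp)
      have hv2 : v ∉ S none := fun h => (hembr none true _).1 h hb0
      refine ⟨(σC j)⁻¹ v, ?_, [eC X Y j true], ?_⟩
      · rw [hcomp.hc j]
        change σC j ((σC j)⁻¹ v) ∈ S (some j)
        rw [appInv]; exact hv1
      · change σC j ((σC j)⁻¹ v) ∉ S none
        rw [appInv]; exact hv2
    | nil =>
      have hJ : IsEmpty J := ⟨fun j => by simpa using hall j⟩
      have hlen : 1 < (u none).length := by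
        by_contra hcon
        have h3 : ∀ a b : X × Bool, (a = b ↔ b = b) := by
          intro a b
          refine h1 (none, 0) (none, 0) (fun c => c = b) ?_ a b
          intro j i a' b' hab hji
          exfalso
          rcases j with _ | j
          · obtain ⟨hlt, -⟩ := hab.rotate
            exact hji (by rw [show i = 0 by omega])
          · exact hJ.elim j
        obtain ⟨a, b, -⟩ := exists_turn_zero (hu0 none)
        have := (h3 (a.1, true) (a.1, false)).2 rfl
        simp at this
      let w₁ : W := ((ψ (FreeGroup.mk ((u none).take 1)))⁻¹, ((none : Option J),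
        (⟨0, hR0pos⟩ : Fin R0)))
      have hw1 : ¬ bad none w₁ := by
        intro hb
        have h3 := huniq none w₁ 0 1 (by omega) hlen (by simpa [← FreeGroup.one_eq_mk] using hb)
          (by simpa [w₁] using hb0)
        omega
      refine ⟨some (true, w₁), (hembr none true _).2 hw1,
        (FreeGroup.invRev ((u none).take 1)).map (eX J Y), ?_⟩
      rw [hrunX, hΦX, ← FreeGroup.inv_mk, map_inv, inv_inv]
      intro h
      refine (hembr none true _).1 h ?_
      simpa [w₁] using hb0
  exact not_TProp_form js hnd hall hne hcomp hcyc hu0 h1 h2 hρcyc.1 hρ hY hmiss htr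
    (v0 := none) ⟨none, rfl⟩ hout

end H35.Tape
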