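import Mathlib
import Pool.Agent.H35.Tape.Extremal
import Pool.Agent.H35.Tape.OmegaBuild

/-!
# Extremal forms with at least two factors do not exist
-/

set_option linter.unusedSectionVars false

namespace H35.Tape

section conn

variable {Y₁ Y₂ : Type}

/-- inclusion of letters -/
def jl (Y₁ Y₂ : Type) (l : Y₁ × Bool) : (Y₁ ⊕ Y₂) × Bool := (Sum.inl l.1, l.2)
/-- inclusion of letters -/
def jr (Y₁ Y₂ : Type) (l : Y₂ × Bool) : (Y₁ ⊕ Y₂) × Bool := (Sum.inr l.1, l.2)

theorem jl_injective : Function.Injective (jl Y₁ Y₂) := by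
  rintro ⟨a, b⟩ ⟨c, d⟩ h
  simp only [jl, Prod.mk.injEq, Sum.inl.injEq] at h
  rw [h.1, h.2]

theorem jr_injective : Function.Injective (jr Y₁ Y₂) := by
  rintro ⟨a, b⟩ ⟨c, d⟩ h
  simp only [jr, Prod.mk.injEq, Sum.inr.injEq] at h
  rw [h.1, h.2]

/-- The condition on the remaining word. -/
def GoodW {Y : Type} (ρ : List (Y × Bool)) : Prop :=
  FreeGroup.IsCyclicallyReduced ρ ∧ (ρ = [] → IsEmpty Y) ∧ (ρ ≠ [] → ConnWord ρ)

theorem turn_in {Y Y' : Type} (g : Y × Bool → Y' × Bool) (hg : ∀ a, g (linv a) = linv (g a))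
    {w : List (Y × Bool)} (P Q : List (Y' × Bool)) {i : ℕ} {a b : Y × Bool}
    (h : IsTurn w i a b) (hi : i ≠ 0) :
    ∃ i', i' ≠ 0 ∧ IsTurn (P ++ (w.map g ++ Q)) i' (g a) (g b) := by
  obtain ⟨e1, -⟩ := h.split hi
  have h1 : P ++ (w.map g ++ Q) = (P ++ (w.take (i - 1)).map g) ++
      g (linv a) :: g b :: ((w.drop (i + 1)).map g ++ Q) := by
    conv_lhs => rw [e1]
    simp
  have h2 := isTurn_of_split h1
  rw [hg, linv_linv] at h2
  exact ⟨_, by omega, h2⟩

theorem isReduced_map {Y Y' : Type} (f : Y → Y') (hf : Function.Injective f)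
    {w : List (Y × Bool)} (hw : FreeGroup.IsReduced w) :
    FreeGroup.IsReduced (w.map fun l => (f l.1, l.2)) := by
  rw [FreeGroup.IsReduced, List.isChain_map]
  refine List.IsChain.imp ?_ hw
  rintro ⟨a, b⟩ ⟨c, d⟩ h h'
  exact h (hf h')

theorem goodW_combine {ρ₁ : List (Y₁ × Bool)} {ρ₂ : List (Y₂ × Bool)} (h₁ : GoodW ρ₁)
    (h₂ : GoodW ρ₂) : GoodW (ρ₁.map (jl Y₁ Y₂) ++ ρ₂.map (jr Y₁ Y₂)) := by
  have hr₁ : FreeGroup.IsReduced (ρ₁.map (jl Y₁ Y₂)) := isReduced_map _ Sum.inl_injective h₁.1.1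
  have hr₂ : FreeGroup.IsReduced (ρ₂.map (jr Y₁ Y₂)) := isReduced_map _ Sum.inr_injective h₂.1.1
  refine ⟨⟨?_, ?_⟩, ?_, ?_⟩
  · rw [isReduced_append_iff]
    refine ⟨hr₁, hr₂, ?_⟩
    intro a ha b hb
    rw [Option.mem_def, List.getLast?_map, Option.map_eq_some_iff] at ha
    rw [Option.mem_def, List.head?_map, Option.map_eq_some_iff] at hb
    obtain ⟨a', -, rfl⟩ := ha
    obtain ⟨b', -, rfl⟩ := hb
    simp [jl, jr, linv]
  · intro a ha b hb
    rw [Option.mem_def, List.getLast?_append, List.getLast?_map, List.getLast?_map] at ha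
    rw [Option.mem_def, List.head?_append, List.head?_map, List.head?_map] at hb
    cases hx : ρ₂.getLast? with
    | none =>
      have h2 : ρ₂ = [] := List.getLast?_eq_none_iff.1 hx
      subst h2
      simp only [List.getLast?_nil, Option.map_none, Option.none_or, List.head?_nil,
        Option.or_none] at ha hb
      rw [Option.map_eq_some_iff] at ha hb
      obtain ⟨a', ha', rfl⟩ := ha
      obtain ⟨b', hb', rfl⟩ := hb
      intro hab
      exact h₁.1.2 a' ha' b' hb' (Sum.inl_injective hab)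
    | some y =>
      rw [hx] at ha
      simp only [Option.map_some, Option.some_or, Option.some.injEq] at ha
      subst ha
      cases hy : ρ₁.head? with
      | none =>
        have h1 : ρ₁ = [] := List.head?_eq_none_iff.1 hy
        subst h1
        simp only [List.head?_nil, Option.map_none, Option.none_or] at hb
        rw [Option.map_eq_some_iff] at hb
        obtain ⟨b', hb', rfl⟩ := hb
        intro hab
        exact h₂.1.2 y hx b' hb' (Sum.inr_injective hab)
      | some z =>
        rw [hy] at hb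
        simp only [Option.map_some, Option.some_or, Option.some.injEq] at hb
        subst hb
        intro hab
        simp [jl, jr] at hab
  · intro h
    rw [List.append_eq_nil_iff, List.map_eq_nil_iff, List.map_eq_nil_iff] at h
    have i1 := h₁.2.1 h.1
    have i2 := h₂.2.1 h.2
    exact inferInstance
  · intro hne
    by_cases e1 : ρ₁ = []
    · have i1 := h₁.2.1 e1
      subst e1
      have e2 : ρ₂ ≠ [] := by
        rintro rfl; exact hne rfl
      obtain ⟨p, q, hc, hp, hq⟩ := h₂.2.2 e2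
      refine ⟨jr Y₁ Y₂ p, jr Y₁ Y₂ q, ?_, ?_, ?_⟩
      · have h3 := hc.image (jr Y₁ Y₂) jr_injective
          (R' := fun a b => ∃ i, i ≠ 0 ∧ IsTurn (([] : List (Y₁ × Bool)).map (jl Y₁ Y₂) ++
            ρ₂.map (jr Y₁ Y₂)) i a b) (by
            rintro a b ⟨i, hi, hab⟩
            have := turn_in (jr Y₁ Y₂) (fun _ => rfl) [] [] hab hi
            simpa using this)
        have h4 : jr Y₁ Y₂ '' Set.univ = Set.univ := by
          rw [Set.image_univ]
          ext ⟨y | y, b⟩
          · exact isEmptyElim y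
          · simp only [Set.mem_range, Set.mem_univ, iff_true]
            exact ⟨(y, b), rfl⟩
        rw [h4] at h3
        exact h3
      · simp [hp]
      · simp [hq]
    by_cases e2 : ρ₂ = []
    · have i2 := h₂.2.1 e2
      subst e2
      obtain ⟨p, q, hc, hp, hq⟩ := h₁.2.2 e1
      refine ⟨jl Y₁ Y₂ p, jl Y₁ Y₂ q, ?_, ?_, ?_⟩
      · have h3 := hc.image (jl Y₁ Y₂) jl_injective
          (R' := fun a b => ∃ i, i ≠ 0 ∧ IsTurn (ρ₁.map (jl Y₁ Y₂) ++
            ([] : List (Y₂ × Bool)).map (jr Y₁ Y₂)) i a b) (by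
            rintro a b ⟨i, hi, hab⟩
            have := turn_in (jl Y₁ Y₂) (fun _ => rfl) [] [] hab hi
            simpa using this)
        have h4 : jl Y₁ Y₂ '' Set.univ = Set.univ := by
          rw [Set.image_univ]
          ext ⟨y | y, b⟩
          · simp only [Set.mem_range, Set.mem_univ, iff_true]
            exact ⟨(y, b), rfl⟩
          · exact isEmptyElim y
        rw [h4] at h3
        exact h3
      · simp [hp]
      · simp [hq]
    obtain ⟨p₁, q₁, hc₁, hp₁, hq₁⟩ := h₁.2.2 e1
    obtain ⟨p₂, q₂, hc₂, hp₂, hq₂⟩ := h₂.2.2 e2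
    refine ⟨jl Y₁ Y₂ p₁, jr Y₁ Y₂ q₂, ?_, ?_, ?_⟩
    · set R' : (Y₁ ⊕ Y₂) × Bool → (Y₁ ⊕ Y₂) × Bool → Prop :=
        fun a b => ∃ i, i ≠ 0 ∧ IsTurn (ρ₁.map (jl Y₁ Y₂) ++ ρ₂.map (jr Y₁ Y₂)) i a b
      have h3 := hc₁.image (jl Y₁ Y₂) jl_injective (R' := R') (by
            rintro a b ⟨i, hi, hab⟩
            obtain ⟨i', hi', h⟩ :=
              turn_in (jl Y₁ Y₂) (fun _ => rfl) [] (ρ₂.map (jr Y₁ Y₂)) hab hi
            exact ⟨i', hi', by simpa using h⟩)
      have h4 := hc₂.image (jr Y₁ Y₂) jr_injective (R' := R') (by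
            rintro a b ⟨i, hi, hab⟩
            obtain ⟨i', hi', h⟩ :=
              turn_in (jr Y₁ Y₂) (fun _ => rfl) (ρ₁.map (jl Y₁ Y₂)) [] hab hi
            exact ⟨i', hi', by simpa using h⟩)
      have h5 := h3.append h4 (by
        rw [Set.disjoint_left]
        rintro _ ⟨x, -, rfl⟩ ⟨y, -, hy⟩
        simp [jl, jr] at hy) (by
        obtain ⟨M, hM⟩ : ∃ M, ρ₂ = p₂ :: M := by
          cases ρ₂ with
          | nil => exact absurd rfl e2
          | cons a M => simp only [List.head?_cons, Option.some.injEq] at hp₂; exact ⟨M, by rw [hp₂]⟩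
        obtain ⟨N, hN⟩ : ∃ N, ρ₁ = N ++ [q₁] := by
          rcases List.eq_nil_or_concat' ρ₁ with h | ⟨N, x, hx⟩
          · exact absurd h e1
          · rw [hx, List.getLast?_append] at hq₁
            simp only [List.getLast?_singleton, Option.some_or, Option.some.injEq] at hq₁
            exact ⟨N, by rw [hx, hq₁]⟩
        have h6 : ρ₁.map (jl Y₁ Y₂) ++ ρ₂.map (jr Y₁ Y₂) =
            N.map (jl Y₁ Y₂) ++ jl Y₁ Y₂ q₁ :: jr Y₁ Y₂ p₂ :: M.map (jr Y₁ Y₂) := by
          rw [hM, hN]; simp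
        exact ⟨_, by omega, isTurn_of_split h6⟩)
      have h7 : jl Y₁ Y₂ '' Set.univ ∪ jr Y₁ Y₂ '' Set.univ = Set.univ := by
        rw [Set.image_univ, Set.image_univ]
        ext ⟨y | y, b⟩
        · simp only [Set.mem_union, Set.mem_range, Set.mem_univ, iff_true]
          exact Or.inl ⟨(y, b), rfl⟩
        · simp only [Set.mem_union, Set.mem_range, Set.mem_univ, iff_true]
          exact Or.inr ⟨(y, b), rfl⟩
      rw [h7] at h5
      exact h5
    · simp [hp₁]
    · simp [hq₂]

theorem goodW_sq : GoodW (Y := Unit) [((), true), ((), true)] := by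
  refine ⟨⟨by simp [FreeGroup.IsReduced], by simp⟩, by simp, fun _ => ?_⟩
  refine ⟨((), true), ((), true), ⟨Set.mem_univ _, Set.mem_univ _, ?_, ?_⟩, rfl, rfl⟩
  · intro c hc
    have h1 : c ((), false) ↔ c ((), true) :=
      hc _ (Set.mem_univ _) _ (Set.mem_univ _) ⟨1, by simp, by simp [IsTurn, linv]⟩
    rintro ⟨⟨⟩, a⟩ - ⟨⟨⟩, b⟩ -
    cases a <;> cases b <;> tauto
  · rintro ε c k - hp hq ⟨⟨⟩, b⟩ - hz
    cases b with
    | true => exact hp hz
    | false => exact hq hz

theorem goodW_comm : GoodW (Y := Bool) [(true, true), (false, true), (true, false),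
    (false, false)] := by
  refine ⟨⟨by simp [FreeGroup.IsReduced], by simp⟩, by simp, fun _ => ?_⟩
  have t1 : IsTurn [(true, true), (false, true), (true, false), (false, false)] 1
    (true, false) (false, true) := by simp [IsTurn, linv]
  have t2 : IsTurn [(true, true), (false, true), (true, false), (false, false)] 2
    (false, false) (true, false) := by simp [IsTurn, linv]
  have t3 : IsTurn [(true, true), (false, true), (true, false), (false, false)] 3
    (true, true) (false, false) := by simp [IsTurn, linv]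
  refine ⟨(true, true), (false, false), ⟨Set.mem_univ _, Set.mem_univ _, ?_, ?_⟩, rfl, rfl⟩
  · intro c hc
    have h1 := hc _ (Set.mem_univ _) _ (Set.mem_univ _) ⟨1, by simp, t1⟩
    have h2 := hc _ (Set.mem_univ _) _ (Set.mem_univ _) ⟨2, by simp, t2⟩
    have h3 := hc _ (Set.mem_univ _) _ (Set.mem_univ _) ⟨3, by simp, t3⟩
    rintro ⟨a, a'⟩ - ⟨b, b'⟩ -
    cases a <;> cases a' <;> cases b <;> cases b' <;> tauto
  · intro ε c k hc hp hq z _ hz
    have h1 := hc _ (Set.mem_univ _) _ (Set.mem_univ _) ⟨1, by simp, t1⟩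
    have h2 := hc _ (Set.mem_univ _) _ (Set.mem_univ _) ⟨2, by simp, t2⟩
    have h3 := hc _ (Set.mem_univ _) _ (Set.mem_univ _) ⟨3, by simp, t3⟩
    have hq' : (false, true) ≠ ε → (c (false, true) ↔ k) := hq
    rcases ε with ⟨e, e'⟩
    rcases z with ⟨a, a'⟩
    cases e <;> cases e' <;> cases a <;> cases a' <;> simp_all

end conn

section lists

variable {F : Type} [Group F]

/-- the family `g` enumerates the list `L` -/
def Lists {ι : Type} (g : ι → F) (L : List F) : Prop :=
  ∃ E : ι ≃ Fin L.length, ∀ i, L.get (E i) = g i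

theorem Lists.ofFn {n : ℕ} (f : Fin n → F) : Lists f (List.ofFn f) :=
  ⟨finCongr (List.length_ofFn (f := f)).symm, fun i => by simp⟩

theorem Lists.append {ι κ : Type} {g : ι → F} {g' : κ → F} {L L' : List F} (h : Lists g L)
    (h' : Lists g' L') : Lists (Sum.elim g g') (L ++ L') := by
  obtain ⟨E, hE⟩ := h
  obtain ⟨E', hE'⟩ := h'
  refine ⟨((Equiv.sumCongr E E').trans finSumFinEquiv).trans
    (finCongr (List.length_append (as := L) (bs := L')).symm), ?_⟩
  rintro (i | i)
  · simp only [Sum.elim_inl]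
    rw [← hE]
    simp [List.getElem_append_left]
  · simp only [Sum.elim_inr]
    rw [← hE']
    simp [List.getElem_append_right]

theorem Lists.isB {ι : Type} {g : ι → F} {L : List F} (h : Lists g L) (hL : IsBasis L) :
    IsB g := by
  obtain ⟨E, hE⟩ := h
  have : g = (fun i => L.get i) ∘ E := by funext i; exact (hE i).symm
  rw [this]
  exact hL.comp_equiv E

theorem exists_blockWord (bl : List (Block F)) :
    ∃ (Y : Type) (_ : Fintype Y) (e : Y → F) (ρ : List (Y × Bool)),
      Lists e (bl.flatMap Block.letters) ∧ ev e ρ = (bl.map Block.val).prod ∧ GoodW ρ ∧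
      (bl ≠ [] → ρ ≠ []) := by
  have evjl : ∀ {Y₁ Y₂ : Type} (e₁ : Y₁ → F) (e₂ : Y₂ → F) (w : List (Y₁ × Bool)),
      ev (Sum.elim e₁ e₂) (w.map (jl Y₁ Y₂)) = ev e₁ w := by
    intro Y₁ Y₂ e₁ e₂ w
    induction w with
    | nil => simp
    | cons l w ih => rw [List.map_cons, ev_cons, ev_cons, ih]; rfl
  have evjr : ∀ {Y₁ Y₂ : Type} (e₁ : Y₁ → F) (e₂ : Y₂ → F) (w : List (Y₂ × Bool)),
      ev (Sum.elim e₁ e₂) (w.map (jr Y₁ Y₂)) = ev e₂ w := by
    intro Y₁ Y₂ e₁ e₂ w
    induction w with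
    | nil => simp
    | cons l w ih => rw [List.map_cons, ev_cons, ev_cons, ih]; rfl
  induction bl with
  | nil =>
    refine ⟨Empty, inferInstance, fun y => y.elim, [], ⟨?_, ?_⟩, by simp, ?_, by simp⟩
    · exact (Equiv.equivOfIsEmpty Empty (Fin 0))
    · intro i; exact i.elim
    · exact ⟨⟨by simp [FreeGroup.IsReduced], by simp⟩, fun _ => inferInstance, fun h => absurd rfl h⟩
  | cons B bl ih =>
    obtain ⟨Y, _, e, ρ, h1, h2, h3, -⟩ := ih
    cases B with
    | sq z =>
      refine ⟨Unit ⊕ Y, inferInstance, Sum.elim (fun _ => z) e,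
        ([((), true), ((), true)] : List (Unit × Bool)).map (jl Unit Y) ++ ρ.map (jr Unit Y),
        ?_, ?_, goodW_combine goodW_sq h3, by simp⟩
      · rw [List.flatMap_cons]
        refine Lists.append (L := [z]) ⟨?_, ?_⟩ h1
        · exact (Equiv.ofUnique Unit (Fin 1))
        · intro i; rfl
      · rw [ev_append, evjl, evjr, h2, List.map_cons, List.prod_cons]
        congr 1
        simp [ev_cons, evl, Block.val]
    | comm x y =>
      refine ⟨Bool ⊕ Y, inferInstance, Sum.elim (fun t => if t then x else y) e,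
        ([(true, true), (false, true), (true, false), (false, false)] :
          List (Bool × Bool)).map (jl Bool Y) ++ ρ.map (jr Bool Y),
        ?_, ?_, goodW_combine goodW_comm h3, by simp⟩
      · rw [List.flatMap_cons]
        refine Lists.append (L := [x, y]) ⟨?_, ?_⟩ h1
        · exact ⟨fun t => if t then 0 else 1, fun i => i = 0, by intro t; cases t <;> simp,
            by intro i; fin_cases i <;> simp⟩
        · intro t; cases t <;> rfl
      · rw [ev_append, evjl, evjr, h2, List.map_cons, List.prod_cons]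
        congr 1
        simp [ev_cons, evl, Block.val, mul_assoc]

end lists

end H35.Tape
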