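import Mathlib
import Pool.Agent.H35.Tape.Multi

/-!
# Extremal forms with at least two factors do not exist
-/

set_option linter.unusedSectionVars false

namespace H35.Tape

variable {F : Type} [Group F] {ω : F}

section evs

variable {X J Y : Type} (b : X → F) (c : J → F) (e : Y → F)

theorem ev_map_eX (w : List (X × Bool)) :
    ev (Sum.elim b (Sum.elim c e)) (w.map (eX J Y)) = ev b w := by
  induction w with
  | nil => simp
  | cons l w ih => rw [List.map_cons, ev_cons, ev_cons, ih]; rfl

theorem ev_map_eY (w : List (Y × Bool)) :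
    ev (Sum.elim b (Sum.elim c e)) (w.map (eY X J)) = ev e w := by
  induction w with
  | nil => simp
  | cons l w ih => rw [List.map_cons, ev_cons, ev_cons, ih]; rfl

theorem ev_tailWord (u : Option J → List (X × Bool)) (ρ : List (Y × Bool)) (js : List J) :
    ev (Sum.elim b (Sum.elim c e)) (tailWord u ρ js) =
      (js.map fun j => c j * ev b (u (some j)) * (c j)⁻¹).prod * ev e ρ := by
  induction js with
  | nil => rw [tailWord, ev_map_eY, List.map_nil, List.prod_nil, one_mul]
  | cons j js ih =>
    rw [tailWord, ev_cons, ev_append, ev_map_eX, ev_cons, ih, List.map_cons, List.prod_cons]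
    have h1 : evl (Sum.elim b (Sum.elim c e)) (eC X Y j true) = c j := rfl
    have h2 : evl (Sum.elim b (Sum.elim c e)) (eC X Y j false) = (c j)⁻¹ := rfl
    rw [h1, h2]
    group

theorem ev_formWord (u : Option J → List (X × Bool)) (ρ : List (Y × Bool)) (js : List J) :
    ev (Sum.elim b (Sum.elim c e)) (formWord u ρ js) =
      ev b (u none) * ((js.map fun j => c j * ev b (u (some j)) * (c j)⁻¹).prod * ev e ρ) := by
  rw [formWord, ev_append, ev_map_eX, ev_tailWord]

end evs

theorem ev_jl {Y₁ Y₂ : Type} (e₁ : Y₁ → F) (e₂ : Y₂ → F) (w : List (Y₁ × Bool)) :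
    ev (Sum.elim e₁ e₂) (w.map (jl Y₁ Y₂)) = ev e₁ w := by
  induction w with
  | nil => simp
  | cons l w ih => rw [List.map_cons, ev_cons, ev_cons, ih]; rfl

theorem ev_jr {Y₁ Y₂ : Type} (e₁ : Y₁ → F) (e₂ : Y₂ → F) (w : List (Y₂ × Bool)) :
    ev (Sum.elim e₁ e₂) (w.map (jr Y₁ Y₂)) = ev e₂ w := by
  induction w with
  | nil => simp
  | cons l w ih => rw [List.map_cons, ev_cons, ev_cons, ih]; rfl

variable {r q N k s : ℕ} {b : Fin r → F} {c : Fin k → F}
    {u : Option (Fin k) → List (Fin r × Bool)} {bb : Fin s → F} {wb : List (Fin s × Bool)}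
    {bl : List (Block F)}

theorem not_good_multi (hT : TProp ω) (hnp : ¬ IsPrim ω) (hs : ¬ Surface ω)
    (h : Good ω r q N k s b c u bb wb bl) (hne : k ≠ 0 ∨ s ≠ 0 ∨ bl ≠ []) : False := by
  obtain ⟨Yb, _, e, ρb, hL, hev, hG, hρb⟩ := exists_blockWord bl
  have hGw : GoodW wb := by
    refine ⟨h.cycB, fun hwb => ?_, fun hwb => ?_⟩
    · by_cases hs0 : s = 0
      · subst hs0; exact inferInstance
      · exact absurd hwb (h.connB hT hnp hs0).1
    · by_cases hs0 : s = 0
      · exact absurd (h.wb_nil hs0) hwb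
      · exact (h.connB hT hnp hs0).2
  set ρ : List ((Fin s ⊕ Yb) × Bool) := wb.map (jl _ _) ++ ρb.map (jr _ _) with hρ
  have hGρ : GoodW ρ := goodW_combine hGw hG
  have hB : IsB (Sum.elim b (Sum.elim c (Sum.elim bb e))) :=
    (Lists.append (Lists.ofFn b) (Lists.append (Lists.ofFn c)
      (Lists.append (Lists.ofFn bb) hL))).isB h.form.basis
  have hval : ev (Sum.elim b (Sum.elim c (Sum.elim bb e))) (formWord u ρ (List.finRange k)) =
      ev b (u none) * ((List.ofFn fun j => c j * ev b (u (some j)) * (c j)⁻¹).prod *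
        (ev bb wb * (bl.map Block.val).prod)) := by
    rw [ev_formWord, hρ, ev_append, ev_jl, ev_jr, hev, List.ofFn_eq_map]
  have hT1 : TProp (FreeGroup.mk (formWord u ρ (List.finRange k))) := by
    have h1 := hT.conj h.form.conj
    rw [← hval] at h1
    let E := MulEquiv.ofBijective (FreeGroup.lift (Sum.elim b (Sum.elim c (Sum.elim bb e)))) hB
    have h2 := h1.map E.symm
    have h3 : E.symm (ev (Sum.elim b (Sum.elim c (Sum.elim bb e)))
        (formWord u ρ (List.finRange k))) = FreeGroup.mk (formWord u ρ (List.finRange k)) := by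
      rw [MulEquiv.symm_apply_eq]
      rfl
    rwa [h3] at h2
  refine not_TProp_rigid u ρ (List.finRange k) (List.nodup_finRange k) (List.mem_finRange) ?_
    h.cyc (h.ne_nil hT hnp) (h.rig1 hT hnp hs) (h.rig2 hT hnp hs) hGρ.1 hGρ.2.2 hGρ.2.1 hT1
  rcases hne with h1 | h1 | h1
  · left
    intro h2
    have := congrArg List.length h2
    rw [List.length_finRange] at this
    exact h1 this
  · right
    rw [hρ]
    intro h2
    rw [List.append_eq_nil_iff, List.map_eq_nil_iff] at h2
    exact (h.connB hT hnp h1).1 h2.1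
  · right
    rw [hρ]
    intro h2
    rw [List.append_eq_nil_iff, List.map_eq_nil_iff, List.map_eq_nil_iff] at h2
    exact hρb h1 h2.2

end H35.Tape
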