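import Mathlib
import Pool.Agent.H35.Tape.Field

/-!
# A rigid word is not a tame element
-/

set_option linter.unusedSectionVars false

namespace H35.Tape

open Polynomial Matrix
open scoped MatrixGroups

/-- the commutator of two rotations -/
def rotComm {X : Type} (w : List (X × Bool)) (i j : ℕ) : FreeGroup X :=
  ((FreeGroup.mk (w.take i))⁻¹ * FreeGroup.mk w * FreeGroup.mk (w.take i)) *
      ((FreeGroup.mk (w.take j))⁻¹ * FreeGroup.mk w * FreeGroup.mk (w.take j)) *
      ((FreeGroup.mk (w.take i))⁻¹ * FreeGroup.mk w * FreeGroup.mk (w.take i))⁻¹ *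
      ((FreeGroup.mk (w.take j))⁻¹ * FreeGroup.mk w * FreeGroup.mk (w.take j))⁻¹

theorem not_TProp_single {X : Type} [Finite X] (w : List (X × Bool))
    (hcyc : FreeGroup.IsCyclicallyReduced w)
    (h1 : Rig1 (fun _ : Unit => w)) (h2 : Rig2 (fun _ : Unit => w))
    (hX : ∃ x y : X, x ≠ y) : ¬ TProp (FreeGroup.mk w) := by
  classical
  intro hT
  have hNP := hT.noPower hX
  set S₀ : Finset (FreeGroup X) := ((Finset.range w.length ×ˢ Finset.range w.length).filter
    (fun p => p.1 ≠ p.2)).image (fun p => rotComm w p.1 p.2) with hS₀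
  set S := insert (FreeGroup.mk w) S₀ with hSdef
  have hS : ∀ g ∈ S, g ≠ 1 := by
    intro g hg
    rw [hSdef, Finset.mem_insert] at hg
    rcases hg with rfl | hg
    · exact hNP.ne_one
    · rw [hS₀, Finset.mem_image] at hg
      obtain ⟨⟨i, j⟩, hij, rfl⟩ := hg
      rw [Finset.mem_filter, Finset.mem_product, Finset.mem_range, Finset.mem_range] at hij
      exact rotations_not_comm hcyc hNP hij.1.1 hij.1.2 hij.2
  obtain ⟨Θ, hΘ⟩ := exists_rep S hS
  have hQ : ∏ g ∈ S, ((Θ g).1.trace) ≠ 0 := by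
    rw [Finset.prod_ne_zero_iff]
    intro g hg h0
    have := hΘ g hg
    rw [h0, natDegree_zero] at this
    omega
  obtain ⟨K, _, _, φ, μ, hchar, hcard, hgen, hτ, hφQ⟩ :=
    exists_point ((Θ (FreeGroup.mk w)).1.trace) (∏ g ∈ S, ((Θ g).1.trace))
      (hΘ _ (Finset.mem_insert_self _ _)) hQ
  let Ψ : FreeGroup X →* SL(2, K) := (Matrix.SpecialLinearGroup.map φ).comp Θ
  have htrace : ∀ g, (Ψ g).1.trace = φ ((Θ g).1.trace) := by
    intro g
    rw [Matrix.trace_fin_two, Matrix.trace_fin_two, map_add]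
    rfl
  refine not_TProp_of_SL hchar hcard Ψ w hcyc h1 h2 hX μ hgen ?_ ?_ hT
  · rw [htrace, hτ]
  · intro i j hi hj hij
    have h3 : rotComm w i j ∈ S := by
      rw [hSdef, Finset.mem_insert, hS₀, Finset.mem_image]
      right
      refine ⟨(i, j), ?_, rfl⟩
      rw [Finset.mem_filter, Finset.mem_product, Finset.mem_range, Finset.mem_range]
      exact ⟨⟨hi, hj⟩, hij⟩
    have h4 : φ ((Θ (rotComm w i j)).1.trace) ≠ 0 := by
      rw [map_prod, Finset.prod_ne_zero_iff] at hφQ
      exact hφQ _ h3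
    have h5 : (2 : K) = 0 := by
      have : CharP K 2 := by rw [← hchar]; exact ringChar.charP K
      exact CharTwo.two_eq_zero
    rw [h5]
    have h6 := htrace (rotComm w i j)
    rw [← h6] at h4
    exact h4

end H35.Tape
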