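import Mathlib
import Pool.Agent.H35.Tape.WForm

/-!
# Normal form of surface elements
-/

set_option linter.unusedSectionVars false

namespace H35.Tape

variable {F : Type*} [Group F]

/-- `ω` is conjugate to the product of the blocks `bl` on a basis. -/
def SL (ω : F) (bl : List (Block F)) : Prop :=
  IsBasis (bl.flatMap Block.letters) ∧ IsConj ω (bl.map Block.val).prod

theorem SL.front {ω : F} {pre post : List (Block F)} {B : Block F}
    (h : SL ω (pre ++ B :: post)) : SL ω (B :: (pre.map (Block.conj (B.val)⁻¹) ++ post)) := by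
  constructor
  · have h1 : IsBasis ((B.letters ++ post.flatMap Block.letters) ++ pre.flatMap Block.letters) := by
      refine h.1.perm ?_
      simp only [List.flatMap_append, List.flatMap_cons]
      classical
      rw [List.perm_iff_count]
      intro a
      simp only [List.count_append, List.count_cons, List.count_nil, List.nil_append,
        List.append_nil]
      omega
    have hB : B.val ∈ cl (B.letters ++ post.flatMap Block.letters) :=
      cl_mono (fun x hx => by simp [hx]) B.val_mem
    have h2 := h1.transv (forall₂_blocks_conj (Subgroup.inv_mem _ hB) pre)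
    refine h2.perm ?_
    simp only [List.flatMap_append, List.flatMap_cons]
    classical
    rw [List.perm_iff_count]
    intro a
    simp only [List.count_append, List.count_cons, List.count_nil, List.nil_append,
      List.append_nil]
    omega
  · have : ((B :: (pre.map (Block.conj (B.val)⁻¹) ++ post)).map Block.val).prod =
        ((pre ++ B :: post).map Block.val).prod := by
      simp only [List.map_cons, List.map_append, List.prod_cons, List.prod_append, blocks_conj]
      group
    rw [this]
    exact h.2

theorem SL.dyck {ω : F} {x y z : F} {R : List (Block F)}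
    (h : SL ω (Block.comm x y :: Block.sq z :: R)) :
    SL ω (Block.sq (x⁻¹ * (z * x * y)) :: Block.sq (y⁻¹ * (z * x)⁻¹) :: Block.sq (z * x) ::
      R.map (Block.conj (x⁻¹ * z))) := by
  set L := R.flatMap Block.letters with hL
  have h0 : IsBasis (z :: ([x, y] ++ L)) := by
    refine h.1.perm ?_
    simp only [List.flatMap_cons, Block.letters, hL]
    classical
    rw [List.perm_iff_count]
    intro a
    simp only [List.count_append, List.count_cons, List.count_nil, List.nil_append,
      List.append_nil]
    omega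
  have h1 := h0.cons_mul (Subgroup.one_mem _) (k := x) (mem_cl_of_mem (by simp))
  rw [one_mul] at h1
  have h2 : IsBasis (x :: ([y, z * x] ++ L)) := by
    refine h1.perm ?_
    classical
    rw [List.perm_iff_count]
    intro a
    simp only [List.count_append, List.count_cons, List.count_nil, List.nil_append,
      List.append_nil]
    omega
  have h3 := h2.cons_inv.cons_mul (Subgroup.one_mem _) (k := z * x * y)
    (Subgroup.mul_mem _ (mem_cl_of_mem (by simp)) (mem_cl_of_mem (by simp)))
  rw [one_mul] at h3
  have h4 : IsBasis (y :: ([x⁻¹ * (z * x * y), z * x] ++ L)) := by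
    refine h3.perm ?_
    classical
    rw [List.perm_iff_count]
    intro a
    simp only [List.count_append, List.count_cons, List.count_nil, List.nil_append,
      List.append_nil]
    omega
  have h5 := h4.cons_inv.cons_mul (Subgroup.one_mem _) (k := (z * x)⁻¹)
    (Subgroup.inv_mem _ (mem_cl_of_mem (by simp)))
  rw [one_mul] at h5
  have h6 : IsBasis ([x⁻¹ * (z * x * y), y⁻¹ * (z * x)⁻¹, z * x] ++ L) := by
    refine h5.perm ?_
    classical
    rw [List.perm_iff_count]
    intro a
    simp only [List.count_append, List.count_cons, List.count_nil, List.nil_append,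
      List.append_nil]
    omega
  have hg : x⁻¹ * z ∈ cl [x⁻¹ * (z * x * y), y⁻¹ * (z * x)⁻¹, z * x] := by
    have e1 : x⁻¹ * (z * x * y) ∈ cl [x⁻¹ * (z * x * y), y⁻¹ * (z * x)⁻¹, z * x] :=
      mem_cl_of_mem (by simp)
    have e2 : y⁻¹ * (z * x)⁻¹ ∈ cl [x⁻¹ * (z * x * y), y⁻¹ * (z * x)⁻¹, z * x] :=
      mem_cl_of_mem (by simp)
    have e3 : z * x ∈ cl [x⁻¹ * (z * x * y), y⁻¹ * (z * x)⁻¹, z * x] :=
      mem_cl_of_mem (by simp)
    have e4 := Subgroup.mul_mem _ (Subgroup.mul_mem _ (Subgroup.mul_mem _ e1 e2) e3)
      (Subgroup.mul_mem _ e1 e2)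
    have e5 : (x⁻¹ * (z * x * y)) * (y⁻¹ * (z * x)⁻¹) * (z * x) *
        ((x⁻¹ * (z * x * y)) * (y⁻¹ * (z * x)⁻¹)) = x⁻¹ * z := by group
    rwa [e5] at e4
  constructor
  · exact h6.transv (forall₂_blocks_conj hg R)
  · refine h.2.trans ?_
    rw [isConj_iff]
    refine ⟨x⁻¹ * z, ?_⟩
    have e := blocks_conj (x⁻¹ * z)⁻¹ R
    rw [inv_inv] at e
    simp only [List.map_cons, List.prod_cons, e, Block.val]
    group

/-- number of commutator blocks -/
def ncomm : List (Block F) → ℕ
  | [] => 0
  | Block.sq _ :: bl => ncomm bl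
  | Block.comm _ _ :: bl => ncomm bl + 1

theorem ncomm_append (bl bl' : List (Block F)) : ncomm (bl ++ bl') = ncomm bl + ncomm bl' := by
  induction bl with
  | nil => simp [ncomm]
  | cons B bl ih => cases B <;> simp only [List.cons_append, ncomm, ih] <;> omega

theorem ncomm_conj (g : F) (bl : List (Block F)) : ncomm (bl.map (Block.conj g)) = ncomm bl := by
  induction bl with
  | nil => rfl
  | cons B bl ih => cases B <;> simp only [List.map_cons, Block.conj, ncomm, ih]

theorem ncomm_eq_zero {bl : List (Block F)} (h : ncomm bl = 0) :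
    ∀ B ∈ bl, ∃ z, B = Block.sq z := by
  induction bl with
  | nil => simp
  | cons B bl ih =>
    cases B with
    | sq z =>
      intro B hB
      rcases List.mem_cons.1 hB with rfl | hB
      · exact ⟨z, rfl⟩
      · exact ih h B hB
    | comm x y => simp [ncomm] at h

theorem exists_comm {bl : List (Block F)} (h : ncomm bl ≠ 0) :
    ∃ pre x y post, bl = pre ++ Block.comm x y :: post := by
  induction bl with
  | nil => simp [ncomm] at h
  | cons B bl ih =>
    cases B with
    | sq z =>
      obtain ⟨pre, x, y, post, rfl⟩ := ih h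
      exact ⟨Block.sq z :: pre, x, y, post, rfl⟩
    | comm x y => exact ⟨[], x, y, bl, rfl⟩

theorem SL.all_sq {ω : F} : ∀ (n : ℕ) (bl : List (Block F)), SL ω bl → ncomm bl = n →
    (∃ z, Block.sq z ∈ bl) → ∃ bl', SL ω bl' ∧ ∀ B ∈ bl', ∃ z, B = Block.sq z := by
  intro n
  induction n with
  | zero => intro bl h hn _; exact ⟨bl, h, ncomm_eq_zero hn⟩
  | succ n ih =>
    intro bl h hn hsq
    obtain ⟨z, hz⟩ := hsq
    obtain ⟨pre, post, rfl⟩ := List.append_of_mem hz
    have h1 := h.front
    have hn1 : ncomm (pre.map (Block.conj ((Block.sq z).val)⁻¹) ++ post) = n + 1 := by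
      rw [ncomm_append, ncomm] at hn
      rw [ncomm_append, ncomm_conj, hn]
    obtain ⟨pre', x, y, post', hsplit⟩ := exists_comm (by rw [hn1]; omega)
    rw [hsplit] at h1 hn1
    have h2 : SL ω ((Block.sq z :: pre') ++ Block.comm x y :: post') := h1
    have h3 := h2.front
    rw [List.map_cons, List.cons_append] at h3
    have h4 := SL.dyck h3
    refine ih _ h4 ?_ ⟨_, List.mem_cons_self⟩
    simp only [ncomm, ncomm_conj, ncomm_append] at hn1 ⊢
    omega

theorem Surface.normal {ω : F} (h : Surface ω) :
    (∃ bl, SL ω bl ∧ ∀ B ∈ bl, ∃ x y, B = Block.comm x y) ∨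
    (∃ bl, SL ω bl ∧ ∀ B ∈ bl, ∃ z, B = Block.sq z) := by
  obtain ⟨bl, h1, h2⟩ := h
  by_cases hsq : ∃ z, Block.sq z ∈ bl
  · exact Or.inr (SL.all_sq _ bl ⟨h1, h2⟩ rfl hsq)
  · left
    refine ⟨bl, ⟨h1, h2⟩, ?_⟩
    intro B hB
    cases B with
    | sq z => exact absurd ⟨z, hB⟩ hsq
    | comm x y => exact ⟨x, y, rfl⟩

end H35.Tape
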