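import Mathlib
import Pool.Agent.H35.Tape.Multi2
import Pool.Agent.H35.Tape.SL2
import Pool.Agent.H35.Tape.Surf

/-!
# Elements with the tameness property are surface elements
-/

set_option linter.unusedSectionVars false

namespace H35.Tape

section single

variable {F : Type} [Group F] {ω : F} {r q N k s : ℕ} {b : Fin r → F} {c : Fin k → F}
    {u : Option (Fin k) → List (Fin r × Bool)} {bb : Fin s → F} {wb : List (Fin s × Bool)}
    {bl : List (Block F)}

theorem not_good_single (hT : TProp ω) (hnp : ¬ IsPrim ω) (hs : ¬ Surface ω)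
    (h : Good ω r q N k s b c u bb wb bl) (hk : k = 0) (hs0 : s = 0) (hbl : bl = [])
    (hN : 2 ≤ N) : False := by
  subst hk
  subst hs0
  subst hbl
  have hq : q = 0 := by rw [← h.hq]; rfl
  have hr : 2 ≤ r := by have := h.hN; omega
  have hwb : wb = [] := h.wb_nil rfl
  subst hwb
  have hcyc := h.cyc none
  have h1 := h.rig1 hT hnp hs
  have h2 := h.rig2 hT hnp hs
  have hr1 : Rig1 (fun _ : Unit => u none) := by
    intro t₁ t₂ c hc
    refine h1 (none, t₁.2) (none, t₂.2) c ?_
    intro j i a b hab hj1 hj2
    cases j with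
    | none =>
      refine hc () i a b hab ?_ ?_
      · rintro rfl; exact hj1 rfl
      · rintro rfl; exact hj2 rfl
    | some j => exact j.elim0
  have hr2 : Rig2 (fun _ : Unit => u none) := by
    intro t ε c hc
    refine h2 (none, t.2) ε c ?_
    intro j i a b hab hj ha hb
    cases j with
    | none =>
      refine hc () i a b hab ?_ ha hb
      rintro rfl; exact hj rfl
    | some j => exact j.elim0
  have hB : IsB b := by
    have h3 := h.form.basis
    simp only [List.ofFn_zero, List.flatMap_nil, List.append_nil] at h3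
    exact (Lists.ofFn b).isB h3
  let E := MulEquiv.ofBijective (FreeGroup.lift b) hB
  have h4 := h.form.conj
  simp only [List.ofFn_zero, List.prod_nil, ev_nil, List.map_nil, mul_one] at h4
  have h5 := (hT.conj h4).map E.symm
  have h6 : E.symm (ev b (u none)) = FreeGroup.mk (u none) := by
    rw [MulEquiv.symm_apply_eq]
    rfl
  rw [h6] at h5
  exact not_TProp_single (u none) hcyc hr1 hr2 ⟨⟨0, by omega⟩, ⟨1, by omega⟩, by simp⟩ h5

theorem surface_of_hasForm (hT : TProp ω) (hnp : ¬ IsPrim ω) {N r₀ q₀ : ℕ} (hN : 2 ≤ N)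
    (hr₀ : 1 ≤ r₀) (h : HasForm ω N r₀ q₀) : Surface ω := by
  by_contra hs
  obtain ⟨r, q, k, s, b, c, u, bb, wb, bl, hg⟩ := exists_good hr₀ h
  by_cases hne : k ≠ 0 ∨ s ≠ 0 ∨ bl ≠ []
  · exact not_good_multi hT hnp hs hg hne
  · push Not at hne
    exact not_good_single hT hnp hs hg hne.1 hne.2.1 hne.2.2 hN

end single

theorem isB_of (n : ℕ) : IsB (fun i : Fin n => FreeGroup.of i) := by
  have : FreeGroup.lift (fun i : Fin n => FreeGroup.of i) = MonoidHom.id _ := by
    ext i; simp
  unfold IsB
  rw [this]
  exact Function.bijective_id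

theorem hasForm_self {n : ℕ} (ω : FreeGroup (Fin n)) : HasForm ω n n 0 := by
  have hb : IsBasis (List.ofFn (fun i : Fin n => FreeGroup.of i) ++ []) := by
    rw [isBasis_ofFn_append_iff]
    have hemp : IsEmpty (Fin ([] : List (FreeGroup (Fin n))).length) :=
      inferInstanceAs (IsEmpty (Fin 0))
    have h1 := (isB_of n).comp_equiv (Equiv.sumEmpty (Fin n) (Fin ([] : List (FreeGroup (Fin n))).length))
    have h2 : ((fun i : Fin n => FreeGroup.of i) ∘ (Equiv.sumEmpty (Fin n)
        (Fin ([] : List (FreeGroup (Fin n))).length))) =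
        Sum.elim (fun i : Fin n => FreeGroup.of i)
          (fun i : Fin ([] : List (FreeGroup (Fin n))).length => ([] : List (FreeGroup (Fin n))).get i) := by
      funext x
      rcases x with x | x
      · rfl
      · exact x.elim0
    rw [h2] at h1
    exact h1
  refine ⟨List.ofFn (fun i : Fin n => FreeGroup.of i), ω, [], ⟨?_, ?_, by simp, ?_⟩, by simp,
    by simp, by simp⟩
  · rw [lets_nil]; exact hb
  · have : cl (List.ofFn (fun i : Fin n => FreeGroup.of i)) = ⊤ := by
      rw [eq_top_iff, ← FreeGroup.closure_range_of]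
      refine (Subgroup.closure_le _).2 ?_
      rintro _ ⟨i, rfl⟩
      exact mem_cl_of_mem (by rw [List.mem_ofFn]; exact ⟨i, rfl⟩)
    rw [this]
    trivial
  · simp only [pval_nil, mul_one]
    exact IsConj.refl ω

/-- Elements with the tameness property which are not primitive are surface elements. -/
theorem surface_of_TProp {n : ℕ} (hn : 2 ≤ n) {ω : FreeGroup (Fin n)} (hT : TProp ω)
    (hnp : ¬ IsPrim ω) : Surface ω :=
  surface_of_hasForm hT hnp hn (by omega) (hasForm_self ω)

theorem rank_eq {α β : Type} [Fintype α] [Fintype β] (e : FreeGroup α ≃* FreeGroup β) :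
    Fintype.card α = Fintype.card β := by
  classical
  have e1 : (α → Multiplicative (ZMod 2)) ≃ (β → Multiplicative (ZMod 2)) :=
    (FreeGroup.lift.trans
      { toFun := fun f : FreeGroup α →* Multiplicative (ZMod 2) => f.comp e.symm.toMonoidHom
        invFun := fun f => f.comp e.toMonoidHom
        left_inv := fun f => by ext x; simp
        right_inv := fun f => by ext x; simp }).trans FreeGroup.lift.symm
  have h1 := Fintype.card_congr e1
  rw [Fintype.card_fun, Fintype.card_fun] at h1
  have h2 : Fintype.card (Multiplicative (ZMod 2)) = 2 := rfl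
  rw [h2] at h1
  exact Nat.pow_right_injective le_rfl h1

/-- `[a_1,b_1]⋯[a_g,b_g]` -/
def uWord (g : ℕ) : FreeGroup (Fin g ⊕ Fin g) :=
  (List.ofFn fun i : Fin g => FreeGroup.of (Sum.inl i) * FreeGroup.of (Sum.inr i) *
    (FreeGroup.of (Sum.inl i))⁻¹ * (FreeGroup.of (Sum.inr i))⁻¹).prod

/-- `c_1²⋯c_p²` -/
def vWord (p : ℕ) : FreeGroup (Fin p) := (List.ofFn fun i : Fin p => FreeGroup.of i ^ 2).prod

theorem perm_comm {F : Type} [Group F] : ∀ {g : ℕ} (f h : Fin g → F),
    ((List.ofFn fun i => Block.comm (f i) (h i)).flatMap Block.letters).Perm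
      (List.ofFn f ++ List.ofFn h) := by
  intro g
  induction g with
  | zero => intro f h; simp
  | succ g ih =>
    intro f h
    rw [List.ofFn_succ, List.ofFn_succ, List.ofFn_succ, List.flatMap_cons]
    have h1 := ih (fun i => f i.succ) (fun i => h i.succ)
    refine (List.Perm.append_left _ h1).trans ?_
    simp only [Block.letters]
    classical
    rw [List.perm_iff_count]
    intro a
    simp only [List.count_append, List.count_cons, List.count_nil, List.nil_append,
      List.append_nil]
    omega

theorem flat_sq {F : Type} [Group F] : ∀ {p : ℕ} (f : Fin p → F),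
    ((List.ofFn fun i => Block.sq (f i)).flatMap Block.letters) = List.ofFn f := by
  intro p
  induction p with
  | zero => intro f; simp
  | succ p ih =>
    intro f
    rw [List.ofFn_succ, List.ofFn_succ, List.flatMap_cons, ih]
    rfl

theorem exists_ofFn_comm {F : Type} [Group F] (bl : List (Block F))
    (hall : ∀ B ∈ bl, ∃ x y, B = Block.comm x y) :
    ∃ (g : ℕ) (f h : Fin g → F), bl = List.ofFn fun i => Block.comm (f i) (h i) := by
  have h1 : ∀ i : Fin bl.length, ∃ x y, bl.get i = Block.comm x y := fun i =>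
    hall _ (List.get_mem bl i)
  choose f h hfh using h1
  refine ⟨bl.length, f, h, ?_⟩
  conv_lhs => rw [← List.ofFn_get bl]
  congr 1
  funext i
  exact hfh i

theorem exists_ofFn_sq {F : Type} [Group F] (bl : List (Block F))
    (hall : ∀ B ∈ bl, ∃ x, B = Block.sq x) :
    ∃ (p : ℕ) (f : Fin p → F), bl = List.ofFn fun i => Block.sq (f i) := by
  have h1 : ∀ i : Fin bl.length, ∃ x, bl.get i = Block.sq x := fun i =>
    hall _ (List.get_mem bl i)
  choose f hf using h1
  refine ⟨bl.length, f, ?_⟩
  conv_lhs => rw [← List.ofFn_get bl]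
  congr 1
  funext i
  exact hf i

theorem exists_equiv_of_conj {G F : Type} [Group G] [Group F] (E : G ≃* F) {x : G} {ω : F}
    (h : IsConj ω (E x)) : ∃ e : G ≃* F, e x = ω := by
  obtain ⟨c, hc⟩ := isConj_iff.1 h
  refine ⟨E.trans (MulAut.conj c⁻¹), ?_⟩
  rw [MulEquiv.trans_apply, MulAut.conj_apply, ← hc]
  group

theorem classification {n : ℕ} (hn : 2 ≤ n) {ω : FreeGroup (Fin n)} (hT : TProp ω)
    (hnp : ¬ IsPrim ω) :
    (∃ g : ℕ, 1 ≤ g ∧ n = 2 * g ∧
      ∃ e : FreeGroup (Fin g ⊕ Fin g) ≃* FreeGroup (Fin n), e (uWord g) = ω) ∨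
    ∃ e : FreeGroup (Fin n) ≃* FreeGroup (Fin n), e (vWord n) = ω := by
  rcases (surface_of_TProp hn hT hnp).normal with ⟨bl, ⟨hb, hc⟩, hall⟩ | ⟨bl, ⟨hb, hc⟩, hall⟩
  · left
    obtain ⟨g, f, h, rfl⟩ := exists_ofFn_comm bl hall
    have hB : IsB (Sum.elim f h) :=
      (Lists.append (Lists.ofFn f) (Lists.ofFn h)).isB (hb.perm (perm_comm f h))
    let E := MulEquiv.ofBijective (FreeGroup.lift (Sum.elim f h)) hB
    have hE : E (uWord g) = ((List.ofFn fun i => Block.comm (f i) (h i)).map Block.val).prod := by
      change FreeGroup.lift (Sum.elim f h) (uWord g) = _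
      rw [uWord, map_list_prod, List.map_ofFn, List.map_ofFn]
      congr 2
      funext i
      simp [Block.val]
    have hrank := rank_eq E
    simp only [Fintype.card_sum, Fintype.card_fin] at hrank
    refine ⟨g, by omega, by omega, ?_⟩
    rw [← hE] at hc
    exact exists_equiv_of_conj E hc
  · right
    obtain ⟨p, f, rfl⟩ := exists_ofFn_sq bl hall
    rw [flat_sq] at hb
    have hB : IsB f := (Lists.ofFn f).isB hb
    let E := MulEquiv.ofBijective (FreeGroup.lift f) hB
    have hE : E (vWord p) = ((List.ofFn fun i => Block.sq (f i)).map Block.val).prod := by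
      change FreeGroup.lift f (vWord p) = _
      rw [vWord, map_list_prod, List.map_ofFn, List.map_ofFn]
      congr 2
      funext i
      simp [Block.val, sq]
    have hrank := rank_eq E
    simp only [Fintype.card_fin] at hrank
    subst hrank
    rw [← hE] at hc
    exact exists_equiv_of_conj E hc

end H35.Tape
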